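import Pool.Agent.Lib.MP_ad0d06_co.Gen

open Complex ComplexConjugate

noncomputable section

namespace Ext7

/-! scaling -/

/-- division of a finite set by a number -/
def sc (a : ℂ) (A : Finset ℂ) : Finset ℂ := A.image (fun x => x / a)

theorem mem_sc {a : ℂ} (ha : a ≠ 0) {A : Finset ℂ} {z : ℂ} : z ∈ sc a A ↔ a * z ∈ A := by
  unfold sc
  constructor
  · intro h
    obtain ⟨x, hx, rfl⟩ := Finset.mem_image.1 h
    rwa [mul_div_cancel₀ _ ha]
  · intro h
    exact Finset.mem_image.2 ⟨a * z, h, by rw [mul_div_cancel_left₀ _ ha]⟩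

theorem HasSym.scale {A B : Set ℂ} {a : ℂ} (ha : a ≠ 0) (hB : ∀ z, z ∈ B ↔ a * z ∈ A)
    (h : HasSym A) : HasSym B := by
  obtain ⟨g, hg, hA⟩ := h
  have e1 : ∀ z : ℂ, a * (z / a) = z := fun z => mul_div_cancel₀ _ ha
  let e : ℂ ≃ ℂ :=
    { toFun := fun z => g (a * z) / a
      invFun := fun z => g.symm (a * z) / a
      left_inv := fun z => by
        show g.symm (a * (g (a * z) / a)) / a = z
        rw [e1, g.symm_apply_apply, mul_div_cancel_left₀ _ ha]
      right_inv := fun z => by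
        show g (a * (g.symm (a * z) / a)) / a = z
        rw [e1, g.apply_symm_apply, mul_div_cancel_left₀ _ ha] }
  have he : ∀ z, e z = g (a * z) / a := fun z => rfl
  have hi : Isometry e := by
    apply Isometry.of_dist_eq
    intro x y
    rw [he, he, dist_eq_norm, ← sub_div, norm_div, ← dist_eq_norm, g.dist_eq, dist_eq_norm,
      ← mul_sub, norm_mul, dist_eq_norm, mul_div_cancel_left₀ _ (norm_ne_zero_iff.2 ha)]
  refine ⟨IsometryEquiv.mk e hi, ?_, ?_⟩
  · intro h1
    apply hg
    ext z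
    have h2 : e (z / a) = z / a := by
      have : (IsometryEquiv.mk e hi) (z / a) = (1 : ℂ ≃ᵢ ℂ) (z / a) := by rw [h1]
      exact this
    rw [he, e1, div_left_inj' ha] at h2
    exact h2
  · intro z
    show e z ∈ B ↔ z ∈ B
    rw [hB, hB, he, e1]
    exact hA (a * z)

theorem Cfg.sc {Y M : Finset ℂ} (h : Cfg Y M) {a : ℂ} (ha : a ≠ 0) :
    Cfg (Ext7.sc a Y) (Ext7.sc a M) := by
  refine ⟨?_, fun T hT => ?_⟩
  · rw [Finset.disjoint_left]
    intro z hz hz'
    exact (Finset.disjoint_left.1 h.disj) ((mem_sc ha).1 hz) ((mem_sc ha).1 hz')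
  · refine HasSym.scale (a := a) (A := ↑(Y ∪ Ext7.sc a⁻¹ T)) ha ?_ (h.sym _ ?_)
    · intro z
      simp only [Finset.coe_union, Set.mem_union, Finset.mem_coe, mem_sc ha,
        mem_sc (inv_ne_zero ha)]
      rw [inv_mul_cancel_left₀ ha]
    · intro x hx
      have h1 := (mem_sc (inv_ne_zero ha)).1 hx
      have h2 := (mem_sc ha).1 (hT h1)
      rwa [mul_inv_cancel_left₀ ha] at h2

theorem rf_scale {a : ℂ} (ha : a ≠ 0) (w z : ℂ) : a * rf w z = rf (a * w) (a * z) := by
  unfold rf
  rw [map_mul, map_mul]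
  have h1 : conj a ≠ 0 := (map_ne_zero _).2 ha
  by_cases hw : w = 0
  · simp [hw]
  · have h2 : conj w ≠ 0 := (map_ne_zero _).2 hw
    field_simp

theorem RSym.sc {Y : Finset ℂ} {a w : ℂ} (ha : a ≠ 0) (h : RSym Y (a * w)) :
    RSym (Ext7.sc a Y) w := by
  intro z
  rw [mem_sc ha, mem_sc ha, rf_scale ha]
  exact h (a * z)

/-! reflections as isometries -/

theorem rf_rf {w : ℂ} (hw : w ≠ 0) (z : ℂ) : rf w (rf w z) = z := by
  unfold rf
  have h1 : conj w ≠ 0 := (map_ne_zero _).2 hw
  rw [map_mul, map_div₀, conj_conj, conj_conj]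
  field_simp

theorem IsSED.rfix {A : Finset ℂ} {o w : ℂ} {R : ℝ} (h : IsSED A o R) (hw : w ≠ 0)
    (hs : RSym A w) : rf w o = o := by
  let e : ℂ ≃ ℂ :=
    { toFun := rf w
      invFun := rf w
      left_inv := rf_rf hw
      right_inv := rf_rf hw }
  have hi : Isometry e := by
    apply Isometry.of_dist_eq
    intro x y
    show dist (rf w x) (rf w y) = dist x y
    rw [dist_eq_norm, ← rf_sub]
    unfold rf
    rw [norm_mul, norm_div, norm_conj, norm_conj, div_self (norm_ne_zero_iff.2 hw), one_mul,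
      dist_eq_norm]
  exact h.fix (g := IsometryEquiv.mk e hi) hs

theorem sed_mk {Y : Finset ℂ} {c : ℂ} {D : ℝ} (hle : ∀ x ∈ Y, ‖x - c‖ ^ 2 ≤ D)
    (hu : ∀ u : ℂ, ∃ x ∈ Y, ‖x - c‖ ^ 2 = D ∧ ((x - c) * conj u).re ≤ 0) :
    IsSED Y c (Real.sqrt D) := by
  refine ⟨fun x hx => Real.le_sqrt_of_sq_le (hle x hx), fun u => ?_⟩
  obtain ⟨x, hx, h1, h2⟩ := hu u
  refine ⟨x, hx, ?_, h2⟩
  rw [← h1, Real.sqrt_sq (norm_nonneg _)]

theorem nsq_sub (x : ℂ) (c : ℝ) : ‖x - (c : ℂ)‖ ^ 2 = x.re ^ 2 + x.im ^ 2 - 2 * c * x.re + c ^ 2 := by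
  rw [nsq]
  simp only [sub_re, sub_im, ofReal_re, ofReal_im]
  ring

theorem pp {F W Y : Finset ℂ} {c R : ℝ} (h : Cfg F W) (hY1 : F ⊆ Y) (hY2 : Y ⊆ F ∪ W)
    (hs : IsSED Y (c : ℂ) R) {a b : ℂ} (ha : a ∈ W) (hb : b ∈ W) (haY : a ∉ Y) (hbY : b ∉ Y)
    (hai : a.im = 0) (hbi : b.im ≠ 0) (hac : a.re ≠ c)
    (hne : a.re ^ 2 - 2 * c * a.re ≠ b.re ^ 2 + b.im ^ 2 - 2 * c * b.re)
    (ha' : ‖a - (c : ℂ)‖ ≤ R) (hb' : ‖b - (c : ℂ)‖ ≤ R) : False := by
  have hcfg : Cfg Y {a, b} := by
    refine h.sub hY1 hY2 ?_ ?_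
    · intro x hx
      simp only [Finset.mem_insert, Finset.mem_singleton] at hx
      rcases hx with rfl | rfl <;> assumption
    · rw [Finset.disjoint_left]
      intro x hx hx2
      simp only [Finset.mem_insert, Finset.mem_singleton] at hx2
      rcases hx2 with rfl | rfl
      · exact haY hx
      · exact hbY hx
  have h1 := pair_gen hcfg hs (by
    intro w hw
    simp only [Finset.mem_insert, Finset.mem_singleton] at hw
    rcases hw with rfl | rfl <;> assumption) (a := a) (b := b) (by simp) (by simp) (by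
      intro e
      apply hne
      have e2 : ‖a - (c : ℂ)‖ ^ 2 = ‖b - (c : ℂ)‖ ^ 2 := by rw [e]
      rw [nsq_sub, nsq_sub, hai] at e2
      linarith) (by
      intro e
      apply hac
      rw [e]; simp) (by
      intro e
      apply hbi
      rw [e]; simp)
  rw [im_mul_conj] at h1
  simp only [sub_re, sub_im, ofReal_re, ofReal_im, hai, sub_zero, zero_mul, zero_sub,
    neg_eq_zero, mul_eq_zero] at h1
  rcases h1 with h1 | h1
  · exact hac (by linarith)
  · exact hbi h1

theorem om_coord {ω : ℂ} (ho : ω ^ 2 + ω + 1 = 0) : ω.re = -1 / 2 ∧ ω.im ^ 2 = 3 / 4 := by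
  have h1 := congrArg Complex.re ho
  have h2 := congrArg Complex.im ho
  simp only [sq, add_re, add_im, mul_re, mul_im, one_re, one_im, zero_re, zero_im] at h1 h2
  have h3 : ω.im * (2 * ω.re + 1) = 0 := by linarith
  have h4 : ω.im ≠ 0 := by
    intro e
    rw [e] at h1
    nlinarith [sq_nonneg (ω.re + 1 / 2)]
  have h5 : 2 * ω.re + 1 = 0 := (mul_eq_zero.1 h3).resolve_left h4
  have h6 : ω.re = -1 / 2 := by linarith
  refine ⟨h6, ?_⟩
  rw [h6] at h1
  nlinarith

theorem alpha1 {F W : Finset ℂ} {ω : ℂ} {κ : ℝ} (ho : ω ^ 2 + ω + 1 = 0)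
    (hc : conj ω = ω ^ 2) (hκ : 1 < |κ|)
    (hW : W = {0, 1, ω, conj ω, (κ : ℂ), (κ : ℂ) * ω, (κ : ℂ) * conj ω})
    (h : Cfg F W) (hF : ∀ x ∈ F, ‖x‖ < |κ|) (h1 : RSym F 1) (h2 : RSym F ω) : False := by
  classical
  obtain ⟨hre, him⟩ := om_coord ho
  have him0 : ω.im ≠ 0 := by
    intro e
    rw [e] at him; norm_num at him
  have hω0 : ω ≠ 0 := by
    intro e
    rw [e] at him0; exact him0 rfl
  have hκ2 : 1 < κ ^ 2 := by
    rw [← sq_abs]; nlinarith [abs_nonneg κ]
  have hκ0 : κ ≠ 0 := by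
    rintro rfl
    norm_num at hκ2
  have r1 : ((κ : ℂ) * ω).re = -κ / 2 := by
    rw [re_ofReal_mul, hre]; ring
  have r2 : ((κ : ℂ) * conj ω).re = -κ / 2 := by
    rw [re_ofReal_mul, conj_re, hre]; ring
  have i1 : ((κ : ℂ) * ω).im = κ * ω.im := by
    rw [im_ofReal_mul]
  have i2 : ((κ : ℂ) * conj ω).im = -(κ * ω.im) := by
    rw [im_ofReal_mul, conj_im]; ring
  have hFW : ∀ x ∈ W, x ∉ F := fun x hx hxF => Finset.disjoint_left.1 h.disj hxF hx
  have m0 : (0 : ℂ) ∈ W := by rw [hW]; simp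
  have m1 : (1 : ℂ) ∈ W := by rw [hW]; simp
  have mω : ω ∈ W := by rw [hW]; simp
  have mω' : conj ω ∈ W := by rw [hW]; simp
  have mk1 : (κ : ℂ) * ω ∈ W := by rw [hW]; simp
  have mk2 : (κ : ℂ) * conj ω ∈ W := by rw [hW]; simp
  set G : Finset ℂ := F ∪ {(κ : ℂ) * ω, (κ : ℂ) * conj ω} with hG
  have memG : ∀ x, x ∈ G ↔ x ∈ F ∨ x = (κ : ℂ) * ω ∨ x = (κ : ℂ) * conj ω := by
    intro x; simp only [hG, Finset.mem_union, Finset.mem_insert, Finset.mem_singleton]
  have rf1 : ∀ z, rf 1 z = conj z := fun z => by unfold rf; simp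
  have hGsym : RSym G 1 := by
    intro z
    rw [rf1, memG, memG, ← rf1, h1 z, rf1]
    have e1 : conj z = (κ : ℂ) * ω ↔ z = (κ : ℂ) * conj ω := by
      rw [← (starRingEnd ℂ).injective.eq_iff, conj_conj, map_mul, conj_ofReal]
    have e2 : conj z = (κ : ℂ) * conj ω ↔ z = (κ : ℂ) * ω := by
      rw [← (starRingEnd ℂ).injective.eq_iff, conj_conj, map_mul, conj_ofReal, conj_conj]
    rw [e1, e2]
    tauto
  obtain ⟨o, R, hs⟩ := exists_sed G ⟨(κ : ℂ) * ω, by rw [memG]; simp⟩
  have hoc : conj o = o := by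
    have := hs.rfix one_ne_zero hGsym
    rwa [rf1] at this
  obtain ⟨c, rfl⟩ : ∃ c : ℝ, o = (c : ℂ) := by
    refine ⟨o.re, ?_⟩
    apply Complex.ext
    · simp
    · have := congrArg Complex.im hoc
      rw [conj_im] at this
      rw [ofReal_im]; linarith
  have nk1 : ∀ t : ℝ, ‖(κ : ℂ) * ω - (t : ℂ)‖ ^ 2 = κ ^ 2 + κ * t + t ^ 2 := by
    intro t
    rw [nsq_sub, r1, i1]
    linear_combination κ ^ 2 * him
  have nk2 : ∀ t : ℝ, ‖(κ : ℂ) * conj ω - (t : ℂ)‖ ^ 2 = κ ^ 2 + κ * t + t ^ 2 := by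
    intro t
    rw [nsq_sub, r2, i2]
    linear_combination κ ^ 2 * him
  have nω : ∀ t : ℝ, ‖ω - (t : ℂ)‖ ^ 2 = 1 + t + t ^ 2 := by
    intro t
    rw [nsq_sub, hre]
    linear_combination him
  have nω' : ∀ t : ℝ, ‖conj ω - (t : ℂ)‖ ^ 2 = 1 + t + t ^ 2 := by
    intro t
    rw [nsq_sub, conj_re, conj_im, hre]
    linear_combination him
  have n1 : ∀ t : ℝ, ‖(1 : ℂ) - (t : ℂ)‖ ^ 2 = 1 - 2 * t + t ^ 2 := by
    intro t
    rw [nsq_sub, one_re, one_im]; ring
  have n0 : ∀ t : ℝ, ‖(0 : ℂ) - (t : ℂ)‖ ^ 2 = t ^ 2 := by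
    intro t
    rw [nsq_sub, zero_re, zero_im]; ring
  have hR0 := hs.nonneg
  -- the two points are on the circle
  have hR : R ^ 2 = κ ^ 2 + κ * c + c ^ 2 := by
    by_contra hne
    have hFs : IsSED F (c : ℂ) R := by
      refine ⟨fun x hx => hs.1 x ((memG x).2 (Or.inl hx)), fun u => ?_⟩
      obtain ⟨x, hx, h3, h4⟩ := hs.2 u
      rcases (memG x).1 hx with h5 | rfl | rfl
      · exact ⟨x, h5, h3, h4⟩
      · exact absurd (by rw [← h3, nk1]) hne
      · exact absurd (by rw [← h3, nk2]) hne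
    have e1 := hFs.rfix hω0 h2
    have hc0 : c = 0 := by
      unfold rf at e1
      rw [conj_ofReal, div_mul_eq_mul_div, div_eq_iff ((map_ne_zero _).2 hω0)] at e1
      have e2 := congrArg Complex.im e1
      rw [mul_comm ω, im_ofReal_mul, im_ofReal_mul, conj_im] at e2
      have e3 : c * ω.im = 0 := by linarith
      exact (mul_eq_zero.1 e3).resolve_right him0
    obtain ⟨x, hx, h3, -⟩ := hFs.2 0
    rw [hc0, ofReal_zero, sub_zero] at h3
    have h4 := hF x hx
    have h5 := hs.1 ((κ : ℂ) * ω) ((memG _).2 (Or.inr (Or.inl rfl)))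
    have h6 := nk1 c
    rw [hc0] at h5 h6
    have h7 : ‖(κ : ℂ) * ω - ((0 : ℝ) : ℂ)‖ ^ 2 ≤ R ^ 2 := by
      have := norm_nonneg ((κ : ℂ) * ω - ((0 : ℝ) : ℂ)); gcongr
    rw [h6] at h7
    have h8 : R ^ 2 < |κ| ^ 2 := by
      rw [h3] at h4; gcongr
    rw [sq_abs] at h8
    linarith
  have hcc : 2 * c ^ 2 + κ * c ≤ 0 := by
    have h3 := hs.le (o' := 0) (R' := |κ|) (by
      intro x hx
      rw [sub_zero]
      rcases (memG x).1 hx with h5 | rfl | rfl
      · exact (hF x h5).le
      · have := nk1 0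
        simp only [ofReal_zero, sub_zero, mul_zero, add_zero] at this
        have e : ‖(κ : ℂ) * ω‖ ^ 2 = |κ| ^ 2 := by rw [this, sq_abs]; ring
        exact le_of_sq_le_sq e.le (abs_nonneg _)
      · have := nk2 0
        simp only [ofReal_zero, sub_zero, mul_zero, add_zero] at this
        have e : ‖(κ : ℂ) * conj ω‖ ^ 2 = |κ| ^ 2 := by rw [this, sq_abs]; ring
        exact le_of_sq_le_sq e.le (abs_nonneg _))
    rw [n0, sq_abs, hR] at h3
    linarith
  have hc0 : c ≠ 0 := by
    intro e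
    obtain ⟨x, hx, h3, h4⟩ := hs.2 (-(κ : ℂ))
    rw [e] at h3 h4 hR
    rw [ofReal_zero, sub_zero] at h3 h4
    rcases (memG x).1 hx with h5 | rfl | rfl
    · have h6 := hF x h5
      rw [h3] at h6
      have h8 : R ^ 2 < |κ| ^ 2 := by gcongr
      rw [sq_abs] at h8
      linarith
    · rw [re_mul_conj, r1, i1] at h4
      simp only [neg_re, neg_im, ofReal_re, ofReal_im] at h4
      nlinarith
    · rw [re_mul_conj, r2, i2] at h4
      simp only [neg_re, neg_im, ofReal_re, ofReal_im] at h4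
      nlinarith
  have hFx : ∀ x ∈ F, x.re ^ 2 + x.im ^ 2 - κ ^ 2 ≤ c * (κ + 2 * x.re) ∧
      x.re ^ 2 + x.im ^ 2 < κ ^ 2 := by
    intro x hx
    constructor
    · have h3 := hs.1 x ((memG x).2 (Or.inl hx))
      have h4 : ‖x - (c : ℂ)‖ ^ 2 ≤ R ^ 2 := by
        have := norm_nonneg (x - (c : ℂ)); gcongr
      rw [nsq_sub, hR] at h4
      linarith
    · have h3 := hF x hx
      have h4 : ‖x‖ ^ 2 < |κ| ^ 2 := by
        have := norm_nonneg x; gcongr
      rw [nsq, sq_abs] at h4
      linarith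
  have inD : ∀ t : ℝ, (∃ l : ℝ, 0 ≤ l ∧ l ≤ 1 ∧ t = l * c) → ∀ x ∈ F,
      ‖x - (t : ℂ)‖ ^ 2 ≤ κ ^ 2 + κ * t + t ^ 2 := by
    rintro t ⟨l, hl0, hl1, rfl⟩ x hx
    obtain ⟨h3, h4⟩ := hFx x hx
    rw [nsq_sub]
    nlinarith
  have hin : ∀ (x : ℂ) (t : ℝ), ‖x - (t : ℂ)‖ ^ 2 ≤ κ ^ 2 + κ * t + t ^ 2 →
      ‖x - (t : ℂ)‖ ≤ Real.sqrt (κ ^ 2 + κ * t + t ^ 2) := fun x t hx => Real.le_sqrt_of_sq_le hx
  have hRs : R = Real.sqrt (κ ^ 2 + κ * c + c ^ 2) := by
    rw [← hR, Real.sqrt_sq hR0]
  have hG1 : F ⊆ G := Finset.subset_union_left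
  have hG2 : G ⊆ F ∪ W := by
    intro x hx
    rcases (memG x).1 hx with h5 | rfl | rfl
    · exact Finset.mem_union_left _ h5
    · exact Finset.mem_union_right _ mk1
    · exact Finset.mem_union_right _ mk2
  have z0G : (0 : ℂ) ∉ G := by
    intro h3
    rcases (memG _).1 h3 with h5 | h5 | h5
    · exact hFW _ m0 h5
    · have := congrArg Complex.im h5
      rw [i1, zero_im] at this
      exact (mul_ne_zero hκ0 him0) this.symm
    · have := congrArg Complex.im h5
      rw [i2, zero_im] at this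
      exact (mul_ne_zero hκ0 him0) (by linarith)
  have z1G : (1 : ℂ) ∉ G := by
    intro h3
    rcases (memG _).1 h3 with h5 | h5 | h5
    · exact hFW _ m1 h5
    · have := congrArg Complex.im h5
      rw [i1, one_im] at this
      exact (mul_ne_zero hκ0 him0) this.symm
    · have := congrArg Complex.im h5
      rw [i2, one_im] at this
      exact (mul_ne_zero hκ0 him0) (by linarith)
  have hk1 : κ ≠ 1 := by rintro rfl; norm_num at hκ2
  have hk2 : κ ≠ -1 := by rintro rfl; norm_num at hκ2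
  have zωG : ω ∉ G := by
    intro h3
    rcases (memG _).1 h3 with h5 | h5 | h5
    · exact hFW _ mω h5
    · have := congrArg Complex.im h5
      rw [i1] at this
      have h6 : ω.im * (κ - 1) = 0 := by linarith
      exact hk1 (by linarith [(mul_eq_zero.1 h6).resolve_left him0])
    · have := congrArg Complex.im h5
      rw [i2] at this
      have h6 : ω.im * (κ + 1) = 0 := by linarith
      exact hk2 (by linarith [(mul_eq_zero.1 h6).resolve_left him0])
  have zω'G : conj ω ∉ G := by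
    intro h3
    rcases (memG _).1 h3 with h5 | h5 | h5
    · exact hFW _ mω' h5
    · have := congrArg Complex.im h5
      rw [i1, conj_im] at this
      have h6 : ω.im * (κ + 1) = 0 := by linarith
      exact hk2 (by linarith [(mul_eq_zero.1 h6).resolve_left him0])
    · have := congrArg Complex.im h5
      rw [i2, conj_im] at this
      have h6 : ω.im * (κ - 1) = 0 := by linarith
      exact hk1 (by linarith [(mul_eq_zero.1 h6).resolve_left him0])
  rcases lt_or_gt_of_ne hκ0 with hneg | hpos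
  · -- κ < -1
    have hκm : κ < -1 := by nlinarith
    have hcpos : 0 < c := by
      by_contra hcon
      push Not at hcon
      have : c < 0 := lt_of_le_of_ne hcon hc0
      nlinarith
    have hcle : 2 * c + κ ≤ 0 := by
      by_contra hcon
      push Not at hcon
      nlinarith
    have in1 : 1 - 2 * c + c ^ 2 ≤ κ ^ 2 + κ * c + c ^ 2 := by nlinarith
    by_cases hcase : κ + 1 + c ≤ 0
    · have inω : 1 + c + c ^ 2 ≤ κ ^ 2 + κ * c + c ^ 2 := by nlinarith
      have in0 : c ^ 2 ≤ κ ^ 2 + κ * c + c ^ 2 := by nlinarith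
      by_cases hc1 : c = 1
      · refine pp h hG1 hG2 hs m0 mω z0G zωG zero_im him0 ?_ ?_ ?_ ?_
        · rw [zero_re]; exact hc0.symm
        · rw [zero_re, hre, him, hc1]; norm_num
        · rw [hRs]; exact hin _ _ (by rw [n0]; exact in0)
        · rw [hRs]; exact hin _ _ (by rw [nω]; exact inω)
      · refine pp h hG1 hG2 hs m1 mω z1G zωG one_im him0 ?_ ?_ ?_ ?_
        · rw [one_re]; exact fun e => hc1 e.symm
        · rw [one_re, hre, him]
          intro e
          apply hc0
          linarith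
        · rw [hRs]; exact hin _ _ (by rw [n1]; exact in1)
        · rw [hRs]; exact hin _ _ (by rw [nω]; exact inω)
    · push Not at hcase
      -- centre c4 = -κ - 1
      set t : ℝ := -κ - 1 with ht
      have ht0 : 0 < t := by linarith
      have htc : t < c := by linarith
      have hk2' : -2 < κ := by linarith
      set Y : Finset ℂ := F ∪ {(κ : ℂ) * ω, (κ : ℂ) * conj ω, ω} with hY
      have memY : ∀ x, x ∈ Y ↔ x ∈ F ∨ x = (κ : ℂ) * ω ∨ x = (κ : ℂ) * conj ω ∨ x = ω := by
        intro x; simp only [hY, Finset.mem_union, Finset.mem_insert, Finset.mem_singleton]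
      have eqω : (1 : ℝ) + t + t ^ 2 = κ ^ 2 + κ * t + t ^ 2 := by rw [ht]; ring
      have hsY : IsSED Y (t : ℂ) (Real.sqrt (κ ^ 2 + κ * t + t ^ 2)) := by
        apply sed_mk
        · intro x hx
          rcases (memY x).1 hx with h5 | rfl | rfl | rfl
          · exact inD t ⟨t / c, by positivity, by rw [div_le_one hcpos]; exact htc.le,
              by field_simp⟩ x h5
          · rw [nk1]
          · rw [nk2]
          · rw [nω, eqω]
        · intro u
          by_contra hcon
          push Not at hcon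
          have q1 := hcon _ ((memY _).2 (Or.inr (Or.inl rfl))) (nk1 t)
          have q2 := hcon _ ((memY _).2 (Or.inr (Or.inr (Or.inl rfl)))) (nk2 t)
          have q3 := hcon _ ((memY _).2 (Or.inr (Or.inr (Or.inr rfl)))) ((nω t).trans eqω)
          rw [re_mul_conj] at q1 q2 q3
          simp only [sub_re, sub_im, ofReal_re, ofReal_im, sub_zero, r1, i1, r2, i2, hre] at q1 q2 q3
          -- weights
          have w3 : 0 < 1 + κ / 2 := by linarith
          have w1 : 0 < (-κ - 1 / 2) * (-κ) + (1 + κ / 2) := by nlinarith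
          have w2 : 0 < (-κ - 1 / 2) * (-κ) - (1 + κ / 2) := by nlinarith
          have p1 := mul_pos w1 q1
          have p2 := mul_pos w2 q2
          have p3 := mul_pos (mul_pos (by linarith : (0 : ℝ) < -2 * κ) w3) q3
          have : ((-κ - 1 / 2) * (-κ) + (1 + κ / 2)) * ((-κ / 2 - t) * u.re + κ * ω.im * u.im) +
              ((-κ - 1 / 2) * (-κ) - (1 + κ / 2)) * ((-κ / 2 - t) * u.re + -(κ * ω.im) * u.im) +
              -2 * κ * (1 + κ / 2) * ((-1 / 2 - t) * u.re + ω.im * u.im) = 0 := by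
            rw [ht]; ring
          linarith
      refine pp (Y := Y) h Finset.subset_union_left ?_ hsY m0 mω' ?_ ?_ zero_im
        (by rw [conj_im]; exact neg_ne_zero.2 him0) ?_ ?_ ?_ ?_
      · intro x hx
        rcases (memY x).1 hx with h5 | rfl | rfl | rfl
        · exact Finset.mem_union_left _ h5
        · exact Finset.mem_union_right _ mk1
        · exact Finset.mem_union_right _ mk2
        · exact Finset.mem_union_right _ mω
      · intro h3
        rcases (memY _).1 h3 with h5 | h5 | h5 | h5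
        · exact z0G ((memG _).2 (Or.inl h5))
        · exact z0G ((memG _).2 (Or.inr (Or.inl h5)))
        · exact z0G ((memG _).2 (Or.inr (Or.inr h5)))
        · exact hω0 h5.symm
      · intro h3
        rcases (memY _).1 h3 with h5 | h5 | h5 | h5
        · exact zω'G ((memG _).2 (Or.inl h5))
        · exact zω'G ((memG _).2 (Or.inr (Or.inl h5)))
        · exact zω'G ((memG _).2 (Or.inr (Or.inr h5)))
        · have := congrArg Complex.im h5
          rw [conj_im] at this
          exact him0 (by linarith)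
      · rw [zero_re]; exact ht0.ne
      · rw [zero_re, conj_re, conj_im, hre, neg_sq, him]
        intro e
        linarith
      · exact hin _ _ (by rw [n0]; nlinarith)
      · exact hin _ _ (by rw [nω', eqω])
  · -- κ > 1
    have hκm : 1 < κ := by nlinarith
    have hcneg : c < 0 := by
      by_contra hcon
      push Not at hcon
      have : 0 < c := lt_of_le_of_ne hcon hc0.symm
      nlinarith
    have hcle : 0 ≤ 2 * c + κ := by
      by_contra hcon
      push Not at hcon
      nlinarith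
    have inω : 1 + c + c ^ 2 ≤ κ ^ 2 + κ * c + c ^ 2 := by nlinarith
    have in0 : c ^ 2 ≤ κ ^ 2 + κ * c + c ^ 2 := by nlinarith
    by_cases hcase : 1 - 2 * c + c ^ 2 ≤ κ ^ 2 + κ * c + c ^ 2
    · refine pp h hG1 hG2 hs m1 mω z1G zωG one_im him0 ?_ ?_ ?_ ?_
      · rw [one_re]; intro e; linarith
      · rw [one_re, hre, him]
        intro e
        apply hc0
        linarith
      · rw [hRs]; exact hin _ _ (by rw [n1]; exact hcase)
      · rw [hRs]; exact hin _ _ (by rw [nω]; exact inω)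
    · push Not at hcase
      by_cases hc1 : c = -1
      · set t : ℝ := -(κ ^ 2 - 1) / (κ + 2) with ht
        have hk2p : 0 < κ + 2 := by linarith
        have htk : t * (κ + 2) = -(κ ^ 2 - 1) := by rw [ht]; field_simp
        have ht0 : t < 0 := by
          by_contra hcon
          push Not at hcon
          nlinarith
        have htc : -1 < t := by
          by_contra hcon
          push Not at hcon
          rw [hc1] at hcase
          nlinarith
        have hk2' : 2 ≤ κ := by linarith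
        set Y : Finset ℂ := F ∪ {(κ : ℂ) * ω, (κ : ℂ) * conj ω, 1} with hY
        have memY : ∀ x, x ∈ Y ↔ x ∈ F ∨ x = (κ : ℂ) * ω ∨ x = (κ : ℂ) * conj ω ∨ x = 1 := by
          intro x; simp only [hY, Finset.mem_union, Finset.mem_insert, Finset.mem_singleton]
        have eq1 : (1 : ℝ) - 2 * t + t ^ 2 = κ ^ 2 + κ * t + t ^ 2 := by linarith
        have hsY : IsSED Y (t : ℂ) (Real.sqrt (κ ^ 2 + κ * t + t ^ 2)) := by
          apply sed_mk
          · intro x hx
            rcases (memY x).1 hx with h5 | rfl | rfl | rfl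
            · exact inD t ⟨-t, by linarith, by linarith, by rw [hc1]; ring⟩ x h5
            · rw [nk1]
            · rw [nk2]
            · rw [n1, eq1]
          · intro u
            by_contra hcon
            push Not at hcon
            have q1 := hcon _ ((memY _).2 (Or.inr (Or.inl rfl))) (nk1 t)
            have q2 := hcon _ ((memY _).2 (Or.inr (Or.inr (Or.inl rfl)))) (nk2 t)
            have q3 := hcon _ ((memY _).2 (Or.inr (Or.inr (Or.inr rfl)))) ((n1 t).trans eq1)
            rw [re_mul_conj] at q1 q2 q3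
            simp only [sub_re, sub_im, ofReal_re, ofReal_im, sub_zero, r1, i1, r2, i2, one_re,
              one_im] at q1 q2 q3
            have w1 : 0 < 1 - t := by linarith
            have w3 : 0 < κ + 2 * t := by linarith
            have p1 := mul_pos w1 q1
            have p2 := mul_pos w1 q2
            have p3 := mul_pos w3 q3
            have : (1 - t) * ((-κ / 2 - t) * u.re + κ * ω.im * u.im) +
                (1 - t) * ((-κ / 2 - t) * u.re + -(κ * ω.im) * u.im) +
                (κ + 2 * t) * ((1 - t) * u.re + 0 * u.im) = 0 := by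
              ring
            linarith
        refine pp (Y := Y) h Finset.subset_union_left ?_ hsY m0 mω ?_ ?_ zero_im him0 ?_ ?_ ?_ ?_
        · intro x hx
          rcases (memY x).1 hx with h5 | rfl | rfl | rfl
          · exact Finset.mem_union_left _ h5
          · exact Finset.mem_union_right _ mk1
          · exact Finset.mem_union_right _ mk2
          · exact Finset.mem_union_right _ m1
        · intro h3
          rcases (memY _).1 h3 with h5 | h5 | h5 | h5
          · exact z0G ((memG _).2 (Or.inl h5))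
          · exact z0G ((memG _).2 (Or.inr (Or.inl h5)))
          · exact z0G ((memG _).2 (Or.inr (Or.inr h5)))
          · exact zero_ne_one h5
        · intro h3
          rcases (memY _).1 h3 with h5 | h5 | h5 | h5
          · exact zωG ((memG _).2 (Or.inl h5))
          · exact zωG ((memG _).2 (Or.inr (Or.inl h5)))
          · exact zωG ((memG _).2 (Or.inr (Or.inr h5)))
          · rw [h5] at him0
            exact him0 rfl
        · rw [zero_re]; exact ht0.ne'
        · rw [zero_re, hre, him]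
          intro e
          linarith
        · exact hin _ _ (by rw [n0]; nlinarith)
        · exact hin _ _ (by rw [nω]; nlinarith)
      · refine pp h hG1 hG2 hs m0 mω z0G zωG zero_im him0 ?_ ?_ ?_ ?_
        · rw [zero_re]; exact hc0.symm
        · rw [zero_re, hre, him]
          intro e
          exact hc1 (by linarith)
        · rw [hRs]; exact hin _ _ (by rw [n0]; exact in0)
        · rw [hRs]; exact hin _ _ (by rw [nω]; exact inω)

theorem alpha {F W : Finset ℂ} {a ω : ℂ} {κ : ℝ} (ha : a ≠ 0) (ho : ω ^ 2 + ω + 1 = 0)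
    (hc : conj ω = ω ^ 2) (hκ : 1 < |κ|)
    (hW : W = {0, a, ω * a, ω ^ 2 * a, (κ : ℂ) * a, (κ : ℂ) * (ω * a), (κ : ℂ) * (ω ^ 2 * a)})
    (h : Cfg F W) (hF : ∀ x ∈ F, ‖x‖ < |κ| * ‖a‖) (h1 : RSym F a) (h2 : RSym F (ω * a))
    (_h3 : RSym F (ω ^ 2 * a)) : False := by
  refine alpha1 (F := sc a F) (W := sc a W) (ω := ω) (κ := κ) ho hc hκ ?_ (h.sc ha) ?_ ?_ ?_
  · ext x
    rw [mem_sc ha, hW]
    simp only [Finset.mem_insert, Finset.mem_singleton]
    have e0 : a * x = 0 ↔ x = 0 := by rw [mul_eq_zero]; simp [ha]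
    have e1 : ∀ y : ℂ, a * x = y * a ↔ x = y := by
      intro y
      rw [mul_comm a x, mul_left_inj' ha]
    have e2 : a * x = a ↔ x = 1 := by
      have := e1 1
      rwa [one_mul] at this
    rw [e0, e2, e1, e1, e1, ← mul_assoc, ← mul_assoc, e1, e1, hc]
  · intro x hx
    have h4 := hF _ ((mem_sc ha).1 hx)
    rw [norm_mul, mul_comm] at h4
    exact lt_of_mul_lt_mul_right h4 (norm_nonneg _)
  · exact RSym.sc ha (by rwa [mul_one])
  · exact RSym.sc ha (by rwa [mul_comm a ω])

end Ext7
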