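import Mathlib

/-!
Common definitions for MP_ad0d06_co (distinguishing extension number of the plane).
-/

open Complex ComplexConjugate

noncomputable section

namespace Ext7

/-- `A` is invariant under an isometry of the plane other than the identity. -/
def HasSym (A : Set ℂ) : Prop := ∃ g : ℂ ≃ᵢ ℂ, g ≠ 1 ∧ ∀ z, g z ∈ A ↔ z ∈ A

/-- the points of `W` lie on a line -/
def Lin (W : Set ℂ) : Prop := ∃ p v : ℂ, v ≠ 0 ∧ ∀ w ∈ W, ((w - p) * conj v).im = 0

/-- the map `g` changes membership in `A` for finitely many points only -/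
def AI (A : Set ℂ) (g : ℂ → ℂ) : Prop := {z | ¬ (g z ∈ A ↔ z ∈ A)}.Finite

/-- explicit form of the isometries of the plane -/
theorem form (g : ℂ ≃ᵢ ℂ) : ∃ a b : ℂ, ‖a‖ = 1 ∧
    ((∀ z, g z = a * z + b) ∨ (∀ z, g z = a * conj z + b)) := by
  let g' : ℂ ≃ᵃⁱ[ℝ] ℂ := g.toRealAffineIsometryEquiv
  have h1 : ∀ z, g z = g'.linearIsometryEquiv z + g 0 := by
    intro z
    have h := g'.map_vadd 0 z
    simp only [vadd_eq_add, add_zero] at h
    exact h
  obtain ⟨a, ha⟩ := linear_isometry_complex g'.linearIsometryEquiv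
  refine ⟨(a : ℂ), g 0, Circle.norm_coe a, ?_⟩
  rcases ha with ha | ha
  · left
    intro z
    rw [h1 z, ha]
    simp [rotation_apply]
  · right
    intro z
    rw [h1 z, ha]
    simp [rotation_apply]

theorem iso_ne_one {g : ℂ ≃ᵢ ℂ} (hg : g ≠ 1) : ∃ z, g z ≠ z := by
  by_contra h
  push Not at h
  exact hg (by ext z; exact h z)

/-- an isometry fixing `o` -/
theorem form_fix (g : ℂ ≃ᵢ ℂ) (o : ℂ) (h : g o = o) : ∃ a : ℂ, a * conj a = 1 ∧
    ((∀ z, g z = o + a * (z - o)) ∨ (∀ z, g z = o + a * conj (z - o))) := by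
  obtain ⟨a, b, ha, hab⟩ := form g
  refine ⟨a, by rw [mul_conj, normSq_eq_norm_sq, ha]; simp, ?_⟩
  rcases hab with hab | hab
  · left
    intro z
    have h2 := hab o
    rw [h] at h2
    rw [hab z]
    linear_combination -h2
  · right
    intro z
    have h2 := hab o
    rw [h] at h2
    rw [hab z, map_sub]
    linear_combination -h2

/-- the base `Y` with free points `M`: every `Y ∪ T`, `T ⊆ M`, has a symmetry -/
structure Cfg (Y M : Finset ℂ) : Prop where
  disj : Disjoint Y M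
  sym : ∀ T ⊆ M, HasSym (↑(Y ∪ T) : Set ℂ)

theorem Cfg.sub {Y M : Finset ℂ} (h : Cfg Y M) {Z N : Finset ℂ} (hY : Y ⊆ Z) (hZ : Z ⊆ Y ∪ M)
    (hN : N ⊆ M) (hd : Disjoint Z N) : Cfg Z N := by
  refine ⟨hd, fun T hT => ?_⟩
  have h1 := h.sym ((Z \ Y) ∪ T) (by
    intro x hx
    rcases Finset.mem_union.1 hx with hx | hx
    · obtain ⟨h1, h2⟩ := Finset.mem_sdiff.1 hx
      rcases Finset.mem_union.1 (hZ h1) with h3 | h3
      · exact absurd h3 h2
      · exact h3
    · exact hN (hT hx))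
  have h2 : Y ∪ ((Z \ Y) ∪ T) = Z ∪ T := by
    ext x
    simp only [Finset.mem_union, Finset.mem_sdiff]
    constructor
    · rintro (h | ⟨h, -⟩ | h)
      · exact Or.inl (hY h)
      · exact Or.inl h
      · exact Or.inr h
    · rintro (h | h)
      · by_cases h3 : x ∈ Y
        · exact Or.inl h3
        · exact Or.inr (Or.inl ⟨h, h3⟩)
      · exact Or.inr (Or.inr h)
  rwa [h2] at h1

/-- translation of a finite set -/
def tr (o : ℂ) (A : Finset ℂ) : Finset ℂ := A.image (fun x => x - o)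

theorem mem_tr {o : ℂ} {A : Finset ℂ} {z : ℂ} : z ∈ tr o A ↔ z + o ∈ A := by
  unfold tr
  constructor
  · intro h
    obtain ⟨x, hx, rfl⟩ := Finset.mem_image.1 h
    simpa using hx
  · intro h
    exact Finset.mem_image.2 ⟨z + o, h, by ring⟩

theorem HasSym.translate {A B : Set ℂ} {o : ℂ} (hB : ∀ z, z ∈ B ↔ z + o ∈ A) (h : HasSym A) :
    HasSym B := by
  obtain ⟨g, hg, hA⟩ := h
  let t : ℂ ≃ᵢ ℂ := IsometryEquiv.addRight o
  have ht : ∀ z, t z = z + o := fun z => rfl
  have ht' : ∀ z, t⁻¹ z = z - o := fun z => by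
    show t.symm z = z - o
    rw [t.symm_apply_eq, ht]
    ring
  refine ⟨t⁻¹ * g * t, ?_, ?_⟩
  · intro h1
    apply hg
    have : g = t * (t⁻¹ * g * t) * t⁻¹ := by group
    rw [this, h1]
    group
  · intro z
    have h2 : (t⁻¹ * g * t) z = g (z + o) - o := by
      show t⁻¹ (g (t z)) = _
      rw [ht', ht]
    rw [h2, hB, hB]
    rw [sub_add_cancel]
    exact hA (z + o)

theorem Cfg.tr {Y M : Finset ℂ} (h : Cfg Y M) (o : ℂ) : Cfg (Ext7.tr o Y) (Ext7.tr o M) := by
  refine ⟨?_, fun T hT => ?_⟩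
  · rw [Finset.disjoint_left]
    intro z hz hz'
    exact (Finset.disjoint_left.1 h.disj) (mem_tr.1 hz) (mem_tr.1 hz')
  · refine HasSym.translate (o := o) (A := ↑(Y ∪ Ext7.tr (-o) T)) ?_ (h.sym _ ?_)
    · intro z
      simp only [Finset.coe_union, Set.mem_union, Finset.mem_coe, mem_tr]
      rw [add_neg_cancel_right]
    · intro x hx
      have h1 := mem_tr.1 hx
      have h2 := mem_tr.1 (hT h1)
      simpa using h2

/-- three points of a circle about `0` form an isosceles triangle -/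
def Iso3 (a b c : ℂ) : Prop := a ^ 2 = b * c ∨ b ^ 2 = a * c ∨ c ^ 2 = a * b

end Ext7
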