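import Pool.Agent.Lib.MP_ad0d06_co.Base

/-!
Six points of a circle: the separation lemma (MP_ad0d06_co, module Circ).
-/

open Complex ComplexConjugate

noncomputable section

namespace Ext7

namespace Circ

/-- the linear functional in polar form -/
def ff (p q θ : ℝ) : ℝ := p * Real.cos θ + q * Real.sin θ

/-- twice the oriented area of a triangle of the unit circle -/
def DD (a b c : ℝ) : ℝ :=
  (Real.cos b - Real.cos a) * (Real.sin c - Real.sin a) -
    (Real.sin b - Real.sin a) * (Real.cos c - Real.cos a)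

theorem DD_eq (a b c : ℝ) :
    DD a b c = 4 * Real.sin ((b - a) / 2) * Real.sin ((c - b) / 2) * Real.sin ((c - a) / 2) := by
  have e1 : Real.sin b - Real.sin a = 2 * Real.sin ((b - a) / 2) * Real.cos ((b + a) / 2) :=
    Real.sin_sub_sin b a
  have e2 : Real.cos b - Real.cos a = -2 * Real.sin ((b + a) / 2) * Real.sin ((b - a) / 2) :=
    Real.cos_sub_cos b a
  have e3 : Real.sin c - Real.sin a = 2 * Real.sin ((c - a) / 2) * Real.cos ((c + a) / 2) :=
    Real.sin_sub_sin c a
  have e4 : Real.cos c - Real.cos a = -2 * Real.sin ((c + a) / 2) * Real.sin ((c - a) / 2) :=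
    Real.cos_sub_cos c a
  have e5 : Real.sin ((c - b) / 2) =
      Real.sin ((c + a) / 2) * Real.cos ((b + a) / 2) -
        Real.cos ((c + a) / 2) * Real.sin ((b + a) / 2) := by
    rw [← Real.sin_sub]
    congr 1
    ring
  unfold DD
  rw [e1, e2, e3, e4, e5]
  ring

theorem DD_pos {a b c : ℝ} (h1 : a < b) (h2 : b < c) (h3 : c < a + 2 * Real.pi) : 0 < DD a b c := by
  rw [DD_eq]
  have s1 : 0 < Real.sin ((b - a) / 2) :=
    Real.sin_pos_of_pos_of_lt_pi (by linarith) (by linarith)
  have s2 : 0 < Real.sin ((c - b) / 2) :=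
    Real.sin_pos_of_pos_of_lt_pi (by linarith) (by linarith)
  have s3 : 0 < Real.sin ((c - a) / 2) :=
    Real.sin_pos_of_pos_of_lt_pi (by linarith) (by linarith)
  positivity

theorem dep (p q a b c d : ℝ) :
    DD b c d * ff p q a + DD a b d * ff p q c = DD a c d * ff p q b + DD a b c * ff p q d := by
  unfold DD ff
  ring

/-- chords `ac` and `bd` cross, so no line separates them -/
theorem cross {p q a b c d : ℝ} (h1 : a < b) (h2 : b < c) (h3 : c < d)
    (h4 : d < a + 2 * Real.pi) (fa : ff p q a ≤ 0) (fc : ff p q c ≤ 0) (fb : 0 < ff p q b)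
    (fd : 0 < ff p q d) : False := by
  have hd := dep p q a b c d
  have d1 := DD_pos h2 h3 (by linarith)
  have d2 := DD_pos h1 (h2.trans h3) h4
  have d3 := DD_pos (h1.trans h2) h3 h4
  have d4 := DD_pos h1 h2 (by linarith)
  have m1 := mul_nonneg d1.le (neg_nonneg.2 fa)
  have m2 := mul_nonneg d2.le (neg_nonneg.2 fc)
  have m3 := mul_pos d3 fb
  have m4 := mul_pos d4 fd
  linarith

theorem cross' {p q a b c d : ℝ} (h1 : a < b) (h2 : b < c) (h3 : c < d)
    (h4 : d < a + 2 * Real.pi) (fb : ff p q b ≤ 0) (fd : ff p q d ≤ 0) (fa : 0 < ff p q a)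
    (fc : 0 < ff p q c) : False := by
  have hd := dep p q a b c d
  have d1 := DD_pos h2 h3 (by linarith)
  have d2 := DD_pos h1 (h2.trans h3) h4
  have d3 := DD_pos (h1.trans h2) h3 h4
  have d4 := DD_pos h1 h2 (by linarith)
  have m1 := mul_pos d1 fa
  have m2 := mul_pos d2 fc
  have m3 := mul_nonneg d3.le (neg_nonneg.2 fb)
  have m4 := mul_nonneg d4.le (neg_nonneg.2 fd)
  linarith

/-- the point with the polar angle `θ` -/
def pt (R θ : ℝ) : ℂ := R * exp (θ * I)

theorem pt_re (R θ : ℝ) (u : ℂ) : (pt R θ * conj u).re = R * ff u.re u.im θ := by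
  unfold pt ff
  rw [exp_mul_I, ← ofReal_cos, ← ofReal_sin]
  simp only [mul_re, mul_im, add_re, add_im, ofReal_re, ofReal_im, conj_re, conj_im, I_re, I_im]
  ring

theorem exp_eq {R : ℝ} (hR : 0 < R) {a b c : ℝ} (h : pt R a ^ 2 = pt R b * pt R c) :
    ∃ n : ℤ, 2 * a - b - c = n * (2 * Real.pi) := by
  have hR' : (R : ℂ) ≠ 0 := ofReal_ne_zero.2 hR.ne'
  have h1 : exp (2 * a * I) = exp ((b + c) * I) := by
    unfold pt at h
    have h2 : (R : ℂ) ^ 2 * exp (2 * a * I) = (R : ℂ) ^ 2 * exp ((b + c) * I) := by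
      have e1 : exp (2 * a * I) = exp (a * I) ^ 2 := by
        rw [← exp_nat_mul]
        congr 1
        push_cast
        ring
      have e2 : exp ((b + c) * I) = exp (b * I) * exp (c * I) := by
        rw [← exp_add]
        congr 1
        ring
      rw [e1, e2]
      linear_combination h
    exact mul_left_cancel₀ (pow_ne_zero 2 hR') h2
  obtain ⟨n, hn⟩ := exp_eq_exp_iff_exists_int.1 h1
  refine ⟨n, ?_⟩
  have h3 : ((2 * a - b - c : ℝ) : ℂ) * I = ((n * (2 * Real.pi) : ℝ) : ℂ) * I := by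
    push_cast
    linear_combination hn
  exact_mod_cast mul_right_cancel₀ I_ne_zero h3

theorem int_zero {n : ℤ} {x : ℝ} (h : x = n * (2 * Real.pi)) (h1 : -(2 * Real.pi) < x)
    (h2 : x < 2 * Real.pi) : x = 0 := by
  have hp := Real.pi_pos
  have a1 : n < 1 := by
    by_contra hc
    push Not at hc
    have : (1 : ℝ) ≤ n := by exact_mod_cast hc
    nlinarith
  have a2 : -1 < n := by
    by_contra hc
    push Not at hc
    have : (n : ℝ) ≤ -1 := by exact_mod_cast hc
    nlinarith
  have : n = 0 := by omega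
  rw [h, this]
  simp

/-- the gaps of an isosceles triangle of the circle -/
theorem iso_gap {R : ℝ} (hR : 0 < R) {a b c : ℝ} (h1 : a < b) (h2 : b < c)
    (h3 : c < a + 2 * Real.pi) (h : Iso3 (pt R a) (pt R b) (pt R c)) :
    b - a = c - b ∨ b - a = 2 * Real.pi - (c - a) ∨ c - b = 2 * Real.pi - (c - a) := by
  have hp := Real.pi_pos
  rcases h with h | h | h
  · -- 2a - b - c = n 2π
    obtain ⟨n, hn⟩ := exp_eq hR h
    right; left
    have := int_zero (n := n + 1) (x := 2 * a - b - c + 2 * Real.pi) (by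
      push_cast; linarith) (by linarith) (by linarith)
    linarith
  · obtain ⟨n, hn⟩ := exp_eq hR h
    left
    have := int_zero hn (by linarith) (by linarith)
    linarith
  · obtain ⟨n, hn⟩ := exp_eq hR h
    right; right
    have := int_zero (n := n - 1) (x := 2 * c - a - b - 2 * Real.pi) (by
      push_cast; linarith) (by linarith) (by linarith)
    linarith

/-- four points of the circle, all triangles isosceles: all gaps are at least `2π/5` -/
theorem gap4 {x y z w s : ℝ} (hx : 0 < x) (hy : 0 < y) (hz : 0 < z) (hw : 0 < w)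
    (hs : x + y + z + w = s)
    (h1 : x = y ∨ x = z + w ∨ y = z + w)
    (h2 : y = z ∨ y = w + x ∨ z = w + x)
    (h3 : z = w ∨ z = x + y ∨ w = x + y)
    (h4 : w = x ∨ w = y + z ∨ x = y + z) :
    s / 5 ≤ x ∧ s / 5 ≤ y ∧ s / 5 ≤ z ∧ s / 5 ≤ w := by
  rcases h1 with h1 | h1 | h1 <;> rcases h2 with h2 | h2 | h2 <;> rcases h3 with h3 | h3 | h3 <;>
    rcases h4 with h4 | h4 | h4 <;> (refine ⟨?_, ?_, ?_, ?_⟩ <;> linarith)

/-- the gap lemma for angles -/
theorem gaps {R : ℝ} (hR : 0 < R) {a b c d : ℝ} (h1 : a < b) (h2 : b < c) (h3 : c < d)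
    (h4 : d < a + 2 * Real.pi) (i1 : Iso3 (pt R a) (pt R b) (pt R c))
    (i2 : Iso3 (pt R b) (pt R c) (pt R d)) (i3 : Iso3 (pt R a) (pt R c) (pt R d))
    (i4 : Iso3 (pt R a) (pt R b) (pt R d)) :
    2 * Real.pi / 5 ≤ b - a ∧ 2 * Real.pi / 5 ≤ c - b ∧ 2 * Real.pi / 5 ≤ d - c ∧
      2 * Real.pi / 5 ≤ a + 2 * Real.pi - d := by
  have g1 := iso_gap hR h1 h2 (by linarith) i1
  have g2 := iso_gap hR h2 h3 (by linarith) i2
  have g3 := iso_gap hR (h1.trans h2) h3 h4 i3
  have g4 := iso_gap hR h1 (h2.trans h3) h4 i4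
  refine gap4 (x := b - a) (y := c - b) (z := d - c) (w := a + 2 * Real.pi - d) (by linarith)
    (by linarith) (by linarith) (by linarith) (by ring) ?_ ?_ ?_ ?_
  · rcases g1 with g | g | g
    · left; linarith
    · right; left; linarith
    · right; right; linarith
  · rcases g2 with g | g | g
    · left; linarith
    · right; left; linarith
    · right; right; linarith
  · rcases g3 with g | g | g
    · right; left; linarith
    · right; right; linarith
    · left; linarith
  · rcases g4 with g | g | g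
    · right; right; linarith
    · left; linarith
    · right; left; linarith

/-- the points of `W` sorted by argument -/
theorem sorted (W : Finset ℂ) (R : ℝ) (hW : ∀ w ∈ W, ‖w‖ = R) (n : ℕ)
    (hc : W.card = n) : ∃ t : Fin n → ℝ, StrictMono t ∧ (∀ i j, t j < t i + 2 * Real.pi) ∧
      (∀ i, pt R (t i) ∈ W) ∧ (∀ w ∈ W, ∃ i, w = pt R (t i)) := by
  classical
  have hpt : ∀ w ∈ W, pt R (arg w) = w := by
    intro w hw
    unfold pt
    rw [← hW w hw]
    exact norm_mul_exp_arg_mul_I w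
  have hinj : Set.InjOn arg (W : Set ℂ) := by
    intro x hx y hy hxy
    rw [← hpt x hx, ← hpt y hy, hxy]
  have hcard : (W.image arg).card = n := by
    rw [Finset.card_image_of_injOn hinj, hc]
  let t := (W.image arg).orderEmbOfFin hcard
  have hmem : ∀ i, ∃ w ∈ W, arg w = t i := by
    intro i
    have := Finset.orderEmbOfFin_mem (W.image arg) hcard i
    obtain ⟨w, hw, h⟩ := Finset.mem_image.1 this
    exact ⟨w, hw, h⟩
  refine ⟨t, t.strictMono, ?_, ?_, ?_⟩
  · intro i j
    obtain ⟨w, hw, h⟩ := hmem i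
    obtain ⟨w', hw', h'⟩ := hmem j
    rw [← h, ← h']
    have := neg_pi_lt_arg w
    have := arg_le_pi w'
    linarith
  · intro i
    obtain ⟨w, hw, h⟩ := hmem i
    rw [← h, hpt w hw]
    exact hw
  · intro w hw
    have h1 : arg w ∈ W.image arg := Finset.mem_image_of_mem _ hw
    have h2 : Set.range t = (W.image arg : Set ℝ) := Finset.range_orderEmbOfFin _ hcard
    have h3 : arg w ∈ Set.range t := by rw [h2]; exact_mod_cast h1
    obtain ⟨i, hi⟩ := h3
    exact ⟨i, by rw [hi, hpt w hw]⟩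

theorem pt_ne {R : ℝ} (hR : 0 < R) {a b : ℝ} (h1 : a < b) (h2 : b < a + 2 * Real.pi) :
    pt R a ≠ pt R b := by
  intro h
  have h3 : pt R a ^ 2 = pt R a * pt R b := by rw [← h]; ring
  obtain ⟨n, hn⟩ := exp_eq hR h3
  have := int_zero hn (by linarith) (by linarith [Real.pi_pos])
  linarith

theorem ff_nonpos {R : ℝ} (hR : 0 < R) {θ : ℝ} {u : ℂ} (h : (pt R θ * conj u).re ≤ 0) :
    ff u.re u.im θ ≤ 0 := by
  rw [pt_re] at h
  by_contra hc
  push Not at hc
  have := mul_pos hR hc
  linarith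

theorem ff_pos {R : ℝ} (hR : 0 < R) {θ : ℝ} {u : ℂ} (h : 0 < (pt R θ * conj u).re) :
    0 < ff u.re u.im θ := by
  rw [pt_re] at h
  exact (mul_pos_iff_of_pos_left hR).1 h

end Circ

open Circ

theorem six_sep (W : Finset ℂ) (R : ℝ) (hR : 0 < R) (hW : ∀ w ∈ W, ‖w‖ = R) (hc : W.card = 6)
    (h : ∀ a ∈ W, ∀ b ∈ W, ∀ c ∈ W, a ≠ b → a ≠ c → b ≠ c →
      (¬ ∃ u : ℂ, (a * conj u).re ≤ 0 ∧ (b * conj u).re ≤ 0 ∧ (c * conj u).re ≤ 0 ∧
        ∀ x ∈ W, x ≠ a → x ≠ b → x ≠ c → 0 < (x * conj u).re) → Iso3 a b c) : False := by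
  obtain ⟨t, tm, tr, tW, -⟩ := sorted W R hW 6 hc
  have ne : ∀ i j : Fin 6, i ≠ j → pt R (t i) ≠ pt R (t j) := by
    intro i j hij
    rcases lt_or_gt_of_ne hij with h1 | h1
    · exact pt_ne hR (tm h1) (tr i j)
    · exact (pt_ne hR (tm h1) (tr j i)).symm
  have key : ∀ i j k : Fin 6, i ≠ j → i ≠ k → j ≠ k →
      (∀ u : ℂ, ff u.re u.im (t i) ≤ 0 → ff u.re u.im (t j) ≤ 0 → ff u.re u.im (t k) ≤ 0 →
        (∀ l, l ≠ i → l ≠ j → l ≠ k → 0 < ff u.re u.im (t l)) → False) →
      Iso3 (pt R (t i)) (pt R (t j)) (pt R (t k)) := by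
    intro i j k hij hik hjk hu
    refine h _ (tW i) _ (tW j) _ (tW k) (ne i j hij) (ne i k hik) (ne j k hjk) ?_
    rintro ⟨u, u1, u2, u3, u4⟩
    exact hu u (ff_nonpos hR u1) (ff_nonpos hR u2) (ff_nonpos hR u3) (fun l l1 l2 l3 =>
      ff_pos hR (u4 _ (tW l) (ne l i l1) (ne l j l2) (ne l k l3)))
  have c1 : ∀ (u : ℂ) (a b c d : Fin 6), a < b → b < c → c < d →
      ff u.re u.im (t a) ≤ 0 → ff u.re u.im (t c) ≤ 0 → 0 < ff u.re u.im (t b) →
      0 < ff u.re u.im (t d) → False := fun u a b c d h1 h2 h3 f1 f2 f3 f4 =>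
    cross (tm h1) (tm h2) (tm h3) (tr a d) f1 f2 f3 f4
  have c2 : ∀ (u : ℂ) (a b c d : Fin 6), a < b → b < c → c < d →
      ff u.re u.im (t b) ≤ 0 → ff u.re u.im (t d) ≤ 0 → 0 < ff u.re u.im (t a) →
      0 < ff u.re u.im (t c) → False := fun u a b c d h1 h2 h3 f1 f2 f3 f4 =>
    cross' (tm h1) (tm h2) (tm h3) (tr a d) f1 f2 f3 f4
  -- the twelve triples
  have i013 : Iso3 (pt R (t 0)) (pt R (t 1)) (pt R (t 3)) :=
    key 0 1 3 (by decide) (by decide) (by decide) (fun u u1 u2 u3 u4 =>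
      c1 u 1 2 3 4 (by decide) (by decide) (by decide) u2 u3
        (u4 2 (by decide) (by decide) (by decide)) (u4 4 (by decide) (by decide) (by decide)))
  have i134 : Iso3 (pt R (t 1)) (pt R (t 3)) (pt R (t 4)) :=
    key 1 3 4 (by decide) (by decide) (by decide) (fun u u1 u2 u3 u4 =>
      c2 u 0 1 2 3 (by decide) (by decide) (by decide) u1 u2
        (u4 0 (by decide) (by decide) (by decide)) (u4 2 (by decide) (by decide) (by decide)))
  have i034 : Iso3 (pt R (t 0)) (pt R (t 3)) (pt R (t 4)) :=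
    key 0 3 4 (by decide) (by decide) (by decide) (fun u u1 u2 u3 u4 =>
      c1 u 0 1 3 5 (by decide) (by decide) (by decide) u1 u2
        (u4 1 (by decide) (by decide) (by decide)) (u4 5 (by decide) (by decide) (by decide)))
  have i014 : Iso3 (pt R (t 0)) (pt R (t 1)) (pt R (t 4)) :=
    key 0 1 4 (by decide) (by decide) (by decide) (fun u u1 u2 u3 u4 =>
      c1 u 1 2 4 5 (by decide) (by decide) (by decide) u2 u3
        (u4 2 (by decide) (by decide) (by decide)) (u4 5 (by decide) (by decide) (by decide)))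
  have i124 : Iso3 (pt R (t 1)) (pt R (t 2)) (pt R (t 4)) :=
    key 1 2 4 (by decide) (by decide) (by decide) (fun u u1 u2 u3 u4 =>
      c1 u 2 3 4 5 (by decide) (by decide) (by decide) u2 u3
        (u4 3 (by decide) (by decide) (by decide)) (u4 5 (by decide) (by decide) (by decide)))
  have i245 : Iso3 (pt R (t 2)) (pt R (t 4)) (pt R (t 5)) :=
    key 2 4 5 (by decide) (by decide) (by decide) (fun u u1 u2 u3 u4 =>
      c2 u 1 2 3 4 (by decide) (by decide) (by decide) u1 u2
        (u4 1 (by decide) (by decide) (by decide)) (u4 3 (by decide) (by decide) (by decide)))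
  have i145 : Iso3 (pt R (t 1)) (pt R (t 4)) (pt R (t 5)) :=
    key 1 4 5 (by decide) (by decide) (by decide) (fun u u1 u2 u3 u4 =>
      c2 u 0 1 2 4 (by decide) (by decide) (by decide) u1 u2
        (u4 0 (by decide) (by decide) (by decide)) (u4 2 (by decide) (by decide) (by decide)))
  have i125 : Iso3 (pt R (t 1)) (pt R (t 2)) (pt R (t 5)) :=
    key 1 2 5 (by decide) (by decide) (by decide) (fun u u1 u2 u3 u4 =>
      c2 u 0 1 3 5 (by decide) (by decide) (by decide) u1 u3
        (u4 0 (by decide) (by decide) (by decide)) (u4 3 (by decide) (by decide) (by decide)))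
  have i023 : Iso3 (pt R (t 0)) (pt R (t 2)) (pt R (t 3)) :=
    key 0 2 3 (by decide) (by decide) (by decide) (fun u u1 u2 u3 u4 =>
      c1 u 0 1 2 4 (by decide) (by decide) (by decide) u1 u2
        (u4 1 (by decide) (by decide) (by decide)) (u4 4 (by decide) (by decide) (by decide)))
  have i235 : Iso3 (pt R (t 2)) (pt R (t 3)) (pt R (t 5)) :=
    key 2 3 5 (by decide) (by decide) (by decide) (fun u u1 u2 u3 u4 =>
      c2 u 0 2 4 5 (by decide) (by decide) (by decide) u1 u3
        (u4 0 (by decide) (by decide) (by decide)) (u4 4 (by decide) (by decide) (by decide)))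
  have i035 : Iso3 (pt R (t 0)) (pt R (t 3)) (pt R (t 5)) :=
    key 0 3 5 (by decide) (by decide) (by decide) (fun u u1 u2 u3 u4 =>
      c1 u 0 1 3 4 (by decide) (by decide) (by decide) u1 u2
        (u4 1 (by decide) (by decide) (by decide)) (u4 4 (by decide) (by decide) (by decide)))
  have i025 : Iso3 (pt R (t 0)) (pt R (t 2)) (pt R (t 5)) :=
    key 0 2 5 (by decide) (by decide) (by decide) (fun u u1 u2 u3 u4 =>
      c1 u 0 1 2 3 (by decide) (by decide) (by decide) u1 u2
        (u4 1 (by decide) (by decide) (by decide)) (u4 3 (by decide) (by decide) (by decide)))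
  have g1 := gaps hR (a := t 0) (b := t 1) (c := t 3) (d := t 4) (tm (by decide)) (tm (by decide))
    (tm (by decide)) (tr _ _) i013 i134 i034 i014
  have g2 := gaps hR (a := t 1) (b := t 2) (c := t 4) (d := t 5) (tm (by decide)) (tm (by decide))
    (tm (by decide)) (tr _ _) i124 i245 i145 i125
  have g3 := gaps hR (a := t 0) (b := t 2) (c := t 3) (d := t 5) (tm (by decide)) (tm (by decide))
    (tm (by decide)) (tr _ _) i023 i235 i035 i025
  have hp := Real.pi_pos
  linarith [g1.1, g1.2.2.1, g2.1, g2.2.2.1, g3.2.1, g3.2.2.2]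

theorem four_half (W : Finset ℂ) (R : ℝ) (hR : 0 < R) (hW : ∀ w ∈ W, ‖w‖ = R) (hc : W.card = 4)
    (h : ∀ a ∈ W, ∀ b ∈ W, ∀ c ∈ W, a ≠ b → a ≠ c → b ≠ c → Iso3 a b c) (u : ℂ)
    (hu : ∀ w ∈ W, 0 < (w * conj u).re) : False := by
  obtain ⟨t, tm, tr, tW, -⟩ := sorted W R hW 4 hc
  have ne : ∀ i j : Fin 4, i ≠ j → pt R (t i) ≠ pt R (t j) := by
    intro i j hij
    rcases lt_or_gt_of_ne hij with h1 | h1
    · exact pt_ne hR (tm h1) (tr i j)
    · exact (pt_ne hR (tm h1) (tr j i)).symm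
  have key : ∀ i j k : Fin 4, i ≠ j → i ≠ k → j ≠ k →
      Iso3 (pt R (t i)) (pt R (t j)) (pt R (t k)) := fun i j k h1 h2 h3 =>
    h _ (tW i) _ (tW j) _ (tW k) (ne i j h1) (ne i k h2) (ne j k h3)
  have g := gaps hR (a := t 0) (b := t 1) (c := t 2) (d := t 3) (tm (by decide)) (tm (by decide))
    (tm (by decide)) (tr _ _) (key 0 1 2 (by decide) (by decide) (by decide))
    (key 1 2 3 (by decide) (by decide) (by decide)) (key 0 2 3 (by decide) (by decide) (by decide))
    (key 0 1 3 (by decide) (by decide) (by decide))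
  have hf : ∀ i, 0 < ff u.re u.im (t i) := fun i => ff_pos hR (hu _ (tW i))
  have hp := Real.pi_pos
  obtain ⟨g1, g2, g3, g4⟩ := g
  have dep3 : ∀ a b c : ℝ, Real.sin (c - b) * ff u.re u.im a +
      Real.sin (a + 2 * Real.pi - c) * ff u.re u.im b + Real.sin (b - a) * ff u.re u.im c = 0 := by
    intro a b c
    have : Real.sin (a + 2 * Real.pi - c) = Real.sin (a - c) := by
      rw [← Real.sin_add_two_pi (a - c)]
      congr 1
      ring
    rw [this]
    unfold ff
    simp only [Real.sin_sub]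
    ring
  have fin : ∀ i j k : Fin 4, t i < t j → t j < t k → t j - t i ≤ Real.pi → t k - t j < Real.pi →
      t i + 2 * Real.pi - t k ≤ Real.pi → t k < t i + 2 * Real.pi → False := by
    intro i j k h1 h2 h3 h4 h5 h6
    have e := dep3 (t i) (t j) (t k)
    have s1 : 0 < Real.sin (t k - t j) :=
      Real.sin_pos_of_pos_of_lt_pi (by linarith) (by linarith)
    have s2 : 0 ≤ Real.sin (t i + 2 * Real.pi - t k) :=
      Real.sin_nonneg_of_nonneg_of_le_pi (by linarith) (by linarith)
    have s3 : 0 ≤ Real.sin (t j - t i) :=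
      Real.sin_nonneg_of_nonneg_of_le_pi (by linarith) (by linarith)
    have m1 := mul_pos s1 (hf i)
    have m2 := mul_nonneg s2 (hf j).le
    have m3 := mul_nonneg s3 (hf k).le
    linarith
  rcases le_total (t 2 - t 0) Real.pi with hle | hle
  · exact fin 0 2 3 (tm (by decide)) (tm (by decide)) (by linarith) (by linarith) (by linarith)
      (tr _ _)
  · exact fin 0 1 2 (tm (by decide)) (tm (by decide)) (by linarith) (by linarith) (by linarith)
      (tr _ _)

end Ext7
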