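import Pool.Agent.Lib.MP_ad0d06_co.TypesD

open Complex ComplexConjugate

noncomputable section

namespace Ext7

theorem comb3 {α β1 β2 : Prop} (H : ∀ s1 s2 s3 : Bool,
    ((s1 = true ↔ s2 = true) ∧ (s2 = true ↔ α)) ∨
    ((s2 = true ↔ α) ∧ (β1 ↔ β2)) ∨ ((s1 = true ↔ s2 = true) ∧ (s3 = true ↔ β1)) ∨
    ((s1 = true ↔ α) ∧ (s3 = true ↔ β2))) : False := by
  by_cases a : α <;> by_cases b2 : β2
  · have := H true false false; simp_all
  · have := H true false true; simp_all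
  · have := H false true false; simp_all
  · have := H false true true; simp_all

theorem comb3' {α β1 β2 : Prop} (H : ∀ s1 s2 s3 : Bool,
    ((s1 = true ↔ s2 = true) ∧ (s2 = true ↔ α)) ∨
    ((s2 = true ↔ α) ∧ (s3 = true ↔ β2)) ∨ ((s1 = true ↔ s2 = true) ∧ (β1 ↔ β2)) ∨
    ((s1 = true ↔ α) ∧ (s3 = true ↔ β1))) : False := by
  by_cases a : α <;> by_cases b2 : β2
  · have := H false true false; simp_all
  · have := H false true true; simp_all
  · have := H true false false; simp_all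
  · have := H true false true; simp_all

theorem comb3'' {α β1 β2 : Prop} (H : ∀ s1 s2 s3 : Bool,
    ((s1 = true ↔ s2 = true) ∧ (s2 = true ↔ α)) ∨
    ((s2 = true ↔ α) ∧ (s3 = true ↔ β1)) ∨ ((s1 = true ↔ s2 = true) ∧ (s3 = true ↔ β2)) ∨
    ((s1 = true ↔ α) ∧ (β1 ↔ β2))) : False := by
  by_cases a : α <;> by_cases b1 : β1
  · have := H false true false; simp_all
  · have := H false true true; simp_all
  · have := H true false false; simp_all
  · have := H true false true; simp_all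

def T3 (s1 s2 s3 : Bool) (w y x : ℂ) : Finset ℂ :=
  (if s1 then {w} else ∅) ∪ (if s2 then {y} else ∅) ∪ (if s3 then {x} else ∅)

theorem mem_T3 {w y x z : ℂ} {s1 s2 s3 : Bool} : z ∈ T3 s1 s2 s3 w y x ↔ (s1 = true ∧ z = w) ∨
    (s2 = true ∧ z = y) ∨ (s3 = true ∧ z = x) := by
  unfold T3
  cases s1 <;> cases s2 <;> cases s3 <;> simp

theorem T3_sub {M : Finset ℂ} {w y x : ℂ} (hw : w ∈ M) (hy : y ∈ M) (hx : x ∈ M)
    (s1 s2 s3 : Bool) : T3 s1 s2 s3 w y x ⊆ M := by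
  intro z hz
  rcases mem_T3.1 hz with ⟨_, rfl⟩ | ⟨_, rfl⟩ | ⟨_, rfl⟩ <;> assumption

theorem CaseC.tri {Y M : Finset ℂ} {R : ℝ} {v ω : ℂ} (h : CaseC Y M R v ω)
    (hd : Disjoint Y M) {w x : ℂ} (hw : w ∈ M) (hy : ω * w ∈ M) (hx : x ∈ M) (hw0 : w ≠ 0)
    (hx0 : x ≠ 0) (hne : x ≠ w) (hn1 : x ≠ ω * w) : x = ω ^ 2 * w := by
  by_contra hn2
  have ho := h.ho
  have h3 : ω ^ 3 = 1 := by linear_combination (ω - 1) * ho
  obtain ⟨o1, o2, o3⟩ := om_ne ho hw0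
  obtain ⟨q1, q2, q3⟩ := om_ne ho hx0
  have hwY : w ∉ Y := fun hY => Finset.disjoint_left.1 hd hY hw
  have hyY : ω * w ∉ Y := fun hY => Finset.disjoint_left.1 hd hY hy
  have hxY : x ∉ Y := fun hY => Finset.disjoint_left.1 hd hY hx
  have n1 : ω * x ≠ w := by
    intro e; apply hn2; rw [← e]; linear_combination -x * h3
  have n2 : ω ^ 2 * x ≠ w := by
    intro e; apply hn1; rw [← e]; linear_combination -x * h3
  have h0 : ω ≠ 0 := by rintro rfl; norm_num at ho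
  have n3 : ω * x ≠ ω * w := fun e => hne (mul_left_cancel₀ h0 e)
  have n4 : ω ^ 2 * x ≠ ω * w := by
    intro e; apply hn2
    have : x = ω * (ω ^ 2 * x) := by linear_combination -x * h3
    rw [this, e]; ring
  have m0 : ∀ s1 s2 s3, (w ∈ Y ∪ T3 s1 s2 s3 w (ω * w) x ↔ s1 = true) := by
    intro s1 s2 s3
    rw [Finset.mem_union, mem_T3]
    have := hne.symm
    have := o1.symm
    tauto
  have m1 : ∀ s1 s2 s3, (ω * w ∈ Y ∪ T3 s1 s2 s3 w (ω * w) x ↔ s2 = true) := by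
    intro s1 s2 s3
    rw [Finset.mem_union, mem_T3]
    have := hn1.symm
    tauto
  have m2 : ∀ s1 s2 s3, (ω ^ 2 * w ∈ Y ∪ T3 s1 s2 s3 w (ω * w) x ↔ ω ^ 2 * w ∈ Y) := by
    intro s1 s2 s3
    rw [Finset.mem_union, mem_T3]
    have := o3.symm
    have := Ne.symm hn2
    tauto
  have k0 : ∀ s1 s2 s3, (x ∈ Y ∪ T3 s1 s2 s3 w (ω * w) x ↔ s3 = true) := by
    intro s1 s2 s3
    rw [Finset.mem_union, mem_T3]
    tauto
  have k1 : ∀ s1 s2 s3, (ω * x ∈ Y ∪ T3 s1 s2 s3 w (ω * w) x ↔ ω * x ∈ Y) := by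
    intro s1 s2 s3
    rw [Finset.mem_union, mem_T3]; tauto
  have k2 : ∀ s1 s2 s3, (ω ^ 2 * x ∈ Y ∪ T3 s1 s2 s3 w (ω * w) x ↔ ω ^ 2 * x ∈ Y) := by
    intro s1 s2 s3
    rw [Finset.mem_union, mem_T3]; tauto
  have opt := fun s1 s2 s3 => h.opt' hd hw hx hw0 hx0 hne.symm (T3_sub hw hy hx s1 s2 s3)
  have E1 := fun s1 s2 s3 => eff (P := Y ∪ T3 s1 s2 s3 w (ω * w) x) ho h.hc hw0
  have E2 := fun s1 s2 s3 => eff (P := Y ∪ T3 s1 s2 s3 w (ω * w) x) ho h.hc hx0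
  rcases h.rel hd hw hx hw0 hx0 hne.symm with r | r | r
  · apply comb3 (α := ω ^ 2 * w ∈ Y) (β1 := ω * x ∈ Y) (β2 := ω ^ 2 * x ∈ Y)
    intro s1 s2 s3
    obtain ⟨a0, a1, a2, a3⟩ := E1 s1 s2 s3
    obtain ⟨b0, b1, b2, b3⟩ := E2 s1 s2 s3
    rw [r] at b1 b2 b3
    rw [m0, m1, m2] at a0
    rw [m1, m2] at a1
    rw [m0, m1] at a2
    rw [m0, m2] at a3
    rw [k1, k2] at b1
    rw [k0, k1] at b2
    rw [k0, k2] at b3
    rcases opt s1 s2 s3 with i | i | i | i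
    · exact Or.inl (a0 i)
    · exact Or.inr (Or.inl ⟨a1 i, b1 i⟩)
    · exact Or.inr (Or.inr (Or.inl ⟨a2 i, b2 i⟩))
    · exact Or.inr (Or.inr (Or.inr ⟨a3 i, b3 i⟩))
  · apply comb3' (α := ω ^ 2 * w ∈ Y) (β1 := ω * x ∈ Y) (β2 := ω ^ 2 * x ∈ Y)
    intro s1 s2 s3
    obtain ⟨a0, a1, a2, a3⟩ := E1 s1 s2 s3
    obtain ⟨b0, b1, b2, b3⟩ := E2 s1 s2 s3
    have g2 : ω * (x / conj x) = ω ^ 2 * (w / conj w) := by rw [r]; ring
    have g3 : ω ^ 2 * (x / conj x) = w / conj w := by rw [r]; linear_combination (w / conj w) * h3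
    rw [g2] at b2
    rw [g3] at b3
    rw [r] at b1
    rw [m0, m1, m2] at a0
    rw [m1, m2] at a1
    rw [m0, m1] at a2
    rw [m0, m2] at a3
    rw [k1, k2] at b1
    rw [k0, k1] at b2
    rw [k0, k2] at b3
    rcases opt s1 s2 s3 with i | i | i | i
    · exact Or.inl (a0 i)
    · exact Or.inr (Or.inl ⟨a1 i, b3 i⟩)
    · exact Or.inr (Or.inr (Or.inl ⟨a2 i, b1 i⟩))
    · exact Or.inr (Or.inr (Or.inr ⟨a3 i, b2 i⟩))
  · apply comb3'' (α := ω ^ 2 * w ∈ Y) (β1 := ω * x ∈ Y) (β2 := ω ^ 2 * x ∈ Y)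
    intro s1 s2 s3
    obtain ⟨a0, a1, a2, a3⟩ := E1 s1 s2 s3
    obtain ⟨b0, b1, b2, b3⟩ := E2 s1 s2 s3
    have g2 : ω * (x / conj x) = w / conj w := by rw [r]; linear_combination (w / conj w) * h3
    have g3 : ω ^ 2 * (x / conj x) = ω * (w / conj w) := by
      rw [r]; linear_combination ω * (w / conj w) * h3
    rw [g2] at b2
    rw [g3] at b3
    rw [r] at b1
    rw [m0, m1, m2] at a0
    rw [m1, m2] at a1
    rw [m0, m1] at a2
    rw [m0, m2] at a3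
    rw [k1, k2] at b1
    rw [k0, k1] at b2
    rw [k0, k2] at b3
    rcases opt s1 s2 s3 with i | i | i | i
    · exact Or.inl (a0 i)
    · exact Or.inr (Or.inl ⟨a1 i, b2 i⟩)
    · exact Or.inr (Or.inr (Or.inl ⟨a2 i, b3 i⟩))
    · exact Or.inr (Or.inr (Or.inr ⟨a3 i, b1 i⟩))

/-- the full triangle is free: symmetry of the base -/
theorem CaseC.rsym {Y M : Finset ℂ} {R : ℝ} {v ω : ℂ} (h : CaseC Y M R v ω)
    (hd : Disjoint Y M) {w : ℂ} (hw : w ∈ M) (hy : ω * w ∈ M) (hz : ω ^ 2 * w ∈ M)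
    (hw0 : w ≠ 0) : RSym Y w := by
  have ho := h.ho
  obtain ⟨o1, o2, o3⟩ := om_ne ho hw0
  have h0 : ω ≠ 0 := by rintro rfl; norm_num at ho
  have hyY : ω * w ∉ Y := fun hY => Finset.disjoint_left.1 hd hY hy
  have hzY : ω ^ 2 * w ∉ Y := fun hY => Finset.disjoint_left.1 hd hY hz
  have e : Y ∪ {w} = insert w Y := by rw [Finset.union_comm]; rfl
  have hT : ({w} : Finset ℂ) ⊆ M := by simpa using hw
  have opt := h.opt' hd hw hy hw0 (mul_ne_zero h0 hw0) o1.symm hT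
  obtain ⟨a0, a1, a2, a3⟩ := eff (P := Y ∪ {w}) ho h.hc hw0
  have p0 : w ∈ Y ∪ {w} := by simp
  have p1 : ω * w ∉ Y ∪ {w} := by
    rw [e, Finset.mem_insert]; tauto
  have p2 : ω ^ 2 * w ∉ Y ∪ {w} := by
    rw [e, Finset.mem_insert]; tauto
  have hr : RefInv (Y ∪ {w}) (w / conj w) := by
    rcases opt with i | i | i | i
    · exact absurd ((a0 i).1.1 p0) p1
    · exact i
    · exact absurd ((a2 i).1 p0) p1
    · exact absurd ((a3 i).1 p0) p2
  have fw : w / conj w * conj w = w := div_mul_cancel₀ _ ((map_ne_zero _).2 hw0)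
  have hY : RefInv Y (w / conj w) := by
    apply hr.sub (hd.mono_right hT)
    intro z hz
    rw [Finset.mem_singleton.1 hz]; exact fw
  exact hY.rsym hw0 fw

/-- the boundary triangle is a real multiple of the orbit of a free point -/
theorem CaseC.kappa {Y M : Finset ℂ} {R : ℝ} {v ω : ℂ} (h : CaseC Y M R v ω)
    (hd : Disjoint Y M) {w x : ℂ} (hw : w ∈ M) (hx : x ∈ M) (hw0 : w ≠ 0) (hx0 : x ≠ 0)
    (hne : w ≠ x) (hv0 : v ≠ 0) : ∃ κ : ℝ, ((κ : ℂ) * w = v ∨ (κ : ℂ) * w = ω * v ∨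
      (κ : ℂ) * w = ω ^ 2 * v) := by
  have ho := h.ho
  have h3 : ω ^ 3 = 1 := by linear_combination (ω - 1) * ho
  have ax := h.axis hd hw hx hw0 hx0 hne
  have hcv : conj v ≠ 0 := (map_ne_zero _).2 hv0
  have hcw : conj w ≠ 0 := (map_ne_zero _).2 hw0
  have hc2 : conj (ω ^ 2) = ω := by rw [map_pow, h.hc]; linear_combination ω * h3
  rcases ax with ax | ax | ax
  · have e : conj (v / w) = v / w := by
      rw [map_div₀, div_eq_div_iff hcw hw0]
      have := ax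
      rw [div_mul_eq_mul_div, div_eq_iff hcv] at this
      linear_combination -this
    obtain ⟨κ, hκ⟩ := conj_eq_iff_real.1 e
    exact ⟨κ, Or.inl (by rw [← hκ]; exact div_mul_cancel₀ _ hw0)⟩
  · -- `ω v / conj v = w / conj w`; `ω ^ 2 v` is parallel to `w`
    have e : conj (ω ^ 2 * v / w) = ω ^ 2 * v / w := by
      rw [map_div₀, map_mul, hc2, div_eq_div_iff hcw hw0]
      have : ω * v * conj w = w * conj v := by
        have := ax
        rw [← mul_div_assoc, div_mul_eq_mul_div, div_eq_iff hcv] at this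
        exact this
      linear_combination -ω * this
    obtain ⟨κ, hκ⟩ := conj_eq_iff_real.1 e
    exact ⟨κ, Or.inr (Or.inr (by rw [← hκ]; exact div_mul_cancel₀ _ hw0))⟩
  · have e : conj (ω * v / w) = ω * v / w := by
      rw [map_div₀, map_mul, h.hc, div_eq_div_iff hcw hw0]
      have : ω ^ 2 * v * conj w = w * conj v := by
        have := ax
        rw [← mul_div_assoc, div_mul_eq_mul_div, div_eq_iff hcv] at this
        exact this
      linear_combination -ω ^ 2 * this + (ω * v * conj w) * h3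
    obtain ⟨κ, hκ⟩ := conj_eq_iff_real.1 e
    exact ⟨κ, Or.inr (Or.inl (by rw [← hκ]; exact div_mul_cancel₀ _ hw0))⟩

end Ext7
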