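import Pool.Agent.Lib.MP_ad0d06_co.Gen
import Pool.Agent.Lib.MP_ad0d06_co.Circ
import Pool.Agent.Lib.MP_ad0d06_co.TypesE

/-!
Module Beta of MP_ad0d06_co: all free points on the circle, or one of them its centre.
-/

open Complex ComplexConjugate

noncomputable section

namespace Ext7

namespace Beta

theorem dsq (x o : ℂ) : ‖x - o‖ ^ 2 = ‖x‖ ^ 2 - 2 * (x * conj o).re + ‖o‖ ^ 2 := by
  rw [nsq, nsq, nsq, re_mul_conj]
  simp only [sub_re, sub_im]
  ring

theorem nmul (x o : ℂ) : (x * conj o).re ^ 2 + (x * conj o).im ^ 2 = ‖x‖ ^ 2 * ‖o‖ ^ 2 := by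
  rw [nsq, nsq, re_mul_conj, im_mul_conj]
  ring

theorem self_re (o : ℂ) : (o * conj o).re = ‖o‖ ^ 2 := by
  rw [nsq, re_mul_conj]

/-- points of a circle about `0` with the same component along `o` -/
theorem mirror {x y o : ℂ} (ho : o ≠ 0) (hn : ‖x‖ = ‖y‖)
    (hr : (x * conj o).re = (y * conj o).re) : x = y ∨ x = rf o y := by
  have hco : conj o ≠ 0 := (map_ne_zero _).2 ho
  have h1 := nmul x o
  have h2 := nmul y o
  have h3 : ((x * conj o).im - (y * conj o).im) * ((x * conj o).im + (y * conj o).im) = 0 := by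
    rw [hn, hr] at h1
    linear_combination h1 - h2
  rcases mul_eq_zero.1 h3 with h4 | h4
  · left
    apply mul_right_cancel₀ hco
    exact Complex.ext hr (by linarith)
  · right
    have h5 : x * conj o = conj (y * conj o) := by
      apply Complex.ext
      · rw [conj_re]; exact hr
      · rw [conj_im]; linarith
    unfold rf
    rw [div_mul_eq_mul_div, eq_div_iff hco, h5, map_mul, conj_conj]
    ring

theorem two_pts {x y z o : ℂ} (ho : o ≠ 0) (h1 : ‖x‖ = ‖y‖) (h2 : ‖x‖ = ‖z‖)
    (h3 : (x * conj o).re = (y * conj o).re) (h4 : (x * conj o).re = (z * conj o).re) :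
    x = y ∨ x = z ∨ y = z := by
  rcases mirror ho h1 h3 with h5 | h5
  · exact Or.inl h5
  · rcases mirror ho h2 h4 with h6 | h6
    · exact Or.inr (Or.inl h6)
    · exact Or.inr (Or.inr (rf_inj ho (h5.symm.trans h6)))

/-- three points of a circle are not on a line through `o` -/
theorem line_circle {a b c o : ℂ} (ha : a ≠ o) (hab : ‖a‖ = ‖b‖) (hac : ‖a‖ = ‖c‖)
    (h1 : ((b - o) * conj (a - o)).im = 0) (h2 : ((c - o) * conj (a - o)).im = 0)
    (nab : a ≠ b) (nac : a ≠ c) (nbc : b ≠ c) : False := by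
  have hd : a - o ≠ 0 := sub_ne_zero.2 ha
  have key : ∀ b : ℂ, ((b - o) * conj (a - o)).im = 0 → ∃ t : ℝ, b - o = t * (a - o) := by
    intro b hb
    have hD : 0 < ‖a - o‖ ^ 2 := by have := norm_pos_iff.2 hd; positivity
    refine ⟨((b - o) * conj (a - o)).re / ‖a - o‖ ^ 2, ?_⟩
    have hco : conj (a - o) ≠ 0 := (map_ne_zero _).2 hd
    apply mul_right_cancel₀ hco
    have e : (a - o) * conj (a - o) = ((‖a - o‖ ^ 2 : ℝ) : ℂ) := by
      rw [mul_conj, normSq_eq_norm_sq]
    rw [mul_assoc, e, ← ofReal_mul, div_mul_cancel₀ _ hD.ne']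
    apply Complex.ext
    · rw [ofReal_re]
    · rw [ofReal_im]; exact hb
  obtain ⟨t, ht⟩ := key b h1
  obtain ⟨s, hs⟩ := key c h2
  have nb : ‖b‖ ^ 2 = ‖o‖ ^ 2 + 2 * t * ((a - o) * conj o).re + t ^ 2 * ‖a - o‖ ^ 2 := by
    have e : b = o + t * (a - o) := by rw [← ht]; ring
    rw [e, nsq, nsq, nsq, re_mul_conj]
    simp only [sub_re, sub_im, add_re, add_im, mul_re, mul_im, ofReal_re, ofReal_im]
    ring
  have nc : ‖c‖ ^ 2 = ‖o‖ ^ 2 + 2 * s * ((a - o) * conj o).re + s ^ 2 * ‖a - o‖ ^ 2 := by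
    have e : c = o + s * (a - o) := by rw [← hs]; ring
    rw [e, nsq, nsq, nsq, re_mul_conj]
    simp only [sub_re, sub_im, add_re, add_im, mul_re, mul_im, ofReal_re, ofReal_im]
    ring
  have na : ‖a‖ ^ 2 = ‖o‖ ^ 2 + 2 * ((a - o) * conj o).re + ‖a - o‖ ^ 2 := by
    rw [nsq, nsq, nsq, re_mul_conj]
    simp only [sub_re, sub_im]
    ring
  have ht1 : t ≠ 1 := by
    rintro rfl
    apply nab
    rw [ofReal_one, one_mul] at ht
    exact (sub_left_injective ht).symm
  have hs1 : s ≠ 1 := by
    rintro rfl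
    apply nac
    rw [ofReal_one, one_mul] at hs
    exact (sub_left_injective hs).symm
  have hts : t ≠ s := by
    rintro rfl
    apply nbc
    exact sub_left_injective (ht.trans hs.symm)
  have hD : ‖a - o‖ ^ 2 ≠ 0 := by
    have := norm_pos_iff.2 hd; positivity
  rw [hab] at na
  rw [← hac, hab] at nc
  have e1 : (t - 1) * (2 * ((a - o) * conj o).re + (t + 1) * ‖a - o‖ ^ 2) = 0 := by
    linear_combination na - nb
  have e2 : (s - 1) * (2 * ((a - o) * conj o).re + (s + 1) * ‖a - o‖ ^ 2) = 0 := by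
    linear_combination na - nc
  have e3 := (mul_eq_zero.1 e1).resolve_left (sub_ne_zero.2 ht1)
  have e4 := (mul_eq_zero.1 e2).resolve_left (sub_ne_zero.2 hs1)
  have e5 : (t - s) * ‖a - o‖ ^ 2 = 0 := by linear_combination e3 - e4
  rcases mul_eq_zero.1 e5 with h | h
  · exact hts (sub_eq_zero.1 h)
  · exact hD h

theorem card_le_two_of {A : Finset ℂ}
    (h : ∀ x ∈ A, ∀ y ∈ A, ∀ z ∈ A, x = y ∨ x = z ∨ y = z) : A.card ≤ 2 := by
  by_contra hcon
  obtain ⟨T, hT, hc⟩ := Finset.exists_subset_card_eq (show 3 ≤ A.card by omega)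
  obtain ⟨x, y, z, h1, h2, h3, rfl⟩ := Finset.card_eq_three.1 hc
  rcases h x (hT (by simp)) y (hT (by simp)) z (hT (by simp)) with e | e | e
  · exact h1 e
  · exact h2 e
  · exact h3 e

/-- a set of points of the circle which does not fix the disk -/
theorem bad {F S : Finset ℂ} {R : ℝ} (hR : 0 < R) (hS : ∀ w ∈ S, ‖w‖ = R) (hne : S.Nonempty)
    (hF : ∀ x ∈ F, ‖x‖ ≤ R) (h : Cfg F S) (hn : ¬ IsSED (F ∪ S) 0 R) :
    ∃ (o : ℂ) (R' : ℝ) (S1 : Finset ℂ), o ≠ 0 ∧ R' ^ 2 + ‖o‖ ^ 2 ≤ R ^ 2 ∧ 0 ≤ R' ∧ S1 ⊆ S ∧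
      IsSED (F ∪ S1) o R' ∧ IsSED (F ∪ S) o R' ∧ (∀ v ∈ S1, Crit (F ∪ S1) o R' v) ∧
      S1.card ≤ 2 ∧ (S \ S1).card ≤ 2 := by
  obtain ⟨o, R', hs⟩ := exists_sed (F ∪ S) (hne.mono Finset.subset_union_right)
  obtain ⟨S1, hS1, hsed, hcrit⟩ := exists_min h.disj hs
  have hle : R' ^ 2 + ‖o‖ ^ 2 ≤ R ^ 2 := by
    have := hs.le (o' := 0) (R' := R) (by
      intro x hx
      rw [sub_zero]
      rcases Finset.mem_union.1 hx with hx | hx
      · exact hF x hx
      · exact (hS x hx).le)
    rwa [zero_sub, norm_neg] at this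
  have h0 : 0 ≤ R' := hs.nonneg
  have ho : o ≠ 0 := by
    rintro rfl
    apply hn
    have hRR : R' = R := by
      obtain ⟨w, hw⟩ := hne
      have h1 := hs.1 w (Finset.mem_union_right _ hw)
      rw [sub_zero, hS w hw] at h1
      rw [norm_zero] at hle
      nlinarith
    rwa [hRR] at hs
  refine ⟨o, R', S1, ho, hle, h0, hS1, hsed, hs, hcrit, ?_, ?_⟩
  · apply card_le_two_of
    intro x hx y hy z hz
    have key : ∀ v ∈ S1, (v * conj o).re = (R ^ 2 + ‖o‖ ^ 2 - R' ^ 2) / 2 := by
      intro v hv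
      have h1 := (hcrit v hv).2.1
      have h2 := dsq v o
      rw [h1, hS v (hS1 hv)] at h2
      linarith
    exact two_pts ho (by rw [hS x (hS1 hx), hS y (hS1 hy)]) (by rw [hS x (hS1 hx), hS z (hS1 hz)])
      (by rw [key x hx, key y hy]) (by rw [key x hx, key z hz])
  · apply card_le_two_of
    intro x hx y hy z hz
    by_contra hcon
    push Not at hcon
    obtain ⟨nxy, nxz, nyz⟩ := hcon
    have hdisj : Disjoint (F ∪ S1) (S \ S1) := by
      rw [Finset.disjoint_left]
      intro x hx hx2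
      obtain ⟨h1, h2⟩ := Finset.mem_sdiff.1 hx2
      rcases Finset.mem_union.1 hx with h3 | h3
      · exact Finset.disjoint_left.1 h.disj h3 h1
      · exact h2 h3
    have hcfg : Cfg (F ∪ S1) (S \ S1) := h.sub Finset.subset_union_left
      (Finset.union_subset_union (Finset.Subset.refl _) hS1) Finset.sdiff_subset hdisj
    have hin : ∀ w ∈ S \ S1, ‖w - o‖ ≤ R' := fun w hw =>
      hs.1 w (Finset.mem_union_right _ (Finset.mem_sdiff.1 hw).1)
    have hK : ∀ w ∈ S \ S1, ‖w‖ = R := fun w hw => hS w (Finset.mem_sdiff.1 hw).1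
    have hno : ∀ a ∈ S \ S1, ∀ b ∈ S \ S1, a ≠ b → a ≠ o := by
      rintro a ha b hb hab rfl
      apply hab
      rw [hK a ha] at hle
      have h3 : R' ^ 2 ≤ 0 := by linarith
      have h4 : R' = 0 := by nlinarith
      have h5 := hin b hb
      rw [h4] at h5
      have h6 : ‖b - a‖ = 0 := le_antisymm h5 (norm_nonneg _)
      exact (sub_eq_zero.1 (norm_eq_zero.1 h6)).symm
    have nx : x ≠ o := hno x hx y hy nxy
    have ny : y ≠ o := hno y hy x hx nxy.symm
    have nz : z ≠ o := hno z hz x hx nxz.symm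
    have pg := fun (a b : ℂ) (ha : a ∈ S \ S1) (hb : b ∈ S \ S1) (hne : ‖a - o‖ ≠ ‖b - o‖)
      (ha0 : a ≠ o) (hb0 : b ≠ o) => pair_gen hcfg hsed hin ha hb hne ha0 hb0
    have eqd : ∀ a ∈ S \ S1, ∀ b ∈ S \ S1, ‖a - o‖ = ‖b - o‖ → (a * conj o).re = (b * conj o).re := by
      intro a ha b hb hab
      have h1 := dsq a o
      have h2 := dsq b o
      rw [hab, hK a ha] at h1
      rw [hK b hb] at h2
      linarith
    -- three points, not all at the same distance
    have main : ∀ a ∈ S \ S1, ∀ b ∈ S \ S1, ∀ c ∈ S \ S1, a ≠ b → a ≠ c → b ≠ c → a ≠ o → b ≠ o →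
        c ≠ o → ‖a - o‖ ≠ ‖b - o‖ → ‖a - o‖ ≠ ‖c - o‖ → False := by
      intro a ha b hb c hc nab nac nbc na nb nc d1 d2
      have p1 := pg b a hb ha d1.symm nb na
      have p2 := pg c a hc ha d2.symm nc na
      exact line_circle na (by rw [hK a ha, hK b hb]) (by rw [hK a ha, hK c hc]) p1 p2 nab nac nbc
    by_cases d1 : ‖x - o‖ = ‖y - o‖
    · by_cases d2 : ‖x - o‖ = ‖z - o‖
      · rcases two_pts ho (by rw [hK x hx, hK y hy]) (by rw [hK x hx, hK z hz])
          (eqd x hx y hy d1) (eqd x hx z hz d2) with e | e | e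
        · exact nxy e
        · exact nxz e
        · exact nyz e
      · exact main z hz x hx y hy nxz.symm nyz.symm nxy nz nx ny (Ne.symm d2)
          (fun e => d2 (by rw [d1, e]))
    · by_cases d2 : ‖x - o‖ = ‖z - o‖
      · exact main y hy x hx z hz nxy.symm nyz nxz ny nx nz (Ne.symm d1)
          (fun e => d1 (by rw [e, d2]))
      · exact main x hx y hy z hz nxy nxz nyz nx ny nz d1 d2

theorem good {F S : Finset ℂ} {R : ℝ} (hR : 0 < R) (hS : ∀ w ∈ S, ‖w‖ = R)
    (hF : ∀ x ∈ F, ‖x‖ ≤ R) (h : Cfg F S) (hc : 5 ≤ S.card) : IsSED (F ∪ S) 0 R := by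
  by_contra hn
  have hne : S.Nonempty := by rw [← Finset.card_pos]; omega
  obtain ⟨o, R', S1, -, -, -, h1, -, -, -, h2, h3⟩ := bad hR hS hne hF h hn
  have := Finset.card_sdiff_add_card_eq_card h1
  omega

/-- six points of the circle -/
theorem caseN {F W : Finset ℂ} {R : ℝ} (hR : 0 < R) (hc : W.card = 6) (hW : ∀ w ∈ W, ‖w‖ = R)
    (hF : ∀ x ∈ F, ‖x‖ ≤ R) (h : Cfg F W)
    (h4 : ∀ S ⊆ W, S.card = 4 → IsSED (F ∪ S) 0 R) : False := by
  refine six_sep W R hR hW hc ?_
  intro a ha b hb c hcc nab nac nbc hu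
  set X : Finset ℂ := W \ {a, b, c} with hX
  have hT : ({a, b, c} : Finset ℂ) ⊆ W := by
    intro x hx
    simp only [Finset.mem_insert, Finset.mem_singleton] at hx
    rcases hx with rfl | rfl | rfl <;> assumption
  have hT3 : ({a, b, c} : Finset ℂ).card = 3 := Finset.card_eq_three.2 ⟨a, b, c, nab, nac, nbc, rfl⟩
  have hX3 : X.card = 3 := by
    rw [hX, Finset.card_sdiff_of_subset hT, hc, hT3]
  have hXW : X ⊆ W := Finset.sdiff_subset
  have hXn : ∀ x ∈ X, x ≠ a ∧ x ≠ b ∧ x ≠ c := by
    intro x hx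
    have := (Finset.mem_sdiff.1 hx).2
    simp only [Finset.mem_insert, Finset.mem_singleton, not_or] at this
    exact this
  have hsed : IsSED (F ∪ X) 0 R := by
    refine ⟨?_, fun u => ?_⟩
    · intro x hx
      rw [sub_zero]
      rcases Finset.mem_union.1 hx with hx | hx
      · exact hF x hx
      · exact (hW x (hXW hx)).le
    · by_contra hcon
      push Not at hcon
      apply hu
      have key : ∀ d ∈ W, d ∉ X → (d * conj u).re ≤ 0 := by
        intro d hd hdX
        have h5 := h4 (insert d X) (by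
          intro x hx
          rcases Finset.mem_insert.1 hx with rfl | hx
          · exact hd
          · exact hXW hx) (by rw [Finset.card_insert_of_notMem hdX, hX3])
        obtain ⟨x, hx, hx1, hx2⟩ := h5.2 u
        rcases Finset.mem_union.1 hx with hx | hx
        · exact absurd hx2 (not_le.2 (hcon x (Finset.mem_union_left _ hx) hx1))
        · rcases Finset.mem_insert.1 hx with rfl | hx
          · rwa [sub_zero] at hx2
          · exact absurd hx2 (not_le.2 (hcon x (Finset.mem_union_right _ hx) hx1))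
      refine ⟨u, key a ha (fun h => (hXn a h).1 rfl), key b hb (fun h => (hXn b h).2.1 rfl),
        key c hcc (fun h => (hXn c h).2.2 rfl), ?_⟩
      intro x hx n1 n2 n3
      have hxX : x ∈ X := Finset.mem_sdiff.2 ⟨hx, by simp [n1, n2, n3]⟩
      have := hcon x (Finset.mem_union_right _ hxX) (by rw [sub_zero]; exact hW x hx)
      rwa [sub_zero] at this
  have hd : Disjoint (F ∪ X) ({a, b, c} : Finset ℂ) := by
    rw [Finset.disjoint_left]
    intro x hx hx2
    rcases Finset.mem_union.1 hx with h3 | h3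
    · exact Finset.disjoint_left.1 h.disj h3 (hT hx2)
    · exact (Finset.mem_sdiff.1 h3).2 hx2
  have hcfg : Cfg (F ∪ X) {a, b, c} := h.sub Finset.subset_union_left
    (Finset.union_subset_union (Finset.Subset.refl _) hXW) hT hd
  have h0 := hcfg.to0 hsed (by
    intro w hw
    exact (hW w (hT hw)).le)
  exact h0.fn.iso (by simp) (by simp) (by simp) nab nac nbc hR (hW a ha) (hW b hb) (hW c hcc)

/-- symmetric triangles are isosceles -/
theorem iso_of_sym {R : ℝ} (hR : 0 < R) {a b c : ℂ} (ha : ‖a‖ = R) (hb : ‖b‖ = R) (hc : ‖c‖ = R)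
    (nab : a ≠ b) (nac : a ≠ c) (nbc : b ≠ c) (h : HasSym ((({a, b, c} : Finset ℂ)) : Set ℂ)) :
    Iso3 a b c := by
  obtain ⟨g, hg, hA⟩ := h
  have hA' : ∀ z, g z ∈ ({a, b, c} : Finset ℂ) ↔ z ∈ ({a, b, c} : Finset ℂ) := by
    intro z
    have := hA z
    simpa only [Finset.mem_coe] using this
  have hn : ∀ x ∈ ({a, b, c} : Finset ℂ), ‖x‖ = R := by
    intro x hx
    simp only [Finset.mem_insert, Finset.mem_singleton] at hx
    rcases hx with rfl | rfl | rfl <;> assumption
  have g0 : g 0 = 0 := by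
    by_contra hne
    have key : ∀ x ∈ ({a, b, c} : Finset ℂ), (x * conj (g 0)).re = ‖g 0‖ ^ 2 / 2 := by
      intro x hx
      obtain ⟨y, rfl⟩ := g.surjective x
      have hy := (hA' y).1 hx
      have h1 : ‖g y - g 0‖ = R := by
        rw [← dist_eq_norm, g.dist_eq, dist_eq_norm, sub_zero]
        exact hn y hy
      have h2 := dsq (g y) (g 0)
      rw [h1, hn _ hx] at h2
      linarith
    rcases two_pts hne (ha.trans hb.symm) (ha.trans hc.symm)
      ((key a (by simp)).trans (key b (by simp)).symm)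
      ((key a (by simp)).trans (key c (by simp)).symm) with e | e | e
    · exact nab e
    · exact nac e
    · exact nbc e
  obtain ⟨α, hα, hab⟩ := form_fix g 0 g0
  have inj : ∀ x y, g x = g y → x = y := fun x y hxy => g.injective hxy
  have mem : ∀ x ∈ ({a, b, c} : Finset ℂ), g x = a ∨ g x = b ∨ g x = c := by
    intro x hx
    have := (hA' x).2 hx
    simpa only [Finset.mem_insert, Finset.mem_singleton] using this
  have ma := mem a (by simp)
  have mb := mem b (by simp)
  have mc := mem c (by simp)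
  have nn : ∀ x : ℂ, ‖x‖ = R → x * conj x = (R : ℂ) ^ 2 := by
    intro x hx
    rw [mul_conj, normSq_eq_norm_sq, hx]; push_cast; ring
  have x0 : ∀ x : ℂ, ‖x‖ = R → x ≠ 0 := by
    rintro x hx rfl
    rw [norm_zero] at hx; linarith
  rcases hab with hab | hab
  · -- rotation
    have e : ∀ z, g z = α * z := fun z => by rw [hab z]; ring
    have hfix : ∀ x, ‖x‖ = R → g x ≠ x := by
      intro x hx h1
      rw [e] at h1
      have : α = 1 := mul_right_cancel₀ (x0 x hx) (by rw [h1, one_mul])
      apply hg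
      ext z
      rw [e z, this]
      show 1 * z = z
      ring
    have fa := hfix a ha
    have fb := hfix b hb
    have fc := hfix c hc
    -- g is a 3-cycle
    rcases ma with ma | ma | ma
    · exact absurd ma fa
    · rcases mb with mb | mb | mb
      · exfalso
        rcases mc with mc | mc | mc
        · exact nbc (inj _ _ (mb.trans mc.symm))
        · exact nac (inj _ _ (ma.trans mc.symm))
        · exact fc mc
      · exact absurd mb fb
      · right; left
        rw [e] at ma mb
        linear_combination (-b) * ma + a * mb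
    · rcases mb with mb | mb | mb
      · rw [e] at ma mb
        left
        linear_combination (-a) * mb + b * ma
      · exact absurd mb fb
      · exfalso
        exact nab (inj _ _ (ma.trans mb.symm))
  · -- reflection
    have e : ∀ z, g z = α * conj z := fun z => by rw [hab z]; simp
    have two : ∀ x y, ‖x‖ = R → ‖y‖ = R → g x = x → g y = y → x = y ∨ x = -y := by
      intro x y hx hy h1 h2
      rw [e] at h1 h2
      have h3 : x ^ 2 = y ^ 2 := by
        have e1 : x ^ 2 = α * (R : ℂ) ^ 2 := by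
          rw [← nn x hx]
          linear_combination (-x) * h1
        have e2 : y ^ 2 = α * (R : ℂ) ^ 2 := by
          rw [← nn y hy]
          linear_combination (-y) * h2
        rw [e1, e2]
      exact sq_eq_sq_iff_eq_or_eq_neg.1 h3
    have sw : ∀ x y z, ‖x‖ = R → ‖y‖ = R → g x = x → g y = z → x ^ 2 = y * z := by
      intro x y z hx hy h1 h2
      rw [e] at h1 h2
      have n1 := nn x hx
      have n2 := nn y hy
      linear_combination (-x) * h1 + y * h2 + α * n1 - α * n2
    have inv : ∀ z, g (g z) = z := by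
      intro z
      rw [e, e, map_mul, conj_conj]
      linear_combination z * hα
    rcases ma with ma | ma | ma
    · rcases mb with mb | mb | mb
      · exact absurd (inj _ _ (ma.trans mb.symm)) nab
      · exfalso
        rcases mc with mc | mc | mc
        · exact nac (inj _ _ (ma.trans mc.symm))
        · exact nbc (inj _ _ (mb.trans mc.symm))
        · rcases two a b ha hb ma mb with h1 | h1
          · exact nab h1
          · rcases two a c ha hc ma mc with h2 | h2
            · exact nac h2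
            · apply nbc
              have : -b = -c := h1.symm.trans h2
              exact neg_injective this
      · left
        exact sw a b c ha hb ma mb
    · -- g a = b, so g b = a, g c = c
      have gb : g b = a := by rw [← ma]; exact inv a
      right; right
      rcases mc with mc | mc | mc
      · exact absurd (inj _ _ (gb.trans mc.symm)) nbc
      · exact absurd (inj _ _ (ma.trans mc.symm)) nac
      · exact sw c a b hc ha mc ma
    · have gc : g c = a := by rw [← ma]; exact inv a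
      right; left
      rcases mb with mb | mb | mb
      · exact absurd (inj _ _ (gc.trans mb.symm)) nbc.symm
      · exact sw b a c hb ha mb ma
      · exact absurd (inj _ _ (ma.trans mb.symm)) nab

theorem coneL {x s1 s4 o u : ℂ} {R t : ℝ} (ho : o ≠ 0) (n1 : ‖s1‖ = R) (n4 : ‖s4‖ = R)
    (nx : ‖x‖ = R) (ht : 0 < t) (r1 : (s1 * conj o).re = t) (r4 : (s4 * conj o).re = t)
    (rx : t ≤ (x * conj o).re) (h14 : s1 ≠ s4) (hx : (x * conj u).re ≤ 0) :
    (s1 * conj u).re ≤ 0 ∨ (s4 * conj u).re ≤ 0 := by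
  by_contra hcon
  push Not at hcon
  obtain ⟨c1, c4⟩ := hcon
  have hO : 0 < ‖o‖ ^ 2 := by have := norm_pos_iff.2 ho; positivity
  have key : ∀ z : ℂ, ‖o‖ ^ 2 * (z * conj u).re =
      (z * conj o).re * (u * conj o).re + (z * conj o).im * (u * conj o).im := by
    intro z
    rw [nsq]
    simp only [re_mul_conj, im_mul_conj]
    ring
  have k1 := key s1
  have k4 := key s4
  have kx := key x
  have m1 := nmul s1 o
  have m4 := nmul s4 o
  have mx := nmul x o
  have i4 : (s4 * conj o).im = -(s1 * conj o).im := by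
    have h3 : ((s4 * conj o).im - (s1 * conj o).im) * ((s4 * conj o).im + (s1 * conj o).im) = 0 := by
      rw [n1, r1] at m1
      rw [n4, r4] at m4
      linear_combination m4 - m1
    rcases mul_eq_zero.1 h3 with h4 | h4
    · exfalso
      apply h14
      apply mul_right_cancel₀ ((map_ne_zero (starRingEnd ℂ)).2 ho)
      exact Complex.ext (by rw [r1, r4]) (by linarith)
    · linarith
  rw [n1, r1] at m1
  rw [nx] at mx
  rw [r1] at k1
  rw [r4, i4] at k4
  set A := (u * conj o).re
  set B := (u * conj o).im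
  set k := (s1 * conj o).im
  set p := (x * conj o).re
  set q := (x * conj o).im
  have e1 : 0 < t * A + k * B := by rw [← k1]; positivity
  have e4 : 0 < t * A + -k * B := by rw [← k4]; positivity
  have ex : p * A + q * B ≤ 0 := by rw [← kx]; exact mul_nonpos_of_nonneg_of_nonpos hO.le hx
  have hA : 0 < A := by
    have : 0 < t * A := by linarith
    exact (mul_pos_iff_of_pos_left ht).1 this
  have hq : q ^ 2 ≤ k ^ 2 := by nlinarith
  have h1 : (q * B) ^ 2 ≤ (k * B) ^ 2 := by
    rw [mul_pow, mul_pow]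
    exact mul_le_mul_of_nonneg_right hq (sq_nonneg B)
  have h2 : (k * B) ^ 2 < (t * A) ^ 2 := by
    apply sq_lt_sq'
    · linarith
    · linarith
  have h3 : -(t * A) < q * B := (abs_lt.1 (abs_lt_of_sq_lt_sq (h1.trans_lt h2) (by positivity))).1
  have h4 : t * A ≤ p * A := mul_le_mul_of_nonneg_right rx hA.le
  linarith

theorem nrm {ω : ℂ} (ho : ω ^ 2 + ω + 1 = 0) (hc : conj ω = ω ^ 2) (κ : ℝ) {o z : ℂ}
    (hz : z = (1 - κ * ω) * o) : ‖z‖ ^ 2 = (1 + κ + κ ^ 2) * ‖o‖ ^ 2 := by
  have h1 : z * conj z = (1 + κ + κ ^ 2) * (o * conj o) := by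
    rw [hz]
    simp only [map_mul, map_sub, map_one, conj_ofReal, hc]
    have h3 : ω ^ 3 = 1 := by linear_combination (ω - 1) * ho
    linear_combination (κ ^ 2 * o * conj o) * h3 - (κ * o * conj o) * ho
  rw [mul_conj, mul_conj, normSq_eq_norm_sq, normSq_eq_norm_sq] at h1
  exact_mod_cast h1

theorem caseI {Y : Finset ℂ} {R R' : ℝ} {o s1 s2 s3 : ℂ} (ho : o ≠ 0) (n1 : ‖s1‖ = R)
    (n2 : ‖s2‖ = R) (n3 : ‖s3‖ = R) (hle : R' ^ 2 + ‖o‖ ^ 2 ≤ R ^ 2)
    (p2 : 0 < (s2 * conj o).re) (p3 : 0 < (s3 * conj o).re) (h23 : s2 ≠ s3)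
    (h1 : (s1 * conj o).im ≠ 0) (hd1 : ‖s1 - o‖ = R') (hR' : 0 < R')
    (ht : TCfg (tr o Y) (tr o {0, s2, s3}) R' (s1 - o)) (h12 : s1 ≠ s2) (h13 : s1 ≠ s3)
    (h2o : s2 ≠ o) (h3o : s3 ≠ o) : False := by
  have hO : 0 < ‖o‖ ^ 2 := by have := norm_pos_iff.2 ho; positivity
  have w0 : -o ≠ 0 := neg_ne_zero.2 ho
  have x2 : s2 - o ≠ 0 := sub_ne_zero.2 h2o
  have x3 : s3 - o ≠ 0 := sub_ne_zero.2 h3o
  have v0 : s1 - o ≠ 0 := by
    intro e; rw [e, norm_zero] at hd1; linarith
  have z2 : s2 ≠ 0 := by rintro rfl; simp at p2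
  have z3 : s3 ≠ 0 := by rintro rfl; simp at p3
  have m0 : -o ∈ tr o {0, s2, s3} := mem_tr.2 (by simp)
  have m2 : s2 - o ∈ tr o {0, s2, s3} := mem_tr.2 (by simp)
  have m3 : s3 - o ∈ tr o {0, s2, s3} := mem_tr.2 (by simp)
  have d2 : -o ≠ s2 - o := by
    intro e; apply z2; linear_combination -e
  have d3 : -o ≠ s3 - o := by
    intro e; apply z3; linear_combination -e
  have d23 : s2 - o ≠ s3 - o := fun e => h23 (sub_left_injective e)
  have par0 : ∀ s : ℂ, (-o * conj (s - o)).im = 0 → (s * conj o).im = 0 := by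
    intro s hs
    rw [im_mul_conj] at hs ⊢
    simp only [neg_re, neg_im, sub_re, sub_im] at hs
    linarith
  -- both parallel to o is impossible
  have notboth : (s2 * conj o).im = 0 → (s3 * conj o).im = 0 → False := by
    intro e2 e3
    have q2 := nmul s2 o
    have q3 := nmul s3 o
    rw [n2, e2] at q2
    rw [n3, e3] at q3
    have e4 : (s2 * conj o).re = (s3 * conj o).re := by
      have : (s2 * conj o).re ^ 2 = (s3 * conj o).re ^ 2 := by linarith
      exact (pow_left_inj₀ p2.le p3.le (by norm_num)).1 this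
    rcases mirror ho (n2.trans n3.symm) e4 with h | h
    · exact h23 h
    · rw [rf_of_par ho e3] at h
      exact h23 h
  rcases types ht hR' with hl | ⟨ω, hC⟩
  · obtain ⟨-, hl2⟩ := hl _ m0 w0
    apply notboth
    · exact par0 s2 (par_symm (hl2 _ m2))
    · exact par0 s3 (par_symm (hl2 _ m3))
  · have hoo := hC.ho
    have hcc := hC.hc
    have h3 : ω ^ 3 = 1 := by linear_combination (ω - 1) * hoo
    have hd := ht.cfg.disj
    have hoo2 : (ω ^ 2) ^ 2 + ω ^ 2 + 1 = 0 := by linear_combination hoo + ω * h3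
    have hcc2 : conj (ω ^ 2) = (ω ^ 2) ^ 2 := by rw [map_pow, hcc]
    -- the three points form an orbit
    have orb : (s2 - o = ω * (-o) ∧ s3 - o = ω ^ 2 * (-o)) ∨
        (s2 - o = ω ^ 2 * (-o) ∧ s3 - o = ω * (-o)) := by
      by_cases c1 : s2 - o = ω * (-o)
      · left
        refine ⟨c1, ?_⟩
        exact hC.tri hd m0 (by rw [← c1]; exact m2) m3 w0 x3 d3.symm (by rw [← c1]; exact d23.symm)
      by_cases c2 : s2 - o = ω ^ 2 * (-o)
      · right
        refine ⟨c2, ?_⟩
        have e : ω * (s2 - o) = -o := by rw [c2]; linear_combination -o * h3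
        have h5 := hC.tri hd m2 (by rw [e]; exact m0) m3 x2 x3 d23.symm (by rw [e]; exact d3.symm)
        rw [h5, c2]; linear_combination (-ω * o) * h3
      exfalso
      have i2 := par0 s2 (hC.pairL hd m0 m2 w0 x2 d2 c1 c2).1
      by_cases c3 : s3 - o = ω * (-o)
      · exact c2 (hC.tri hd m0 (by rw [← c3]; exact m3) m2 w0 x2 d2.symm (by rw [← c3]; exact d23))
      by_cases c4 : s3 - o = ω ^ 2 * (-o)
      · have e : ω * (s3 - o) = -o := by rw [c4]; linear_combination -o * h3
        have h5 := hC.tri hd m3 (by rw [e]; exact m0) m2 x3 x2 d23 (by rw [e]; exact d2.symm)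
        apply c1
        rw [h5, c4]; linear_combination (-ω * o) * h3
      · exact notboth i2 (par0 s3 (hC.pairL hd m0 m3 w0 x3 d3 c3 c4).1)
    have hR3 : R ^ 2 = 3 * ‖o‖ ^ 2 := by
      rcases orb with ⟨e2, -⟩ | ⟨-, e3⟩
      · have := nrm hoo hcc 1 (o := o) (z := s2) (by push_cast; linear_combination e2)
        rw [n2] at this; linarith
      · have := nrm hoo hcc 1 (o := o) (z := s3) (by push_cast; linear_combination e3)
        rw [n3] at this; linarith
    have fin : ∀ κ : ℝ, ‖s1‖ ^ 2 = (1 + κ + κ ^ 2) * ‖o‖ ^ 2 → ‖s1 - o‖ ^ 2 = κ ^ 2 * ‖o‖ ^ 2 →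
        κ = 1 := by
      intro κ f1 f2
      rw [n1, hR3] at f1
      rw [hd1] at f2
      have f3 : (κ - 1) * (κ + 2) = 0 := by
        have : ((κ - 1) * (κ + 2)) * ‖o‖ ^ 2 = 0 := by linear_combination -f1
        exact (mul_eq_zero.1 this).resolve_right hO.ne'
      rcases mul_eq_zero.1 f3 with f4 | f4
      · linarith
      · exfalso
        have : κ = -2 := by linarith
        rw [this] at f2
        rw [f2, hR3] at hle
        linarith
    have o3 : ‖ω‖ = 1 := by
      apply norm_of_unit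
      rw [hcc]; linear_combination h3
    obtain ⟨κ, hk | hk | hk⟩ := hC.kappa hd m0 m2 w0 x2 d2 v0
    · apply h1
      have e : s1 = ((1 - κ : ℝ) : ℂ) * o := by push_cast; linear_combination -hk
      rw [e, mul_assoc, mul_conj, ← ofReal_mul, ofReal_im]
    · have e1 : s1 - o = ω ^ 2 * (κ * (-o)) := by rw [hk]; linear_combination (-(s1 - o)) * h3
      have e : s1 = (1 - κ * ω ^ 2) * o := by linear_combination e1
      have hk1 : κ = 1 := by
        apply fin κ (nrm hoo2 hcc2 κ e)
        rw [e1, norm_mul, norm_mul, norm_pow, o3, norm_neg, norm_real, mul_pow, mul_pow,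
          Real.norm_eq_abs, sq_abs]
        ring
      rw [hk1, ofReal_one, one_mul] at e
      rcases orb with ⟨-, e3⟩ | ⟨e2, -⟩
      · apply h13; linear_combination e - e3
      · apply h12; linear_combination e - e2
    · have e1 : s1 - o = ω * (κ * (-o)) := by rw [hk]; linear_combination (-(s1 - o)) * h3
      have e : s1 = (1 - κ * ω) * o := by linear_combination e1
      have hk1 : κ = 1 := by
        apply fin κ (nrm hoo hcc κ e)
        rw [e1, norm_mul, norm_mul, o3, norm_neg, norm_real, mul_pow, mul_pow,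
          Real.norm_eq_abs, sq_abs]
        ring
      rw [hk1, ofReal_one, one_mul] at e
      rcases orb with ⟨e2, -⟩ | ⟨-, e3⟩
      · apply h12; linear_combination e - e2
      · apply h13; linear_combination e - e3

theorem notpar {a b o : ℂ} (hn : ‖a‖ = ‖b‖) (pa : 0 < ((a - o) * conj o).re)
    (pb : 0 < ((b - o) * conj o).re) (hab : a ≠ b) : ((a - o) * conj (b - o)).im ≠ 0 := by
  intro h
  have hb0 : b - o ≠ 0 := by intro e; rw [e] at pb; simp at pb
  have hD : 0 < ‖b - o‖ ^ 2 := by have := norm_pos_iff.2 hb0; positivity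
  obtain ⟨t, ht⟩ : ∃ t : ℝ, a - o = t * (b - o) := by
    refine ⟨((a - o) * conj (b - o)).re / ‖b - o‖ ^ 2, ?_⟩
    have hco : conj (b - o) ≠ 0 := (map_ne_zero _).2 hb0
    apply mul_right_cancel₀ hco
    have e : (b - o) * conj (b - o) = ((‖b - o‖ ^ 2 : ℝ) : ℂ) := by
      rw [mul_conj, normSq_eq_norm_sq]
    rw [mul_assoc, e, ← ofReal_mul, div_mul_cancel₀ _ hD.ne']
    apply Complex.ext
    · rw [ofReal_re]
    · rw [ofReal_im]; exact h
  have e1 : ((a - o) * conj o).re = t * ((b - o) * conj o).re := by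
    rw [ht, mul_assoc, re_ofReal_mul]
  have t0 : 0 < t := by
    rw [e1] at pa
    exact (pos_iff_pos_of_mul_pos pa).2 pb
  have na : ‖a‖ ^ 2 = ‖o‖ ^ 2 + 2 * t * ((b - o) * conj o).re + t ^ 2 * ‖b - o‖ ^ 2 := by
    have e : a = o + t * (b - o) := by rw [← ht]; ring
    rw [e, nsq, nsq, nsq, re_mul_conj]
    simp only [sub_re, sub_im, add_re, add_im, mul_re, mul_im, ofReal_re, ofReal_im]
    ring
  have nb : ‖b‖ ^ 2 = ‖o‖ ^ 2 + 2 * ((b - o) * conj o).re + ‖b - o‖ ^ 2 := by
    rw [nsq, nsq, nsq, re_mul_conj]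
    simp only [sub_re, sub_im]
    ring
  rw [hn] at na
  have e2 : (t - 1) * (2 * ((b - o) * conj o).re + (t + 1) * ‖b - o‖ ^ 2) = 0 := by
    linear_combination nb - na
  rcases mul_eq_zero.1 e2 with e3 | e3
  · apply hab
    have : t = 1 := by linarith
    rw [this, ofReal_one, one_mul] at ht
    exact sub_left_injective ht
  · have : 0 < (t + 1) * ‖b - o‖ ^ 2 := by positivity
    linarith

/-- all points of the base on the circle: the base is empty -/
theorem caseII {F : Finset ℂ} {R R' : ℝ} {o s1 s2 s3 s4 : ℂ} (ho : o ≠ 0) (n1 : ‖s1‖ = R)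
    (n2 : ‖s2‖ = R) (n3 : ‖s3‖ = R) (n4 : ‖s4‖ = R) (hF : ∀ x ∈ F, ‖x‖ = R)
    (hsed : IsSED (F ∪ {s1, s4}) o R') (hc : Cfg (F ∪ {s1, s4}) {s2, s3})
    (hd1 : ‖s1 - o‖ = R') (hd4 : ‖s4 - o‖ = R') (hd2 : ‖s2 - o‖ ≤ R') (hd3 : ‖s3 - o‖ ≤ R')
    (h14 : s1 ≠ s4) (h23 : s2 ≠ s3) (hle : R' ^ 2 + ‖o‖ ^ 2 ≤ R ^ 2) (f1 : s1 ∉ F)
    (f4 : s4 ∉ F) : F = ∅ := by
  have hO : 0 < ‖o‖ ^ 2 := by have := norm_pos_iff.2 ho; positivity
  have hR'0 : 0 ≤ R' := hsed.nonneg
  set t : ℝ := (R ^ 2 + ‖o‖ ^ 2 - R' ^ 2) / 2 with ht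
  have ht0 : 0 < t := by rw [ht]; linarith
  have r1 : (s1 * conj o).re = t := by
    have := dsq s1 o
    rw [n1, hd1] at this; rw [ht]; linarith
  have r4 : (s4 * conj o).re = t := by
    have := dsq s4 o
    rw [n4, hd4] at this; rw [ht]; linarith
  have rle : ∀ x, ‖x‖ = R → ‖x - o‖ ≤ R' → t ≤ (x * conj o).re := by
    intro x hx hx2
    have h1 := dsq x o
    have h2 : ‖x - o‖ ^ 2 ≤ R' ^ 2 := by have := norm_nonneg (x - o); gcongr
    rw [hx] at h1; rw [ht]; linarith
  have seq : ∀ x, ‖x‖ = R → (x * conj o).re = t → x = s1 ∨ x = s4 := by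
    intro x hx hx2
    rcases two_pts ho (hx.trans n1.symm) (hx.trans n4.symm) (hx2.trans r1.symm)
      (hx2.trans r4.symm) with e | e | e
    · exact Or.inl e
    · exact Or.inr e
    · exact absurd e h14
  have s23 : ∀ y ∈ ({s2, s3} : Finset ℂ), y ≠ s1 ∧ y ≠ s4 := by
    intro y hy
    constructor
    · rintro rfl
      exact Finset.disjoint_left.1 hc.disj (Finset.mem_union_right _ (by simp)) hy
    · rintro rfl
      exact Finset.disjoint_left.1 hc.disj (Finset.mem_union_right _ (by simp)) hy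
  -- the midpoint
  have hco : conj o ≠ 0 := (map_ne_zero _).2 ho
  have s4rf : s4 = rf o s1 := by
    rcases mirror ho (n4.trans n1.symm) (r4.trans r1.symm) with e | e
    · exact absurd e.symm h14
    · exact e
  have i4 : (s4 * conj o).im = -(s1 * conj o).im := by
    rw [s4rf]
    unfold rf
    rw [div_mul_eq_mul_div, div_mul_cancel₀ _ hco]
    simp only [mul_im, conj_re, conj_im]; ring
  set m : ℂ := ((t / ‖o‖ ^ 2 : ℝ) : ℂ) * o with hm
  have hmo : m * conj o = (t : ℂ) := by
    rw [hm, mul_assoc, mul_conj, normSq_eq_norm_sq, ← ofReal_mul, div_mul_cancel₀ _ hO.ne']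
  have hsum : s1 + s4 = 2 * m := by
    apply mul_right_cancel₀ hco
    rw [mul_assoc, hmo, add_mul]
    apply Complex.ext
    · rw [add_re, r1, r4]; simp; ring
    · rw [add_im, i4]; simp
  have xm : ∀ x : ℂ, (x * conj m).re = t / ‖o‖ ^ 2 * (x * conj o).re := by
    intro x
    rw [hm, map_mul, conj_ofReal, mul_left_comm, re_ofReal_mul]
  have mm : ‖m‖ ^ 2 = t / ‖o‖ ^ 2 * t := by
    rw [← self_re, xm, hmo, ofReal_re]
  have tp : 0 < t / ‖o‖ ^ 2 := by positivity
  have hin : ∀ x ∈ F ∪ {s1, s4}, ‖x‖ = R ∧ t ≤ (x * conj o).re := by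
    intro x hx
    have h2 : ‖x‖ = R := by
      rcases Finset.mem_union.1 hx with hx | hx
      · exact hF x hx
      · simp only [Finset.mem_insert, Finset.mem_singleton] at hx
        rcases hx with rfl | rfl <;> assumption
    exact ⟨h2, rle x h2 (hsed.1 x hx)⟩
  have hd : ∀ x, ‖x‖ = R → ‖x - m‖ ^ 2 = R ^ 2 - 2 * (t / ‖o‖ ^ 2 * (x * conj o).re) + t / ‖o‖ ^ 2 * t := by
    intro x hx
    rw [dsq, hx, xm, mm]
  have hs14 : ‖s1 - m‖ = ‖s4 - m‖ := by
    have e : s4 - m = -(s1 - m) := by linear_combination hsum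
    rw [e, norm_neg]
  have hsm : IsSED (F ∪ {s1, s4}) m ‖s1 - m‖ := by
    refine ⟨fun x hx => ?_, fun u => ?_⟩
    · obtain ⟨h1, h2⟩ := hin x hx
      apply le_of_sq_le_sq _ (norm_nonneg _)
      rw [hd x h1, hd s1 n1, r1]
      have := mul_le_mul_of_nonneg_left h2 tp.le
      linarith
    · rcases le_total ((s1 - m) * conj u).re 0 with h | h
      · exact ⟨s1, Finset.mem_union_right _ (by simp), rfl, h⟩
      · refine ⟨s4, Finset.mem_union_right _ (by simp), hs14.symm, ?_⟩
        have e : s4 - m = -(s1 - m) := by linear_combination hsum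
        rw [e, neg_mul, neg_re]; linarith
  obtain ⟨hom, hRm⟩ := hsed.unique hsm
  have hto : t = ‖o‖ ^ 2 := by
    rw [← hom] at hmo
    have h1 := self_re o
    rw [hmo, ofReal_re] at h1
    exact h1
  have rsub : ∀ x : ℂ, ((x - o) * conj o).re = (x * conj o).re - t := by
    intro x
    rw [sub_mul, sub_re, self_re, hto]
  have pos23 : ∀ y ∈ ({s2, s3} : Finset ℂ), ‖y‖ = R → ‖y - o‖ ≤ R' → 0 < ((y - o) * conj o).re := by
    intro y hy h1 h2
    rw [rsub]
    have h3 := rle y h1 h2
    rcases h3.lt_or_eq with h4 | h4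
    · linarith
    · exfalso
      rcases seq y h1 h4.symm with e | e
      · exact (s23 y hy).1 e
      · exact (s23 y hy).2 e
  have q2 := pos23 s2 (by simp) n2 hd2
  have q3 := pos23 s3 (by simp) n3 hd3
  have np := notpar (n2.trans n3.symm) q2 q3 h23
  have y2 : s2 ≠ o := by rintro rfl; rw [sub_self, zero_mul, zero_re] at q2; exact lt_irrefl _ q2
  have y3 : s3 ≠ o := by rintro rfl; rw [sub_self, zero_mul, zero_re] at q3; exact lt_irrefl _ q3
  have hM : ∀ w ∈ ({s2, s3} : Finset ℂ), ‖w - o‖ ≤ R' := by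
    intro w hw
    simp only [Finset.mem_insert, Finset.mem_singleton] at hw
    rcases hw with rfl | rfl <;> assumption
  have heq : ‖s2 - o‖ = ‖s3 - o‖ := by
    by_contra hne
    exact np (pair_gen hc hsed hM (by simp) (by simp) hne y2 y3)
  rw [Finset.eq_empty_iff_forall_notMem]
  intro x hx
  have hxU : x ∈ F ∪ {s1, s4} := Finset.mem_union_left _ hx
  by_cases hxd : ‖x - o‖ = ‖s2 - o‖
  · have e1 := dsq x o
    have e2 := dsq s2 o
    have e3 := dsq s3 o
    rw [hF x hx] at e1
    rw [n2] at e2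
    rw [n3] at e3
    rcases two_pts ho ((hF x hx).trans n2.symm) ((hF x hx).trans n3.symm)
      (by rw [hxd, e2] at e1; linarith) (by rw [hxd, heq, e3] at e1; linarith) with e | e | e
    · exact Finset.disjoint_left.1 hc.disj hxU (by rw [e]; simp)
    · exact Finset.disjoint_left.1 hc.disj hxU (by rw [e]; simp)
    · exact h23 e
  · have h1 := rs_gen hc hsed hM (a := s2) (b := s3) (by simp) (by simp) heq np hxd
    have h2 : ∑ y ∈ F ∪ {s1, s4} with ‖y - o‖ = ‖x - o‖, ((y - o) * conj o).re = 0 := by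
      rw [← re_sum, ← Finset.sum_mul, h1, zero_mul, zero_re]
    have h3 := (Finset.sum_eq_zero_iff_of_nonneg (by
      intro y hy
      have hy1 := (Finset.mem_filter.1 hy).1
      rw [rsub]
      have := (hin y hy1).2
      linarith)).1 h2 x (Finset.mem_filter.2 ⟨hxU, rfl⟩)
    rw [rsub] at h3
    rcases seq x (hF x hx) (by linarith) with e | e
    · exact f1 (by rw [← e]; exact hx)
    · exact f4 (by rw [← e]; exact hx)

theorem beta6 {F W : Finset ℂ} {R : ℝ} (hR : 0 < R) (hc : W.card = 6) (hW : ∀ w ∈ W, ‖w‖ = R)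
    (hF : ∀ x ∈ F, ‖x‖ ≤ R) (h : Cfg F (insert 0 W)) {S : Finset ℂ} (hS : S ⊆ W)
    (hS4 : S.card = 4) (hn : ¬ IsSED (F ∪ S) 0 R) : False := by
  have h0W : (0 : ℂ) ∉ W := by
    intro h0
    have := hW 0 h0
    rw [norm_zero] at this; linarith
  have h0F : (0 : ℂ) ∉ F := fun h0 => Finset.disjoint_left.1 h.disj h0 (Finset.mem_insert_self _ _)
  have hdW : Disjoint F W := h.disj.mono_right (Finset.subset_insert _ _)
  have hSn : ∀ w ∈ S, ‖w‖ = R := fun w hw => hW w (hS hw)
  have hWi : W ⊆ insert 0 W := Finset.subset_insert _ _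
  have subcfg : ∀ A B : Finset ℂ, A ⊆ insert 0 W → B ⊆ insert 0 W → Disjoint A B →
      Cfg (F ∪ A) B := by
    intro A B hA hB hAB
    refine h.sub Finset.subset_union_left (Finset.union_subset_union (Finset.Subset.refl _) hA)
      hB ?_
    rw [Finset.disjoint_union_left]
    exact ⟨h.disj.mono_right hB, hAB⟩
  have subcfg0 : ∀ B : Finset ℂ, B ⊆ insert 0 W → Cfg F B := by
    intro B hB
    exact h.sub (Finset.Subset.refl _) Finset.subset_union_left hB (h.disj.mono_right hB)
  have hcS : Cfg F S := subcfg0 S (hS.trans hWi)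
  have hne : S.Nonempty := by rw [← Finset.card_pos]; omega
  obtain ⟨o, R', S1, ho, hle, h0, hS1, hsed1, hsed, hcrit, hc1, hc2⟩ :=
    bad hR hSn hne hF hcS hn
  have hcc := Finset.card_sdiff_add_card_eq_card hS1
  obtain ⟨s1, s4, h14, e14⟩ := Finset.card_eq_two.1 (show S1.card = 2 by omega)
  obtain ⟨s2, s3, h23, e23⟩ := Finset.card_eq_two.1 (show (S \ S1).card = 2 by omega)
  have m1 : s1 ∈ S1 := by rw [e14]; simp
  have m4 : s4 ∈ S1 := by rw [e14]; simp
  have m2 : s2 ∈ S \ S1 := by rw [e23]; simp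
  have m3 : s3 ∈ S \ S1 := by rw [e23]; simp
  have n1 := hSn s1 (hS1 m1)
  have n4 := hSn s4 (hS1 m4)
  have n2 := hSn s2 (Finset.mem_sdiff.1 m2).1
  have n3 := hSn s3 (Finset.mem_sdiff.1 m3).1
  have h12 : s1 ≠ s2 := by rintro rfl; exact (Finset.mem_sdiff.1 m2).2 m1
  have h13 : s1 ≠ s3 := by rintro rfl; exact (Finset.mem_sdiff.1 m3).2 m1
  have h42 : s4 ≠ s2 := by rintro rfl; exact (Finset.mem_sdiff.1 m2).2 m4
  have h43 : s4 ≠ s3 := by rintro rfl; exact (Finset.mem_sdiff.1 m3).2 m4
  have hO : 0 < ‖o‖ ^ 2 := by have := norm_pos_iff.2 ho; positivity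
  have hd1 := (hcrit s1 m1).2.1
  have hd4 := (hcrit s4 m4).2.1
  have hd2 := hsed.1 s2 (Finset.mem_union_right _ (Finset.mem_sdiff.1 m2).1)
  have hd3 := hsed.1 s3 (Finset.mem_union_right _ (Finset.mem_sdiff.1 m3).1)
  set t : ℝ := (R ^ 2 + ‖o‖ ^ 2 - R' ^ 2) / 2 with ht
  have ht0 : 0 < t := by rw [ht]; linarith
  have r1 : (s1 * conj o).re = t := by
    have := dsq s1 o
    rw [n1, hd1] at this; rw [ht]; linarith
  have r4 : (s4 * conj o).re = t := by
    have := dsq s4 o
    rw [n4, hd4] at this; rw [ht]; linarith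
  have rle : ∀ x, ‖x‖ = R → ‖x - o‖ ≤ R' → t ≤ (x * conj o).re := by
    intro x hx hx2
    have h1 := dsq x o
    have h2 : ‖x - o‖ ^ 2 ≤ R' ^ 2 := by have := norm_nonneg (x - o); gcongr
    rw [hx] at h1; rw [ht]; linarith
  have seq : ∀ x, ‖x‖ = R → (x * conj o).re = t → x = s1 ∨ x = s4 := by
    intro x hx hx2
    rcases two_pts ho (hx.trans n1.symm) (hx.trans n4.symm) (hx2.trans r1.symm)
      (hx2.trans r4.symm) with e | e | e
    · exact Or.inl e
    · exact Or.inr e
    · exact absurd e h14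
  have p2 := rle s2 n2 hd2
  have p3 := rle s3 n3 hd3
  have st : ∀ x, ‖x‖ = R → ‖x - o‖ ≤ R' → s1 ≠ x → s4 ≠ x → ‖x - o‖ < R' := by
    intro x hx hx2 g1 g4
    rcases hx2.lt_or_eq with h1 | h1
    · exact h1
    · exfalso
      have h2 := dsq x o
      rw [hx, h1] at h2
      rcases seq x hx (by rw [ht]; linarith) with e | e
      · exact g1 e.symm
      · exact g4 e.symm
  have st2 := st s2 n2 hd2 h12 h42
  have st3 := st s3 n3 hd3 h13 h43
  have hR' : 0 < R' := (norm_nonneg _).trans_lt st2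
  have hoR : ‖o‖ < R := by
    have : ‖o‖ ^ 2 < R ^ 2 := by nlinarith
    exact lt_of_pow_lt_pow_left₀ 2 hR.le this
  have h2o : s2 ≠ o := by rintro rfl; linarith
  have h3o : s3 ≠ o := by rintro rfl; linarith
  -- the other two points of the circle
  have hWS : (W \ S).card = 2 := by rw [Finset.card_sdiff_of_subset hS, hc, hS4]
  obtain ⟨u, v, huv, eUV⟩ := Finset.card_eq_two.1 hWS
  have mu : u ∈ W \ S := by rw [eUV]; simp
  have mv : v ∈ W \ S := by rw [eUV]; simp
  obtain ⟨mu1, mu2⟩ := Finset.mem_sdiff.1 mu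
  obtain ⟨mv1, mv2⟩ := Finset.mem_sdiff.1 mv
  have hvS : insert v S ⊆ W := by
    intro x hx
    rcases Finset.mem_insert.1 hx with rfl | hx
    · exact mv1
    · exact hS hx
  have h5 : IsSED (F ∪ insert v S) 0 R := by
    refine good hR (fun w hw => hW w (hvS hw)) hF (subcfg0 _ (hvS.trans hWi)) ?_
    rw [Finset.card_insert_of_notMem mv2, hS4]
  have hSmem : ∀ x ∈ S, x = s1 ∨ x = s4 ∨ x = s2 ∨ x = s3 := by
    intro x hx
    by_cases hx1 : x ∈ S1
    · rw [e14] at hx1
      simp only [Finset.mem_insert, Finset.mem_singleton] at hx1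
      tauto
    · have hx2 : x ∈ S \ S1 := Finset.mem_sdiff.2 ⟨hx, hx1⟩
      rw [e23] at hx2
      simp only [Finset.mem_insert, Finset.mem_singleton] at hx2
      tauto
  have hv3 : IsSED (F ∪ {v, s1, s4}) 0 R := by
    refine ⟨?_, fun u' => ?_⟩
    · intro x hx
      rw [sub_zero]
      rcases Finset.mem_union.1 hx with hx | hx
      · exact hF x hx
      · simp only [Finset.mem_insert, Finset.mem_singleton] at hx
        rcases hx with rfl | rfl | rfl
        · exact (hW _ mv1).le
        · exact n1.le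
        · exact n4.le
    · obtain ⟨x, hx, hx1, hx2⟩ := h5.2 u'
      rw [sub_zero] at hx1 hx2
      have fin : ∀ y, ‖y‖ = R → t ≤ (y * conj o).re → (y * conj u').re ≤ 0 →
          ∃ x ∈ F ∪ {v, s1, s4}, ‖x - 0‖ = R ∧ ((x - 0) * conj u').re ≤ 0 := by
        intro y hy hy1 hy2
        rcases coneL ho n1 n4 hy ht0 r1 r4 hy1 h14 hy2 with e | e
        · exact ⟨s1, Finset.mem_union_right _ (by simp), by rwa [sub_zero], by rwa [sub_zero]⟩
        · exact ⟨s4, Finset.mem_union_right _ (by simp), by rwa [sub_zero], by rwa [sub_zero]⟩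
      rcases Finset.mem_union.1 hx with hx | hx
      · exact ⟨x, Finset.mem_union_left _ hx, by rwa [sub_zero], by rwa [sub_zero]⟩
      · rcases Finset.mem_insert.1 hx with rfl | hx
        · exact ⟨x, Finset.mem_union_right _ (by simp), by rwa [sub_zero], by rwa [sub_zero]⟩
        · rcases hSmem x hx with rfl | rfl | rfl | rfl
          · exact fin x hx1 r1.ge hx2
          · exact fin x hx1 r4.ge hx2
          · exact fin x hx1 p2 hx2
          · exact fin x hx1 p3 hx2
  have vS : ∀ s ∈ S, v ≠ s := by rintro s hs rfl; exact mv2 hs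
  have uS : ∀ s ∈ S, u ≠ s := by rintro s hs rfl; exact mu2 hs
  have s0 : ∀ s ∈ W, (0 : ℂ) ≠ s := by rintro s hs rfl; exact h0W hs
  have w1 := hS (hS1 m1)
  have w4 := hS (hS1 m4)
  have w2 := hS (Finset.mem_sdiff.1 m2).1
  have w3 := hS (Finset.mem_sdiff.1 m3).1
  have q1 := hS1 m1
  have q4 := hS1 m4
  have q2 := (Finset.mem_sdiff.1 m2).1
  have q3 := (Finset.mem_sdiff.1 m3).1
  have hcv : Cfg (F ∪ {v, s1, s4}) {0, u, s2, s3} := by
    apply subcfg
    · intro x hx
      simp only [Finset.mem_insert, Finset.mem_singleton] at hx ⊢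
      rcases hx with rfl | rfl | rfl <;> right <;> assumption
    · intro x hx
      simp only [Finset.mem_insert, Finset.mem_singleton] at hx ⊢
      rcases hx with rfl | rfl | rfl | rfl
      · left; rfl
      · right; assumption
      · right; assumption
      · right; assumption
    · rw [Finset.disjoint_left]
      intro x hx hx2
      simp only [Finset.mem_insert, Finset.mem_singleton] at hx hx2
      rcases hx with rfl | rfl | rfl
      · rcases hx2 with e | e | e | e
        · exact s0 _ mv1 e.symm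
        · exact huv e.symm
        · exact vS _ q2 e
        · exact vS _ q3 e
      · rcases hx2 with e | e | e | e
        · exact s0 _ w1 e.symm
        · exact uS _ q1 e.symm
        · exact h12 e
        · exact h13 e
      · rcases hx2 with e | e | e | e
        · exact s0 _ w4 e.symm
        · exact uS _ q4 e.symm
        · exact h42 e
        · exact h43 e
  have h23p : ((s2 - 0) * conj (s3 - 0)).im ≠ 0 := by
    rw [sub_zero, sub_zero]
    intro hpar
    have z3 : s3 ≠ 0 := fun e => s0 _ w3 e.symm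
    have hrf : rf s3 s2 = s2 := rf_of_par z3 hpar
    -- equal norm and parallel
    have hsq : s2 ^ 2 = s3 ^ 2 := by
      have c3 : conj s3 ≠ 0 := (map_ne_zero _).2 z3
      unfold rf at hrf
      rw [div_mul_eq_mul_div, div_eq_iff c3] at hrf
      have e2 : s2 * conj s2 = s3 * conj s3 := by
        rw [mul_conj, mul_conj, normSq_eq_norm_sq, normSq_eq_norm_sq, n2, n3]
      apply mul_right_cancel₀ c3
      linear_combination (-s2) * hrf + s3 * e2
    rcases sq_eq_sq_iff_eq_or_eq_neg.1 hsq with e | e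
    · exact h23 e
    · rw [e, neg_mul, neg_re] at p2
      linarith
  have hrs : ∀ ρ, ρ ≠ R → ∑ x ∈ F with ‖x‖ = ρ, x = 0 := by
    intro ρ hρ
    have h1 := rs_gen hcv hv3 (a := s2) (b := s3) (ρ := ρ) (by
      intro w hw
      rw [sub_zero]
      simp only [Finset.mem_insert, Finset.mem_singleton] at hw
      rcases hw with rfl | rfl | rfl | rfl
      · rw [norm_zero]; exact hR.le
      · exact (hW _ mu1).le
      · exact n2.le
      · exact n3.le) (by simp) (by simp) (by rw [sub_zero, sub_zero, n2, n3]) h23p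
      (by rw [sub_zero, n2]; exact hρ)
    simp only [sub_zero] at h1
    rw [← h1]
    apply Finset.sum_congr _ (fun _ _ => rfl)
    ext x
    simp only [Finset.mem_filter, Finset.mem_union, Finset.mem_insert, Finset.mem_singleton]
    constructor
    · rintro ⟨h1, h2⟩; exact ⟨Or.inl h1, h2⟩
    · rintro ⟨h1 | rfl | rfl | rfl, h2⟩
      · exact ⟨h1, h2⟩
      · exact absurd (h2.symm.trans (hW _ mv1)) hρ
      · exact absurd (h2.symm.trans n1) hρ
      · exact absurd (h2.symm.trans n4) hρ
  rw [e14] at hsed1 hcrit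
  by_cases hin : ∃ x0 ∈ F, ‖x0‖ < R
  · obtain ⟨x0, hx0, hx0R⟩ := hin
    have x00 : x0 ≠ 0 := by rintro rfl; exact h0F hx0
    have hρ0 : 0 < ‖x0‖ := norm_pos_iff.2 x00
    have hoR' : ‖o‖ < R' := by
      have e1 := hrs ‖x0‖ hx0R.ne
      set P := F.filter (fun x => ‖x‖ = ‖x0‖) with hP
      have e2 : ∑ x ∈ P, ‖x - o‖ ^ 2 = ∑ x ∈ P, (‖x0‖ ^ 2 + ‖o‖ ^ 2) - 2 * ∑ x ∈ P, (x * conj o).re := by
        rw [Finset.mul_sum, ← Finset.sum_sub_distrib]
        apply Finset.sum_congr rfl
        intro x hx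
        rw [dsq, (Finset.mem_filter.1 hx).2]; ring
      have e3 : ∑ x ∈ P, (x * conj o).re = 0 := by
        rw [← re_sum, ← Finset.sum_mul, e1, zero_mul, zero_re]
      have e4 : ∑ x ∈ P, ‖x - o‖ ^ 2 ≤ ∑ x ∈ P, R' ^ 2 := by
        apply Finset.sum_le_sum
        intro x hx
        have := hsed.1 x (Finset.mem_union_left _ (Finset.mem_filter.1 hx).1)
        have := norm_nonneg (x - o)
        gcongr
      have hPc : 0 < (P.card : ℝ) := by
        have : 0 < P.card := Finset.card_pos.2 ⟨x0, Finset.mem_filter.2 ⟨hx0, rfl⟩⟩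
        exact_mod_cast this
      rw [e2, e3, Finset.sum_const, Finset.sum_const, nsmul_eq_mul, nsmul_eq_mul, mul_zero,
        sub_zero] at e4
      have e5 := le_of_mul_le_mul_left e4 hPc
      have e6 : ‖o‖ ^ 2 < R' ^ 2 := by
        have : 0 < ‖x0‖ ^ 2 := by positivity
        linarith
      exact lt_of_pow_lt_pow_left₀ 2 h0 e6
    have hct : Cfg (F ∪ {s1, s4}) {0, s2, s3} := by
      apply subcfg
      · intro x hx
        simp only [Finset.mem_insert, Finset.mem_singleton] at hx ⊢
        rcases hx with rfl | rfl <;> right <;> assumption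
      · intro x hx
        simp only [Finset.mem_insert, Finset.mem_singleton] at hx ⊢
        rcases hx with rfl | rfl | rfl
        · left; rfl
        · right; assumption
        · right; assumption
      · rw [Finset.disjoint_left]
        intro x hx hx2
        simp only [Finset.mem_insert, Finset.mem_singleton] at hx hx2
        rcases hx with rfl | rfl
        · rcases hx2 with e | e | e
          · exact s0 _ w1 e.symm
          · exact h12 e
          · exact h13 e
        · rcases hx2 with e | e | e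
          · exact s0 _ w4 e.symm
          · exact h42 e
          · exact h43 e
    have i1 : (s1 * conj o).im ≠ 0 := by
      intro e
      have hrf := rf_of_par ho e
      rcases mirror ho (n4.trans n1.symm) (r4.trans r1.symm) with e' | e'
      · exact h14 e'.symm
      · rw [hrf] at e'
        exact h14 e'.symm
    refine caseI (Y := F ∪ {s1, s4}) ho n1 n2 n3 hle (ht0.trans_le p2) (ht0.trans_le p3) h23 i1 hd1
      hR' ⟨hct.tr o, ?_, ?_, ?_⟩ h12 h13 h2o h3o
    · have := hsed1.tr o
      rwa [sub_self] at this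
    · intro w hw
      have hw' := mem_tr.1 hw
      simp only [Finset.mem_insert, Finset.mem_singleton] at hw'
      rcases hw' with e | e | e
      · have : w = -o := by linear_combination e
        rw [this, norm_neg]; exact hoR'
      · have : w = s2 - o := by linear_combination e
        rw [this]; exact st2
      · have : w = s3 - o := by linear_combination e
        rw [this]; exact st3
    · have := (hcrit s1 (by simp)).tr o
      rwa [sub_self] at this
  · push Not at hin
    have hFR : ∀ x ∈ F, ‖x‖ = R := fun x hx => le_antisymm (hF x hx) (hin x hx)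
    have hc2' : Cfg (F ∪ {s1, s4}) {s2, s3} := by
      apply subcfg
      · intro x hx
        simp only [Finset.mem_insert, Finset.mem_singleton] at hx ⊢
        rcases hx with rfl | rfl <;> right <;> assumption
      · intro x hx
        simp only [Finset.mem_insert, Finset.mem_singleton] at hx ⊢
        rcases hx with rfl | rfl <;> right <;> assumption
      · rw [Finset.disjoint_left]
        intro x hx hx2
        simp only [Finset.mem_insert, Finset.mem_singleton] at hx hx2
        rcases hx with rfl | rfl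
        · rcases hx2 with e | e
          · exact h12 e
          · exact h13 e
        · rcases hx2 with e | e
          · exact h42 e
          · exact h43 e
    have hF0 : F = ∅ := caseII ho n1 n2 n3 n4 hFR hsed1 hc2' hd1 hd4 hd2 hd3 h14 h23 hle
      (fun hx => Finset.disjoint_left.1 hdW hx w1) (fun hx => Finset.disjoint_left.1 hdW hx w4)
    refine four_half S R hR hSn hS4 ?_ o ?_
    · intro a ha b hb c hcc nab nac nbc
      apply iso_of_sym hR (hSn a ha) (hSn b hb) (hSn c hcc) nab nac nbc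
      have := h.sym {a, b, c} (by
        intro x hx
        simp only [Finset.mem_insert, Finset.mem_singleton] at hx
        rcases hx with rfl | rfl | rfl
        · exact hWi (hS ha)
        · exact hWi (hS hb)
        · exact hWi (hS hcc))
      rwa [hF0, Finset.empty_union] at this
    · intro w hw
      exact ht0.trans_le (rle w (hSn w hw) (hsed.1 w (Finset.mem_union_right _ hw)))

end Beta

open Beta in
/-- all free points on the circle of the smallest disk, or one of them its centre -/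
theorem beta_case {F W : Finset ℂ} {R : ℝ} (hR : 0 < R) (hc : W.card = 7)
    (hW : ∀ w ∈ W, w = 0 ∨ ‖w‖ = R) (h : Cfg F W) (hs : IsSED (F ∪ W) 0 R) : False := by
  have hF : ∀ x ∈ F, ‖x‖ ≤ R := by
    intro x hx
    have := hs.1 x (Finset.mem_union_left _ hx)
    rwa [sub_zero] at this
  by_cases h0 : (0 : ℂ) ∈ W
  · set W' := W.erase 0 with hW'
    have hc' : W'.card = 6 := by rw [hW', Finset.card_erase_of_mem h0, hc]
    have hins : insert 0 W' = W := Finset.insert_erase h0
    have hn : ∀ w ∈ W', ‖w‖ = R := by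
      intro w hw
      obtain ⟨h1, h2⟩ := Finset.mem_erase.1 hw
      exact (hW w h2).resolve_left h1
    have hsub : W' ⊆ W := Finset.erase_subset _ _
    have hcfg : Cfg F W' := h.sub (Finset.Subset.refl _) Finset.subset_union_left hsub
      (h.disj.mono_right hsub)
    refine caseN hR hc' hn hF hcfg ?_
    intro S hS hS4
    by_contra hbad
    exact beta6 hR hc' hn hF (by rw [hins]; exact h) hS hS4 hbad
  · have hn : ∀ w ∈ W, ‖w‖ = R := by
      intro w hw
      rcases hW w hw with rfl | e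
      · exact absurd hw h0
      · exact e
    obtain ⟨w0, hw0⟩ : W.Nonempty := by rw [← Finset.card_pos]; omega
    set W' := W.erase w0 with hW'
    have hc' : W'.card = 6 := by rw [hW', Finset.card_erase_of_mem hw0, hc]
    have hsub : W' ⊆ W := Finset.erase_subset _ _
    have hd : Disjoint (F ∪ {w0}) W' := by
      rw [Finset.disjoint_union_left]
      refine ⟨h.disj.mono_right hsub, ?_⟩
      rw [Finset.disjoint_singleton_left]
      exact Finset.notMem_erase _ _
    have hcfg : Cfg (F ∪ {w0}) W' := h.sub Finset.subset_union_left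
      (Finset.union_subset_union (Finset.Subset.refl _) (by simpa using hw0)) hsub hd
    have hF' : ∀ x ∈ F ∪ {w0}, ‖x‖ ≤ R := by
      intro x hx
      rcases Finset.mem_union.1 hx with hx | hx
      · exact hF x hx
      · rw [Finset.mem_singleton.1 hx]; exact (hn w0 hw0).le
    refine caseN hR hc' (fun w hw => hn w (hsub hw)) hF' hcfg ?_
    intro S hS hS4
    have hw0S : w0 ∉ S := fun hh => Finset.notMem_erase w0 W (hS hh)
    have hsubI : insert w0 S ⊆ W := by
      intro x hx
      rcases Finset.mem_insert.1 hx with rfl | hx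
      · exact hw0
      · exact hsub (hS hx)
    have hcI : Cfg F (insert w0 S) := h.sub (Finset.Subset.refl _) Finset.subset_union_left hsubI
      (h.disj.mono_right hsubI)
    have := good hR (fun w hw => hn w (hsubI hw)) hF hcI (by
      rw [Finset.card_insert_of_notMem hw0S, hS4])
    have e : F ∪ {w0} ∪ S = F ∪ insert w0 S := by
      rw [Finset.union_assoc]; rfl
    rwa [e]

end Ext7
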