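import Mathlib
import Pool.Agent.Lib.MP_ad0d06_co.Base

/-!
The frieze case of MP_ad0d06_co: all translations that change `A` in finitely many points only
are parallel to one vector `t`.
-/

open Complex ComplexConjugate

noncomputable section

namespace Ext7

namespace Fr

open Classical in
/-- indicator function of a set -/
def ind (A : Set ℂ) (z : ℂ) : ℝ := if z ∈ A then 1 else 0

/-- the difference of the indicator along `t` -/
def ee (t : ℂ) (A : Set ℂ) (z : ℂ) : ℝ := ind A (z - t) - ind A z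

open Classical in
/-- the weight at a point -/
def wt (x η : ℂ → ℝ) (l h : ℝ) (z : ℂ) : ℝ := if η z = h then Real.exp (l * x z) else 0

/-- the regularised exponential sum of `A` -/
def EE (t : ℂ) (x η : ℂ → ℝ) (τ : ℝ) (A : Set ℂ) (l h : ℝ) : ℝ :=
  (∑ᶠ z, ee t A z * wt x η l h z) / (Real.exp (l * τ) - 1)

theorem ee_fin {t : ℂ} {A : Set ℂ} (h : AI A (fun z => z + t)) :
    (Function.support (ee t A)).Finite := by
  refine (h.image (fun z => z + t)).subset ?_
  intro z hz
  refine ⟨z - t, ?_, by simp⟩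
  simp only [Set.mem_ofPred_eq, sub_add_cancel]
  intro h2
  apply hz
  unfold ee ind
  by_cases h3 : z ∈ A
  · rw [if_pos h3, if_pos (h2.1 h3)]; ring
  · rw [if_neg h3, if_neg (fun h4 => h3 (h2.2 h4))]; ring

theorem sum_fin {t : ℂ} {A : Set ℂ} (h : AI A (fun z => z + t)) (f : ℂ → ℝ) :
    (Function.support (fun z => ee t A z * f z)).Finite := by
  refine (ee_fin h).subset ?_
  intro z hz h2
  apply hz
  simp only [h2, zero_mul]

theorem AI_insert {g : ℂ → ℂ} (hg : Function.Injective g) {A : Set ℂ} (h : AI A g) (w : ℂ) :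
    AI (insert w A) g := by
  refine ((h.union (Set.finite_singleton w)).union
    ((Set.finite_singleton w).preimage (hg.injOn))).subset ?_
  intro z hz
  simp only [Set.mem_ofPred_eq, Set.mem_insert_iff] at hz
  simp only [Set.mem_union, Set.mem_ofPred_eq, Set.mem_singleton_iff, Set.mem_preimage]
  by_contra hcon
  push Not at hcon
  obtain ⟨⟨h1, h2⟩, h3⟩ := hcon
  apply hz
  constructor
  · rintro (h4 | h4)
    · exact absurd h4 h3
    · exact Or.inr (h1.1 h4)
  · rintro (h4 | h4)
    · exact absurd h4 h2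
    · exact Or.inr (h1.2 h4)

theorem AI_union {g : ℂ → ℂ} (hg : Function.Injective g) {A : Set ℂ} (h : AI A g)
    (T : Finset ℂ) : AI (A ∪ ↑T) g := by
  refine ((h.union T.finite_toSet).union
    ((T.finite_toSet).preimage (hg.injOn))).subset ?_
  intro z hz
  simp only [Set.mem_ofPred_eq, Set.mem_union, Finset.mem_coe] at hz
  simp only [Set.mem_union, Set.mem_ofPred_eq, Finset.mem_coe, Set.mem_preimage]
  by_contra hcon
  push Not at hcon
  obtain ⟨⟨h1, h2⟩, h3⟩ := hcon
  apply hz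
  constructor
  · rintro (h4 | h4)
    · exact Or.inl (h1.1 h4)
    · exact absurd h4 h3
  · rintro (h4 | h4)
    · exact Or.inl (h1.2 h4)
    · exact absurd h4 h2

theorem AI_of_sym {g : ℂ → ℂ} (hg : Function.Injective g) {A : Set ℂ} 
    (T : Finset ℂ) (h : ∀ z, g z ∈ A ∪ ↑T ↔ z ∈ A ∪ ↑T) : AI A g := by
  refine ((T.finite_toSet).union
    ((T.finite_toSet).preimage (hg.injOn))).subset ?_
  intro z hz
  simp only [Set.mem_ofPred_eq] at hz
  simp only [Set.mem_union, Finset.mem_coe, Set.mem_preimage]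
  by_contra hcon
  push Not at hcon
  obtain ⟨h1, h2⟩ := hcon
  apply hz
  have h3 := h z
  simp only [Set.mem_union, Finset.mem_coe, h1, h2, or_false] at h3
  exact h3

theorem AI_comp {g g' : ℂ → ℂ} (hg' : Function.Injective g') {A : Set ℂ} (h : AI A g)
    (h' : AI A g') : AI A (g ∘ g') := by
  refine (h'.union (Set.Finite.preimage (hg'.injOn) h)).subset ?_
  intro z hz
  simp only [Set.mem_ofPred_eq, Function.comp_apply] at hz
  simp only [Set.mem_union, Set.mem_ofPred_eq, Set.mem_preimage]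
  by_contra hcon
  push Not at hcon
  obtain ⟨h1, h2⟩ := hcon
  exact hz (h2.trans h1)

theorem AI_symm {g : ℂ ≃ᵢ ℂ} {A : Set ℂ} (h : AI A g) : AI A g.symm := by
  refine (h.image g).subset ?_
  intro z hz
  refine ⟨g.symm z, ?_, by simp⟩
  simp only [Set.mem_ofPred_eq, IsometryEquiv.apply_symm_apply]
  simp only [Set.mem_ofPred_eq] at hz
  intro h2
  exact hz h2.symm

open Classical in
theorem fs1 (w : ℂ) (c : ℝ) : (∑ᶠ z : ℂ, (if z = w then c else 0)) = c := by
  rw [finsum_eq_single _ w (fun z hz => if_neg hz), if_pos rfl]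

theorem ind_congr {A : Set ℂ} {z w : ℂ} (h : z ∈ A ↔ w ∈ A) : ind A z = ind A w := by
  unfold ind
  by_cases h1 : w ∈ A
  · rw [if_pos h1, if_pos (h.2 h1)]
  · rw [if_neg h1, if_neg (fun h2 => h1 (h.1 h2))]

/-- inserting a point -/
theorem EE_insert {t : ℂ} {x η : ℂ → ℝ} {τ : ℝ} (ht : t ≠ 0) (hτ : τ ≠ 0)
    (hx : ∀ z, x (z + t) = x z + τ) (hη : ∀ z, η (z + t) = η z) {A : Set ℂ}
    (hA : AI A (fun z => z + t)) {w : ℂ} (hw : w ∉ A) {l : ℝ} (hl : l ≠ 0) (h : ℝ) :
    EE t x η τ (insert w A) l h = EE t x η τ A l h + wt x η l h w := by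
  have h0 : Real.exp (l * τ) - 1 ≠ 0 := by
    intro h1
    have h2 : Real.exp (l * τ) = 1 := by linarith
    rw [Real.exp_eq_one_iff] at h2
    exact (mul_ne_zero hl hτ) h2
  classical
  have hee : ∀ z, ee t (insert w A) z = ee t A z + ((if z = w + t then 1 else 0)
      - (if z = w then 1 else 0)) := by
    intro z
    unfold ee ind
    simp only [Set.mem_insert_iff, sub_eq_iff_eq_add]
    by_cases h1 : z = w + t
    · have h2 : z ≠ w := by
        rintro rfl
        apply ht
        have := h1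
        simpa using this
      have h3 : z - t ∉ A := by rw [h1]; simpa using hw
      simp only [h1, true_or, if_true]
      rw [← h1]
      simp only [h2, h3, false_or, if_false]
      ring
    · by_cases h2 : z = w
      · subst h2
        simp only [h1, hw, false_or, true_or, if_true, if_false]
        ring
      · simp only [h1, h2, false_or, if_false]
        ring
  have hsum : (∑ᶠ z, ee t (insert w A) z * wt x η l h z) =
      (∑ᶠ z, ee t A z * wt x η l h z) + (wt x η l h (w + t) - wt x η l h w) := by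
    have h1 : ∀ z, ee t (insert w A) z * wt x η l h z = ee t A z * wt x η l h z +
        ((if z = w + t then wt x η l h (w + t) else 0) - (if z = w then wt x η l h w else 0)) := by
      intro z
      rw [hee z, add_mul, sub_mul]
      congr 2
      · by_cases h2 : z = w + t
        · simp [h2]
        · simp [h2]
      · by_cases h2 : z = w
        · simp [h2]
        · simp [h2]
    rw [finsum_congr h1]
    have hf1 : (Function.support (fun z : ℂ => if z = w + t then wt x η l h (w + t) else 0)).Finite := by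
      refine (Set.finite_singleton (w + t)).subset ?_
      intro z hz
      by_contra h2
      apply hz
      simp only [Set.mem_singleton_iff] at h2
      simp [h2]
    have hf2 : (Function.support (fun z : ℂ => if z = w then wt x η l h w else 0)).Finite := by
      refine (Set.finite_singleton w).subset ?_
      intro z hz
      by_contra h2
      apply hz
      simp only [Set.mem_singleton_iff] at h2
      simp [h2]
    have hf3 : (Function.support (fun z : ℂ => (if z = w + t then wt x η l h (w + t) else 0) -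
        (if z = w then wt x η l h w else 0))).Finite := by
      refine (hf1.union hf2).subset ?_
      intro z hz
      by_contra h2
      apply hz
      simp only [Set.mem_union, Function.mem_support, ne_eq, not_or, not_not] at h2
      simp only [h2.1, h2.2, sub_zero]
    rw [finsum_add_distrib (sum_fin hA _) hf3, finsum_sub_distrib hf1 hf2, fs1, fs1]
  have hwt : wt x η l h (w + t) = Real.exp (l * τ) * wt x η l h w := by
    unfold wt
    rw [hη, hx]
    by_cases h1 : η w = h
    · rw [if_pos h1, if_pos h1, ← Real.exp_add]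
      congr 1
      ring
    · rw [if_neg h1, if_neg h1, mul_zero]
  unfold EE
  rw [hsum, hwt]
  field_simp

/-- the information given by a symmetry -/
def Info (t : ℂ) (x η : ℂ → ℝ) (τ : ℝ) (B : Set ℂ) : Prop :=
  (∀ h₁ h₂, EE t x η τ B 1 h₁ * EE t x η τ B (-1) h₂ = EE t x η τ B (-1) h₁ * EE t x η τ B 1 h₂) ∧
  (∀ h, EE t x η τ B 2 h * (EE t x η τ B (-1) h) ^ 2 =
    EE t x η τ B (-2) h * (EE t x η τ B 1 h) ^ 2)

theorem info_pos {t : ℂ} {x η : ℂ → ℝ} {τ : ℝ} {B : Set ℂ}
    (g : ℂ ≃ᵢ ℂ) (hg : ∀ z, g z ∈ B ↔ z ∈ B) {b : ℝ} (hb : b ≠ 0)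
    (hgt : ∀ z, g (z - t) = g z - t)
    (hgx : ∀ z, x (g z) = x z + b) (hgη : ∀ z, η (g z) = η z) {l : ℝ} (hl : l ≠ 0) (h : ℝ) :
    EE t x η τ B l h = 0 := by
  have h1 : ∀ z, ee t B (g z) = ee t B z := by
    intro z
    unfold ee
    rw [← hgt, ind_congr (hg (z - t)), ind_congr (hg z)]
  have h2 : ∀ z, wt x η l h (g z) = Real.exp (l * b) * wt x η l h z := by
    intro z
    unfold wt
    rw [hgx, hgη]
    by_cases h3 : η z = h
    · rw [if_pos h3, if_pos h3, ← Real.exp_add]
      congr 1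
      ring
    · rw [if_neg h3, if_neg h3, mul_zero]
  have h3 : (∑ᶠ z, ee t B z * wt x η l h z) = Real.exp (l * b) * ∑ᶠ z, ee t B z * wt x η l h z := by
    rw [mul_finsum]
    rw [← finsum_comp_equiv g.toEquiv]
    apply finsum_congr
    intro z
    show ee t B (g z) * wt x η l h (g z) = _
    rw [h1, h2]
    ring
  have h4 : Real.exp (l * b) ≠ 1 := by
    intro h5
    rw [Real.exp_eq_one_iff] at h5
    exact (mul_ne_zero hl hb) h5
  have h5 : (∑ᶠ z, ee t B z * wt x η l h z) = 0 := by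
    have h6 : (Real.exp (l * b) - 1) * (∑ᶠ z, ee t B z * wt x η l h z) = 0 := by linarith
    rcases mul_eq_zero.1 h6 with h7 | h7
    · exact absurd (by linarith) h4
    · exact h7
  unfold EE
  rw [h5, zero_div]

theorem info_neg {t : ℂ} {x η : ℂ → ℝ} {τ : ℝ} {B : Set ℂ}
    (hτ : τ ≠ 0) (hx : ∀ z, x (z + t) = x z + τ) (hη : ∀ z, η (z + t) = η z)
    (g : ℂ ≃ᵢ ℂ) (hg : ∀ z, g z ∈ B ↔ z ∈ B) {b : ℝ}
    (hgt : ∀ z, g (z + t) = g z - t)
    (hgx : ∀ z, x (g z) = - x z + b) (hgη : ∀ z, η (g z) = η z) {l : ℝ} (hl : l ≠ 0) (h : ℝ) :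
    EE t x η τ B l h = Real.exp (l * b) * EE t x η τ B (-l) h := by
  have h1 : ∀ z, ee t B (g z) = - ee t B (z + t) := by
    intro z
    unfold ee
    rw [← hgt, add_sub_cancel_right, ind_congr (hg (z + t)), ind_congr (hg z)]
    ring
  have h2 : ∀ z, wt x η l h (g z) = Real.exp (l * b + l * τ) * wt x η (-l) h (z + t) := by
    intro z
    unfold wt
    rw [hgx, hgη, hη, hx]
    by_cases h3 : η z = h
    · rw [if_pos h3, if_pos h3, ← Real.exp_add]
      congr 1
      ring
    · rw [if_neg h3, if_neg h3, mul_zero]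
  have h3 : (∑ᶠ z, ee t B z * wt x η l h z) =
      (- Real.exp (l * b + l * τ)) * ∑ᶠ z, ee t B z * wt x η (-l) h z := by
    rw [mul_finsum]
    rw [← finsum_comp_equiv g.toEquiv, ← finsum_comp_equiv (Equiv.addRight t)
      (f := fun z => - Real.exp (l * b + l * τ) * (ee t B z * wt x η (-l) h z))]
    apply finsum_congr
    intro z
    show ee t B (g z) * wt x η l h (g z) = - Real.exp (l * b + l * τ) *
      (ee t B (z + t) * wt x η (-l) h (z + t))
    rw [h1, h2]
    ring
  have h4 : Real.exp (l * τ) - 1 ≠ 0 := by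
    intro h5
    have h6 : Real.exp (l * τ) = 1 := by linarith
    rw [Real.exp_eq_one_iff] at h6
    exact (mul_ne_zero hl hτ) h6
  have h7 : Real.exp (-l * τ) * Real.exp (l * τ) = 1 := by
    rw [← Real.exp_add]
    simp
  have h8 : Real.exp (-l * τ) - 1 ≠ 0 := by
    intro h5
    apply h4
    have h6 : Real.exp (-l * τ) = 1 := by linarith
    rw [h6, one_mul] at h7
    linarith
  unfold EE
  rw [h3, Real.exp_add]
  rw [div_eq_iff h4]
  have h9 : Real.exp (l * b) * ((∑ᶠ z, ee t B z * wt x η (-l) h z) / (Real.exp (-l * τ) - 1)) *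
      (Real.exp (l * τ) - 1) = Real.exp (l * b) * (∑ᶠ z, ee t B z * wt x η (-l) h z) *
      ((Real.exp (l * τ) - 1) / (Real.exp (-l * τ) - 1)) := by
    ring
  rw [h9]
  have h10 : (Real.exp (l * τ) - 1) / (Real.exp (-l * τ) - 1) = - Real.exp (l * τ) := by
    rw [div_eq_iff h8]
    linear_combination h7
  rw [h10]
  ring

/-- algebra for two points -/
theorem alg2 {P P' Q Q' p p' q q' : ℝ} (h0 : P * Q' = P' * Q)
    (h1 : (P + p) * Q' = (P' + p') * Q) (h2 : P * (Q' + q') = P' * (Q + q))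
    (h3 : (P + p) * (Q' + q') = (P' + p') * (Q + q)) : p * q' = p' * q := by
  linear_combination h3 - h1 - h2 + h0

/-- algebra for three points -/
theorem alg3 {A B C D a b c a' b' c' : ℝ} (ha : a * a' = 1) (hb : b * b' = 1) (hc : c * c' = 1)
    (h0 : A * B ^ 2 = C * D ^ 2)
    (h1 : (A + a ^ 2) * (B + a') ^ 2 = (C + a' ^ 2) * (D + a) ^ 2)
    (h2 : (A + b ^ 2) * (B + b') ^ 2 = (C + b' ^ 2) * (D + b) ^ 2)
    (h3 : (A + c ^ 2) * (B + c') ^ 2 = (C + c' ^ 2) * (D + c) ^ 2)
    (h12 : (A + a ^ 2 + b ^ 2) * (B + a' + b') ^ 2 = (C + a' ^ 2 + b' ^ 2) * (D + a + b) ^ 2)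
    (h13 : (A + a ^ 2 + c ^ 2) * (B + a' + c') ^ 2 = (C + a' ^ 2 + c' ^ 2) * (D + a + c) ^ 2)
    (h23 : (A + b ^ 2 + c ^ 2) * (B + b' + c') ^ 2 = (C + b' ^ 2 + c' ^ 2) * (D + b + c) ^ 2)
    (h123 : (A + a ^ 2 + b ^ 2 + c ^ 2) * (B + a' + b' + c') ^ 2 =
      (C + a' ^ 2 + b' ^ 2 + c' ^ 2) * (D + a + b + c) ^ 2) :
    a ^ 2 = b * c ∨ b ^ 2 = a * c ∨ c ^ 2 = a * b := by
  have h4 : a ^ 2 * b' * c' + b ^ 2 * a' * c' + c ^ 2 * a' * b' =
      a' ^ 2 * b * c + b' ^ 2 * a * c + c' ^ 2 * a * b := by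
    linear_combination (h123 - h12 - h13 - h23 + h1 + h2 + h3 - h0) / 2
  have ha0 : a ≠ 0 := left_ne_zero_of_mul_eq_one ha
  have hb0 : b ≠ 0 := left_ne_zero_of_mul_eq_one hb
  have hc0 : c ≠ 0 := left_ne_zero_of_mul_eq_one hc
  have ha1 : a' = 1 / a := by field_simp; linarith
  have hb1 : b' = 1 / b := by field_simp; linarith
  have hc1 : c' = 1 / c := by field_simp; linarith
  rw [ha1, hb1, hc1] at h4
  have h5 : (a ^ 2 - b * c) * ((b ^ 2 - a * c) * (c ^ 2 - a * b)) = 0 := by
    field_simp at h4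
    linear_combination h4
  rcases mul_eq_zero.1 h5 with h6 | h6
  · left; linarith
  · rcases mul_eq_zero.1 h6 with h6 | h6
    · right; left; linarith
    · right; right; linarith


theorem trans_inj (t : ℂ) : Function.Injective (fun z : ℂ => z + t) := fun a b h => by
  simpa using h

theorem EE_union {t : ℂ} {x η : ℂ → ℝ} {τ : ℝ} (ht : t ≠ 0) (hτ : τ ≠ 0)
    (hx : ∀ z, x (z + t) = x z + τ) (hη : ∀ z, η (z + t) = η z) {A : Set ℂ}
    (hA : AI A (fun z => z + t)) {l : ℝ} (hl : l ≠ 0) (h : ℝ) (T : Finset ℂ) :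
    (∀ w ∈ T, w ∉ A) →
    EE t x η τ (A ∪ ↑T) l h = EE t x η τ A l h + ∑ w ∈ T, wt x η l h w := by
  classical
  induction T using Finset.induction_on with
  | empty => intro _; simp
  | insert a T haT ih =>
    intro hT
    have h1 : (A ∪ ↑(insert a T) : Set ℂ) = insert a (A ∪ ↑T) := by
      ext z
      simp only [Finset.coe_insert, Set.mem_union, Set.mem_insert_iff, Finset.mem_coe]
      tauto
    have h2 : a ∉ (A ∪ ↑T : Set ℂ) := by
      intro h3
      rcases h3 with h3 | h3
      · exact hT a (Finset.mem_insert_self _ _) h3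
      · exact haT h3
    rw [h1, EE_insert ht hτ hx hη (AI_union (trans_inj t) hA T) h2 hl, Finset.sum_insert haT,
      ih (fun w hw => hT w (Finset.mem_insert_of_mem hw))]
    ring

theorem two_pts {t : ℂ} {x η : ℂ → ℝ} {τ : ℝ} (ht : t ≠ 0) (hτ : τ ≠ 0)
    (hx : ∀ z, x (z + t) = x z + τ) (hη : ∀ z, η (z + t) = η z) {B : Set ℂ}
    (hB : AI B (fun z => z + t)) (M : Finset ℂ) (hd : ∀ w ∈ M, w ∉ B)
    (hinfo : ∀ T ⊆ M, Info t x η τ (B ∪ ↑T)) (v w : ℂ) (hv : v ∈ M) (hw : w ∈ M)
    (hne : η v ≠ η w) : x v = x w := by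
  classical
  have hvw : v ≠ w := fun h => hne (by rw [h])
  have hs : ∀ T ⊆ M, (EE t x η τ B 1 (η v) + ∑ u ∈ T, wt x η 1 (η v) u) *
      (EE t x η τ B (-1) (η w) + ∑ u ∈ T, wt x η (-1) (η w) u) =
      (EE t x η τ B (-1) (η v) + ∑ u ∈ T, wt x η (-1) (η v) u) *
      (EE t x η τ B 1 (η w) + ∑ u ∈ T, wt x η 1 (η w) u) := by
    intro T hT
    have h1 := (hinfo T hT).1 (η v) (η w)
    have hd' : ∀ w ∈ T, w ∉ B := fun w hw => hd w (hT hw)
    rw [EE_union ht hτ hx hη hB one_ne_zero _ T hd',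
      EE_union ht hτ hx hη hB one_ne_zero _ T hd',
      EE_union ht hτ hx hη hB (neg_ne_zero.2 one_ne_zero) _ T hd',
      EE_union ht hτ hx hη hB (neg_ne_zero.2 one_ne_zero) _ T hd'] at h1
    exact h1
  have w1 : ∀ l, wt x η l (η v) v = Real.exp (l * x v) := fun l => if_pos rfl
  have w2 : ∀ l, wt x η l (η v) w = 0 := fun l => if_neg (Ne.symm hne)
  have w3 : ∀ l, wt x η l (η w) v = 0 := fun l => if_neg hne
  have w4 : ∀ l, wt x η l (η w) w = Real.exp (l * x w) := fun l => if_pos rfl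
  have e0 := hs ∅ (Finset.empty_subset _)
  have e1 := hs {v} (Finset.singleton_subset_iff.2 hv)
  have e2 := hs {w} (Finset.singleton_subset_iff.2 hw)
  have e3 := hs {v, w} (Finset.insert_subset hv (Finset.singleton_subset_iff.2 hw))
  simp only [Finset.sum_empty, add_zero] at e0
  simp only [Finset.sum_singleton, w1, w2, w3, w4, add_zero] at e1 e2
  rw [Finset.sum_pair hvw, Finset.sum_pair hvw, Finset.sum_pair hvw, Finset.sum_pair hvw] at e3
  simp only [w1, w2, w3, w4, add_zero, zero_add] at e3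
  have e4 := alg2 e0 e1 e2 e3
  rw [← Real.exp_add, ← Real.exp_add, Real.exp_eq_exp] at e4
  linarith

theorem three_pts {t : ℂ} {x η : ℂ → ℝ} {τ : ℝ} (ht : t ≠ 0) (hτ : τ ≠ 0)
    (hx : ∀ z, x (z + t) = x z + τ) (hη : ∀ z, η (z + t) = η z) {B : Set ℂ}
    (hB : AI B (fun z => z + t)) (M : Finset ℂ) (hd : ∀ w ∈ M, w ∉ B)
    (hinfo : ∀ T ⊆ M, Info t x η τ (B ∪ ↑T)) (u v w : ℂ) (hu : u ∈ M) (hv : v ∈ M) (hw : w ∈ M)
    (huv : u ≠ v) (huw : u ≠ w) (hvw : v ≠ w)
    (h1 : η v = η u) (h2 : η w = η u) :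
    2 * x u = x v + x w ∨ 2 * x v = x u + x w ∨ 2 * x w = x u + x v := by
  classical
  have hs : ∀ T ⊆ M, (EE t x η τ B 2 (η u) + ∑ s ∈ T, wt x η 2 (η u) s) *
      (EE t x η τ B (-1) (η u) + ∑ s ∈ T, wt x η (-1) (η u) s) ^ 2 =
      (EE t x η τ B (-2) (η u) + ∑ s ∈ T, wt x η (-2) (η u) s) *
      (EE t x η τ B 1 (η u) + ∑ s ∈ T, wt x η 1 (η u) s) ^ 2 := by
    intro T hT
    have h1 := (hinfo T hT).2 (η u)
    have hd' : ∀ w ∈ T, w ∉ B := fun w hw => hd w (hT hw)
    rw [EE_union ht hτ hx hη hB one_ne_zero _ T hd',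
      EE_union ht hτ hx hη hB two_ne_zero _ T hd',
      EE_union ht hτ hx hη hB (neg_ne_zero.2 one_ne_zero) _ T hd',
      EE_union ht hτ hx hη hB (neg_ne_zero.2 two_ne_zero) _ T hd'] at h1
    exact h1
  have q2 : ∀ a : ℝ, Real.exp (2 * a) = Real.exp a ^ 2 := fun a => by
    rw [← Real.exp_nat_mul]; norm_num
  have q3 : ∀ a : ℝ, Real.exp (-2 * a) = Real.exp (-a) ^ 2 := fun a => by
    rw [← Real.exp_nat_mul]; norm_num
  have q4 : ∀ a : ℝ, Real.exp (-1 * a) = Real.exp (-a) := fun a => by ring_nf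
  have q5 : ∀ a : ℝ, Real.exp (1 * a) = Real.exp a := fun a => by ring_nf
  have w1 : ∀ l, wt x η l (η u) u = Real.exp (l * x u) := fun l => if_pos rfl
  have w2 : ∀ l, wt x η l (η u) v = Real.exp (l * x v) := fun l => if_pos h1
  have w3 : ∀ l, wt x η l (η u) w = Real.exp (l * x w) := fun l => if_pos h2
  have huvw : u ∉ ({v, w} : Finset ℂ) := by
    simp only [Finset.mem_insert, Finset.mem_singleton, not_or]
    exact ⟨huv, huw⟩
  have sv : ({v, w} : Finset ℂ) ⊆ M := Finset.insert_subset hv (Finset.singleton_subset_iff.2 hw)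
  have e0 := hs ∅ (Finset.empty_subset _)
  have e1 := hs {u} (Finset.singleton_subset_iff.2 hu)
  have e2 := hs {v} (Finset.singleton_subset_iff.2 hv)
  have e3 := hs {w} (Finset.singleton_subset_iff.2 hw)
  have e12 := hs {u, v} (Finset.insert_subset hu (Finset.singleton_subset_iff.2 hv))
  have e13 := hs {u, w} (Finset.insert_subset hu (Finset.singleton_subset_iff.2 hw))
  have e23 := hs {v, w} sv
  have e123 := hs {u, v, w} (Finset.insert_subset hu sv)
  simp only [Finset.sum_empty, add_zero] at e0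
  simp only [Finset.sum_singleton, w1, w2, w3, q2, q3, q4, q5] at e1 e2 e3
  simp only [Finset.sum_pair huv, Finset.sum_pair huw, Finset.sum_pair hvw, w1, w2, w3,
    q2, q3, q4, q5, ← add_assoc] at e12 e13 e23
  simp only [Finset.sum_insert huvw, Finset.sum_pair hvw, w1, w2, w3, q2, q3, q4, q5,
    ← add_assoc] at e123
  have hexp : ∀ a : ℝ, Real.exp a * Real.exp (-a) = 1 := fun a => by
    rw [← Real.exp_add, add_neg_cancel, Real.exp_zero]
  have e4 := alg3 (hexp (x u)) (hexp (x v)) (hexp (x w)) e0 e1 e2 e3 e12 e13 e23 e123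
  simp only [← q2, ← Real.exp_add, Real.exp_eq_exp] at e4
  exact e4

/-- four free points force a vertical line -/
theorem coll {t : ℂ} {x η : ℂ → ℝ} {τ : ℝ} (ht : t ≠ 0) (hτ : τ ≠ 0)
    (hx : ∀ z, x (z + t) = x z + τ) (hη : ∀ z, η (z + t) = η z)
    (hinj : ∀ a b c : ℂ, x a = x b → x a = x c → η a = η b → η a = η c → a = b ∨ a = c ∨ b = c)
    {B : Set ℂ}
    (hB : AI B (fun z => z + t)) (M : Finset ℂ) (hd : ∀ w ∈ M, w ∉ B) (hM : 4 ≤ M.card)
    (hinfo : ∀ T ⊆ M, Info t x η τ (B ∪ ↑T)) (v w : ℂ) (hv : v ∈ M) (hw : w ∈ M) :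
    x v = x w := by
  classical
  have h2 := two_pts ht hτ hx hη hB M hd hinfo
  have h3 := three_pts ht hτ hx hη hB M hd hinfo
  by_cases hc : ∃ p ∈ M, ∃ q ∈ M, η p ≠ η q
  · obtain ⟨p, hp, q, hq, hpq⟩ := hc
    have hall : ∀ u ∈ M, x u = x p := by
      intro u hu
      by_cases h4 : η u = η p
      · rw [h2 u q hu hq (by rw [h4]; exact hpq), h2 p q hp hq hpq]
      · exact h2 u p hu hp h4
    rw [hall v hv, hall w hw]
  · exfalso
    push Not at hc
    have hxinj : ∀ a ∈ M, ∀ b ∈ M, x a = x b → a = b := by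
      intro a ha b hb hab
      by_contra hne
      have : ∃ c ∈ M, c ∉ ({a, b} : Finset ℂ) := by
        by_contra hcon
        push Not at hcon
        have h5 := Finset.card_le_card (show M ⊆ {a, b} from hcon)
        have h6 : ({a, b} : Finset ℂ).card ≤ 2 := Finset.card_le_two
        omega
      obtain ⟨c, hc1, hc2⟩ := this
      simp only [Finset.mem_insert, Finset.mem_singleton, not_or] at hc2
      have hac : a ≠ c := fun h => hc2.1 h.symm
      have hbc : b ≠ c := fun h => hc2.2 h.symm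
      have h5 := h3 a b c ha hb hc1 hne hac hbc (hc b hb a ha) (hc c hc1 a ha)
      have h6 : x a = x c := by
        rcases h5 with h5 | h5 | h5 <;> linarith
      rcases hinj a b c hab h6 (hc a ha b hb) (hc a ha c hc1) with h7 | h7 | h7
      · exact hne h7
      · exact hac h7
      · exact hbc h7
    -- four distinct reals with all triples in arithmetic progression
    have hcard : (M.image x).card = M.card := Finset.card_image_of_injOn (by
      intro a ha b hb hab
      exact hxinj a ha b hb hab)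
    have hAP : ∀ a ∈ M.image x, ∀ b ∈ M.image x, ∀ c ∈ M.image x, a ≠ b → a ≠ c → b ≠ c →
        2 * a = b + c ∨ 2 * b = a + c ∨ 2 * c = a + b := by
      intro a ha b hb c hc' hab hac hbc
      obtain ⟨a', ha', rfl⟩ := Finset.mem_image.1 ha
      obtain ⟨b', hb', rfl⟩ := Finset.mem_image.1 hb
      obtain ⟨c', hc'', rfl⟩ := Finset.mem_image.1 hc'
      exact h3 a' b' c' ha' hb' hc'' (fun h => hab (by rw [h])) (fun h => hac (by rw [h]))
        (fun h => hbc (by rw [h])) (hc b' hb' a' ha') (hc c' hc'' a' ha')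
    obtain ⟨S, hS, hS4⟩ := Finset.exists_subset_card_eq (by rw [hcard]; exact hM : 4 ≤ (M.image x).card)
    let o := S.orderEmbOfFin hS4
    have ho : ∀ i, o i ∈ M.image x := fun i => hS (Finset.orderEmbOfFin_mem S hS4 i)
    have l01 : o 0 < o 1 := o.strictMono (by decide)
    have l12 : o 1 < o 2 := o.strictMono (by decide)
    have l23 : o 2 < o 3 := o.strictMono (by decide)
    have k1 := hAP _ (ho 0) _ (ho 1) _ (ho 2) (by linarith [l01] : o 0 < o 1).ne
      (by linarith : o 0 < o 2).ne (by linarith : o 1 < o 2).ne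
    have k2 := hAP _ (ho 0) _ (ho 1) _ (ho 3) (by linarith [l01] : o 0 < o 1).ne
      (by linarith : o 0 < o 3).ne (by linarith : o 1 < o 3).ne
    rcases k1 with k1 | k1 | k1 <;> rcases k2 with k2 | k2 | k2 <;> linarith

/-- first coordinate -/
def X (t z : ℂ) : ℝ := (z * conj t).re

/-- second coordinate -/
def Y (t z : ℂ) : ℝ := (z * conj t).im

theorem X_add (t z w : ℂ) : X t (z + w) = X t z + X t w := by
  simp only [X, add_mul, add_re]

theorem Y_add (t z w : ℂ) : Y t (z + w) = Y t z + Y t w := by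
  simp only [Y, add_mul, add_im]

theorem X_self (t : ℂ) : X t t = normSq t := by
  simp only [X, mul_conj, ofReal_re]

theorem Y_self (t : ℂ) : Y t t = 0 := by
  simp only [Y, mul_conj, ofReal_im]

theorem XY_inj {t : ℂ} (ht : t ≠ 0) {z w : ℂ} (h1 : X t z = X t w) (h2 : Y t z = Y t w) :
    z = w := by
  have h3 : z * conj t = w * conj t := Complex.ext h1 h2
  exact mul_right_cancel₀ ((map_ne_zero _).2 ht) h3

theorem unit_real {t q : ℂ} (ht : t ≠ 0) (hq : ‖q‖ = 1) (h : (q * t * conj t).im = 0) :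
    q = 1 ∨ q = -1 := by
  rw [mul_assoc, mul_conj, im_mul_ofReal] at h
  have h1 : q.im = 0 := by
    rcases mul_eq_zero.1 h with h | h
    · exact h
    · exact absurd (normSq_eq_zero.1 h) ht
  have h2 : q.re ^ 2 = 1 := by
    have h3 : normSq q = 1 := by rw [normSq_eq_norm_sq, hq]; norm_num
    rw [normSq_apply, h1] at h3
    linarith
  have h4 : (q.re - 1) * (q.re + 1) = 0 := by linear_combination h2
  rcases mul_eq_zero.1 h4 with h3 | h3
  · left
    exact Complex.ext (by simp only [one_re]; linarith) (by simpa using h1)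
  · right
    exact Complex.ext (by simp only [neg_re, one_re]; linarith) (by simpa using h1)


/-- the translation `g t g⁻¹` -/
theorem AI_conj {A : Set ℂ} {t s : ℂ} (hA : AI A (fun z => z + t)) {g : ℂ ≃ᵢ ℂ} (hg : AI A g)
    (h : ∀ z, g (z + t) = g z + s) : AI A (fun z => z + s) := by
  have h1 := AI_comp (g := g ∘ (fun z => z + t)) (g' := g.symm) g.symm.injective
    (AI_comp (trans_inj t) hg hA) (AI_symm hg)
  have h2 : ((g ∘ (fun z => z + t)) ∘ g.symm) = (fun z => z + s) := by
    funext z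
    simp only [Function.comp_apply]
    rw [h, g.apply_symm_apply]
  rwa [h2] at h1

theorem coords {A : Set ℂ} {t : ℂ} (ht : t ≠ 0) (hA : AI A (fun z => z + t))
    (hno : ∀ s : ℂ, AI A (fun z => z + s) → (s * conj t).im = 0) (g : ℂ ≃ᵢ ℂ) (hg : AI A g) :
    ∃ ε δ b c : ℝ, (ε = 1 ∨ ε = -1) ∧ (δ = 1 ∨ δ = -1) ∧ (∀ z, X t (g z) = ε * X t z + b) ∧
      (∀ z, Y t (g z) = δ * Y t z + c) ∧ (∀ z, g (z + t) = g z + (ε : ℂ) * t) := by
  obtain ⟨a, b, ha, hab | hab⟩ := form g
  · have h1 : ∀ z, g (z + t) = g z + a * t := fun z => by rw [hab, hab]; ring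
    have h2 := hno _ (AI_conj hA hg h1)
    rcases unit_real ht ha h2 with h3 | h3
    · refine ⟨1, 1, X t b, Y t b, Or.inl rfl, Or.inl rfl, ?_, ?_, ?_⟩
      · intro z; rw [hab, X_add, h3, one_mul, one_mul]
      · intro z; rw [hab, Y_add, h3, one_mul, one_mul]
      · intro z; rw [h1, h3]; simp
    · refine ⟨-1, -1, X t b, Y t b, Or.inr rfl, Or.inr rfl, ?_, ?_, ?_⟩
      · intro z; rw [hab, X_add, h3]; simp [X]
      · intro z; rw [hab, Y_add, h3]; simp [Y]
      · intro z; rw [h1, h3]; simp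
  · have h1 : ∀ z, g (z + t) = g z + a * conj t := fun z => by rw [hab, hab, map_add]; ring
    have h2 := hno _ (AI_conj hA hg h1)
    have hct : conj t ≠ 0 := (map_ne_zero _).2 ht
    have h4 : a * conj t / t * t = a * conj t := div_mul_cancel₀ _ ht
    have h5 : ‖a * conj t / t‖ = 1 := by
      rw [norm_div, norm_mul, ha, one_mul, RCLike.norm_conj, div_self (norm_ne_zero_iff.2 ht)]
    have h6 : (a * conj t / t * t * conj t).im = 0 := by rw [h4]; exact h2
    have h8 : ∀ z, a * conj z * conj t = (a * conj t / t) * conj (z * conj t) := by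
      intro z
      rw [map_mul, conj_conj]
      field_simp
    rcases unit_real ht h5 h6 with h3 | h3
    · rw [h3] at h4 h8
      refine ⟨1, -1, X t b, Y t b, Or.inl rfl, Or.inr rfl, ?_, ?_, ?_⟩
      · intro z; rw [hab, X_add]; unfold X; rw [h8, one_mul, conj_re, one_mul]
      · intro z; rw [hab, Y_add]; unfold Y; rw [h8, one_mul, conj_im]; ring
      · intro z; rw [h1, ← h4]; simp
    · rw [h3] at h4 h8
      refine ⟨-1, 1, X t b, Y t b, Or.inr rfl, Or.inl rfl, ?_, ?_, ?_⟩
      · intro z; rw [hab, X_add]; unfold X; rw [h8, neg_one_mul, neg_re, conj_re]; ring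
      · intro z; rw [hab, Y_add]; unfold Y; rw [h8, neg_one_mul, neg_im, conj_im]; ring
      · intro z; rw [h1, ← h4]; simp

theorem yconst {A : Set ℂ} {t : ℂ} (ht : t ≠ 0)
    (hno : ∀ s : ℂ, AI A (fun z => z + s) → (s * conj t).im = 0) (g : ℂ → ℂ)
    (hgi : Function.Injective g) (hg : AI A g) {ε b c : ℝ} (hε : ε = 1 ∨ ε = -1)
    (hX : ∀ z, X t (g z) = ε * X t z + b) (hY : ∀ z, Y t (g z) = Y t z + c) : c = 0 := by
  have h1 := AI_comp hgi hg hg
  have h2 : g ∘ g = fun z => z + g (g 0) := by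
    funext z
    refine XY_inj ht ?_ ?_
    · simp only [Function.comp_apply]
      rw [X_add, hX, hX, hX, hX]
      have : X t 0 = 0 := by simp [X]
      rw [this]
      rcases hε with h | h <;> rw [h] <;> ring
    · simp only [Function.comp_apply]
      rw [Y_add, hY, hY, hY, hY]
      have : Y t 0 = 0 := by simp [Y]
      rw [this]
      ring
  rw [h2] at h1
  have h3 : Y t (g (g 0)) = 0 := hno _ h1
  rw [hY, hY] at h3
  have : Y t 0 = 0 := by simp [Y]
  rw [this] at h3
  linarith

theorem beta {A : Set ℂ} {t : ℂ} (ht : t ≠ 0) (hA : AI A (fun z => z + t))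
    (hno : ∀ s : ℂ, AI A (fun z => z + s) → (s * conj t).im = 0) :
    ∃ β : ℝ, ∀ g : ℂ ≃ᵢ ℂ, AI A g → ∃ ε b : ℝ, (ε = 1 ∨ ε = -1) ∧
      (∀ z, X t (g z) = ε * X t z + b) ∧
      ((∀ z, Y t (g z) = Y t z) ∨ (∀ z, Y t (g z) = - Y t z + β)) ∧
      (∀ z, g (z + t) = g z + (ε : ℂ) * t) := by
  by_cases hex : ∃ g : ℂ ≃ᵢ ℂ, AI A g ∧ ∃ ε b c : ℝ, (ε = 1 ∨ ε = -1) ∧
      (∀ z, X t (g z) = ε * X t z + b) ∧ (∀ z, Y t (g z) = - Y t z + c)
  · obtain ⟨f, hf, ε₀, b₀, β, hε₀, hX₀, hY₀⟩ := hex
    refine ⟨β, fun g hg => ?_⟩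
    obtain ⟨ε, δ, b, c, hε, hδ, hX, hY, hT⟩ := coords ht hA hno g hg
    refine ⟨ε, b, hε, hX, ?_, hT⟩
    rcases hδ with hδ | hδ
    · left
      have h1 : c = 0 := yconst ht hno g g.injective hg hε hX (fun z => by rw [hY, hδ, one_mul])
      intro z
      rw [hY, hδ, h1]
      ring
    · right
      have h1 : c - β = 0 := by
        refine yconst (ε := ε * ε₀) (b := ε * b₀ + b) ht hno (g ∘ f)
          (g.injective.comp f.injective) (AI_comp f.injective hg hf) ?_ ?_ ?_
        · rcases hε with h | h <;> rcases hε₀ with h' | h' <;> rw [h, h'] <;> norm_num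
        · intro z
          simp only [Function.comp_apply]
          rw [hX, hX₀]
          ring
        · intro z
          simp only [Function.comp_apply]
          rw [hY, hY₀, hδ]
          ring
      intro z
      rw [hY, hδ]
      linarith
  · refine ⟨0, fun g hg => ?_⟩
    obtain ⟨ε, δ, b, c, hε, hδ, hX, hY, hT⟩ := coords ht hA hno g hg
    refine ⟨ε, b, hε, hX, ?_, hT⟩
    rcases hδ with hδ | hδ
    · left
      have h1 : c = 0 := yconst ht hno g g.injective hg hε hX (fun z => by rw [hY, hδ, one_mul])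
      intro z
      rw [hY, hδ, h1]
      ring
    · exfalso
      exact hex ⟨g, hg, ε, b, c, hε, hX, fun z => by rw [hY, hδ]; ring⟩

end Fr

open Fr in
/-- the frieze case -/
theorem frieze (A : Set ℂ) (W : Finset ℂ) (hd : ∀ w ∈ W, w ∉ A) (hc : 7 ≤ W.card)
    (hn : ¬ Lin (W : Set ℂ)) (t : ℂ) (ht : t ≠ 0) (hA : AI A (fun z => z + t))
    (hno : ∀ s : ℂ, AI A (fun z => z + s) → (s * conj t).im = 0)
    (hs : ∀ T ⊆ W, HasSym (A ∪ ↑T)) : False := by
  classical
  obtain ⟨β, hβ⟩ := beta ht hA hno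
  have hτ : normSq t ≠ 0 := by
    intro h
    exact ht (normSq_eq_zero.1 h)
  have hx : ∀ z, X t (z + t) = X t z + normSq t := fun z => by rw [X_add, X_self]
  let η : ℂ → ℝ := fun z => |Y t z - β / 2|
  have hη : ∀ z, η (z + t) = η z := fun z => by
    show |Y t (z + t) - β / 2| = |Y t z - β / 2|
    rw [Y_add, Y_self, add_zero]
  have hinj : ∀ a b c : ℂ, X t a = X t b → X t a = X t c → η a = η b → η a = η c →
      a = b ∨ a = c ∨ b = c := by
    intro a b c h1 h2 h3 h4
    rcases abs_eq_abs.1 h3 with h5 | h5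
    · left
      exact XY_inj ht h1 (by linarith)
    · rcases abs_eq_abs.1 h4 with h6 | h6
      · right; left
        exact XY_inj ht h2 (by linarith)
      · right; right
        exact XY_inj ht (h1.symm.trans h2) (by linarith)
  -- the reflection in the axis
  let ρ : ℂ → ℂ := fun z => (conj z * t + (β : ℂ) * I) / conj t
  have hct : conj t ≠ 0 := (map_ne_zero _).2 ht
  have hρ : ∀ z, ρ z * conj t = conj (z * conj t) + (β : ℂ) * I := fun z => by
    show (conj z * t + (β : ℂ) * I) / conj t * conj t = _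
    rw [div_mul_cancel₀ _ hct, map_mul, conj_conj]
  have hρX : ∀ z, X t (ρ z) = X t z := fun z => by
    unfold X
    rw [hρ]
    simp
  have hρY : ∀ z, Y t (ρ z) = - Y t z + β := fun z => by
    unfold Y
    rw [hρ, add_im, conj_im]
    simp
  have hρne : ∀ z, Y t z ≠ β / 2 → ρ z ≠ z := fun z hz h => by
    have h1 := hρY z
    rw [h] at h1
    exact hz (by linarith)
  have hρρ : ∀ z, ρ (ρ z) = z := fun z => by
    refine XY_inj ht ?_ ?_
    · rw [hρX, hρX]
    · rw [hρY, hρY]; ring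
  -- key step
  have key : ∀ w ∈ W, Y t w ≠ β / 2 → ∀ u ∈ W, u ≠ w → u ≠ ρ w → ∀ v ∈ W, v ≠ w → v ≠ ρ w →
      X t u = X t v := by
    intro w hw hwY u hu huw huρ v hv hvw hvρ
    set M : Finset ℂ := (W.erase w).erase (ρ w) with hM
    have hMW : M ⊆ W := fun z hz => Finset.mem_of_mem_erase (Finset.mem_of_mem_erase hz)
    have hMw : w ∉ M := fun h => (Finset.ne_of_mem_erase (Finset.mem_of_mem_erase h)) rfl
    have hMρ : ρ w ∉ M := fun h => (Finset.ne_of_mem_erase h) rfl
    have hcard : 4 ≤ M.card := by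
      have h1 := Finset.pred_card_le_card_erase (s := W.erase w) (a := ρ w)
      have h2 := Finset.pred_card_le_card_erase (s := W) (a := w)
      rw [← hM] at h1
      omega
    let T₀ : Finset ℂ := if ρ w ∈ A then ∅ else {w}
    have hT₀ : T₀ ⊆ {w} := by
      by_cases h : ρ w ∈ A
      · simp [T₀, h]
      · simp [T₀, h]
    have hT₀M : ∀ z ∈ M, z ∉ T₀ := fun z hz h => by
      have := Finset.mem_singleton.1 (hT₀ h)
      rw [this] at hz
      exact hMw hz
    have hBM : ∀ z ∈ M, z ∉ (A ∪ ↑T₀ : Set ℂ) := by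
      rintro z hz (h | h)
      · exact hd z (hMW hz) h
      · exact hT₀M z hz h
    have hnotsym : ∀ T ⊆ M, ¬ (ρ w ∈ ((A ∪ ↑T₀) ∪ ↑T : Set ℂ) ↔ w ∈ ((A ∪ ↑T₀) ∪ ↑T : Set ℂ)) := by
      intro T hT h
      have h1 : w ∉ A := hd w hw
      have h2 : w ∉ T := fun h => hMw (hT h)
      have h3 : ρ w ∉ T := fun h => hMρ (hT h)
      simp only [Set.mem_union, Finset.mem_coe, h1, h2, h3, or_false, false_or] at h
      by_cases h4 : ρ w ∈ A
      · have h5 : T₀ = ∅ := if_pos h4
        rw [h5] at h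
        simp [h4] at h
      · have h5 : T₀ = {w} := if_neg h4
        rw [h5] at h
        simp only [h4, false_or, Finset.mem_singleton, iff_true] at h
        exact hρne w hwY h
    have hinfo : ∀ T ⊆ M, Info t (X t) η (normSq t) ((A ∪ ↑T₀) ∪ ↑T) := by
      intro T hT
      have hB : ((A ∪ ↑T₀) ∪ ↑T : Set ℂ) = A ∪ ↑(T₀ ∪ T) := by
        rw [Finset.coe_union, Set.union_assoc]
      have hns := hnotsym T hT
      rw [hB] at hns ⊢
      have hsub : T₀ ∪ T ⊆ W := by
        refine Finset.union_subset (hT₀.trans (Finset.singleton_subset_iff.2 hw)) (hT.trans hMW)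
      obtain ⟨g, hg1, hg⟩ := hs _ hsub
      obtain ⟨ε, b, hε, hgX, hgY, hgT⟩ := hβ g (AI_of_sym g.injective _ hg)
      have hgη : ∀ z, η (g z) = η z := by
        intro z
        show |Y t (g z) - β / 2| = |Y t z - β / 2|
        rcases hgY with h | h
        · rw [h]
        · rw [h, ← abs_neg]
          congr 1
          ring
      rcases hε with hε | hε
      · have hgX' : ∀ z, X t (g z) = X t z + b := fun z => by rw [hgX, hε, one_mul]
        have hb : b ≠ 0 := by
          rintro rfl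
          rcases hgY with h | h
          · obtain ⟨z, hz⟩ := iso_ne_one hg1
            exact hz (XY_inj ht (by rw [hgX', add_zero]) (h z))
          · have h1 : g w = ρ w := XY_inj ht (by rw [hgX', hρX, add_zero]) (by rw [h, hρY])
            apply hns
            rw [← h1]
            exact hg w
        have hgT' : ∀ z, g (z - t) = g z - t := by
          intro z
          have h1 := hgT (z - t)
          rw [sub_add_cancel, hε] at h1
          rw [h1]
          simp
        have hz : ∀ l : ℝ, l ≠ 0 → ∀ h, EE t (X t) η (normSq t) (A ∪ ↑(T₀ ∪ T)) l h = 0 :=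
          fun l hl h => info_pos g hg hb hgT' hgX' hgη hl h
        refine ⟨fun h₁ h₂ => ?_, fun h => ?_⟩
        · rw [hz 1 one_ne_zero, hz (-1) (neg_ne_zero.2 one_ne_zero) h₁]
          ring
        · rw [hz 2 two_ne_zero, hz (-2) (neg_ne_zero.2 two_ne_zero)]
          ring
      · have hgX' : ∀ z, X t (g z) = - X t z + b := fun z => by rw [hgX, hε]; ring
        have hgT' : ∀ z, g (z + t) = g z - t := by
          intro z
          rw [hgT, hε]
          push_cast
          ring
        have hz : ∀ l : ℝ, l ≠ 0 → ∀ h, EE t (X t) η (normSq t) (A ∪ ↑(T₀ ∪ T)) l h =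
            Real.exp (l * b) * EE t (X t) η (normSq t) (A ∪ ↑(T₀ ∪ T)) (-l) h :=
          fun l hl h => info_neg hτ hx hη g hg hgT' hgX' hgη hl h
        refine ⟨fun h₁ h₂ => ?_, fun h => ?_⟩
        · rw [hz 1 one_ne_zero h₁, hz 1 one_ne_zero h₂]
          ring
        · rw [hz 2 two_ne_zero h, hz 1 one_ne_zero h]
          have h1 : Real.exp (2 * b) = Real.exp (1 * b) ^ 2 := by
            rw [← Real.exp_nat_mul]
            norm_num
          rw [h1]
          ring
    have hBt : AI (A ∪ ↑T₀) (fun z => z + t) := AI_union (trans_inj t) hA T₀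
    exact coll ht hτ hx hη hinj hBt M hBM hcard hinfo u v
      (Finset.mem_erase.2 ⟨huρ, Finset.mem_erase.2 ⟨huw, hu⟩⟩)
      (Finset.mem_erase.2 ⟨hvρ, Finset.mem_erase.2 ⟨hvw, hv⟩⟩)
  -- conclusion
  apply hn
  by_cases hoff : ∃ w ∈ W, Y t w ≠ β / 2
  · obtain ⟨w, hw, hwY⟩ := hoff
    -- a second point off the axis
    have h1 : ∃ w' ∈ W, w' ≠ w ∧ w' ≠ ρ w ∧ Y t w' ≠ β / 2 := by
      have hcard : 5 ≤ ((W.erase w).erase (ρ w)).card := by
        have h1 := Finset.pred_card_le_card_erase (s := W.erase w) (a := ρ w)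
        have h2 := Finset.pred_card_le_card_erase (s := W) (a := w)
        omega
      obtain ⟨a, ha, b, hb, hab⟩ := Finset.one_lt_card.1 (by omega :
        1 < ((W.erase w).erase (ρ w)).card)
      simp only [Finset.mem_erase] at ha hb
      by_cases h2 : Y t a = β / 2
      · by_cases h3 : Y t b = β / 2
        · exfalso
          exact hab (XY_inj ht (key w hw hwY a ha.2.2 ha.2.1 ha.1 b hb.2.2 hb.2.1 hb.1)
            (h2.trans h3.symm))
        · exact ⟨b, hb.2.2, hb.2.1, hb.1, h3⟩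
      · exact ⟨a, ha.2.2, ha.2.1, ha.1, h2⟩
    obtain ⟨w', hw', hw'w, hw'ρ, hw'Y⟩ := h1
    have hw2 : w ≠ ρ w' := fun h => hw'ρ (by rw [h, hρρ])
    -- a common point
    have h2 : ∃ c ∈ W, c ≠ w ∧ c ≠ ρ w ∧ c ≠ w' ∧ c ≠ ρ w' := by
      by_contra hcon
      push Not at hcon
      have h3 : W ⊆ {w, ρ w, w', ρ w'} := by
        intro c hc
        simp only [Finset.mem_insert, Finset.mem_singleton]
        by_contra h4
        push Not at h4
        exact h4.2.2.2 (hcon c hc h4.1 h4.2.1 h4.2.2.1)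
      have h4 := Finset.card_le_card h3
      have h5 : ({w, ρ w, w', ρ w'} : Finset ℂ).card ≤ 4 := Finset.card_le_four
      omega
    obtain ⟨c, hc', hc1, hc2, hc3, hc4⟩ := h2
    have hall : ∀ u ∈ W, X t u = X t c := by
      intro u hu
      by_cases h3 : u = w ∨ u = ρ w
      · have h4 : u ≠ w' := by
          rintro rfl
          rcases h3 with h3 | h3
          · exact hw'w h3
          · exact hw'ρ h3
        have h5 : u ≠ ρ w' := by
          rintro rfl
          rcases h3 with h3 | h3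
          · exact hw2 h3.symm
          · apply hw'w
            have := congrArg ρ h3
            rwa [hρρ, hρρ] at this
        exact key w' hw' hw'Y u hu h4 h5 c hc' hc3 hc4
      · push Not at h3
        exact key w hw hwY u hu h3.1 h3.2 c hc' hc1 hc2
    refine ⟨c, I * t, mul_ne_zero I_ne_zero ht, ?_⟩
    intro u hu
    have h3 := hall u hu
    unfold X at h3
    have h4 : (u - c) * conj (I * t) = -I * (u * conj t - c * conj t) := by
      rw [map_mul, conj_I]
      ring
    rw [h4]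
    simp only [neg_mul, neg_im, mul_im, I_re, I_im, sub_re, sub_im]
    rw [h3]
    ring
  · push Not at hoff
    refine ⟨ρ 0 / 2, t, ht, ?_⟩
    intro u hu
    have h3 := hoff u hu
    have h4 := hρY 0
    unfold Y at h3 h4
    have h5 : ρ 0 / 2 * conj t = (ρ 0 * conj t) * ((1 / 2 : ℝ) : ℂ) := by
      push_cast
      ring
    rw [sub_mul, sub_im, h3, h5, im_mul_ofReal, h4]
    simp
    ring

end Ext7
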