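import Pool.Agent.Lib.MP_ad0d06_co.Fixed
import Pool.Agent.Lib.MP_ad0d06_co.Circ
import Pool.Agent.Lib.MP_ad0d06_co.Frieze

/-!
The case of symmetries with a common fixed point (MP_ad0d06_co, module CenterA).
-/

open Complex ComplexConjugate

noncomputable section

namespace Ext7

namespace CA

open Fr

/-- the difference of the indicator along the rotation by `b` -/
def er (b : ℂ) (A : Set ℂ) (z : ℂ) : ℂ := ((ind A (conj b * z) - ind A z : ℝ) : ℂ)

/-- the regularised sum of `f` over `A` -/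
def SS (b β : ℂ) (f : ℂ → ℂ) (A : Set ℂ) : ℂ := (∑ᶠ z, er b A z * f z) / (β - 1)

theorem er_fin {b : ℂ} (hb : b * conj b = 1) {A : Set ℂ} (h : AI A (fun z => b * z)) :
    (Function.support (er b A)).Finite := by
  refine (h.image (fun z => b * z)).subset ?_
  intro z hz
  have e1 : b * (conj b * z) = z := by linear_combination z * hb
  refine ⟨conj b * z, ?_, e1⟩
  simp only [Set.mem_ofPred_eq]
  rw [e1]
  intro h2
  apply hz
  unfold er
  rw [ind_congr h2.symm, sub_self, ofReal_zero]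

theorem sum_finr {b : ℂ} (hb : b * conj b = 1) {A : Set ℂ} (h : AI A (fun z => b * z))
    (f : ℂ → ℂ) : (Function.support (fun z => er b A z * f z)).Finite := by
  refine (er_fin hb h).subset ?_
  intro z hz h2
  apply hz
  simp only [h2, zero_mul]

open Classical in
theorem fs1c (w : ℂ) (c : ℂ) : (∑ᶠ z : ℂ, (if z = w then c else 0)) = c := by
  rw [finsum_eq_single _ w (fun z hz => if_neg hz), if_pos rfl]

open Classical in
theorem ind_insert {A : Set ℂ} {w : ℂ} (hw : w ∉ A) (z : ℂ) :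
    ind (insert w A) z = ind A z + if z = w then 1 else 0 := by
  unfold ind
  by_cases h : z = w
  · subst h
    simp [hw]
  · simp [h]

theorem mul_inj0 {b : ℂ} (hb : b * conj b = 1) : Function.Injective (fun z : ℂ => b * z) :=
  fun x y h => mul_left_cancel₀ (by rintro rfl; simp at hb) h

theorem SS_insert {b β : ℂ} (hb : b * conj b = 1) (hβ : β ≠ 1) {f : ℂ → ℂ}
    (hf : ∀ z, f (b * z) = β * f z) {A : Set ℂ} (hA : AI A (fun z => b * z)) {w : ℂ}
    (hw : w ∉ A) : SS b β f (insert w A) = SS b β f A + f w := by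
  classical
  have h0 : β - 1 ≠ 0 := sub_ne_zero.2 hβ
  have hiff : ∀ z : ℂ, conj b * z = w ↔ z = b * w := by
    intro z
    constructor
    · intro h; rw [← h]; linear_combination -z * hb
    · intro h; rw [h]; linear_combination w * hb
  have hee : ∀ z, er b (insert w A) z * f z = er b A z * f z + ((if z = b * w then f (b * w) else 0)
      - (if z = w then f w else 0)) := by
    intro z
    unfold er
    rw [ind_insert hw, ind_insert hw]
    by_cases h1 : z = b * w
    · by_cases h2 : z = w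
      · rw [if_pos ((hiff z).2 h1), if_pos h2, if_pos h1, if_pos h2, ← h1, ← h2]
        push_cast; ring
      · rw [if_pos ((hiff z).2 h1), if_neg h2, if_pos h1, if_neg h2, ← h1]
        push_cast; ring
    · by_cases h2 : z = w
      · rw [if_neg (fun h => h1 ((hiff z).1 h)), if_pos h2, if_neg h1, if_pos h2, ← h2]
        push_cast; ring
      · rw [if_neg (fun h => h1 ((hiff z).1 h)), if_neg h2, if_neg h1, if_neg h2]
        push_cast; ring
  have hf1 : ∀ (u c : ℂ), (Function.support (fun z : ℂ => if z = u then c else 0)).Finite := by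
    intro u c
    refine (Set.finite_singleton u).subset ?_
    intro z hz
    by_contra h2
    apply hz
    simp only [Set.mem_singleton_iff] at h2
    simp [h2]
  have hf3 : (Function.support (fun z : ℂ => (if z = b * w then f (b * w) else 0) -
      (if z = w then f w else 0))).Finite := by
    refine ((hf1 (b * w) (f (b * w))).union (hf1 w (f w))).subset ?_
    intro z hz
    by_contra h2
    apply hz
    simp only [Set.mem_union, Function.mem_support, ne_eq, not_or, not_not] at h2
    simp only [h2.1, h2.2, sub_zero]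
  unfold SS
  rw [finsum_congr hee, finsum_add_distrib (sum_finr hb hA _) hf3,
    finsum_sub_distrib (hf1 _ _) (hf1 _ _), fs1c, fs1c, hf]
  field_simp

theorem SS_union {b β : ℂ} (hb : b * conj b = 1) (hβ : β ≠ 1) {f : ℂ → ℂ}
    (hf : ∀ z, f (b * z) = β * f z) {A : Set ℂ} (hA : AI A (fun z => b * z)) (T : Finset ℂ)
    (hT : ∀ w ∈ T, w ∉ A) : SS b β f (A ∪ ↑T) = SS b β f A + ∑ w ∈ T, f w := by
  classical
  induction T using Finset.induction_on with
  | empty => simp
  | insert a T haT ih =>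
    have h1 : (A ∪ ↑(insert a T) : Set ℂ) = insert a (A ∪ ↑T) := by
      rw [Finset.coe_insert, Set.union_insert]
    have h2 : a ∉ A ∪ (↑T : Set ℂ) := by
      rintro (h | h)
      · exact hT a (Finset.mem_insert_self a T) h
      · exact haT (by simpa using h)
    rw [h1, SS_insert hb hβ hf (AI_union (mul_inj0 hb) hA T) h2,
      ih (fun w hw => hT w (Finset.mem_insert_of_mem hw)), Finset.sum_insert haT]
    ring

/-- invariance under a rotation -/
theorem SS_rot {b β a α : ℂ} {f : ℂ → ℂ} {B : Set ℂ} (ha : a * conj a = 1)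
    (hB : ∀ z, a * z ∈ B ↔ z ∈ B) (hf : ∀ z, f (a * z) = α * f z) (hα : α ≠ 1) :
    SS b β f B = 0 := by
  have ha0 : a ≠ 0 := by rintro rfl; simp at ha
  have h1 : ∀ z, er b B (a * z) = er b B z := by
    intro z
    unfold er
    have e : conj b * (a * z) = a * (conj b * z) := by ring
    rw [e, ind_congr (hB (conj b * z)), ind_congr (hB z)]
  have h3 : (∑ᶠ z, er b B z * f z) = α * ∑ᶠ z, er b B z * f z := by
    rw [mul_finsum]
    rw [← finsum_comp_equiv (Equiv.mulLeft₀ a ha0)]
    apply finsum_congr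
    intro z
    show er b B (a * z) * f (a * z) = _
    rw [h1, hf]
    ring
  have h5 : (∑ᶠ z, er b B z * f z) = 0 := by
    have h6 : (α - 1) * (∑ᶠ z, er b B z * f z) = 0 := by linear_combination -h3
    rcases mul_eq_zero.1 h6 with h7 | h7
    · exact absurd (sub_eq_zero.1 h7) hα
    · exact h7
  unfold SS
  rw [h5, zero_div]

/-- invariance under a reflection -/
theorem SS_refl {b β a α : ℂ} (hb : b * conj b = 1) (hβ : β * conj β = 1) (hβ1 : β ≠ 1)
    {f : ℂ → ℂ} {B : Set ℂ} (ha : a * conj a = 1) (hA : AI B (fun z => b * z))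
    (hB : ∀ z, a * conj z ∈ B ↔ z ∈ B) (hf : ∀ z, f (b * z) = β * f z)
    (hfa : ∀ z, f (a * conj z) = α * conj (f z)) :
    SS b β f B = α * conj (SS b β f B) := by
  have hinv : Function.Involutive (fun z : ℂ => b * (a * conj z)) := by
    intro z
    show b * (a * conj (b * (a * conj z))) = z
    simp only [map_mul, conj_conj]
    linear_combination z * a * conj a * hb + z * ha
  have h1 : ∀ z, er b B (b * (a * conj z)) = - er b B z := by
    intro z
    unfold er
    have e1 : conj b * (b * (a * conj z)) = a * conj z := by linear_combination a * conj z * hb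
    have e2 : b * (a * conj z) = a * conj (conj b * z) := by
      rw [map_mul, conj_conj]; ring
    rw [e1, e2, ind_congr (hB z), ind_congr (hB (conj b * z))]
    push_cast; ring
  have hc : ∀ z, conj (er b B z) = er b B z := by
    intro z
    unfold er
    rw [conj_ofReal]
  have h2 : (∑ᶠ z, er b B z * f z) = -(β * α) * conj (∑ᶠ z, er b B z * f z) := by
    have h4 : conj (∑ᶠ z, er b B z * f z) = ∑ᶠ z, conj (er b B z * f z) :=
      (starRingEnd ℂ).toAddMonoidHom.map_finsum (sum_finr hb hA f)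
    rw [h4, mul_finsum]
    rw [← finsum_comp_equiv hinv.toPerm]
    apply finsum_congr
    intro z
    show er b B (b * (a * conj z)) * f (b * (a * conj z)) = _
    rw [h1, hf, hfa, map_mul, hc]
    ring
  have h3 : β - 1 ≠ 0 := sub_ne_zero.2 hβ1
  have h4 : conj β - 1 ≠ 0 := by
    intro h
    apply hβ1
    have := congrArg conj (sub_eq_zero.1 h)
    simpa using this
  unfold SS
  rw [map_div₀, map_sub, map_one]
  generalize conj (∑ᶠ z, er b B z * f z) = X at *
  rw [h2]
  field_simp
  linear_combination (-X * α) * hβ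

/-- radial weights -/
def rad (ρ : ℝ) (z : ℂ) : ℂ := if ‖z‖ = ρ then z else 0
def rad2 (ρ : ℝ) (z : ℂ) : ℂ := if ‖z‖ = ρ then z ^ 2 else 0

theorem rad_mul {b : ℂ} (hb : b * conj b = 1) (ρ : ℝ) (z : ℂ) : rad ρ (b * z) = b * rad ρ z := by
  unfold rad
  rw [norm_mul, norm_of_unit hb, one_mul]
  split_ifs <;> simp

theorem rad2_mul {b : ℂ} (hb : b * conj b = 1) (ρ : ℝ) (z : ℂ) :
    rad2 ρ (b * z) = b ^ 2 * rad2 ρ z := by
  unfold rad2
  rw [norm_mul, norm_of_unit hb, one_mul]
  split_ifs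
  · ring
  · simp

theorem rad_conj {a : ℂ} (ha : a * conj a = 1) (ρ : ℝ) (z : ℂ) :
    rad ρ (a * conj z) = a * conj (rad ρ z) := by
  unfold rad
  rw [norm_mul, norm_of_unit ha, one_mul, norm_conj]
  split_ifs <;> simp

theorem rad2_conj {a : ℂ} (ha : a * conj a = 1) (ρ : ℝ) (z : ℂ) :
    rad2 ρ (a * conj z) = a ^ 2 * conj (rad2 ρ z) := by
  unfold rad2
  rw [norm_mul, norm_of_unit ha, one_mul, norm_conj]
  split_ifs
  · rw [map_pow]; ring
  · simp

theorem sq_unit {b : ℂ} (hb : b * conj b = 1) : b ^ 2 * conj (b ^ 2) = 1 := by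
  rw [map_pow, ← mul_pow, hb, one_pow]

theorem real_of {X a : ℂ} (ha : a * conj a = 1) (h : X = a * conj X) : conj X = conj a * X := by
  have h1 := congrArg conj h
  rw [map_mul, conj_conj] at h1
  exact h1

/-- if some rotation `b` with `b² ≠ 1` changes finitely many points only -/
theorem case1 (A : Set ℂ) (W : Finset ℂ) (hd : ∀ w ∈ W, w ∉ A) (hc : 7 ≤ W.card)
    (hn : ¬ Lin (W : Set ℂ)) (b : ℂ) (hb : b * conj b = 1) (hb1 : b ^ 2 ≠ 1)
    (hA : AI A (fun z => b * z))
    (hs : ∀ T ⊆ W, ∃ g : ℂ ≃ᵢ ℂ, g ≠ 1 ∧ g 0 = 0 ∧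
      ∀ z, (g z ∈ A ∪ ↑T ↔ z ∈ A ∪ (↑T : Set ℂ))) : False := by
  have hb' : b ≠ 1 := by rintro rfl; simp at hb1
  have hb2 := sq_unit hb
  have key : ∀ T ⊆ W, (∀ ρ, SS b b (rad ρ) (A ∪ ↑T) = 0) ∨ ∃ a : ℂ, a * conj a = 1 ∧
      (∀ ρ, conj (SS b b (rad ρ) (A ∪ ↑T)) = conj a * SS b b (rad ρ) (A ∪ ↑T)) ∧
      (∀ ρ, conj (SS b (b ^ 2) (rad2 ρ) (A ∪ ↑T)) =
        conj a ^ 2 * SS b (b ^ 2) (rad2 ρ) (A ∪ ↑T)) := by
    intro T hT
    obtain ⟨g, hg, h0, hgT⟩ := hs T hT
    obtain ⟨a, ha, hab | hab⟩ := form_fix g 0 h0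
    · left
      intro ρ
      have ha1 : a ≠ 1 := by
        rintro rfl
        apply hg
        ext z
        rw [hab z]
        show 0 + 1 * (z - 0) = z
        ring
      refine SS_rot ha (fun z => ?_) (rad_mul ha ρ) ha1
      have h := hgT z
      rw [hab z, sub_zero, zero_add] at h
      exact h
    · right
      have hB : ∀ z, a * conj z ∈ A ∪ ↑T ↔ z ∈ A ∪ (↑T : Set ℂ) := by
        intro z
        have h := hgT z
        rw [hab z, sub_zero, zero_add] at h
        exact h
      have hAT := AI_union (mul_inj0 hb) hA T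
      refine ⟨a, ha, fun ρ => ?_, fun ρ => ?_⟩
      · exact real_of ha (SS_refl hb hb hb' ha hAT hB (rad_mul hb ρ) (rad_conj ha ρ))
      · have h := real_of (sq_unit ha)
          (SS_refl hb hb2 hb1 ha hAT hB (rad2_mul hb ρ) (rad2_conj ha ρ))
        rw [map_pow] at h
        exact h
  have hF : Fun W (fun T ρ => SS b b (rad ρ) (A ∪ ↑T)) (fun T ρ => SS b (b ^ 2) (rad2 ρ) (A ∪ ↑T)) := by
    refine ⟨?_, ?_, ?_, ?_⟩
    · intro T hT ρ
      have h1 := SS_union hb hb' (rad_mul hb ρ) hA T (fun w hw => hd w (hT hw))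
      have h2 := SS_union hb hb' (rad_mul hb ρ) hA ∅ (fun w hw => absurd hw (Finset.notMem_empty w))
      rw [Finset.sum_empty, add_zero] at h2
      show SS b b (rad ρ) (A ∪ ↑T) = SS b b (rad ρ) (A ∪ ↑(∅ : Finset ℂ)) + _
      rw [h1, h2]
      rfl
    · intro T hT ρ
      have h1 := SS_union hb hb1 (rad2_mul hb ρ) hA T (fun w hw => hd w (hT hw))
      have h2 := SS_union hb hb1 (rad2_mul hb ρ) hA ∅ (fun w hw => absurd hw (Finset.notMem_empty w))
      rw [Finset.sum_empty, add_zero] at h2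
      show SS b (b ^ 2) (rad2 ρ) (A ∪ ↑T) = SS b (b ^ 2) (rad2 ρ) (A ∪ ↑(∅ : Finset ℂ)) + _
      rw [h1, h2]
      rfl
    · intro T hT ρ ρ'
      show (SS b b (rad ρ) (A ∪ ↑T) * conj (SS b b (rad ρ') (A ∪ ↑T))).im = 0
      rcases key T hT with h | ⟨a, ha, h1, h2⟩
      · rw [h ρ]; simp
      · rw [← conj_eq_iff_im, map_mul, conj_conj, h1, h1]; ring
    · intro T hT ρ
      show (SS b (b ^ 2) (rad2 ρ) (A ∪ ↑T) * conj (SS b b (rad ρ) (A ∪ ↑T)) ^ 2).im = 0
      rcases key T hT with h | ⟨a, ha, h1, h2⟩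
      · rw [h ρ]; simp
      · rw [← conj_eq_iff_im, map_mul, map_pow, conj_conj, h1, h2]; ring
  rcases hF.classify with ⟨w, hw, hw0, h1, -⟩ | ⟨r, hr, h1⟩
  · exact hn ⟨0, w, hw0, fun x hx => by rw [sub_zero]; exact h1 x (by simpa using hx)⟩
  · have h6 : 6 ≤ (W.erase 0).card := by
      have := Finset.pred_card_le_card_erase (s := W) (a := (0 : ℂ))
      omega
    obtain ⟨V, hV, hV6⟩ := Finset.exists_subset_card_eq h6
    have hVW : ∀ x ∈ V, x ∈ W ∧ ‖x‖ = r := by
      intro x hx
      have h2 := hV hx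
      rw [Finset.mem_erase] at h2
      exact ⟨h2.2, h1 x h2.2 h2.1⟩
    refine six_sep V r hr (fun w hw => (hVW w hw).2) hV6 ?_
    intro x hx y hy z hz hxy hxz hyz _
    exact hF.iso (hVW x hx).1 (hVW y hy).1 (hVW z hz).1 hxy hxz hyz hr (hVW x hx).2 (hVW y hy).2
      (hVW z hz).2

theorem mul_real {x y : ℂ} (hx : x.im = 0) (hy : y.im = 0) : (x * y).im = 0 := by
  rw [mul_im, hx, hy]; ring

theorem conj_real {x : ℂ} (hx : x.im = 0) : (conj x).im = 0 := by
  rw [conj_im, hx, neg_zero]

theorem real_div {x : ℂ} {r : ℝ} (hr : r ≠ 0) (h : (x * (r : ℂ)).im = 0) : x.im = 0 := by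
  rw [mul_im, ofReal_re, ofReal_im, mul_zero, zero_add] at h
  exact (mul_eq_zero.1 h).resolve_right hr

/-- the algebra of the case in which only half turns occur -/
theorem prod_real {c : ℂ} (hc : c * conj c = 1) {W : Finset ℂ} (h7 : 4 ≤ W.card)
    (h : ∀ x ∈ W, ∀ y ∈ W, x ≠ y → (x * y * conj c).im = 0) : Lin (W : Set ℂ) := by
  have h3 : 3 ≤ (W.erase 0).card := by
    have := Finset.pred_card_le_card_erase (s := W) (a := (0 : ℂ))
    omega
  obtain ⟨V, hV, hV3⟩ := Finset.exists_subset_card_eq h3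
  obtain ⟨x, y, z, hxy, hxz, hyz, hVe⟩ := Finset.card_eq_three.1 hV3
  have hm : ∀ u, u = x ∨ u = y ∨ u = z → u ≠ 0 ∧ u ∈ W := by
    intro u hu
    have : u ∈ V := by
      rw [hVe]
      simpa using hu
    have h2 := hV this
    rw [Finset.mem_erase] at h2
    exact h2
  obtain ⟨hx0, hx⟩ := hm x (Or.inl rfl)
  obtain ⟨hy0, hy⟩ := hm y (Or.inr (Or.inl rfl))
  obtain ⟨hz0, hz⟩ := hm z (Or.inr (Or.inr rfl))
  have e1 := h x hx y hy hxy
  have e2 := h x hx z hz hxz
  have e3 := h y hy z hz hyz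
  have hnn : ∀ u : ℂ, u * conj u = ((‖u‖ ^ 2 : ℝ) : ℂ) := fun u => by
    rw [mul_conj, normSq_eq_norm_sq]
  have hxx : (x * x * conj c).im = 0 := by
    have e4 := mul_real (mul_real e1 e2) (conj_real e3)
    have e5 : x * y * conj c * (x * z * conj c) * conj (y * z * conj c) =
        x * x * conj c * ((‖y‖ ^ 2 * ‖z‖ ^ 2 : ℝ) : ℂ) := by
      simp only [map_mul, conj_conj]
      rw [ofReal_mul, ← hnn y, ← hnn z]
      linear_combination x * x * conj c * y * conj y * z * conj z * hc
    rw [e5] at e4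
    exact real_div (by positivity) e4
  refine ⟨0, x, hx0, fun w hw => ?_⟩
  rw [sub_zero]
  have hw' : w ∈ W := by simpa using hw
  by_cases hwx : w = x
  · rw [hwx, mul_conj, ofReal_im]
  · have e6 := mul_real (h w hw' x hx hwx) (conj_real hxx)
    have e7 : w * x * conj c * conj (x * x * conj c) = w * conj x * ((‖x‖ ^ 2 : ℝ) : ℂ) := by
      simp only [map_mul, conj_conj]
      rw [← hnn x]
      linear_combination w * x * conj x * conj x * hc
    rw [e7] at e6
    exact real_div (by positivity) e6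

theorem case2 (A : Set ℂ) (W : Finset ℂ) (hd : ∀ w ∈ W, w ∉ A) (hc : 7 ≤ W.card)
    (hn : ¬ Lin (W : Set ℂ)) (hA : AI A (fun z => -1 * z))
    (hrot : ∀ a : ℂ, a * conj a = 1 → AI A (fun z => a * z) → a ^ 2 = 1)
    (hs : ∀ T ⊆ W, ∃ g : ℂ ≃ᵢ ℂ, g ≠ 1 ∧ g 0 = 0 ∧
      ∀ z, (g z ∈ A ∪ ↑T ↔ z ∈ A ∪ (↑T : Set ℂ))) : False := by
  have hb : (-1 : ℂ) * conj (-1) = 1 := by simp
  have hb1 : (-1 : ℂ) ≠ 1 := by norm_num
  have hf : ∀ z : ℂ, id (-1 * z) = -1 * id z := fun z => rfl
  have key : ∀ T ⊆ W, SS (-1) (-1) id (A ∪ ↑T) = 0 ∨ ∃ a : ℂ, a * conj a = 1 ∧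
      AI A (fun z => a * conj z) ∧ SS (-1) (-1) id (A ∪ ↑T) = a * conj (SS (-1) (-1) id (A ∪ ↑T)) := by
    intro T hT
    obtain ⟨g, hg, h0, hgT⟩ := hs T hT
    have hAg : AI A g := AI_of_sym g.injective T hgT
    obtain ⟨a, ha, hab | hab⟩ := form_fix g 0 h0
    · left
      have ha1 : a ≠ 1 := by
        rintro rfl
        apply hg
        ext z
        rw [hab z]
        show 0 + 1 * (z - 0) = z
        ring
      refine SS_rot (α := a) ha (fun z => ?_) (fun z => rfl) ha1
      have h := hgT z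
      rw [hab z, sub_zero, zero_add] at h
      exact h
    · right
      have hgf : (g : ℂ → ℂ) = fun z => a * conj z := by
        funext z
        rw [hab z, sub_zero, zero_add]
      have hB : ∀ z, a * conj z ∈ A ∪ ↑T ↔ z ∈ A ∪ (↑T : Set ℂ) := by
        intro z
        have h := hgT z
        rw [hab z, sub_zero, zero_add] at h
        exact h
      have hAT := AI_union (mul_inj0 hb) hA T
      rw [hgf] at hAg
      exact ⟨a, ha, hAg, SS_refl hb hb hb1 ha hAT hB hf (fun z => rfl)⟩
  -- the common axis direction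
  obtain ⟨c, hc1, hcT⟩ : ∃ c : ℂ, c * conj c = 1 ∧ ∀ T ⊆ W,
      (SS (-1) (-1) id (A ∪ ↑T) ^ 2 * conj c).im = 0 := by
    by_cases hex : ∃ a : ℂ, a * conj a = 1 ∧ AI A (fun z => a * conj z)
    · obtain ⟨c, hc1, hcA⟩ := hex
      refine ⟨c, hc1, fun T hT => ?_⟩
      rcases key T hT with h | ⟨a, ha, haA, hX⟩
      · rw [h]; simp
      · have hinj : Function.Injective (fun z : ℂ => c * conj z) := by
          intro x y hxy
          have h1 := mul_left_cancel₀ (by rintro rfl; simp at hc1) hxy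
          exact (starRingEnd ℂ).injective h1
        have h2 := AI_comp hinj haA hcA
        have h3 : ((fun z : ℂ => a * conj z) ∘ (fun z => c * conj z)) =
            fun z => (a * conj c) * z := by
          funext z
          simp only [Function.comp_apply, map_mul, conj_conj]
          ring
        rw [h3] at h2
        have h4 : a * conj c * conj (a * conj c) = 1 := by
          rw [map_mul, conj_conj]
          linear_combination c * conj c * ha + hc1
        have h5 := hrot _ h4 h2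
        have h6 : (a * conj c - 1) * (a * conj c + 1) = 0 := by linear_combination h5
        generalize SS (-1) (-1) id (A ∪ ↑T) = X at *
        have hXX : X ^ 2 * conj a = ((‖X‖ ^ 2 : ℝ) : ℂ) := by
          rw [← normSq_eq_norm_sq, ← mul_conj]
          have e : X ^ 2 = X * (a * conj X) := by rw [← hX]; ring
          rw [e]
          linear_combination X * conj X * ha
        rcases mul_eq_zero.1 h6 with h7 | h7
        · have h8 : conj c = conj a := by
            linear_combination conj a * h7 - conj c * ha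
          rw [h8, hXX, ofReal_im]
        · have h8 : conj c = - conj a := by
            linear_combination conj a * h7 - conj c * ha
          rw [h8, mul_neg, hXX, neg_im, ofReal_im, neg_zero]
    · refine ⟨1, by simp, fun T hT => ?_⟩
      rcases key T hT with h | ⟨a, ha, haA, -⟩
      · rw [h]; simp
      · exact absurd ⟨a, ha, haA⟩ hex
  have hS : ∀ T ⊆ W, SS (-1) (-1) id (A ∪ ↑T) = SS (-1) (-1) id A + ∑ w ∈ T, w := fun T hT =>
    SS_union hb hb1 hf hA T (fun w hw => hd w (hT hw))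
  refine hn (prod_real hc1 (by omega) fun x hx y hy hxy => ?_)
  have e0 := hcT ∅ (Finset.empty_subset _)
  have e1 := hcT {x} (by simpa using hx)
  have e2 := hcT {y} (by simpa using hy)
  have hxyW : ({x, y} : Finset ℂ) ⊆ W := by
    intro u hu
    rcases Finset.mem_insert.1 hu with rfl | hu
    · exact hx
    · rw [Finset.mem_singleton.1 hu]; exact hy
  have e3 := hcT {x, y} hxyW
  rw [hS _ (Finset.empty_subset _), Finset.sum_empty] at e0
  rw [hS _ (by simpa using hx), Finset.sum_singleton] at e1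
  rw [hS _ (by simpa using hy), Finset.sum_singleton] at e2
  rw [hS _ hxyW, Finset.sum_pair hxy] at e3
  generalize SS (-1) (-1) id A = p at *
  have e4 : x * y * conj c = ((1/2 : ℝ) : ℂ) * ((p + (x + y)) ^ 2 * conj c - (p + x) ^ 2 * conj c
      - (p + y) ^ 2 * conj c + (p + 0) ^ 2 * conj c) := by
    push_cast; ring
  rw [e4, im_ofReal_mul, add_im, sub_im, sub_im, e0, e1, e2, e3]
  ring

end CA

/-- all the symmetries fix `0` and some non-trivial rotation about `0` changes only finitely many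
points of `A` -/
theorem center0 (A : Set ℂ) (W : Finset ℂ) (hd : ∀ w ∈ W, w ∉ A) (hc : 7 ≤ W.card)
    (hn : ¬ Lin (W : Set ℂ)) (b : ℂ) (hb : b * conj b = 1) (hb1 : b ≠ 1)
    (hA : AI A (fun z => b * z))
    (hs : ∀ T ⊆ W, ∃ g : ℂ ≃ᵢ ℂ, g ≠ 1 ∧ g 0 = 0 ∧
      ∀ z, (g z ∈ A ∪ ↑T ↔ z ∈ A ∪ (↑T : Set ℂ))) : False := by
  by_cases h : ∃ a : ℂ, a * conj a = 1 ∧ AI A (fun z => a * z) ∧ a ^ 2 ≠ 1
  · obtain ⟨a, ha, haA, ha2⟩ := h
    exact CA.case1 A W hd hc hn a ha ha2 haA hs
  · push Not at h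
    have hb2 := h b hb hA
    have hbm : b = -1 := by
      have h1 : (b - 1) * (b + 1) = 0 := by linear_combination hb2
      rcases mul_eq_zero.1 h1 with h2 | h2
      · exact absurd (sub_eq_zero.1 h2) hb1
      · exact eq_neg_of_add_eq_zero_left h2
    rw [hbm] at hA
    exact CA.case2 A W hd hc hn hA (fun a ha haA => h a ha haA) hs

end Ext7
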