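import Pool.Agent.Lib.MP_ad0d06_co.Frieze

/-!
Reduction of the case without almost-invariant translations to the case of a common fixed centre.
-/

open Complex ComplexConjugate

noncomputable section

namespace Ext7

namespace CB

/-- An almost invariant isometry commutes with an almost invariant rotation up to a translation,
so it fixes the centre of the rotation. -/
theorem fix_centre {A : Set ℂ} (hno : ∀ s : ℂ, AI A (fun z => z + s) → s = 0)
    {ρ : ℂ ≃ᵢ ℂ} {a b : ℂ} (ha : a * conj a = 1) (ha1 : a ≠ 1) (hρ : ∀ z, ρ z = a * z + b)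
    (hρA : AI A ρ) {g : ℂ ≃ᵢ ℂ} (hg : AI A g) : g (b / (1 - a)) = b / (1 - a) := by
  have h1a : (1 - a) ≠ 0 := sub_ne_zero.2 (Ne.symm ha1)
  obtain ⟨c, d, _, hcd | hcd⟩ := form g
  · -- rotation or translation
    have hcomm : ∀ z, ((g ∘ ρ) ∘ (g.symm ∘ ρ.symm)) z = z + (c * b + d - a * d - b) := by
      intro z
      simp only [Function.comp_apply]
      set u := g.symm (ρ.symm z) with hu
      have h1 : ρ (g u) = z := by rw [hu, g.apply_symm_apply, ρ.apply_symm_apply]
      rw [hcd, hρ] at h1
      rw [hρ, hcd]
      linear_combination h1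
    have hAI : AI A (fun z => z + (c * b + d - a * d - b)) := by
      have h2 := Fr.AI_comp (g := g ∘ ρ) (g' := g.symm ∘ ρ.symm)
        (g.symm.injective.comp ρ.symm.injective)
        (Fr.AI_comp ρ.injective hg hρA)
        (Fr.AI_comp ρ.symm.injective (Fr.AI_symm hg) (Fr.AI_symm hρA))
      have h3 : ((g ∘ ρ) ∘ (g.symm ∘ ρ.symm)) = (fun z => z + (c * b + d - a * d - b)) :=
        funext hcomm
      rwa [h3] at h2
    have hs := hno _ hAI
    rw [hcd]
    field_simp
    linear_combination hs
  · have hcomm : ∀ z, ((g ∘ ρ) ∘ (g.symm ∘ ρ)) z = z + (conj a * (b - d) + c * conj b + d) := by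
      intro z
      simp only [Function.comp_apply]
      set u := g.symm (ρ z) with hu
      have h1 : g u = ρ z := by rw [hu, g.apply_symm_apply]
      rw [hcd, hρ] at h1
      rw [hρ u, hcd, map_add, map_mul]
      linear_combination (conj a) * h1 + z * ha
    have hAI : AI A (fun z => z + (conj a * (b - d) + c * conj b + d)) := by
      have h2 := Fr.AI_comp (g := g ∘ ρ) (g' := g.symm ∘ ρ)
        (g.symm.injective.comp ρ.injective)
        (Fr.AI_comp ρ.injective hg hρA)
        (Fr.AI_comp ρ.injective (Fr.AI_symm hg) hρA)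
      have h3 : ((g ∘ ρ) ∘ (g.symm ∘ ρ)) = (fun z => z + (conj a * (b - d) + c * conj b + d)) :=
        funext hcomm
      rwa [h3] at h2
    have hs := hno _ hAI
    have h1a' : (1 - conj a) ≠ 0 := by
      intro h
      apply h1a
      have := congrArg conj h
      simpa using this
    have hbar : conj (b / (1 - a)) = conj b / (1 - conj a) := by
      rw [map_div₀, map_sub, map_one]
    rw [hcd, hbar]
    rw [← sub_eq_zero]
    have key : (c * (conj b / (1 - conj a)) + d - b / (1 - a)) * ((1 - conj a) * (1 - a)) = 0 := by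
      have e : (c * (conj b / (1 - conj a)) + d - b / (1 - a)) * ((1 - conj a) * (1 - a)) =
          c * conj b * (1 - a) + d * ((1 - conj a) * (1 - a)) - b * (1 - conj a) := by
        field_simp
      rw [e]
      linear_combination (1 - a) * hs + b * ha
    rcases mul_eq_zero.1 key with h | h
    · exact h
    · exact absurd h (mul_ne_zero h1a' h1a)

end CB

theorem center_of (center0 : ∀ (A : Set ℂ) (W : Finset ℂ) (_ : ∀ w ∈ W, w ∉ A)
    (_ : 7 ≤ W.card) (_ : ¬ Lin (W : Set ℂ)) (b : ℂ) (_ : b * conj b = 1) (_ : b ≠ 1)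
    (_ : AI A (fun z => b * z))
    (_ : ∀ T ⊆ W, ∃ g : ℂ ≃ᵢ ℂ, g ≠ 1 ∧ g 0 = 0 ∧
      ∀ z, (g z ∈ A ∪ ↑T ↔ z ∈ A ∪ (↑T : Set ℂ))), False)
    (A : Set ℂ) (W : Finset ℂ) (hd : ∀ w ∈ W, w ∉ A) (hc : 7 ≤ W.card)
    (hn : ¬ Lin (W : Set ℂ)) (hno : ∀ s : ℂ, AI A (fun z => z + s) → s = 0)
    (hs : ∀ T ⊆ W, HasSym (A ∪ ↑T)) : False := by
  classical
  by_cases hrot : ∃ (ρ : ℂ ≃ᵢ ℂ) (a b : ℂ), a * conj a = 1 ∧ a ≠ 1 ∧ (∀ z, ρ z = a * z + b) ∧
      AI A ρ
  · obtain ⟨ρ, a, b, ha, ha1, hρ, hρA⟩ := hrot
    have h1a : (1 - a) ≠ 0 := sub_ne_zero.2 (Ne.symm ha1)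
    set o : ℂ := b / (1 - a) with ho
    have hρo : a * o + b = o := by
      rw [ho]; field_simp; ring
    -- the translated sets
    refine center0 {z | z + o ∈ A} (tr o W) ?_ ?_ ?_ a ha ha1 ?_ ?_
    · intro w hw
      exact hd _ (mem_tr.1 hw)
    · unfold tr
      rw [Finset.card_image_of_injective _ (fun x y h => by simpa using h)]
      exact hc
    · rintro ⟨p, v, hv, hlin⟩
      apply hn
      refine ⟨p + o, v, hv, fun w hw => ?_⟩
      have h1 : w - o ∈ tr o W := mem_tr.2 (by simpa using hw)
      have h2 := hlin (w - o) h1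
      have h3 : w - (p + o) = w - o - p := by ring
      rw [h3]
      exact h2
    · refine (Set.Finite.preimage (f := fun z : ℂ => z + o)
        (fun x _ y _ h => by simpa using h) hρA).subset ?_
      intro z hz
      simp only [Set.mem_ofPred_eq] at hz
      simp only [Set.mem_preimage, Set.mem_ofPred_eq]
      have h1 : ρ (z + o) = a * z + o := by rw [hρ]; linear_combination hρo
      rw [h1]
      exact hz
    · intro T hT
      have hT' : tr (-o) T ⊆ W := by
        intro x hx
        have h1 := mem_tr.1 hx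
        have h2 := mem_tr.1 (hT h1)
        simpa using h2
      obtain ⟨g, hg1, hgA⟩ := hs _ hT'
      have hgAI : AI A g := Fr.AI_of_sym g.injective _ hgA
      have hgo : g o = o := CB.fix_centre hno ha ha1 hρ hρA hgAI
      let t : ℂ ≃ᵢ ℂ := IsometryEquiv.addRight o
      have ht : ∀ z, t z = z + o := fun z => rfl
      have ht' : ∀ z, t⁻¹ z = z - o := fun z => by
        show t.symm z = z - o
        rw [t.symm_apply_eq, ht]
        ring
      have h2 : ∀ z, (t⁻¹ * g * t) z = g (z + o) - o := by
        intro z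
        show t⁻¹ (g (t z)) = _
        rw [ht', ht]
      refine ⟨t⁻¹ * g * t, ?_, ?_, ?_⟩
      · intro h1
        apply hg1
        have : g = t * (t⁻¹ * g * t) * t⁻¹ := by group
        rw [this, h1]
        group
      · rw [h2, zero_add, hgo, sub_self]
      · intro z
        rw [h2]
        have h3 := hgA (z + o)
        simp only [Set.mem_union, Finset.mem_coe, mem_tr, add_neg_cancel_right] at h3
        simp only [Set.mem_union, Set.mem_ofPred_eq, Finset.mem_coe, sub_add_cancel]
        rw [← sub_eq_add_neg] at h3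
        exact h3
  · -- only reflections
    have hrefl : ∀ g : ℂ ≃ᵢ ℂ, g ≠ 1 → AI A g → ∃ a b : ℂ, ‖a‖ = 1 ∧
        ∀ z, g z = a * conj z + b := by
      intro g hg1 hgA
      obtain ⟨a, b, ha, hab | hab⟩ := form g
      · exfalso
        by_cases ha1 : a = 1
        · subst ha1
          have h1 : AI A (fun z => z + b) := by
            have : (g : ℂ → ℂ) = fun z => z + b := by
              funext z; rw [hab, one_mul]
            rw [← this]; exact hgA
          have hb := hno _ h1
          apply hg1
          ext z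
          rw [hab, hb]
          simp
        · exact hrot ⟨g, a, b, by rw [mul_conj, normSq_eq_norm_sq, ha]; simp, ha1, hab, hgA⟩
      · exact ⟨a, b, ha, hab⟩
    -- two reflections are inverse to each other
    have hinv : ∀ g g' : ℂ ≃ᵢ ℂ, g ≠ 1 → g' ≠ 1 → AI A g → AI A g' → ∀ z, g (g' z) = z := by
      intro g g' hg1 hg1' hgA hgA'
      obtain ⟨a, b, ha, hab⟩ := hrefl g hg1 hgA
      obtain ⟨a', b', ha', hab'⟩ := hrefl g' hg1' hgA'
      have hcomp : ∀ z, (g * g') z = (a * conj a') * z + (a * conj b' + b) := by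
        intro z
        show g (g' z) = _
        rw [hab, hab', map_add, map_mul, conj_conj]
        ring
      have hAI : AI A (g * g' : ℂ ≃ᵢ ℂ) := by
        have h1 := Fr.AI_comp (g := g) (g' := g') g'.injective hgA hgA'
        exact h1
      by_contra hcon
      have hne : (g * g' : ℂ ≃ᵢ ℂ) ≠ 1 := by
        intro h
        apply hcon
        intro z
        have : (g * g') z = z := by rw [h]; rfl
        exact this
      obtain ⟨a2, b2, ha2, hab2⟩ := hrefl _ hne hAI
      -- a map cannot be both orientation preserving and reversing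
      have e0 := hab2 0
      have e1 := hab2 1
      have eI := hab2 I
      rw [hcomp] at e0 e1 eI
      simp only [map_zero, mul_zero, zero_add, map_one, mul_one, conj_I] at e0 e1 eI
      have h1 : a * conj a' = a2 := by linear_combination e1 - e0
      have h2 : a * conj a' * I = a2 * (-I) := by linear_combination eI - e0
      rw [h1] at h2
      have h3 : a2 * I = 0 := by linear_combination (1 / 2) * h2
      have h4 : a2 = 0 := by
        rcases mul_eq_zero.1 h3 with h | h
        · exact h
        · exact absurd h I_ne_zero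
      rw [h4] at ha2
      simp at ha2
    obtain ⟨σ, hσ1, hσ⟩ := hs ∅ (Finset.empty_subset _)
    have hσA : AI A σ := Fr.AI_of_sym σ.injective _ hσ
    obtain ⟨a, b, ha, hab⟩ := hrefl σ hσ1 hσA
    have hfix : ∀ w ∈ W, σ w = w := by
      intro w hw
      obtain ⟨g, hg1, hg⟩ := hs {w} (Finset.singleton_subset_iff.2 hw)
      have hgA : AI A g := Fr.AI_of_sym g.injective _ hg
      have heq : ∀ z, g z = σ z := by
        intro z
        have h1 := hinv σ g hσ1 hg1 hσA hgA z
        have h2 := hinv σ σ hσ1 hσ1 hσA hσA z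
        exact σ.injective (h1.trans h2.symm)
      have h1 := (hg w).2 (by simp)
      rw [heq] at h1
      have h2 : σ w ∉ A := by
        intro h3
        have h4 := (hσ w).1 (Or.inl h3)
        simp only [Finset.coe_empty, Set.union_empty] at h4
        exact hd w hw h4
      rcases h1 with h1 | h1
      · exact absurd h1 h2
      · simpa using h1
    apply hn
    obtain ⟨p, hp, q, hq, hpq⟩ := Finset.one_lt_card.1 (show 1 < W.card by omega)
    refine ⟨p, q - p, sub_ne_zero.2 (Ne.symm hpq), fun w hw => ?_⟩
    have haa : a * conj a = 1 := by rw [mul_conj, normSq_eq_norm_sq, ha]; simp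
    have e1 := hfix p hp
    have e2 := hfix q hq
    have e3 := hfix w hw
    rw [hab] at e1 e2 e3
    have e4 : a * conj (w - p) = w - p := by rw [map_sub]; linear_combination e3 - e1
    have e5 : a * conj (q - p) = q - p := by rw [map_sub]; linear_combination e2 - e1
    have e6 : conj ((w - p) * conj (q - p)) = (w - p) * conj (q - p) := by
      rw [map_mul, conj_conj]
      calc conj (w - p) * (q - p) = conj (w - p) * (a * conj (q - p)) := by rw [e5]
        _ = (a * conj (w - p)) * conj (q - p) := by ring
        _ = (w - p) * conj (q - p) := by rw [e4]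
    exact (conj_eq_iff_im.1 e6)

end Ext7
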