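import Pool.Agent.Lib.MP_ad0d06_co.Base

open Complex ComplexConjugate

noncomputable section

namespace Ext7

theorem indep {t s : ℂ} (hts : (s * conj t).im ≠ 0) {α β : ℝ} (h : (α : ℂ) * s = β * t) :
    α = 0 ∧ β = 0 := by
  have ht : t ≠ 0 := by
    rintro rfl
    simp at hts
  have h1 : (α : ℂ) * (s * conj t) = β * (normSq t : ℂ) := by
    rw [← mul_assoc, h, mul_assoc, mul_conj]
  have h2 := congrArg Complex.im h1
  rw [im_ofReal_mul, im_ofReal_mul, ofReal_im, mul_zero] at h2
  have h3 : α = 0 := by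
    rcases mul_eq_zero.1 h2 with h2 | h2
    · exact h2
    · exact absurd h2 hts
  refine ⟨h3, ?_⟩
  rw [h3] at h
  simp only [ofReal_zero, zero_mul] at h
  rcases mul_eq_zero.1 h.symm with h4 | h4
  · exact_mod_cast h4
  · exact absurd h4 ht

/-- a progression leaves every finite set -/
theorem leaves {t : ℂ} (ht : t ≠ 0) (E : Set ℂ) (hE : E.Finite) (x : ℂ) :
    ∃ N : ℕ, ∀ n : ℕ, N ≤ n → x + n * t ∉ E := by
  have hinj : Function.Injective (fun n : ℕ => x + n * t) := by
    intro a b hab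
    have h1 : (a : ℂ) * t = b * t := by simpa using hab
    exact_mod_cast mul_right_cancel₀ ht h1
  have hfin : ((fun n : ℕ => x + n * t) ⁻¹' E).Finite := hE.preimage hinj.injOn
  obtain ⟨N, hN⟩ := hfin.bddAbove
  refine ⟨N + 1, fun n hn hx => ?_⟩
  have := hN (show n ∈ ((fun n : ℕ => x + n * t) ⁻¹' E) from hx)
  omega

/-- the limit set of `A` in the direction `t` -/
def lim (A : Set ℂ) (t : ℂ) : Set ℂ := {x | ∃ N : ℕ, ∀ n : ℕ, N ≤ n → x + n * t ∈ A}

theorem lim_add_t (A : Set ℂ) (t x : ℂ) : x + t ∈ lim A t ↔ x ∈ lim A t := by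
  constructor
  · rintro ⟨N, hN⟩
    refine ⟨N + 1, fun n hn => ?_⟩
    have := hN (n - 1) (by omega)
    have e : x + t + ((n - 1 : ℕ) : ℂ) * t = x + n * t := by
      rw [Nat.cast_sub (by omega)]
      push_cast
      ring
    rwa [e] at this
  · rintro ⟨N, hN⟩
    refine ⟨N, fun n hn => ?_⟩
    have := hN (n + 1) (by omega)
    have e : x + ((n + 1 : ℕ) : ℂ) * t = x + t + n * t := by
      push_cast
      ring
    rwa [e] at this

theorem lim_add (A : Set ℂ) {t : ℂ} (ht : t ≠ 0) {r : ℂ} (hr : AI A (fun z => z + r)) (x : ℂ) :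
    x + r ∈ lim A t ↔ x ∈ lim A t := by
  obtain ⟨M, hM⟩ := leaves ht _ hr x
  constructor
  · rintro ⟨N, hN⟩
    refine ⟨max N M, fun n hn => ?_⟩
    have h1 := hN n (le_trans (le_max_left _ _) hn)
    have h2 := hM n (le_trans (le_max_right _ _) hn)
    simp only [Set.mem_ofPred_eq, not_not] at h2
    have e : x + r + n * t = x + n * t + r := by ring
    rw [e] at h1
    exact h2.1 h1
  · rintro ⟨N, hN⟩
    refine ⟨max N M, fun n hn => ?_⟩
    have h1 := hN n (le_trans (le_max_left _ _) hn)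
    have h2 := hM n (le_trans (le_max_right _ _) hn)
    simp only [Set.mem_ofPred_eq, not_not] at h2
    have e : x + r + n * t = x + n * t + r := by ring
    rw [e]
    exact h2.2 h1

/-- a point where `A` and its limit differ reaches the exceptional set of `t` -/
theorem reach (A : Set ℂ) {t : ℂ} {x : ℂ} (hx : ¬ (x ∈ A ↔ x ∈ lim A t)) :
    ∃ n : ℕ, x + n * t ∈ {z | ¬ (z + t ∈ A ↔ z ∈ A)} := by
  by_contra hcon
  have h1 : ∀ n : ℕ, (x + n * t ∈ A ↔ x ∈ A) := by
    intro n
    induction n with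
    | zero => simp
    | succ n ih =>
      have h2 : (x + n * t + t ∈ A ↔ x + n * t ∈ A) := by
        by_contra h3
        exact hcon ⟨n, h3⟩
      have e : x + ((n + 1 : ℕ) : ℂ) * t = x + n * t + t := by push_cast; ring
      rw [e]
      exact h2.trans ih
  apply hx
  constructor
  · intro h
    exact ⟨0, fun n _ => (h1 n).2 h⟩
  · rintro ⟨N, hN⟩
    exact (h1 N).1 (hN N le_rfl)

theorem diff_finite (A : Set ℂ) {t s : ℂ} (hts : (s * conj t).im ≠ 0)
    (ht : AI A (fun z => z + t)) (hs : AI A (fun z => z + s)) :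
    {x | ¬ (x ∈ A ↔ x ∈ lim A t)}.Finite := by
  have ht0 : t ≠ 0 := by
    rintro rfl
    simp at hts
  set Et : Set ℂ := {z | ¬ (z + t ∈ A ↔ z ∈ A)} with hEt
  set Es : Set ℂ := {z | ¬ (z + s ∈ A ↔ z ∈ A)} with hEs
  have hEtf : Et.Finite := ht
  have hEsf : Es.Finite := hs
  -- every point of the difference reaches both exceptional sets
  have key : ∀ x, ¬ (x ∈ A ↔ x ∈ lim A t) → ∃ m : ℕ, x + m * s ∈ Es := by
    intro x hx
    by_contra hcon
    push Not at hcon
    have h1 : ∀ m : ℕ, (x + m * s ∈ A ↔ x ∈ A) := by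
      intro n
      induction n with
      | zero => simp
      | succ n ih =>
        have h2 := hcon n
        simp only [hEs, Set.mem_ofPred_eq, not_not] at h2
        have e : x + ((n + 1 : ℕ) : ℂ) * s = x + n * s + s := by push_cast; ring
        rw [e]
        exact h2.trans ih
    have h2 : ∀ m : ℕ, (x + m * s ∈ lim A t ↔ x ∈ lim A t) := by
      intro n
      induction n with
      | zero => simp
      | succ n ih =>
        have e : x + ((n + 1 : ℕ) : ℂ) * s = x + n * s + s := by push_cast; ring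
        rw [e]
        exact (lim_add A ht0 hs _).trans ih
    have h3 : ∀ m : ℕ, ∃ n : ℕ, x + m * s + n * t ∈ Et := by
      intro m
      apply reach
      rw [h1, h2]
      exact hx
    choose n hn using h3
    obtain ⟨a, -, b, -, hab, he⟩ := Set.infinite_univ.exists_ne_map_eq_of_mapsTo
      (s := (Set.univ : Set ℕ)) (f := fun m => x + m * s + n m * t) (t := Et)
      (fun m _ => hn m) hEtf
    have h4 : (((a:ℝ) - b : ℝ) : ℂ) * s = (((n b : ℝ) - n a : ℝ) : ℂ) * t := by
      push_cast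
      linear_combination he
    have h5 := (indep hts h4).1
    apply hab
    have : (a:ℝ) = b := by linarith
    exact_mod_cast this
  refine ((hEtf.prod hEsf).biUnion (t := fun p : ℂ × ℂ =>
    {x : ℂ | ∃ n m : ℕ, x + n * t = p.1 ∧ x + m * s = p.2}) ?_).subset ?_
  · intro p _
    apply Set.Subsingleton.finite
    rintro x ⟨n, m, h1, h2⟩ y ⟨n', m', h3, h4⟩
    have h5 : (((m:ℝ) - m' : ℝ) : ℂ) * s = (((n : ℝ) - n' : ℝ) : ℂ) * t := by
      push_cast
      linear_combination h2 - h4 - h1 + h3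
    have h6 := (indep hts h5).2
    have h7 : (n:ℝ) = n' := by linarith
    have h8 : n = n' := by exact_mod_cast h7
    subst h8
    linear_combination h1 - h3
  · intro x hx
    obtain ⟨n, hn⟩ := reach A hx
    obtain ⟨m, hm⟩ := key x hx
    simp only [Set.mem_iUnion]
    exact ⟨(x + n * t, x + m * s), ⟨hn, hm⟩, n, m, rfl, rfl⟩

/-- almost symmetries of `A` preserve the limit set -/
theorem lim_inv (A : Set ℂ) {t s : ℂ} (hts : (s * conj t).im ≠ 0)
    (ht : AI A (fun z => z + t)) (hs : AI A (fun z => z + s)) (g : ℂ ≃ᵢ ℂ) (hg : AI A g) (x : ℂ) :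
    g x ∈ lim A t ↔ x ∈ lim A t := by
  have ht0 : t ≠ 0 := by
    rintro rfl
    simp at hts
  have hD := diff_finite A hts ht hs
  -- the image of `t` under the linear part
  obtain ⟨u, hu⟩ : ∃ u, ∀ z, g (z + t) = g z + u := by
    obtain ⟨a, b, -, h | h⟩ := form g
    · exact ⟨a * t, fun z => by rw [h, h]; ring⟩
    · exact ⟨a * conj t, fun z => by rw [h, h, map_add]; ring⟩
  have hAu : AI A (fun z => z + u) := by
    have hfin : (g '' ({z | ¬ (g z ∈ A ↔ z ∈ A)} ∪ (fun z => z + t) ⁻¹' {z | ¬ (g z ∈ A ↔ z ∈ A)}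
        ∪ {z | ¬ (z + t ∈ A ↔ z ∈ A)})).Finite := by
      apply Set.Finite.image
      exact (hg.union (hg.preimage (add_left_injective t).injOn)).union ht
    refine hfin.subset ?_
    intro z hz
    obtain ⟨w, rfl⟩ := g.surjective z
    refine ⟨w, ?_, rfl⟩
    by_contra hcon
    simp only [Set.mem_union, Set.mem_ofPred_eq, Set.mem_preimage, not_or, not_not] at hcon
    apply hz
    show g w + u ∈ A ↔ g w ∈ A
    rw [← hu w, hcon.1.2, hcon.2, hcon.1.1]
  set S : Set ℂ := {x | ¬ (g x ∈ lim A t ↔ x ∈ lim A t)} with hS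
  have hSf : S.Finite := by
    refine ((hg.union hD).union (hD.preimage g.injective.injOn)).subset ?_
    intro z hz
    by_contra hcon
    simp only [Set.mem_union, Set.mem_ofPred_eq, Set.mem_preimage, not_or, not_not] at hcon
    apply hz
    rw [← hcon.2, hcon.1.1, hcon.1.2]
  have hSt : ∀ z ∈ S, z + t ∈ S := by
    intro z hz
    show ¬ (g (z + t) ∈ lim A t ↔ z + t ∈ lim A t)
    rw [hu, lim_add A ht0 hAu, lim_add_t]
    exact hz
  by_contra hx
  have hxS : x ∈ S := hx
  have hall : ∀ n : ℕ, x + n * t ∈ S := by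
    intro n
    induction n with
    | zero => simpa using hxS
    | succ n ih =>
      have e : x + ((n + 1 : ℕ) : ℂ) * t = x + n * t + t := by push_cast; ring
      rw [e]
      exact hSt _ ih
  obtain ⟨N, hN⟩ := leaves ht0 S hSf x
  exact hN N le_rfl (hall N)

theorem lattice (A : Set ℂ) (W : Finset ℂ) (hd : ∀ w ∈ W, w ∉ A) (t s : ℂ)
    (hts : (s * conj t).im ≠ 0) (ht : AI A (fun z => z + t)) (hs : AI A (fun z => z + s))
    (hsym : ∀ T ⊆ W, HasSym (A ∪ ↑T)) : ∃ F : Finset ℂ, Cfg F W := by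
  classical
  have hD := diff_finite A hts ht hs
  set D0 : Finset ℂ := hD.toFinset with hD0
  have hmem : ∀ x, x ∈ D0 ↔ ¬ (x ∈ A ↔ x ∈ lim A t) := by
    intro x
    rw [hD0, Set.Finite.mem_toFinset]
    rfl
  refine ⟨D0 \ W, ⟨Finset.sdiff_disjoint, fun T hT => ?_⟩⟩
  set T' : Finset ℂ := W.filter (fun x => ¬ (x ∈ T ↔ x ∈ D0)) with hT'
  obtain ⟨g, hg1, hg⟩ := hsym T' (Finset.filter_subset _ _)
  refine ⟨g, hg1, ?_⟩
  have hAI : AI A g := by
    have hfin : ((T' : Set ℂ) ∪ g ⁻¹' (T' : Set ℂ)).Finite :=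
      (Finset.finite_toSet T').union ((Finset.finite_toSet T').preimage g.injective.injOn)
    refine hfin.subset ?_
    intro z hz
    by_contra hcon
    simp only [Set.mem_union, Set.mem_preimage, Finset.mem_coe, not_or] at hcon
    apply hz
    have h1 := hg z
    simp only [Set.mem_union, Finset.mem_coe, hcon.1, hcon.2, or_false] at h1
    exact h1
  have hC := lim_inv A hts ht hs g hAI
  have hid : ∀ x, (x ∈ (↑(D0 \ W ∪ T) : Set ℂ)) ↔ ¬ (x ∈ A ∪ (T' : Set ℂ) ↔ x ∈ lim A t) := by
    intro x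
    simp only [Finset.coe_union, Finset.coe_sdiff, Set.mem_union, Set.mem_sdiff, Finset.mem_coe,
      hT', Finset.mem_filter]
    by_cases hxW : x ∈ W
    · have h1 := hd x hxW
      have h2 := hmem x
      tauto
    · have h1 : x ∉ T := fun h => hxW (hT h)
      have h2 := hmem x
      tauto
  intro z
  rw [hid, hid, hC, hg]

end Ext7
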