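import Mathlib

/-!
Statement-level definitions for MP_ad0d06_co: distinguishing number and distinguishing
extension number of a group acting faithfully on a set.
-/

noncomputable section

namespace Ext7

variable {X : Type*}

/-- `c` is a `Γ`-distinguishing colouring: only the identity of `Γ` preserves it. -/
def Distinguishing (Γ : Subgroup (Equiv.Perm X)) {k : ℕ} (c : X → Fin k) : Prop :=
  ∀ γ ∈ Γ, c ∘ γ = c → γ = 1

/-- the distinguishing number `D_Γ(X)`, the least number of colours of a `Γ`-distinguishing
colouring (`⊤` if there is none). -/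
def distNumber (Γ : Subgroup (Equiv.Perm X)) : ℕ∞ :=
  sInf {d : ℕ∞ | ∃ k : ℕ, d = k ∧ ∃ c : X → Fin k, Distinguishing Γ c}

/-- the pointwise stabiliser of `W` in `Γ` is trivial. -/
def TrivialStab (Γ : Subgroup (Equiv.Perm X)) (W : Set X) : Prop :=
  ∀ γ ∈ Γ, (∀ w ∈ W, γ w = w) → γ = 1

/-- the precolouring extension property `P(W)`, with `k = D_Γ(X)` colours: every colouring of the
complement of `W` extends to a `Γ`-distinguishing colouring. -/
def ExtProp (Γ : Subgroup (Equiv.Perm X)) (W : Set X) : Prop :=
  ∃ k : ℕ, (k : ℕ∞) = distNumber Γ ∧ ∀ c : {x // x ∉ W} → Fin k,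
    ∃ c' : X → Fin k, (∀ x, c' x.1 = c x) ∧ Distinguishing Γ c'

/-- the distinguishing extension number `ext_D(X, Γ)`: the least finite `n` such that `P(W)` holds
for every `W` with at least `n` elements and trivial pointwise stabiliser (`⊤` if there is none). -/
def extNumber (Γ : Subgroup (Equiv.Perm X)) : ℕ∞ :=
  sInf {d : ℕ∞ | ∃ n : ℕ, d = n ∧ ∀ W : Set X, (n : ℕ∞) ≤ W.encard → TrivialStab Γ W →
    ExtProp Γ W}

/-- the full isometry group of a metric space, as a group of permutations. -/
def isomGroup (X : Type*) [MetricSpace X] : Subgroup (Equiv.Perm X) where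
  carrier := {σ | Isometry σ}
  mul_mem' := fun {a b} ha hb => ha.comp hb
  one_mem' := isometry_id
  inv_mem' := fun {a} ha => by
    intro x y
    have h := ha (a⁻¹ x) (a⁻¹ y)
    simpa using h.symm

end Ext7
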