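import Pool.Agent.Lib.MP_ad0d06_co.Base
import Pool.Agent.Lib.MP_ad0d06_co.Defs

open Complex ComplexConjugate

noncomputable section

namespace Ext7

/-- the plane -/
abbrev Pl := EuclideanSpace ℝ (Fin 2)

/-- the plane as the complex numbers -/
def eC : ℂ ≃ᵢ Pl := Complex.orthonormalBasisOneI.repr.toIsometryEquiv

/-- an isometry of the plane as an isometry of the complex numbers -/
def toC (γ : Equiv.Perm Pl) (h : Isometry γ) : ℂ ≃ᵢ ℂ :=
  (eC.trans ⟨γ, h⟩).trans eC.symm

theorem toC_apply (γ : Equiv.Perm Pl) (h : Isometry γ) (z : ℂ) :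
    toC γ h z = eC.symm (γ (eC z)) := rfl

theorem eC_toC (γ : Equiv.Perm Pl) (h : Isometry γ) (z : ℂ) : eC (toC γ h z) = γ (eC z) := by
  rw [toC_apply, IsometryEquiv.apply_symm_apply]

/-- an isometry of the complex numbers as an isometry of the plane -/
def fromC (g : ℂ ≃ᵢ ℂ) : Equiv.Perm Pl := ((eC.symm.trans g).trans eC).toEquiv

theorem fromC_mem (g : ℂ ≃ᵢ ℂ) : fromC g ∈ isomGroup Pl :=
  ((eC.symm.trans g).trans eC).isometry

theorem fromC_eC (g : ℂ ≃ᵢ ℂ) (z : ℂ) : fromC g (eC z) = eC (g z) := by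
  show eC (g (eC.symm (eC z))) = _
  rw [IsometryEquiv.symm_apply_apply]

theorem fromC_eq_one {g : ℂ ≃ᵢ ℂ} (h : fromC g = 1) : g = 1 := by
  ext z
  have h1 : fromC g (eC z) = eC z := by rw [h]; rfl
  rw [fromC_eC] at h1
  exact eC.injective h1

theorem toC_eq_one {γ : Equiv.Perm Pl} {h : Isometry γ} (h1 : toC γ h = 1) : γ = 1 := by
  ext1 x
  obtain ⟨z, rfl⟩ := eC.surjective x
  rw [← eC_toC γ h, h1]
  rfl

theorem fin2_eq {a b : Fin 2} (h : a = 1 ↔ b = 1) : a = b := by
  revert a b
  decide

/-- a two-colouring is distinguishing iff one colour class has no symmetry -/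
theorem dist_iff (c : Pl → Fin 2) :
    Distinguishing (isomGroup Pl) c ↔ ¬ HasSym {z : ℂ | c (eC z) = 1} := by
  constructor
  · rintro hD ⟨g, hg1, hg⟩
    apply hg1
    apply fromC_eq_one
    apply hD _ (fromC_mem g)
    funext x
    obtain ⟨z, rfl⟩ := eC.surjective x
    simp only [Function.comp_apply]
    rw [fromC_eC]
    exact fin2_eq (hg z)
  · intro hS γ hγ hc
    by_contra hne
    apply hS
    have hγ' : Isometry γ := hγ
    refine ⟨toC γ hγ', fun h => hne (toC_eq_one h), fun z => ?_⟩
    simp only [Set.mem_ofPred_eq]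
    rw [eC_toC]
    have : c (γ (eC z)) = c (eC z) := congrFun hc (eC z)
    rw [this]

/-- the reflection `z ↦ a * conj z + b` -/
def refl (a b : ℂ) (ha : ‖a‖ = 1) : ℂ ≃ᵢ ℂ :=
  (conjLIE.trans (rotation ⟨a, mem_sphere_zero_iff_norm.2 ha⟩)).toIsometryEquiv.trans
    (IsometryEquiv.addRight b)

theorem refl_apply (a b : ℂ) (ha : ‖a‖ = 1) (z : ℂ) : refl a b ha z = a * conj z + b := rfl

/-- a set with trivial stabiliser is not in a line -/
theorem not_lin {W : Set Pl} (h : TrivialStab (isomGroup Pl) W) : ¬ Lin (eC ⁻¹' W) := by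
  rintro ⟨p, v, hv, hW⟩
  have hcv : conj v ≠ 0 := by simpa using hv
  have ha : ‖v / conj v‖ = 1 := by
    rw [norm_div, RCLike.norm_conj, div_self (norm_ne_zero_iff.2 hv)]
  set g := refl (v / conj v) (p - v / conj v * conj p) ha with hg
  have hgz : ∀ z, g z = p + v / conj v * conj (z - p) := by
    intro z
    rw [hg, refl_apply, map_sub]
    ring
  have h1 : fromC g = 1 := by
    apply h _ (fromC_mem g)
    intro w hw
    obtain ⟨z, rfl⟩ := eC.surjective w
    rw [fromC_eC, hgz]
    congr 1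
    have h2 := hW z hw
    have h3 : conj ((z - p) * conj v) = (z - p) * conj v := Complex.conj_eq_iff_im.2 h2
    rw [map_mul, Complex.conj_conj] at h3
    have h4 : v / conj v * conj (z - p) = z - p := by
      rw [div_mul_eq_mul_div, mul_comm v, h3, mul_div_assoc, div_self hcv, mul_one]
    rw [h4]
    ring
  have h5 := fromC_eq_one h1
  have h6 := hgz (p + I * v)
  rw [h5] at h6
  have h7 : p + I * v = p + v / conj v * conj (p + I * v - p) := h6
  have h8 : v / conj v * conj (p + I * v - p) = -(I * v) := by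
    rw [add_sub_cancel_left, map_mul, conj_I]
    field_simp
  rw [h8] at h7
  have h9 : I * v = 0 := by linear_combination h7 / 2
  rcases mul_eq_zero.1 h9 with h9 | h9
  · exact I_ne_zero h9
  · exact hv h9

/-- collinearity of three points -/
theorem lin_three {W : Set ℂ} (h : Lin W) {w1 w2 w3 : ℂ} (h1 : w1 ∈ W) (h2 : w2 ∈ W) (h3 : w3 ∈ W) :
    ((w3 - w1) * conj (w2 - w1)).im = 0 := by
  obtain ⟨p, v, hv, hW⟩ := h
  have a1 := hW w1 h1
  have a2 := hW w2 h2
  have a3 := hW w3 h3
  have hn : (normSq v : ℂ) ≠ 0 := by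
    rw [ne_eq, ofReal_eq_zero, normSq_eq_zero]
    exact hv
  have b2 : ((w2 - w1) * conj v).im = 0 := by
    have : (w2 - w1) * conj v = (w2 - p) * conj v - (w1 - p) * conj v := by ring
    rw [this, sub_im, a1, a2, sub_zero]
  have b3 : ((w3 - w1) * conj v).im = 0 := by
    have : (w3 - w1) * conj v = (w3 - p) * conj v - (w1 - p) * conj v := by ring
    rw [this, sub_im, a1, a3, sub_zero]
  have c2 : ((w2 - w1) * conj v) = (((w2 - w1) * conj v).re : ℂ) := by
    apply Complex.ext <;> simp [b2]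
  have c3 : ((w3 - w1) * conj v) = (((w3 - w1) * conj v).re : ℂ) := by
    apply Complex.ext <;> simp [b3]
  have d : (w3 - w1) * conj (w2 - w1) * (normSq v : ℂ)
      = (((w3 - w1) * conj v).re : ℂ) * (((w2 - w1) * conj v).re : ℂ) := by
    have e2 : conj ((w2 - w1) * conj v) = (((w2 - w1) * conj v).re : ℂ) := by
      rw [c2, conj_ofReal, ofReal_re]
    rw [← c3, ← e2, map_mul, Complex.conj_conj, normSq_eq_conj_mul_self]
    ring
  have e : ((w3 - w1) * conj (w2 - w1) * (normSq v : ℂ)).im = 0 := by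
    rw [d, ← ofReal_mul, ofReal_im]
  rw [im_mul_ofReal] at e
  rcases mul_eq_zero.1 e with e | e
  · exact e
  · exact absurd (normSq_eq_zero.1 e) hv

/-- a non collinear set with at least seven points has a non collinear subset with seven points -/
theorem seven {W : Set ℂ} (h7 : 7 ≤ W.encard) (hW : ¬ Lin W) :
    ∃ W' : Finset ℂ, (W' : Set ℂ) ⊆ W ∧ W'.card = 7 ∧ ¬ Lin (W' : Set ℂ) := by
  have hne : ∃ w1 ∈ W, ∃ w2 ∈ W, w1 ≠ w2 := by
    have h1 : 1 < W.encard := lt_of_lt_of_le (by norm_num) h7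
    rw [Set.one_lt_encard_iff] at h1
    obtain ⟨a, b, ha, hb, hab⟩ := h1
    exact ⟨a, ha, b, hb, hab⟩
  obtain ⟨w1, hw1, w2, hw2, h12⟩ := hne
  have h3 : ∃ w3 ∈ W, ((w3 - w1) * conj (w2 - w1)).im ≠ 0 := by
    by_contra hcon
    push Not at hcon
    exact hW ⟨w1, w2 - w1, sub_ne_zero.2 (Ne.symm h12), hcon⟩
  obtain ⟨w3, hw3, h3⟩ := h3
  have hsub : ({w1, w2, w3} : Set ℂ) ⊆ W := by
    intro x hx
    rcases hx with rfl | rfl | rfl
    · exact hw1
    · exact hw2
    · exact hw3
  have hcard : ({w1, w2, w3} : Set ℂ).encard ≤ 7 := by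
    refine le_trans (Set.encard_insert_le _ _) ?_
    refine le_trans (add_le_add_left (Set.encard_insert_le _ _) 1) ?_
    rw [Set.encard_singleton]
    norm_num
  obtain ⟨r, hr1, hr2, hr3⟩ := Set.exists_superset_subset_encard_eq hsub hcard h7
  have hfin : r.Finite := Set.finite_of_encard_eq_coe (k := 7) hr3
  refine ⟨hfin.toFinset, ?_, ?_, ?_⟩
  · rw [hfin.coe_toFinset]; exact hr2
  · have := hfin.encard_eq_coe_toFinset_card
    rw [hr3] at this
    exact_mod_cast this.symm
  · rw [hfin.coe_toFinset]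
    intro hl
    exact h3 (lin_three hl (hr1 (by simp)) (hr1 (by simp)) (hr1 (by simp)))

theorem dist_two (core : ∀ (A : Set ℂ) (W : Finset ℂ), (∀ w ∈ W, w ∉ A) → W.card = 7 →
    ¬ Lin (W : Set ℂ) → ∃ T ⊆ W, ¬ HasSym (A ∪ ↑T)) : distNumber (isomGroup Pl) = 2 := by
  classical
  apply le_antisymm
  · apply sInf_le
    refine ⟨2, rfl, ?_⟩
    -- seven non collinear points
    have hun : ¬ Lin (Set.univ : Set ℂ) := by
      intro h
      have := lin_three h (w1 := 0) (w2 := 1) (w3 := I) trivial trivial trivial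
      simp at this
    have h7 : (7 : ℕ∞) ≤ (Set.univ : Set ℂ).encard := by
      rw [Set.infinite_univ.encard_eq]
      exact le_top
    obtain ⟨W', -, hc, hl⟩ := seven h7 hun
    obtain ⟨T, -, hT⟩ := core ∅ W' (fun _ _ h => h) hc hl
    refine ⟨fun x => if eC.symm x ∈ T then 1 else 0, ?_⟩
    rw [dist_iff]
    convert hT using 2
    ext z
    simp
  · apply le_sInf
    rintro d ⟨k, rfl, c, hc⟩
    by_contra hcon
    push Not at hcon
    have hk : k < 2 := by exact_mod_cast hcon
    interval_cases k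
    · exact (c 0).elim0
    · have h1 := hc (IsometryEquiv.addRight (EuclideanSpace.single (0 : Fin 2) (1:ℝ))).toEquiv
        (IsometryEquiv.addRight (EuclideanSpace.single (0 : Fin 2) (1:ℝ))).isometry
        (by funext x; exact Subsingleton.elim _ _)
      have h2 := congrArg (fun σ : Equiv.Perm Pl => σ 0) h1
      have h3 : (0 : Pl) + EuclideanSpace.single (0 : Fin 2) (1:ℝ) = 0 := h2
      rw [zero_add] at h3
      have h4 := congrArg (fun x : Pl => x 0) h3
      simp at h4

/-- the five fifth roots of unity -/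
def rt : ZMod 5 → ℂ := fun j => ZMod.stdAddChar j

theorem rt_add (a b : ZMod 5) : rt (a + b) = rt a * rt b := AddChar.map_add_eq_mul _ a b

theorem rt_conj (a : ZMod 5) : conj (rt a) = rt (-a) := (AddChar.map_neg_eq_conj _ a).symm

theorem rt_inj : Function.Injective rt := ZMod.injective_stdAddChar

theorem rt_zero : rt 0 = 1 := AddChar.map_zero_eq_one _

theorem rt_norm (a : ZMod 5) : ‖rt a‖ = 1 := AddChar.norm_apply _ a

theorem rt_ne (a : ZMod 5) : rt a ≠ 0 := by
  intro h
  have := rt_norm a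
  rw [h, norm_zero] at this
  exact zero_ne_one this

/-- the six points -/
def W0 : Set ℂ := insert 0 (Set.range rt)

theorem W0_encard : W0.encard = 6 := by
  unfold W0
  rw [Set.encard_insert_of_notMem]
  · rw [← Set.image_univ, rt_inj.encard_image, Set.encard_univ]
    simp
    norm_num
  · rintro ⟨a, ha⟩
    exact rt_ne a ha

theorem sub5 : ∀ S : Finset (ZMod 5), ∃ a : ZMod 5, ∀ i, (a - i ∈ S ↔ i ∈ S) := by
  decide

theorem W0_sym (B : Set ℂ) (hB : B ⊆ W0) : HasSym B := by
  classical
  obtain ⟨a, ha⟩ := sub5 (Finset.univ.filter (fun i => rt i ∈ B))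
  have ha' : ∀ i, (rt (a - i) ∈ B ↔ rt i ∈ B) := by
    intro i
    have := ha i
    simpa using this
  refine ⟨refl (rt a) 0 (rt_norm a), ?_, ?_⟩
  · intro h
    have h1 : ∀ z, rt a * conj z + 0 = z := by
      intro z
      rw [← refl_apply (rt a) 0 (rt_norm a), h]
      rfl
    have h2 := h1 (rt 0)
    have h3 := h1 (rt 1)
    rw [rt_conj, ← rt_add, add_zero] at h2 h3
    have h4 := rt_inj h2
    have h5 := rt_inj h3
    simp only [neg_zero, add_zero] at h4
    rw [h4] at h5
    revert h5
    decide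
  · intro z
    rw [refl_apply, add_zero]
    have hrt : ∀ i, rt a * conj (rt i) = rt (a - i) := by
      intro i
      rw [rt_conj, ← rt_add, sub_eq_add_neg]
    constructor
    · intro h
      rcases hB h with h1 | ⟨j, hj⟩
      · have : z = 0 := by
          rcases mul_eq_zero.1 h1 with h2 | h2
          · exact absurd h2 (rt_ne a)
          · simpa using h2
        rw [this] at h ⊢
        simpa using h
      · have hz : z = rt (a - j) := by
          have h2 : conj z = rt (j - a) := by
            have h3 : rt (j - a) = rt (-a) * rt j := by rw [← rt_add]; congr 1; ring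
            rw [h3, hj, ← mul_assoc, ← rt_add]
            simp [rt_zero]
          have h4 := congrArg conj h2
          rw [Complex.conj_conj, rt_conj] at h4
          rw [h4]; congr 1; ring
        rw [hz, ha']
        rwa [hj]
    · intro h
      rcases hB h with h1 | ⟨j, hj⟩
      · rw [h1] at h ⊢
        simpa using h
      · rw [← hj, hrt, ha', hj]
        exact h

theorem main_of_core (core : ∀ (A : Set ℂ) (W : Finset ℂ), (∀ w ∈ W, w ∉ A) → W.card = 7 →
    ¬ Lin (W : Set ℂ) → ∃ T ⊆ W, ¬ HasSym (A ∪ ↑T)) :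
    distNumber (isomGroup (EuclideanSpace ℝ (Fin 2))) = 2 ∧
      extNumber (isomGroup (EuclideanSpace ℝ (Fin 2))) = 7 := by
  classical
  have hd := dist_two core
  refine ⟨hd, ?_⟩
  apply le_antisymm
  · apply sInf_le
    refine ⟨7, rfl, ?_⟩
    intro W hW hst
    refine ⟨2, by rw [hd]; rfl, ?_⟩
    intro c
    have h7 : 7 ≤ (eC ⁻¹' W).encard := by
      have h1 : (eC '' (eC ⁻¹' W)).encard = (eC ⁻¹' W).encard := eC.injective.encard_image _
      rw [Set.image_preimage_eq _ eC.surjective] at h1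
      rw [← h1]
      exact_mod_cast hW
    obtain ⟨W', hsub, hcard, hlin⟩ := seven h7 (not_lin hst)
    obtain ⟨T, hTW, hT⟩ := core {z | ∃ h : eC z ∉ W, c ⟨eC z, h⟩ = 1} W'
      (fun w hw ⟨h, _⟩ => h (hsub hw)) hcard hlin
    refine ⟨fun x => if h : x ∉ W then c ⟨x, h⟩ else if eC.symm x ∈ T then 1 else 0, ?_, ?_⟩
    · intro x
      simp [x.2]
    · rw [dist_iff]
      convert hT using 2
      ext z
      simp only [Set.mem_ofPred_eq, Set.mem_union, Finset.mem_coe]
      by_cases hz : eC z ∈ W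
      · simp [hz]
      · have hzT : z ∉ T := fun h => hz (hsub (hTW h))
        simp [hz, hzT]
  · apply le_sInf
    rintro d ⟨n, rfl, hn⟩
    by_contra hcon
    push Not at hcon
    have hn6 : n ≤ 6 := by
      have : n < 7 := by exact_mod_cast hcon
      omega
    have hW6 : (n : ℕ∞) ≤ (eC '' W0).encard := by
      rw [eC.injective.encard_image, W0_encard]
      exact_mod_cast hn6
    have hst : TrivialStab (isomGroup Pl) (eC '' W0) := by
      intro γ hγ0 hfix
      have hγ : Isometry γ := hγ0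
      apply toC_eq_one (h := hγ)
      have hf : ∀ z ∈ W0, toC γ hγ z = z := by
        intro z hz
        rw [toC_apply, hfix _ (Set.mem_image_of_mem _ hz), IsometryEquiv.symm_apply_apply]
      have h0 := hf 0 (Set.mem_insert _ _)
      have hr : ∀ j, toC γ hγ (rt j) = rt j := fun j => hf _ (Set.mem_insert_of_mem _ ⟨j, rfl⟩)
      obtain ⟨a, -, h | h⟩ := form_fix (toC γ hγ) 0 h0
      · have h1 := hr 0
        rw [h, rt_zero] at h1
        simp only [sub_zero, mul_one, zero_add] at h1
        ext z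
        rw [h z, h1]
        simp
      · exfalso
        have h1 := hr 0
        have h2 := hr 1
        rw [h, sub_zero, zero_add, rt_conj, neg_zero, rt_zero, mul_one] at h1
        rw [h, sub_zero, zero_add, rt_conj, h1, one_mul] at h2
        have h3 := rt_inj h2
        revert h3
        decide
    obtain ⟨k, hk, hext⟩ := hn _ hW6 hst
    rw [show distNumber (isomGroup Pl) = 2 from hd] at hk
    have hk2 : k = 2 := by exact_mod_cast hk
    subst hk2
    obtain ⟨c', hc', hdis⟩ := hext (fun _ => 0)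
    rw [dist_iff] at hdis
    apply hdis
    apply W0_sym
    intro z hz
    by_contra hz0
    have hz1 : eC z ∉ eC '' W0 := by
      rintro ⟨w, hw, hwz⟩
      exact hz0 (by rwa [← eC.injective hwz])
    have h1 := hc' ⟨eC z, hz1⟩
    simp only [Set.mem_ofPred_eq] at hz
    rw [hz] at h1
    exact one_ne_zero h1

end Ext7
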