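import Pool.Agent.Lib.MP_ad0d06_co.Fsp
import Pool.Agent.Lib.MP_ad0d06_co.Lattice
import Pool.Agent.Lib.MP_ad0d06_co.Frieze
import Pool.Agent.Lib.MP_ad0d06_co.CenterA
import Pool.Agent.Lib.MP_ad0d06_co.CenterB
import Pool.Agent.Lib.MP_ad0d06_co.Main

open Complex ComplexConjugate

noncomputable section

namespace Ext7

theorem core (A : Set ℂ) (W : Finset ℂ) (hd : ∀ w ∈ W, w ∉ A) (hc : W.card = 7)
    (hn : ¬ Lin (W : Set ℂ)) : ∃ T ⊆ W, ¬ HasSym (A ∪ ↑T) := by
  by_contra hcon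
  push Not at hcon
  by_cases h1 : ∀ s : ℂ, AI A (fun z => z + s) → s = 0
  · exact center_of center0 A W hd hc.ge hn h1 hcon
  · push Not at h1
    obtain ⟨t, ht, ht0⟩ := h1
    by_cases h2 : ∀ s : ℂ, AI A (fun z => z + s) → (s * conj t).im = 0
    · exact frieze A W hd hc.ge hn t ht0 ht h2 hcon
    · push Not at h2
      obtain ⟨s, hs, hst⟩ := h2
      obtain ⟨F, hF⟩ := lattice A W hd t s hst ht hs hcon
      exact fsp hF hc hn

theorem answer : distNumber (isomGroup (EuclideanSpace ℝ (Fin 2))) = 2 ∧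
    extNumber (isomGroup (EuclideanSpace ℝ (Fin 2))) = 7 := main_of_core core

end Ext7
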