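import Pool.Agent.Lib.MP_ad0d06_co.Sed

open Complex ComplexConjugate

noncomputable section

namespace Ext7

theorem signs {c1 c2 c3 p11 p21 p31 p12 p22 p32 p13 p23 p33 p14 p24 p34 : ℝ}
    (h1 : c1 * p11 + c2 * p21 + c3 * p31 = 0) (a11 : p11 ≤ 0) (a21 : 0 < p21) (a31 : 0 < p31)
    (h2 : c1 * p12 + c2 * p22 + c3 * p32 = 0) (a12 : 0 < p12) (a22 : p22 ≤ 0) (a32 : 0 < p32)
    (h3 : c1 * p13 + c2 * p23 + c3 * p33 = 0) (a13 : 0 < p13) (a23 : 0 < p23) (a33 : p33 ≤ 0)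
    (h4 : c1 * p14 + c2 * p24 + c3 * p34 = 0) (a14 : 0 < p14) (a24 : 0 < p24) (a34 : 0 < p34) :
    c1 = 0 ∧ c2 = 0 ∧ c3 = 0 := by
  rcases lt_trichotomy c1 0 with e1 | e1 | e1 <;> rcases lt_trichotomy c2 0 with e2 | e2 | e2 <;>
    rcases lt_trichotomy c3 0 with e3 | e3 | e3 <;>
    first
    | exact ⟨e1, e2, e3⟩
    | (exfalso; nlinarith [h4])
    | (exfalso; nlinarith [h1])
    | (exfalso; nlinarith [h2])
    | (exfalso; nlinarith [h3])

theorem eq_or_neg {a b : ℂ} (h : a.re * b.im - a.im * b.re = 0) (hn : ‖a‖ = ‖b‖) :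
    a = b ∨ a = -b := by
  have h1 : ‖a‖ ^ 2 = ‖b‖ ^ 2 := by rw [hn]
  rw [nsq, nsq] at h1
  have h2 : ((a.re - b.re) ^ 2 + (a.im - b.im) ^ 2) * ((a.re + b.re) ^ 2 + (a.im + b.im) ^ 2) = 0 := by
    have e : ((a.re - b.re) ^ 2 + (a.im - b.im) ^ 2) * ((a.re + b.re) ^ 2 + (a.im + b.im) ^ 2) =
      ((a.re * a.re + a.im * a.im) - (b.re * b.re + b.im * b.im)) ^ 2 +
        4 * (a.re * b.im - a.im * b.re) ^ 2 := by ring
    rw [e, h, h1]; ring
  rcases mul_eq_zero.1 h2 with h3 | h3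
  · left
    apply Complex.ext
    · nlinarith [sq_nonneg (a.re - b.re), sq_nonneg (a.im - b.im)]
    · nlinarith [sq_nonneg (a.re - b.re), sq_nonneg (a.im - b.im)]
  · right
    apply Complex.ext
    · rw [neg_re]; nlinarith [sq_nonneg (a.re + b.re), sq_nonneg (a.im + b.im)]
    · rw [neg_im]; nlinarith [sq_nonneg (a.re + b.re), sq_nonneg (a.im + b.im)]

/-- at most three critical points -/
theorem crit_four {Y : Finset ℂ} {o : ℂ} {R : ℝ} {v1 v2 v3 v4 : ℂ} (k1 : Crit Y o R v1)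
    (k2 : Crit Y o R v2) (k3 : Crit Y o R v3) (k4 : Crit Y o R v4) (h12 : v1 ≠ v2) (h13 : v1 ≠ v3)
    (h14 : v1 ≠ v4) (h23 : v2 ≠ v3) (h24 : v2 ≠ v4) (h34 : v3 ≠ v4) : False := by
  obtain ⟨m1, n1, u1, s1, t1⟩ := k1
  obtain ⟨m2, n2, u2, s2, t2⟩ := k2
  obtain ⟨m3, n3, u3, s3, t3⟩ := k3
  obtain ⟨m4, n4, u4, s4, t4⟩ := k4
  have q21 := t1 v2 m2 n2 h12.symm
  have q31 := t1 v3 m3 n3 h13.symm
  have q12 := t2 v1 m1 n1 h12
  have q32 := t2 v3 m3 n3 h23.symm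
  have q13 := t3 v1 m1 n1 h13
  have q23 := t3 v2 m2 n2 h23
  have q14 := t4 v1 m1 n1 h14
  have q24 := t4 v2 m2 n2 h24
  have q34 := t4 v3 m3 n3 h34
  rw [re_mul_conj] at *
  set a := v1 - o with ha
  set b := v2 - o with hb
  set c := v3 - o with hc
  have hs := signs (c1 := b.re * c.im - b.im * c.re) (c2 := c.re * a.im - c.im * a.re)
    (c3 := a.re * b.im - a.im * b.re) (p11 := a.re * u1.re + a.im * u1.im)
    (p21 := b.re * u1.re + b.im * u1.im) (p31 := c.re * u1.re + c.im * u1.im)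
    (p12 := a.re * u2.re + a.im * u2.im)
    (p22 := b.re * u2.re + b.im * u2.im) (p32 := c.re * u2.re + c.im * u2.im)
    (p13 := a.re * u3.re + a.im * u3.im)
    (p23 := b.re * u3.re + b.im * u3.im) (p33 := c.re * u3.re + c.im * u3.im)
    (p14 := a.re * u4.re + a.im * u4.im)
    (p24 := b.re * u4.re + b.im * u4.im) (p34 := c.re * u4.re + c.im * u4.im)
    (by ring) s1 q21 q31 (by ring) q12 s2 q32 (by ring) q13 q23 s3 (by ring) q14 q24 q34
  obtain ⟨e1, e2, e3⟩ := hs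
  have hab := eq_or_neg e3 (n1.trans n2.symm)
  have hac := eq_or_neg (a := c) (b := a) e2 (n3.trans n1.symm)
  rcases hab with hab | hab
  · exact h12 (sub_left_injective hab)
  · rcases hac with hac | hac
    · exact h13 (sub_left_injective hac).symm
    · apply h23
      have : b = c := by rw [hac, hab, neg_neg]
      exact sub_left_injective this

theorem card_le_three {Y S : Finset ℂ} {o : ℂ} {R : ℝ} (h : ∀ v ∈ S, Crit Y o R v) :
    S.card ≤ 3 := by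
  by_contra hcon
  obtain ⟨T, hT, hc⟩ := Finset.exists_subset_card_eq (show 4 ≤ S.card by omega)
  obtain ⟨v1, v2, v3, v4, h12, h13, h14, h23, h24, h34, rfl⟩ := Finset.card_eq_four.1 hc
  exact crit_four (h v1 (hT (by simp))) (h v2 (hT (by simp))) (h v3 (hT (by simp)))
    (h v4 (hT (by simp))) h12 h13 h14 h23 h24 h34

end Ext7
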