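import Pool.Agent.Lib.MP_ad0d06_co.Pair

open Complex ComplexConjugate

noncomputable section

namespace Ext7

theorem Fun.iso {M : Finset ℂ} {Φ Ψ : Finset ℂ → ℝ → ℂ} (h : Fun M Φ Ψ) {a b c : ℂ} (ha : a ∈ M)
    (hb : b ∈ M) (hc : c ∈ M) (h1 : a ≠ b) (h2 : a ≠ c) (h3 : b ≠ c) {r : ℝ} (hr : 0 < r)
    (na : ‖a‖ = r) (nb : ‖b‖ = r) (nc : ‖c‖ = r) : Iso3 a b c := by
  have key : (a ^ 2 - b * c) * (b ^ 2 - a * c) * (c ^ 2 - a * b) = 0 := by
    apply triple_alg (q := Ψ ∅ r) (p := Φ ∅ r) hr na nb nc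
    intro x y z hx hy hz
    have hT : ∀ T ⊆ ({a, b, c} : Finset ℂ), T ⊆ M := by
      intro T hT x hx
      have := hT hx
      simp only [Finset.mem_insert, Finset.mem_singleton] at this
      rcases this with rfl | rfl | rfl <;> assumption
    have gen : ∀ T ⊆ ({a, b, c} : Finset ℂ), ((Ψ ∅ r + ∑ w ∈ T, w ^ 2) *
        conj (Φ ∅ r + ∑ w ∈ T, w) ^ 2).im = 0 := by
      intro T hT'
      have e := h.par2 T (hT T hT') r
      rw [h.add1 T (hT T hT'), h.add2 T (hT T hT')] at e
      have e1 : (∑ w ∈ T, if ‖w‖ = r then w else 0) = ∑ w ∈ T, w := by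
        apply Finset.sum_congr rfl
        intro w hw
        have := hT' hw
        simp only [Finset.mem_insert, Finset.mem_singleton] at this
        rcases this with rfl | rfl | rfl
        · rw [if_pos na]
        · rw [if_pos nb]
        · rw [if_pos nc]
      have e2 : (∑ w ∈ T, if ‖w‖ = r then w ^ 2 else 0) = ∑ w ∈ T, w ^ 2 := by
        apply Finset.sum_congr rfl
        intro w hw
        have := hT' hw
        simp only [Finset.mem_insert, Finset.mem_singleton] at this
        rcases this with rfl | rfl | rfl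
        · rw [if_pos na]
        · rw [if_pos nb]
        · rw [if_pos nc]
      rwa [e1, e2] at e
    rcases hx with rfl | rfl <;> rcases hy with rfl | rfl <;> rcases hz with rfl | rfl
    · have := gen ∅ (by simp)
      simpa using this
    · have := gen {c} (by simp)
      simpa using this
    · have := gen {b} (by simp)
      simpa using this
    · have := gen {b, c} (by intro x; simp; tauto)
      rw [Finset.sum_pair h3, Finset.sum_pair h3] at this
      convert this using 3
      · push_cast; ring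
      · push_cast; ring_nf
    · have := gen {a} (by simp)
      simpa using this
    · have := gen {a, c} (by intro x; simp; tauto)
      rw [Finset.sum_pair h2, Finset.sum_pair h2] at this
      convert this using 3
      · push_cast; ring
      · push_cast; ring_nf
    · have := gen {a, b} (by intro x; simp; tauto)
      rw [Finset.sum_pair h1, Finset.sum_pair h1] at this
      convert this using 3
      · push_cast; ring
      · push_cast; ring_nf
    · have := gen {a, b, c} (by simp)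
      rw [Finset.sum_insert (by simp [h1, h2]), Finset.sum_pair h3,
        Finset.sum_insert (by simp [h1, h2]), Finset.sum_pair h3] at this
      convert this using 3
      · push_cast; ring
      · push_cast; ring_nf
  unfold Iso3
  rcases mul_eq_zero.1 key with h4 | h4
  · rcases mul_eq_zero.1 h4 with h5 | h5
    · exact Or.inl (sub_eq_zero.1 h5)
    · exact Or.inr (Or.inl (sub_eq_zero.1 h5))
  · exact Or.inr (Or.inr (sub_eq_zero.1 h4))

theorem Fun.classify {M : Finset ℂ} {Φ Ψ : Finset ℂ → ℝ → ℂ} (h : Fun M Φ Ψ) :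
    (∃ w ∈ M, w ≠ 0 ∧ (∀ x ∈ M, (x * conj w).im = 0) ∧ ∀ ρ, (Φ ∅ ρ * conj w).im = 0) ∨
    ∃ r, 0 < r ∧ ∀ x ∈ M, x ≠ 0 → ‖x‖ = r := by
  by_cases h1 : ∃ a ∈ M, ∃ b ∈ M, a ≠ 0 ∧ b ≠ 0 ∧ ‖a‖ ≠ ‖b‖
  · left
    obtain ⟨a, ha, b, hb, ha0, hb0, hab⟩ := h1
    obtain ⟨h2, h3⟩ := h.pair ha hb hab ha0 hb0
    refine ⟨a, ha, ha0, fun x hx => ?_, h3⟩
    by_cases hx0 : x = 0
    · simp [hx0]
    by_cases hxa : ‖x‖ = ‖a‖
    · have h4 := (h.pair hx hb (by rw [hxa]; exact hab) hx0 hb0).1
      exact par_trans hb0 h4 (par_symm h2)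
    · exact (h.pair hx ha hxa hx0 ha0).1
  · right
    push Not at h1
    by_cases h2 : ∃ a ∈ M, a ≠ 0
    · obtain ⟨a, ha, ha0⟩ := h2
      exact ⟨‖a‖, norm_pos_iff.2 ha0, fun x hx hx0 => h1 x hx a ha hx0 ha0⟩
    · push Not at h2
      exact ⟨1, one_pos, fun x hx hx0 => absurd (h2 x hx) hx0⟩

/-- the finite functionals -/
theorem Cfg0.fn {Y M : Finset ℂ} (h : Cfg0 Y M) :
    Fun M (fun T ρ => s1 (Y ∪ T) ρ) (fun T ρ => s2 (Y ∪ T) ρ) := by
  refine ⟨?_, ?_, ?_, ?_⟩
  · intro T hT ρ
    rw [Finset.union_empty, s1_union h.disj hT]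
  · intro T hT ρ
    rw [Finset.union_empty, s2_union h.disj hT]
  · intro T hT
    exact (h.par hT).1
  · intro T hT
    exact (h.par hT).2.1

theorem rf_self {w : ℂ} (hw : w ≠ 0) : rf w w = w := by
  unfold rf
  rw [div_mul_cancel₀ _ ((map_ne_zero _).2 hw)]

theorem rf_of_par {w x : ℂ} (hw : w ≠ 0) (h : (x * conj w).im = 0) : rf w x = x := by
  unfold rf
  rw [div_mul_eq_mul_div, div_eq_iff ((map_ne_zero _).2 hw)]
  have := conj_eq_iff_im.2 h
  rw [map_mul, conj_conj] at this
  rw [mul_comm w, this]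

theorem par_of_rf {w x : ℂ} (hw : w ≠ 0) (h : rf w x = x) : (x * conj w).im = 0 := by
  unfold rf at h
  rw [div_mul_eq_mul_div, div_eq_iff ((map_ne_zero _).2 hw)] at h
  rw [← conj_eq_iff_im, map_mul, conj_conj, mul_comm, h]

theorem rf_congr {w v z : ℂ} (hw : w ≠ 0) (hv : v ≠ 0) (h : (v * conj w).im = 0) :
    rf w z = rf v z := by
  unfold rf
  congr 1
  rw [div_eq_div_iff ((map_ne_zero _).2 hw) ((map_ne_zero _).2 hv)]
  have := conj_eq_iff_im.2 h
  rw [map_mul, conj_conj] at this
  linear_combination this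

theorem rf_inj {w : ℂ} (hw : w ≠ 0) {x y : ℂ} (h : rf w x = rf w y) : x = y := by
  unfold rf at h
  have h1 : w / conj w ≠ 0 := div_ne_zero hw ((map_ne_zero _).2 hw)
  exact (starRingEnd ℂ).injective (mul_left_cancel₀ h1 h)

theorem RSym.congr {Y : Finset ℂ} {w v : ℂ} (h : RSym Y w) (hw : w ≠ 0) (hv : v ≠ 0)
    (hp : (v * conj w).im = 0) : RSym Y v := by
  intro z
  rw [← rf_congr hw hv hp]
  exact h z

/-- adding points of the axis -/
theorem RSym.union_iff {Y T : Finset ℂ} {w : ℂ} (hw : w ≠ 0) (hd : Disjoint Y T)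
    (hT : ∀ x ∈ T, (x * conj w).im = 0) : RSym (Y ∪ T) w ↔ RSym Y w := by
  have hfix : ∀ z, rf w z ∈ T ↔ z ∈ T := by
    intro z
    constructor
    · intro h
      have h1 := rf_of_par hw (hT _ h)
      have h2 := rf_inj hw h1
      rwa [h2] at h
    · intro h
      rwa [rf_of_par hw (hT _ h)]
  constructor
  · intro h z
    have h1 := h z
    rw [Finset.mem_union, Finset.mem_union] at h1
    constructor
    · intro hz
      rcases h1.1 (Or.inl hz) with h2 | h2
      · exact h2
      · exact absurd ((hfix z).2 h2) (Finset.disjoint_left.1 hd hz)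
    · intro hz
      rcases h1.2 (Or.inl hz) with h2 | h2
      · exact h2
      · exact absurd ((hfix z).1 h2) (Finset.disjoint_left.1 hd hz)
  · intro h z
    rw [Finset.mem_union, Finset.mem_union, h z, hfix z]

/-- line type configurations are symmetric about the line -/
theorem Cfg0.line {Y M : Finset ℂ} (h : Cfg0 Y M) {w : ℂ} (hw : w ∈ M) (hw0 : w ≠ 0)
    (h2 : ∀ ρ, (s1 Y ρ * conj w).im = 0) : RSym Y w := by
  have key : ∀ T ⊆ ({w} : Finset ℂ), s1 (Y ∪ T) ‖w‖ ≠ 0 → RSym Y w := by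
    intro T hT hne
    have hTM : T ⊆ M := hT.trans (by simpa using hw)
    have h3 := (h.par hTM).2.2 ‖w‖ hne
    have hTw : ∀ x ∈ T, x = w := fun x hx => by simpa using hT hx
    have h4 : (s1 (Y ∪ T) ‖w‖ * conj w).im = 0 := by
      rw [s1_union h.disj hTM, add_mul, add_im, h2, zero_add, Finset.sum_mul, im_sum]
      apply Finset.sum_eq_zero
      intro x hx
      rw [hTw x hx, if_pos rfl, mul_conj, ofReal_im]
    have h5 := h3.congr hne hw0 (par_symm h4)
    rwa [RSym.union_iff hw0 (h.disj.mono_right hTM)] at h5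
    intro x hx
    rw [hTw x hx, mul_conj, ofReal_im]
  by_cases h1 : s1 (Y ∪ ∅) ‖w‖ = 0
  · apply key {w} (by simp)
    rw [s1_union h.disj (T := {w}) (by simpa using hw)]
    rw [Finset.union_empty] at h1
    rw [h1]; simpa using hw0
  · exact key ∅ (by simp) h1

end Ext7
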