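import Pool.Agent.Lib.MP_ad0d06_co.Gen
import Pool.Agent.Lib.MP_ad0d06_co.Circ
import Pool.Agent.Lib.MP_ad0d06_co.Alpha
import Pool.Agent.Lib.MP_ad0d06_co.Beta

open Complex ComplexConjugate

noncomputable section

namespace Ext7

theorem RSym.of_union {Y T : Finset ℂ} {w : ℂ} (hd : Disjoint Y T) (h : RSym (Y ∪ T) w)
    (hT : RSym T w) : RSym Y w := by
  intro z
  constructor
  · intro h1
    have h2 := (h z).1 (Finset.mem_union_left _ h1)
    rcases Finset.mem_union.1 h2 with h3 | h3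
    · exact h3
    · exact absurd ((hT z).2 h3) (Finset.disjoint_left.1 hd h1)
  · intro h1
    have h2 := (h z).2 (Finset.mem_union_left _ h1)
    rcases Finset.mem_union.1 h2 with h3 | h3
    · exact h3
    · exact absurd ((hT z).1 h3) (Finset.disjoint_left.1 hd h1)

/-- the free points are on a line through the centre which is an axis of the base -/
theorem line_type {F W S : Finset ℂ} {d : ℂ} (h : Cfg F W) (hn : ¬ Lin (W : Set ℂ)) (hS : S ⊆ W)
    (hc : 4 ≤ (W \ S).card) (hd : d ≠ 0) (hM : ∀ x ∈ W \ S, (x * conj d).im = 0)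
    (hr : RSym (F ∪ S) d) : False := by
  classical
  obtain ⟨v, hv, hv2⟩ : ∃ v ∈ W, (v * conj d).im ≠ 0 := by
    by_contra hcon
    push Not at hcon
    exact hn ⟨0, d, hd, fun w hw => by rw [sub_zero]; exact hcon w hw⟩
  set Z := W.filter (fun x => (x * conj d).im = 0) with hZ
  set V := W.filter (fun x => (x * conj d).im ≠ 0) with hV
  have hVS : V ⊆ S := by
    intro x hx
    obtain ⟨h1, h2⟩ := Finset.mem_filter.1 hx
    by_contra h3
    exact h2 (hM x (Finset.mem_sdiff.2 ⟨h1, h3⟩))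
  have hvV : v ∈ V := Finset.mem_filter.2 ⟨hv, hv2⟩
  have hFV : Disjoint F V := h.disj.mono_right (Finset.filter_subset _ _)
  have hYe : F ∪ S = (F ∪ V) ∪ (S.filter (fun x => (x * conj d).im = 0)) := by
    ext x
    simp only [Finset.mem_union, Finset.mem_filter, hV]
    constructor
    · rintro (h1 | h1)
      · exact Or.inl (Or.inl h1)
      · by_cases h2 : (x * conj d).im = 0
        · exact Or.inr ⟨h1, h2⟩
        · exact Or.inl (Or.inr ⟨hS h1, h2⟩)
    · rintro ((h1 | ⟨h1, h2⟩) | ⟨h1, h2⟩)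
      · exact Or.inl h1
      · exact Or.inr (hVS (Finset.mem_filter.2 ⟨h1, h2⟩))
      · exact Or.inr h1
  have hd2 : Disjoint (F ∪ V) (S.filter (fun x => (x * conj d).im = 0)) := by
    rw [Finset.disjoint_left]
    intro x hx hx2
    obtain ⟨h1, h2⟩ := Finset.mem_filter.1 hx2
    rcases Finset.mem_union.1 hx with h3 | h3
    · exact Finset.disjoint_left.1 h.disj h3 (hS h1)
    · exact (Finset.mem_filter.1 h3).2 h2
  have hr2 : RSym (F ∪ V) d := by
    rw [hYe] at hr
    exact (RSym.union_iff hd hd2 (fun x hx => (Finset.mem_filter.1 hx).2)).1 hr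
  have hvF : v ∉ F := fun hF => Finset.disjoint_left.1 h.disj hF hv
  refine pl (X := F ∪ V.erase v) (Z := Z) (p := 0) (d := d) hd ?_ ?_ ?_ ?_
  · intro z hz
    rw [sub_zero]
    exact (Finset.mem_filter.1 hz).2
  · refine hc.trans (Finset.card_le_card ?_)
    intro x hx
    exact Finset.mem_filter.2 ⟨(Finset.mem_sdiff.1 hx).1, hM x hx⟩
  · refine h.sub Finset.subset_union_left ?_ (Finset.filter_subset _ _) ?_
    · intro x hx
      rcases Finset.mem_union.1 hx with h1 | h1
      · exact Finset.mem_union_left _ h1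
      · exact Finset.mem_union_right _ (Finset.mem_filter.1 (Finset.mem_of_mem_erase h1)).1
    · rw [Finset.disjoint_left]
      intro x hx hx2
      obtain ⟨h1, h2⟩ := Finset.mem_filter.1 hx2
      rcases Finset.mem_union.1 hx with h3 | h3
      · exact Finset.disjoint_left.1 h.disj h3 h1
      · exact (Finset.mem_filter.1 (Finset.mem_of_mem_erase h3)).2 h2
  · intro hsym
    have h1 : rf d v ∈ F ∪ V := (hr2 v).2 (Finset.mem_union_right _ hvV)
    have h2 : rf d v ≠ v := fun e => hv2 (par_of_rf hd e)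
    have h3 : rf d v ∈ F ∪ V.erase v := by
      rcases Finset.mem_union.1 h1 with h4 | h4
      · exact Finset.mem_union_left _ h4
      · exact Finset.mem_union_right _ (Finset.mem_erase.2 ⟨h2, h4⟩)
    have h4 := (hsym v).1 (by simpa using h3)
    rcases Finset.mem_union.1 h4 with h5 | h5
    · exact hvF h5
    · exact (Finset.mem_erase.1 h5).1 rfl

/-- all the nonzero points are free and on one circle -/
theorem circle_free {Y M : Finset ℂ} (h : Cfg0 Y M) (hc : 7 ≤ M.card) {r : ℝ} (hr : 0 < r)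
    (hM : ∀ x ∈ M, x ≠ 0 → ‖x‖ = r) : False := by
  have h1 : 6 ≤ (M.erase 0).card := by
    have := Finset.pred_card_le_card_erase (s := M) (a := (0 : ℂ))
    omega
  obtain ⟨N, hN, hNc⟩ := Finset.exists_subset_card_eq h1
  have hN2 : ∀ x ∈ N, x ∈ M ∧ ‖x‖ = r := by
    intro x hx
    obtain ⟨h2, h3⟩ := Finset.mem_erase.1 (hN hx)
    exact ⟨h3, hM x h3 h2⟩
  refine six_sep N r hr (fun x hx => (hN2 x hx).2) hNc ?_
  intro a ha b hb c hcc hab hac hbc _
  exact h.fn.iso (hN2 a ha).1 (hN2 b hb).1 (hN2 c hcc).1 hab hac hbc hr (hN2 a ha).2 (hN2 b hb).2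
    (hN2 c hcc).2

theorem tri_rsym {ω w : ℂ} (ho : ω ^ 2 + ω + 1 = 0) (hc : conj ω = ω ^ 2) (hw : w ≠ 0) (κ : ℝ) :
    RSym ({(κ : ℂ) * w, (κ : ℂ) * (ω * w), (κ : ℂ) * (ω ^ 2 * w)} : Finset ℂ) w := by
  have h3 : ω ^ 3 = 1 := by linear_combination (ω - 1) * ho
  have h1 : conj w ≠ 0 := (map_ne_zero _).2 hw
  have e1 : rf w ((κ : ℂ) * w) = (κ : ℂ) * w := by
    unfold rf
    rw [map_mul, conj_ofReal]; field_simp
  have e2 : rf w ((κ : ℂ) * (ω * w)) = (κ : ℂ) * (ω ^ 2 * w) := by
    unfold rf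
    rw [map_mul, map_mul, conj_ofReal, hc]; field_simp
  have e3 : rf w ((κ : ℂ) * (ω ^ 2 * w)) = (κ : ℂ) * (ω * w) := by
    unfold rf
    rw [map_mul, map_mul, map_pow, conj_ofReal, hc]
    have : (ω ^ 2) ^ 2 = ω := by linear_combination ω * h3
    rw [this]; field_simp
  have key : ∀ z ∈ ({(κ : ℂ) * w, (κ : ℂ) * (ω * w), (κ : ℂ) * (ω ^ 2 * w)} : Finset ℂ),
      rf w z ∈ ({(κ : ℂ) * w, (κ : ℂ) * (ω * w), (κ : ℂ) * (ω ^ 2 * w)} : Finset ℂ) := by
    intro z hz
    simp only [Finset.mem_insert, Finset.mem_singleton] at hz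
    rcases hz with rfl | rfl | rfl
    · rw [e1]; simp
    · rw [e2]; simp
    · rw [e3]; simp
  intro z
  refine ⟨fun h => ?_, key z⟩
  have := key _ h
  rwa [rf_rf hw] at this

theorem caseC_final {F W S : Finset ℂ} {R r : ℝ} {v ω : ℂ} (h : Cfg F W) (hc : W.card = 7)
    (hS : S ⊆ W) (hS3 : S.card ≤ 3) (hcrit : ∀ s ∈ S, ‖s‖ = R) (hF : ∀ x ∈ F, ‖x‖ ≤ R)
    (hr : 0 < r) (hrR : r < R) (hM : ∀ x ∈ W \ S, x ≠ 0 → ‖x‖ = r) (hv : v ∈ S)
    (hC : CaseC (F ∪ S) (W \ S) R v ω) : False := by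
  classical
  have hdisj : Disjoint (F ∪ S) (W \ S) := by
    rw [Finset.disjoint_left]
    intro x hx hx2
    obtain ⟨h1, h2⟩ := Finset.mem_sdiff.1 hx2
    rcases Finset.mem_union.1 hx with h | h3
    · exact Finset.disjoint_left.1 (Cfg.disj ‹_›) h h1
    · exact h2 h3
  set M := W \ S with hMdef
  have ho := hC.ho
  have hcj := hC.hc
  have h3 : ω ^ 3 = 1 := by linear_combination (ω - 1) * ho
  have hω0 : ω ≠ 0 := by rintro rfl; norm_num at ho
  have hMc : 4 ≤ M.card := by
    rw [hMdef, Finset.card_sdiff_of_subset hS]; omega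
  have hM0c : 3 ≤ (M.erase 0).card := by
    have := Finset.pred_card_le_card_erase (s := M) (a := (0 : ℂ))
    omega
  -- parallel free points
  have par : ∀ x ∈ M, ∀ y ∈ M, x ≠ 0 → y ≠ 0 → x ≠ y → y ≠ ω * x → y ≠ ω ^ 2 * x → y = -x := by
    intro x hx y hy hx0 hy0 hxy h1 h2
    have e := (hC.pairL hdisj hx hy hx0 hy0 hxy h1 h2).1
    rw [im_mul_conj] at e
    rcases eq_or_neg (a := x) (b := y) (by linarith) ((hM x hx hx0).trans (hM y hy hy0).symm) with
      h4 | h4
    · exact absurd h4 hxy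
    · rw [h4, neg_neg]
  have two : ∀ x ∈ M, ∀ y ∈ M, x ≠ 0 → y ≠ 0 → x ≠ y → y = ω * x ∨ y = ω ^ 2 * x := by
    intro x hx y hy hx0 hy0 hxy
    by_contra hcon
    push Not at hcon
    have hyx := par x hx y hy hx0 hy0 hxy hcon.1 hcon.2
    obtain ⟨z, hz, hzx, hzy⟩ : ∃ z ∈ M.erase 0, z ≠ x ∧ z ≠ y := by
      by_contra hcon2
      push Not at hcon2
      have hsub : M.erase 0 ⊆ {x, y} := by
        intro z hz
        simp only [Finset.mem_insert, Finset.mem_singleton]
        by_cases hzx : z = x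
        · exact Or.inl hzx
        · exact Or.inr (hcon2 z hz hzx)
      have := Finset.card_le_card hsub
      have := Finset.card_le_two (a := x) (b := y)
      omega
    obtain ⟨hz0, hzM⟩ := Finset.mem_erase.1 hz
    have k1 : z = ω * x ∨ z = ω ^ 2 * x := by
      by_contra hcon2
      push Not at hcon2
      have := par x hx z hzM hx0 hz0 hzx.symm hcon2.1 hcon2.2
      exact hzy (this.trans hyx.symm)
    have k2 : z = ω * y ∨ z = ω ^ 2 * y := by
      by_contra hcon2
      push Not at hcon2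
      have := par y hy z hzM hy0 hz0 hzy.symm hcon2.1 hcon2.2
      exact hzx (by rw [this, hyx, neg_neg])
    rw [hyx] at k2
    have fin : ∀ p : ℂ, p * x = 0 → p = 0 := fun p hp => (mul_eq_zero.1 hp).resolve_right hx0
    rcases k1 with k1 | k1 <;> rcases k2 with k2 | k2
    · have := fin (2 * ω) (by linear_combination k2 - k1)
      exact hω0 (by linear_combination this / 2)
    · have := fin (ω + ω ^ 2) (by linear_combination k2 - k1)
      have h5 : (1 : ℂ) = 0 := by linear_combination ho - this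
      exact one_ne_zero h5
    · have := fin (ω + ω ^ 2) (by linear_combination k2 - k1)
      have h5 : (1 : ℂ) = 0 := by linear_combination ho - this
      exact one_ne_zero h5
    · have := fin (2 * ω ^ 2) (by linear_combination k2 - k1)
      have h5 : ω ^ 2 = 0 := by linear_combination this / 2
      exact hω0 (pow_eq_zero_iff (two_ne_zero) |>.1 h5)
  obtain ⟨N, hN, hNc⟩ := Finset.exists_subset_card_eq hM0c
  obtain ⟨x, y, z, hxy, hxz, hyz, rfl⟩ := Finset.card_eq_three.1 hNc
  obtain ⟨hx0, hx⟩ := Finset.mem_erase.1 (hN (show x ∈ ({x, y, z} : Finset ℂ) by simp))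
  obtain ⟨hy0, hy⟩ := Finset.mem_erase.1 (hN (show y ∈ ({x, y, z} : Finset ℂ) by simp))
  obtain ⟨hz0, hz⟩ := Finset.mem_erase.1 (hN (show z ∈ ({x, y, z} : Finset ℂ) by simp))
  have hboth : ω * x ∈ M ∧ ω ^ 2 * x ∈ M := by
    rcases two x hx y hy hx0 hy0 hxy with k1 | k1 <;> rcases two x hx z hz hx0 hz0 hxz with k2 | k2
    · exact absurd (k1.trans k2.symm) hyz
    · exact ⟨k1 ▸ hy, k2 ▸ hz⟩
    · exact ⟨k2 ▸ hz, k1 ▸ hy⟩
    · exact absurd (k1.trans k2.symm) hyz
  have hMsub : M ⊆ {0, x, ω * x, ω ^ 2 * x} := by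
    intro u hu
    simp only [Finset.mem_insert, Finset.mem_singleton]
    by_cases hu0 : u = 0
    · exact Or.inl hu0
    · by_cases hux : u = x
      · exact Or.inr (Or.inl hux)
      · exact Or.inr (Or.inr (two x hx u hu hx0 hu0 (Ne.symm hux)))
  have hc4 : ({0, x, ω * x, ω ^ 2 * x} : Finset ℂ).card ≤ 4 := Finset.card_le_four
  have hMeq : M = {0, x, ω * x, ω ^ 2 * x} := Finset.eq_of_subset_of_card_le hMsub (by omega)
  have hM4 : M.card = 4 := by
    apply le_antisymm _ hMc
    rw [hMeq]; exact hc4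
  have hSc : S.card = 3 := by
    have := Finset.card_sdiff_of_subset hS
    have h5 := Finset.card_le_card hS
    rw [← hMdef] at this
    omega
  have hSsub : S ⊆ {v, ω * v, ω ^ 2 * v} := by
    intro s hs
    simp only [Finset.mem_insert, Finset.mem_singleton]
    exact hC.bd s (Finset.mem_union_right _ hs) (hcrit s hs)
  have hSeq : S = {v, ω * v, ω ^ 2 * v} := Finset.eq_of_subset_of_card_le hSsub (by
    rw [hSc]; exact Finset.card_le_three)
  have hvR : ‖v‖ = R := hcrit v hv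
  have hv0 : v ≠ 0 := by
    intro e
    rw [e, norm_zero] at hvR
    linarith
  have hyx0 : ω * x ≠ 0 := mul_ne_zero hω0 hx0
  have hzx0 : ω ^ 2 * x ≠ 0 := mul_ne_zero (pow_ne_zero 2 hω0) hx0
  obtain ⟨o1, o2, o3⟩ := om_ne ho hx0
  obtain ⟨κ, hκ⟩ := hC.kappa hdisj hx hboth.1 hx0 hyx0 o1.symm hv0
  have hSκ : S = {(κ : ℂ) * x, (κ : ℂ) * (ω * x), (κ : ℂ) * (ω ^ 2 * x)} := by
    rw [hSeq]
    have e1 : (κ : ℂ) * (ω * x) = ω * ((κ : ℂ) * x) := by ring
    have e2 : (κ : ℂ) * (ω ^ 2 * x) = ω ^ 2 * ((κ : ℂ) * x) := by ring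
    rw [e1, e2]
    rcases hκ with hκ | hκ | hκ
    · rw [hκ]
    · rw [hκ]
      have e3 : ω * (ω * v) = ω ^ 2 * v := by ring
      have e4 : ω ^ 2 * (ω * v) = v := by linear_combination v * h3
      rw [e3, e4]
      ext u
      simp only [Finset.mem_insert, Finset.mem_singleton]
      tauto
    · rw [hκ]
      have e3 : ω * (ω ^ 2 * v) = v := by linear_combination v * h3
      have e4 : ω ^ 2 * (ω ^ 2 * v) = ω * v := by linear_combination ω * v * h3
      rw [e3, e4]
      ext u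
      simp only [Finset.mem_insert, Finset.mem_singleton]
      tauto
  have hωn : ‖ω‖ = 1 := omega_norm hcj ho
  have hxr : ‖x‖ = r := hM x hx hx0
  have hκn : |κ| * ‖x‖ = R := by
    have e : ‖(κ : ℂ) * x‖ = R := by
      rcases hκ with hκ | hκ | hκ
      · rw [hκ, hvR]
      · rw [hκ, norm_mul, hωn, one_mul, hvR]
      · rw [hκ, norm_mul, norm_pow, hωn, one_pow, one_mul, hvR]
    rw [norm_mul, Complex.norm_real, Real.norm_eq_abs] at e
    exact e
  have hκ1 : 1 < |κ| := by
    rw [hxr] at hκn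
    by_contra hcon
    push Not at hcon
    have : |κ| * r ≤ 1 * r := by gcongr
    linarith
  have hFS : Disjoint F S := h.disj.mono_right hS
  have rs : ∀ w : ℂ, w ≠ 0 → RSym (F ∪ S) w →
      S = {(κ : ℂ) * w, (κ : ℂ) * (ω * w), (κ : ℂ) * (ω ^ 2 * w)} → RSym F w := by
    intro w hw h1 h2
    refine RSym.of_union hFS h1 ?_
    rw [h2]
    exact tri_rsym ho hcj hw κ
  have g1 : ω * (ω * x) = ω ^ 2 * x := by ring
  have g2 : ω ^ 2 * (ω * x) = x := by linear_combination x * h3
  have g3 : ω * (ω ^ 2 * x) = x := by linear_combination x * h3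
  have g4 : ω ^ 2 * (ω ^ 2 * x) = ω * x := by linear_combination ω * x * h3
  refine alpha (F := F) (W := W) (a := x) (ω := ω) (κ := κ) hx0 ho hcj hκ1 ?_ h ?_ ?_ ?_ ?_
  · have hWe : W = M ∪ S := by rw [hMdef, Finset.sdiff_union_of_subset hS]
    rw [hWe, hMeq, hSκ]
    ext u
    simp only [Finset.mem_insert, Finset.mem_singleton, Finset.mem_union]
    tauto
  · intro u hu
    rw [hκn]
    refine lt_of_le_of_ne (hF u hu) (fun e => ?_)
    have h5 := hC.bd u (Finset.mem_union_left _ hu) e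
    have h6 : u ∈ S := by
      rw [hSeq]
      simp only [Finset.mem_insert, Finset.mem_singleton]
      exact h5
    exact Finset.disjoint_left.1 hFS hu h6
  · exact rs x hx0 (hC.rsym hdisj hx hboth.1 hboth.2 hx0) hSκ
  · refine rs (ω * x) hyx0 (hC.rsym hdisj hboth.1 (by rw [g1]; exact hboth.2)
      (by rw [g2]; exact hx) hyx0) ?_
    rw [g1, g2, hSκ]
    ext u
    simp only [Finset.mem_insert, Finset.mem_singleton]
    tauto
  · refine rs (ω ^ 2 * x) hzx0 (hC.rsym hdisj hboth.2 (by rw [g3]; exact hx)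
      (by rw [g4]; exact hboth.1) hzx0) ?_
    rw [g3, g4, hSκ]
    ext u
    simp only [Finset.mem_insert, Finset.mem_singleton]
    tauto

/-- the finite case, centre at the origin -/
theorem fsp0 {F W : Finset ℂ} {R : ℝ} (h : Cfg F W) (hc : W.card = 7)
    (hn : ¬ Lin (W : Set ℂ)) (hs : IsSED (F ∪ W) 0 R) : False := by
  classical
  obtain ⟨S, hS, hsed, hcrit⟩ := exists_min h.disj hs
  have hS3 := card_le_three hcrit
  have hdisj : Disjoint (F ∪ S) (W \ S) := by
    rw [Finset.disjoint_left]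
    intro x hx hx2
    obtain ⟨h1, h2⟩ := Finset.mem_sdiff.1 hx2
    rcases Finset.mem_union.1 hx with h3 | h3
    · exact Finset.disjoint_left.1 h.disj h3 h1
    · exact h2 h3
  have hMc : 4 ≤ (W \ S).card := by
    rw [Finset.card_sdiff_of_subset hS]; omega
  have hcfg : Cfg (F ∪ S) (W \ S) := h.sub Finset.subset_union_left
    (Finset.union_subset_union (Finset.Subset.refl _) hS) Finset.sdiff_subset hdisj
  have hWR : ∀ w ∈ W, ‖w‖ ≤ R := by
    intro w hw
    have := hs.1 w (Finset.mem_union_right _ hw)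
    simpa using this
  have hFR : ∀ w ∈ F, ‖w‖ ≤ R := by
    intro w hw
    have := hs.1 w (Finset.mem_union_left _ hw)
    simpa using this
  have hSR : ∀ s ∈ S, ‖s‖ = R := by
    intro s hs
    have := (hcrit s hs).2.1
    simpa using this
  have hcfg0 : Cfg0 (F ∪ S) (W \ S) := hcfg.to0 hsed
    (fun w hw => hWR w (Finset.mem_sdiff.1 hw).1)
  rcases hcfg0.fn.classify with ⟨w, hw, hw0, hl, hΦ⟩ | ⟨r, hr, hM⟩
  · have hrs : RSym (F ∪ S) w := hcfg0.line hw hw0 (fun ρ => by
      have := hΦ ρ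
      rwa [Finset.union_empty] at this)
    exact line_type h hn hS hMc hw0 hl hrs
  · obtain ⟨w0, hw0, hw00⟩ : ∃ w ∈ W \ S, w ≠ 0 := by
      by_contra hcon
      push Not at hcon
      have hsub : W \ S ⊆ {0} := fun x hx => by simpa using hcon x hx
      have := Finset.card_le_card hsub
      rw [Finset.card_singleton] at this
      omega
    have hrR : r ≤ R := by
      rw [← hM w0 hw0 hw00]
      exact hWR w0 (Finset.mem_sdiff.1 hw0).1
    rcases lt_or_eq_of_le hrR with hlt | heq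
    · rcases Finset.eq_empty_or_nonempty S with hSe | ⟨v, hv⟩
      · refine circle_free hcfg0 ?_ hr hM
        rw [hSe, Finset.sdiff_empty, hc]
      · have hint : ∀ x ∈ W \ S, ‖x‖ < R := by
          intro x hx
          by_cases hx0 : x = 0
          · rw [hx0, norm_zero]; linarith
          · rw [hM x hx hx0]; exact hlt
        have hT : TCfg (F ∪ S) (W \ S) R v := ⟨hcfg, hsed, hint, hcrit v hv⟩
        rcases types hT (hr.trans hlt) with hL | ⟨ω, hC⟩
        · obtain ⟨h1, h2⟩ := hL w0 hw0 hw00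
          exact line_type h hn hS hMc hw00 h2 h1
        · exact caseC_final h hc hS hS3 hSR hFR hr hlt hM hv hC
    · refine beta_case (R := R) (hr.trans_le hrR) hc ?_ h hs
      intro x hx
      by_cases hxS : x ∈ S
      · exact Or.inr (hSR x hxS)
      · by_cases hx0 : x = 0
        · exact Or.inl hx0
        · right
          rw [hM x (Finset.mem_sdiff.2 ⟨hx, hxS⟩) hx0, heq]

theorem Lin.tr {W : Finset ℂ} {o : ℂ} (h : Lin ((tr o W : Finset ℂ) : Set ℂ)) :
    Lin (W : Set ℂ) := by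
  obtain ⟨p, v, hv, h1⟩ := h
  refine ⟨p + o, v, hv, fun w hw => ?_⟩
  have := h1 (w - o) (by
    rw [Finset.mem_coe, mem_tr, sub_add_cancel]
    exact hw)
  rwa [sub_sub, add_comm o p] at this

/-- the finite case -/
theorem fsp {F W : Finset ℂ} (h : Cfg F W) (hc : W.card = 7) (hn : ¬ Lin (W : Set ℂ)) :
    False := by
  obtain ⟨o, R, hs⟩ := exists_sed (F ∪ W) (by
    have : W.Nonempty := by rw [← Finset.card_pos]; omega
    exact this.mono Finset.subset_union_right)
  have h2 := hs.tr o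
  rw [sub_self, tr_union] at h2
  exact fsp0 (h.tr o) (by rw [card_tr, hc]) (fun hl => hn hl.tr) h2

end Ext7
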