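import Pool.Agent.Lib.MP_ad0d06_co.LineCase

open Complex ComplexConjugate

noncomputable section

namespace Ext7

theorem tr_union (o : ℂ) (A B : Finset ℂ) : tr o (A ∪ B) = tr o A ∪ tr o B := by
  ext z
  simp only [Finset.mem_union, mem_tr]

theorem card_tr (o : ℂ) (A : Finset ℂ) : (tr o A).card = A.card :=
  Finset.card_image_of_injective _ (fun x y h => by
    have : x - o = y - o := h
    exact sub_left_injective this)

theorem pair_gen {Y M : Finset ℂ} {o : ℂ} {R : ℝ} (h : Cfg Y M) (hs : IsSED Y o R)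
    (hM : ∀ w ∈ M, ‖w - o‖ ≤ R) {a b : ℂ} (ha : a ∈ M) (hb : b ∈ M)
    (hne : ‖a - o‖ ≠ ‖b - o‖) (ha0 : a ≠ o) (hb0 : b ≠ o) :
    ((a - o) * conj (b - o)).im = 0 := by
  have h1 := (h.tr o).to0 (R := R) (by have := hs.tr o; rwa [sub_self] at this) (by
    intro w hw
    have := hM _ (mem_tr.1 hw)
    simpa using this)
  exact (h1.fn.pair (a := a - o) (b := b - o) (mem_tr.2 (by simpa using ha))
    (mem_tr.2 (by simpa using hb)) hne (sub_ne_zero.2 ha0) (sub_ne_zero.2 hb0)).1

/-- radial sums about a general centre vanish -/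
theorem rs_gen {Y M : Finset ℂ} {o : ℂ} {R : ℝ} (h : Cfg Y M) (hs : IsSED Y o R)
    (hM : ∀ w ∈ M, ‖w - o‖ ≤ R) {a b : ℂ} (ha : a ∈ M) (hb : b ∈ M)
    (hne : ‖a - o‖ = ‖b - o‖) (hp : ((a - o) * conj (b - o)).im ≠ 0) {ρ : ℝ}
    (hρ : ρ ≠ ‖a - o‖) : ∑ x ∈ Y with ‖x - o‖ = ρ, (x - o) = 0 := by
  have h1 := (h.tr o).to0 (R := R) (by have := hs.tr o; rwa [sub_self] at this) (by
    intro w hw
    have := hM _ (mem_tr.1 hw)
    simpa using this)
  have h2 := h1.fn.rs (a := a - o) (b := b - o) (mem_tr.2 (by simpa using ha))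
    (mem_tr.2 (by simpa using hb)) hne hp hρ
  rw [Finset.union_empty] at h2
  unfold s1 tr at h2
  rw [Finset.sum_filter, Finset.sum_image (by
    intro x _ y _ hxy
    have : x - o = y - o := hxy
    exact sub_left_injective this)] at h2
  rw [Finset.sum_filter]; exact h2

/-- symmetric about the line through `p` with direction `d` -/
def SymL (X : Finset ℂ) (p d : ℂ) : Prop := ∀ z, p + rf d (z - p) ∈ X ↔ z ∈ X

theorem rf_sub (d x y : ℂ) : rf d (x - y) = rf d x - rf d y := by
  unfold rf; rw [map_sub]; ring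

theorem pl {X Z : Finset ℂ} {p d : ℂ} (hd : d ≠ 0) (hZ : ∀ z ∈ Z, ((z - p) * conj d).im = 0)
    (hc : 4 ≤ Z.card) (hcfg : Cfg X Z) (hns : ¬ SymL X p d) : False := by
  obtain ⟨o, R, hs⟩ := exists_sed (X ∪ Z) (by
    have : Z.Nonempty := by rw [← Finset.card_pos]; omega
    exact this.mono Finset.subset_union_right)
  obtain ⟨S, hSZ, hS, hcrit⟩ := exists_min hcfg.disj hs
  have hdisj : Disjoint (X ∪ S) (Z \ S) := by
    rw [Finset.disjoint_left]
    intro x hx hx2
    obtain ⟨h1, h2⟩ := Finset.mem_sdiff.1 hx2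
    rcases Finset.mem_union.1 hx with h | h
    · exact Finset.disjoint_left.1 hcfg.disj h h1
    · exact h2 h
  have hcfg2 : Cfg (X ∪ S) (Z \ S) := hcfg.sub Finset.subset_union_left
    (Finset.union_subset_union (Finset.Subset.refl _) hSZ) Finset.sdiff_subset hdisj
  have hline : ∀ z, z + o ∈ Z → (z * conj d).im = ((p - o) * conj d).im := by
    intro z hz
    have h1 := hZ _ hz
    have e : (z + o - p) * conj d = z * conj d - (p - o) * conj d := by ring
    rw [e, sub_im] at h1
    linarith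
  refine pl0 (Y0 := tr o X) (S := tr o S) (M := tr o (Z \ S)) (R := R)
    (h := ((p - o) * conj d).im) hd ?_ ?_ ?_ ?_ ?_ ?_ ?_ ?_ ?_ ?_
  · intro x hx
    exact hline x (hSZ (mem_tr.1 hx))
  · intro x hx
    exact hline x (Finset.mem_sdiff.1 (mem_tr.1 hx)).1
  · rw [Finset.disjoint_left]
    intro x hx hx2
    exact Finset.disjoint_left.1 hcfg.disj (mem_tr.1 hx) (hSZ (mem_tr.1 hx2))
  · rw [Finset.disjoint_left]
    intro x hx hx2
    exact (Finset.mem_sdiff.1 (mem_tr.1 hx2)).2 (mem_tr.1 hx)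
  · rw [← tr_union]
    have := hS.tr o
    rwa [sub_self] at this
  · intro s hs
    rw [← tr_union]
    have := (hcrit _ (mem_tr.1 hs)).tr o
    rw [sub_self] at this
    simpa using this
  · rw [← tr_union]
    exact hcfg2.tr o
  · intro x hx
    have := hs.1 _ (Finset.mem_union_right _ (Finset.mem_sdiff.1 (mem_tr.1 hx)).1)
    simpa using this
  · rw [card_tr, card_tr, Finset.card_sdiff_of_subset hSZ]
    have := Finset.card_le_card hSZ
    omega
  · intro h0 hr
    apply hns
    intro z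
    have e1 : rf d (p - o) = p - o := rf_of_par hd h0
    have e2 : p + rf d (z - p) = rf d (z - o) + o := by
      have : z - p = (z - o) - (p - o) := by ring
      rw [this, rf_sub, e1]; ring
    rw [e2, ← mem_tr, hr, mem_tr]
    simp

end Ext7
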