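import Pool.Agent.Lib.MP_ad0d06_co.TypesE

open Complex ComplexConjugate

noncomputable section

namespace Ext7

theorem normSq_d {d : ℂ} (hd : d ≠ 0) : 0 < ‖d‖ ^ 2 := by
  have := norm_pos_iff.2 hd
  positivity

theorem mul_conj_sq (a d : ℂ) : (a * conj d).re ^ 2 + (a * conj d).im ^ 2 = ‖a‖ ^ 2 * ‖d‖ ^ 2 := by
  rw [nsq, nsq, re_mul_conj, im_mul_conj]; ring

theorem eq_of_re {a b d : ℂ} (hd : d ≠ 0) (h1 : (a * conj d).re = (b * conj d).re)
    (h2 : (a * conj d).im = (b * conj d).im) : a = b :=
  mul_right_cancel₀ ((map_ne_zero _).2 hd) (Complex.ext h1 h2)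

theorem re_neg_of {a b d : ℂ} (hd : d ≠ 0) {h : ℝ} (ha : (a * conj d).im = h)
    (hb : (b * conj d).im = h) (hn : ‖a‖ = ‖b‖) (hab : a ≠ b) :
    (b * conj d).re = -(a * conj d).re := by
  have e1 := mul_conj_sq a d
  have e2 := mul_conj_sq b d
  rw [ha, hn] at e1
  rw [hb] at e2
  have e3 : ((a * conj d).re - (b * conj d).re) * ((a * conj d).re + (b * conj d).re) = 0 := by
    linear_combination e1 - e2
  rcases mul_eq_zero.1 e3 with e | e
  · exact absurd (eq_of_re hd (by linarith) (by rw [ha, hb])) hab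
  · linarith

theorem three_line {a b c d : ℂ} (hd : d ≠ 0) {h : ℝ} (ha : (a * conj d).im = h)
    (hb : (b * conj d).im = h) (hc : (c * conj d).im = h) (h1 : ‖a‖ = ‖b‖) (h2 : ‖a‖ = ‖c‖)
    (hab : a ≠ b) (hac : a ≠ c) (hbc : b ≠ c) : False := by
  have e1 := re_neg_of hd ha hb h1 hab
  have e2 := re_neg_of hd ha hc h2 hac
  exact hbc (eq_of_re hd (by rw [e1, e2]) (by rw [hb, hc]))

theorem par_line {a b d : ℂ} (hd : d ≠ 0) {h : ℝ} (ha : (a * conj d).im = h)
    (hb : (b * conj d).im = h) (hab : a ≠ b) (hp : (a * conj b).im = 0) : h = 0 := by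
  have e : ‖d‖ ^ 2 * (a * conj b).im = h * ((b * conj d).re - (a * conj d).re) := by
    have h1 := ha
    have h2 := hb
    rw [im_mul_conj] at h1 h2
    rw [nsq, im_mul_conj, re_mul_conj, re_mul_conj]
    linear_combination (b.re * d.re + b.im * d.im) * h1 - (a.re * d.re + a.im * d.im) * h2
  rw [hp, mul_zero] at e
  rcases mul_eq_zero.1 e.symm with e | e
  · exact e
  · exact absurd (eq_of_re hd (by linarith) (by rw [ha, hb])) hab

theorem om_line {w d ω : ℂ} (hd : d ≠ 0) (ho : ω ^ 2 + ω + 1 = 0) (hn : ‖ω‖ = 1) (hw : w ≠ 0)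
    {h : ℝ} (h1 : (w * conj d).im = h) (h2 : (ω * w * conj d).im = h) :
    ‖w‖ ^ 2 * ‖d‖ ^ 2 = 4 * h ^ 2 := by
  obtain ⟨o1, o2, o3⟩ := om_ne ho hw
  have e1 := re_neg_of hd h1 h2 (by rw [norm_mul, hn, one_mul]) o1.symm
  have e2 : (-(ω ^ 2 * w)) = w + ω * w := by linear_combination -w * ho
  have e3 := mul_conj_sq (-(ω ^ 2 * w)) d
  rw [norm_neg, norm_mul, norm_pow, hn, one_pow, one_mul] at e3
  rw [← e3, e2, add_mul, add_re, add_im, h1, h2, e1]; ring

theorem omega_norm {ω : ℂ} (hc : conj ω = ω ^ 2) (ho : ω ^ 2 + ω + 1 = 0) : ‖ω‖ = 1 := by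
  apply norm_of_unit
  rw [hc]; linear_combination (ω - 1) * ho

/-- the case of free points on a line, centre `0` -/
theorem pl0 {Y0 S M : Finset ℂ} {R h : ℝ} {d : ℂ} (hd : d ≠ 0) (hSL : ∀ x ∈ S, (x * conj d).im = h)
    (hML : ∀ x ∈ M, (x * conj d).im = h) (hdY : Disjoint Y0 S) (hSM : Disjoint S M)
    (hsed : IsSED (Y0 ∪ S) 0 R) (hcrit : ∀ s ∈ S, Crit (Y0 ∪ S) 0 R s) (hcfg : Cfg (Y0 ∪ S) M)
    (hM : ∀ x ∈ M, ‖x‖ ≤ R) (hcard : 4 ≤ S.card + M.card) (hns : h = 0 → ¬ RSym Y0 d) : False := by
  have c0 := hcfg.to0 hsed hM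
  have F := c0.fn
  -- a symmetric base about a free point gives a contradiction
  have symF : ∀ w ∈ M, w ≠ 0 → h = 0 → RSym (Y0 ∪ S) w → False := by
    intro w hw hw0 hh hr
    have hwd : (w * conj d).im = 0 := by rw [hML w hw, hh]
    have h1 := hr.congr hw0 hd (par_symm hwd)
    rw [RSym.union_iff hd hdY] at h1
    · exact hns hh h1
    · intro x hx; rw [hSL x hx, hh]
  -- all nonzero free points have the same norm
  have same : ∀ a ∈ M, ∀ b ∈ M, a ≠ 0 → b ≠ 0 → ‖a‖ = ‖b‖ := by
    intro a ha b hb ha0 hb0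
    by_contra hne
    obtain ⟨p1, p2⟩ := F.pair ha hb hne ha0 hb0
    have hab : a ≠ b := fun e => hne (by rw [e])
    have hh := par_line hd (hML a ha) (hML b hb) hab p1
    refine symF a ha ha0 hh (c0.line ha ha0 ?_)
    intro ρ
    have := p2 ρ
    rwa [Finset.union_empty] at this
  have hS2 : S.card ≤ 2 := by
    by_contra hcon
    obtain ⟨T, hT, hc⟩ := Finset.exists_subset_card_eq (show 3 ≤ S.card by omega)
    obtain ⟨a, b, c, hab, hac, hbc, rfl⟩ := Finset.card_eq_three.1 hc
    have na : ∀ x ∈ ({a, b, c} : Finset ℂ), ‖x‖ = R := by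
      intro x hx
      have := (hcrit x (hT hx)).2.1
      simpa using this
    exact three_line hd (hSL a (hT (by simp))) (hSL b (hT (by simp))) (hSL c (hT (by simp)))
      (by rw [na a (by simp), na b (by simp)]) (by rw [na a (by simp), na c (by simp)]) hab hac hbc
  have hM0 : (M.erase 0).card ≤ 2 := by
    by_contra hcon
    obtain ⟨T, hT, hc⟩ := Finset.exists_subset_card_eq (show 3 ≤ (M.erase 0).card by omega)
    obtain ⟨a, b, c, hab, hac, hbc, rfl⟩ := Finset.card_eq_three.1 hc
    have mem : ∀ x ∈ ({a, b, c} : Finset ℂ), x ∈ M ∧ x ≠ 0 := by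
      intro x hx
      have := Finset.mem_erase.1 (hT hx)
      exact ⟨this.2, this.1⟩
    obtain ⟨a1, a2⟩ := mem a (by simp)
    obtain ⟨b1, b2⟩ := mem b (by simp)
    obtain ⟨c1, c2⟩ := mem c (by simp)
    exact three_line hd (hML a a1) (hML b b1) (hML c c1) (same a a1 b b1 a2 b2)
      (same a a1 c c1 a2 c2) hab hac hbc
  have hMc : M.card ≤ (M.erase 0).card + 1 := by
    have := Finset.pred_card_le_card_erase (s := M) (a := 0)
    omega
  have hSne : S.Nonempty := by
    rw [Finset.nonempty_iff_ne_empty]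
    intro e
    rw [e] at hcard
    simp at hcard
    omega
  obtain ⟨s, hs⟩ := hSne
  have hsR : ‖s‖ = R := by
    have := (hcrit s hs).2.1
    simpa using this
  -- positivity of the radius
  have hR : 0 < R := by
    rcases hsed.nonneg.lt_or_eq with hh | hh
    · exact hh
    · exfalso
      have h1 : S ⊆ {0} := by
        intro x hx
        have := (hcrit x hx).2.1
        rw [← hh] at this
        simp at this
        simp [this]
      have h2 : M ⊆ {0} := by
        intro x hx
        have := hM x hx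
        rw [← hh] at this
        have := norm_le_zero_iff.1 this
        simp [this]
      have h3 := Finset.card_le_card h1
      have h4 := Finset.card_le_card h2
      simp at h3 h4
      omega
  have hs0 : s ≠ 0 := by rintro rfl; simp at hsR; linarith
  -- free points are interior
  have hint : ∀ x ∈ M, ‖x‖ < R := by
    intro m hm
    by_contra hcon
    have hmR : ‖m‖ = R := le_antisymm (hM m hm) (not_lt.1 hcon)
    have hm0 : m ≠ 0 := by rintro rfl; simp at hmR; linarith
    -- all of `S` and `M.erase 0` have norm `R`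
    have hall : ∀ x ∈ S ∪ M.erase 0, ‖x‖ = R ∧ (x * conj d).im = h := by
      intro x hx
      rcases Finset.mem_union.1 hx with hx | hx
      · refine ⟨?_, hSL x hx⟩
        have := (hcrit x hx).2.1
        simpa using this
      · obtain ⟨hx1, hx2⟩ := Finset.mem_erase.1 hx
        exact ⟨by rw [same x hx2 m hm hx1 hm0, hmR], hML x hx2⟩
    have hcu : (S ∪ M.erase 0).card ≤ 2 := by
      by_contra hcon
      obtain ⟨T, hT, hc⟩ := Finset.exists_subset_card_eq (show 3 ≤ (S ∪ M.erase 0).card by omega)
      obtain ⟨a, b, c, hab, hac, hbc, rfl⟩ := Finset.card_eq_three.1 hc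
      obtain ⟨a1, a2⟩ := hall a (hT (by simp))
      obtain ⟨b1, b2⟩ := hall b (hT (by simp))
      obtain ⟨c1, c2⟩ := hall c (hT (by simp))
      exact three_line hd a2 b2 c2 (by rw [a1, b1]) (by rw [a1, c1]) hab hac hbc
    rw [Finset.card_union_of_disjoint (hSM.mono_right (Finset.erase_subset _ _))] at hcu
    omega
  have tc : TCfg (Y0 ∪ S) M R s := ⟨hcfg, hsed, hint, hcrit s hs⟩
  have lineF : LineC (Y0 ∪ S) M → (h = 0 ∨ 2 ≤ (M.erase 0).card) → False := by
    intro hL hor
    have hMne : (M.erase 0).Nonempty := by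
      rw [← Finset.card_pos]; omega
    rcases hor with hh | hc
    · obtain ⟨m, hm⟩ := hMne
      obtain ⟨hm1, hm2⟩ := Finset.mem_erase.1 hm
      exact symF m hm2 hm1 hh (hL m hm2 hm1).1
    · obtain ⟨a, ha, b, hb, hab⟩ := Finset.one_lt_card.1 (show 1 < (M.erase 0).card by omega)
      obtain ⟨a1, a2⟩ := Finset.mem_erase.1 ha
      obtain ⟨b1, b2⟩ := Finset.mem_erase.1 hb
      have hh := par_line hd (hML b b2) (hML a a2) hab.symm ((hL a a2 a1).2 b b2)
      exact symF a a2 a1 hh (hL a a2 a1).1
  by_cases h2 : 2 ≤ (M.erase 0).card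
  · rcases types tc hR with hL | ⟨ω, hC⟩
    · exact lineF hL (Or.inr h2)
    · obtain ⟨a, ha, b, hb, hab⟩ := Finset.one_lt_card.1 (show 1 < (M.erase 0).card by omega)
      obtain ⟨a1, a2⟩ := Finset.mem_erase.1 ha
      obtain ⟨b1, b2⟩ := Finset.mem_erase.1 hb
      have ho := hC.ho
      have h3 : ω ^ 3 = 1 := by linear_combination (ω - 1) * ho
      have hn := omega_norm hC.hc ho
      have key : ‖a‖ ^ 2 * ‖d‖ ^ 2 = 4 * h ^ 2 := by
        by_cases e1 : b = ω * a
        · exact om_line hd ho hn a1 (hML a a2) (by rw [← e1]; exact hML b b2)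
        · by_cases e2 : b = ω ^ 2 * a
          · have e3 : a = ω * b := by rw [e2]; linear_combination -a * h3
            rw [same a a2 b b2 a1 b1]
            exact om_line hd ho hn b1 (hML b b2) (by rw [← e3]; exact hML a a2)
          · exfalso
            obtain ⟨p1, p2⟩ := hC.pairL hcfg.disj a2 b2 a1 b1 hab e1 e2
            have hh := par_line hd (hML a a2) (hML b b2) hab p1
            exact symF a a2 a1 hh p2
      by_cases hS : S.card = 2
      · obtain ⟨t, ht, hts⟩ : ∃ t ∈ S, t ≠ s := by
          have := Finset.one_lt_card.1 (show 1 < S.card by omega)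
          by_contra hcon
          push Not at hcon
          obtain ⟨x, hx, y, hy, hxy⟩ := this
          exact hxy ((hcon x hx).trans (hcon y hy).symm)
        have htR : ‖t‖ = R := by
          have := (hcrit t ht).2.1
          simpa using this
        have keyS : ‖s‖ ^ 2 * ‖d‖ ^ 2 = 4 * h ^ 2 := by
          rcases hC.bd t (Finset.mem_union_right _ ht) htR with e | e | e
          · exact absurd e hts
          · exact om_line hd ho hn hs0 (hSL s hs) (by rw [← e]; exact hSL t ht)
          · have e3 : s = ω * t := by rw [e]; linear_combination -s * h3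
            have ht0 : t ≠ 0 := by rintro rfl; simp at htR; linarith
            rw [hsR, ← htR]
            exact om_line hd ho hn ht0 (hSL t ht) (by rw [← e3]; exact hSL s hs)
        have e4 : ‖a‖ ^ 2 = ‖s‖ ^ 2 := by
          have := normSq_d hd
          have e5 : (‖a‖ ^ 2 - ‖s‖ ^ 2) * ‖d‖ ^ 2 = 0 := by linarith
          rcases mul_eq_zero.1 e5 with e6 | e6
          · linarith
          · exact absurd e6 this.ne'
        have e5 := hint a a2
        have := norm_nonneg a
        rw [hsR] at e4
        nlinarith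
      · -- `0` is free
        have hS1 : S.card ≤ 1 := by omega
        have h0 : (0 : ℂ) ∈ M := by
          by_contra h0
          rw [Finset.erase_eq_of_notMem h0] at hM0
          omega
        have hh := hML 0 h0
        simp at hh
        rw [← hh] at key
        have := normSq_d hd
        have := normSq_d a1
        nlinarith
  · -- one nonzero free point and `0`
    have hM1 : (M.erase 0).card = 1 := by omega
    have h0 : (0 : ℂ) ∈ M := by
      by_contra h0
      rw [Finset.erase_eq_of_notMem h0] at hM1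
      omega
    have hh : h = 0 := by
      have := hML 0 h0
      simp at this
      exact this.symm
    have hS : S.card = 2 := by omega
    obtain ⟨t, ht, hts⟩ : ∃ t ∈ S, t ≠ s := by
      have := Finset.one_lt_card.1 (show 1 < S.card by omega)
      by_contra hcon
      push Not at hcon
      obtain ⟨x, hx, y, hy, hxy⟩ := this
      exact hxy ((hcon x hx).trans (hcon y hy).symm)
    have htR : ‖t‖ = R := by
      have := (hcrit t ht).2.1
      simpa using this
    rcases types tc hR with hL | ⟨ω, hC⟩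
    · exact lineF hL (Or.inl hh)
    · have ho := hC.ho
      have h3 : ω ^ 3 = 1 := by linear_combination (ω - 1) * ho
      have hn := omega_norm hC.hc ho
      have keyS : ‖s‖ ^ 2 * ‖d‖ ^ 2 = 4 * h ^ 2 := by
        rcases hC.bd t (Finset.mem_union_right _ ht) htR with e | e | e
        · exact absurd e hts
        · exact om_line hd ho hn hs0 (hSL s hs) (by rw [← e]; exact hSL t ht)
        · have e3 : s = ω * t := by rw [e]; linear_combination -s * h3
          have ht0 : t ≠ 0 := by rintro rfl; simp at htR; linarith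
          rw [hsR, ← htR]
          exact om_line hd ho hn ht0 (hSL t ht) (by rw [← e3]; exact hSL s hs)
      rw [hh] at keyS
      have := normSq_d hd
      have := normSq_d hs0
      nlinarith

end Ext7
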