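import Pool.Agent.Lib.MP_ad0d06_co.Sums

open Complex ComplexConjugate

noncomputable section

namespace Ext7

/-- abstract radial functionals -/
structure Fun (M : Finset ℂ) (Φ Ψ : Finset ℂ → ℝ → ℂ) : Prop where
  add1 : ∀ T ⊆ M, ∀ ρ, Φ T ρ = Φ ∅ ρ + ∑ w ∈ T, if ‖w‖ = ρ then w else 0
  add2 : ∀ T ⊆ M, ∀ ρ, Ψ T ρ = Ψ ∅ ρ + ∑ w ∈ T, if ‖w‖ = ρ then w ^ 2 else 0
  par : ∀ T ⊆ M, ∀ ρ ρ', (Φ T ρ * conj (Φ T ρ')).im = 0
  par2 : ∀ T ⊆ M, ∀ ρ, (Ψ T ρ * conj (Φ T ρ) ^ 2).im = 0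

theorem par_trans {a b c : ℂ} (hb : b ≠ 0) (h1 : (a * conj b).im = 0) (h2 : (b * conj c).im = 0) :
    (a * conj c).im = 0 := by
  rw [im_mul_conj] at *
  have h3 : b.re ≠ 0 ∨ b.im ≠ 0 := by
    by_contra h
    push Not at h
    exact hb (Complex.ext h.1 h.2)
  rcases h3 with h3 | h3
  · have : b.re * (a.im * c.re - a.re * c.im) = 0 := by
      linear_combination c.re * h1 + a.re * h2
    exact (mul_eq_zero.1 this).resolve_left h3
  · have : b.im * (a.im * c.re - a.re * c.im) = 0 := by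
      linear_combination c.im * h1 + a.im * h2
    exact (mul_eq_zero.1 this).resolve_left h3

theorem par_symm {a b : ℂ} (h : (a * conj b).im = 0) : (b * conj a).im = 0 := by
  rw [im_mul_conj] at *
  linarith

/-- if `a` and `a + w` are parallel to `b ≠ 0`, `w` is parallel to `b` -/
theorem par_sub {a b w : ℂ} (h1 : (a * conj b).im = 0) (h2 : ((a + w) * conj b).im = 0) :
    (w * conj b).im = 0 := by
  rw [add_mul, add_im] at h2
  linarith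

theorem Fun.val {M : Finset ℂ} {Φ Ψ : Finset ℂ → ℝ → ℂ} (h : Fun M Φ Ψ) {w : ℂ} (hw : w ∈ M)
    (ρ : ℝ) : Φ {w} ρ = Φ ∅ ρ + if ‖w‖ = ρ then w else 0 := by
  rw [h.add1 {w} (by simpa using hw)]; simp

theorem Fun.pair {M : Finset ℂ} {Φ Ψ : Finset ℂ → ℝ → ℂ} (h : Fun M Φ Ψ) {a b : ℂ} (ha : a ∈ M)
    (hb : b ∈ M) (hab : ‖a‖ ≠ ‖b‖) (ha0 : a ≠ 0) (hb0 : b ≠ 0) :
    (a * conj b).im = 0 ∧ ∀ ρ, (Φ ∅ ρ * conj a).im = 0 := by
  have hne : a ≠ b := fun e => hab (by rw [e])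
  have e0 := h.par ∅ (by simp) ‖a‖ ‖b‖
  have ea := h.par {a} (by simpa using ha) ‖a‖ ‖b‖
  have eb := h.par {b} (by simpa using hb) ‖a‖ ‖b‖
  have eab := h.par {a, b} (by
    intro x hx
    rcases Finset.mem_insert.1 hx with rfl | hx
    · exact ha
    · rw [Finset.mem_singleton.1 hx]; exact hb) ‖a‖ ‖b‖
  rw [h.val ha, h.val ha] at ea
  rw [h.val hb, h.val hb] at eb
  rw [h.add1 {a, b} (by
    intro x hx
    rcases Finset.mem_insert.1 hx with rfl | hx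
    · exact ha
    · rw [Finset.mem_singleton.1 hx]; exact hb), h.add1 {a, b} (by
    intro x hx
    rcases Finset.mem_insert.1 hx with rfl | hx
    · exact ha
    · rw [Finset.mem_singleton.1 hx]; exact hb), Finset.sum_pair hne, Finset.sum_pair hne] at eab
  simp only [hab, hab.symm, if_true, if_false, add_zero, zero_add] at ea eb eab
  have e1 : (a * conj b).im = 0 := by
    simp only [im_mul_conj, add_re, add_im] at *
    linarith
  refine ⟨e1, ?_⟩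
  -- Φ ∅ ‖b‖ ∥ a, Φ ∅ ‖a‖ ∥ b
  have f1 : (Φ ∅ ‖b‖ * conj a).im = 0 := by
    simp only [im_mul_conj, add_re, add_im] at *
    linarith
  have f2 : (Φ ∅ ‖a‖ * conj b).im = 0 := by
    simp only [im_mul_conj, add_re, add_im] at *
    linarith
  have f3 : (Φ ∅ ‖a‖ * conj a).im = 0 := par_trans hb0 f2 (par_symm e1)
  intro ρ
  by_cases hρ : ρ = ‖a‖
  · rw [hρ]; exact f3
  · have g1 := h.par ∅ (by simp) ρ ‖a‖
    have g2 := h.par {a} (by simpa using ha) ρ ‖a‖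
    rw [h.val ha, h.val ha] at g2
    simp only [if_neg (Ne.symm hρ), if_true, add_zero] at g2
    have g3 : (Φ ∅ ρ * conj a).im = 0 := by
      simp only [im_mul_conj, add_re, add_im] at *
      linarith
    exact g3

theorem Fun.rs {M : Finset ℂ} {Φ Ψ : Finset ℂ → ℝ → ℂ} (h : Fun M Φ Ψ) {a b : ℂ} (ha : a ∈ M)
    (hb : b ∈ M) (hab : ‖a‖ = ‖b‖) (hp : (a * conj b).im ≠ 0) {ρ : ℝ} (hρ : ρ ≠ ‖a‖) :
    Φ ∅ ρ = 0 := by
  by_contra hne
  have key : ∀ w ∈ M, ‖w‖ = ‖a‖ → (w * conj (Φ ∅ ρ)).im = 0 := by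
    intro w hw hwa
    have g1 := h.par ∅ (by simp) ‖a‖ ρ
    have g2 := h.par {w} (by simpa using hw) ‖a‖ ρ
    rw [h.val hw, h.val hw] at g2
    simp only [hwa, if_neg (Ne.symm hρ), if_true, add_zero] at g2
    exact par_sub g1 g2
  have h1 := key a ha rfl
  have h2 := key b hb hab.symm
  exact hp (par_trans hne h1 (par_symm h2))

theorem triple_alg {q p a b c : ℂ} {r : ℝ} (hr : 0 < r) (ha : ‖a‖ = r) (hb : ‖b‖ = r)
    (hc : ‖c‖ = r)
    (h : ∀ x y z : ℝ, (x = 0 ∨ x = 1) → (y = 0 ∨ y = 1) → (z = 0 ∨ z = 1) →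
      ((q + x * a ^ 2 + y * b ^ 2 + z * c ^ 2) * conj (p + x * a + y * b + z * c) ^ 2).im = 0) :
    (a ^ 2 - b * c) * (b ^ 2 - a * c) * (c ^ 2 - a * b) = 0 := by
  have hA : a * conj a = (r : ℂ) ^ 2 := by
    rw [mul_conj, normSq_eq_norm_sq, ha]; push_cast; ring
  have hB : b * conj b = (r : ℂ) ^ 2 := by
    rw [mul_conj, normSq_eq_norm_sq, hb]; push_cast; ring
  have hC : c * conj c = (r : ℂ) ^ 2 := by
    rw [mul_conj, normSq_eq_norm_sq, hc]; push_cast; ring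
  have hr' : (r : ℂ) ≠ 0 := by exact_mod_cast hr.ne'
  -- third difference
  have h3 : (a ^ 2 * conj b * conj c + b ^ 2 * conj a * conj c + c ^ 2 * conj a * conj b).im = 0 := by
    have e111 := h 1 1 1 (Or.inr rfl) (Or.inr rfl) (Or.inr rfl)
    have e110 := h 1 1 0 (Or.inr rfl) (Or.inr rfl) (Or.inl rfl)
    have e101 := h 1 0 1 (Or.inr rfl) (Or.inl rfl) (Or.inr rfl)
    have e011 := h 0 1 1 (Or.inl rfl) (Or.inr rfl) (Or.inr rfl)
    have e100 := h 1 0 0 (Or.inr rfl) (Or.inl rfl) (Or.inl rfl)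
    have e010 := h 0 1 0 (Or.inl rfl) (Or.inr rfl) (Or.inl rfl)
    have e001 := h 0 0 1 (Or.inl rfl) (Or.inl rfl) (Or.inr rfl)
    have e000 := h 0 0 0 (Or.inl rfl) (Or.inl rfl) (Or.inl rfl)
    have e : (a ^ 2 * conj b * conj c + b ^ 2 * conj a * conj c + c ^ 2 * conj a * conj b) =
      (1/2 : ℝ) * (((q + (1:ℝ) * a ^ 2 + (1:ℝ) * b ^ 2 + (1:ℝ) * c ^ 2) *
        conj (p + (1:ℝ) * a + (1:ℝ) * b + (1:ℝ) * c) ^ 2) -
      ((q + (1:ℝ) * a ^ 2 + (1:ℝ) * b ^ 2 + (0:ℝ) * c ^ 2) *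
        conj (p + (1:ℝ) * a + (1:ℝ) * b + (0:ℝ) * c) ^ 2) -
      ((q + (1:ℝ) * a ^ 2 + (0:ℝ) * b ^ 2 + (1:ℝ) * c ^ 2) *
        conj (p + (1:ℝ) * a + (0:ℝ) * b + (1:ℝ) * c) ^ 2) -
      ((q + (0:ℝ) * a ^ 2 + (1:ℝ) * b ^ 2 + (1:ℝ) * c ^ 2) *
        conj (p + (0:ℝ) * a + (1:ℝ) * b + (1:ℝ) * c) ^ 2) +
      ((q + (1:ℝ) * a ^ 2 + (0:ℝ) * b ^ 2 + (0:ℝ) * c ^ 2) *
        conj (p + (1:ℝ) * a + (0:ℝ) * b + (0:ℝ) * c) ^ 2) +
      ((q + (0:ℝ) * a ^ 2 + (1:ℝ) * b ^ 2 + (0:ℝ) * c ^ 2) *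
        conj (p + (0:ℝ) * a + (1:ℝ) * b + (0:ℝ) * c) ^ 2) +
      ((q + (0:ℝ) * a ^ 2 + (0:ℝ) * b ^ 2 + (1:ℝ) * c ^ 2) *
        conj (p + (0:ℝ) * a + (0:ℝ) * b + (1:ℝ) * c) ^ 2) -
      ((q + (0:ℝ) * a ^ 2 + (0:ℝ) * b ^ 2 + (0:ℝ) * c ^ 2) *
        conj (p + (0:ℝ) * a + (0:ℝ) * b + (0:ℝ) * c) ^ 2)) := by
      simp only [map_add, map_mul, conj_ofReal]
      push_cast
      ring
    rw [e, im_ofReal_mul, sub_im, add_im, add_im, add_im, sub_im, sub_im, sub_im, e111, e110,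
      e101, e011, e100, e010, e001, e000]
    ring
  have h4 := conj_eq_iff_im.2 h3
  simp only [map_add, map_mul, map_pow, conj_conj] at h4
  have key : (conj a * conj b * conj c) ^ 2 * ((a ^ 2 - b * c) * (b ^ 2 - a * c) * (c ^ 2 - a * b)) = 0 := by
    -- expand
    have E : (a ^ 2 - b * c) * (b ^ 2 - a * c) * (c ^ 2 - a * b) =
      a * b * c * (a ^ 3 + b ^ 3 + c ^ 3) - (a ^ 3 * b ^ 3 + b ^ 3 * c ^ 3 + c ^ 3 * a ^ 3) := by ring
    rw [E]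
    -- multiply
    have X1 : (conj a * conj b * conj c) ^ 2 * (a * b * c * (a ^ 3 + b ^ 3 + c ^ 3)) =
      (r : ℂ) ^ 6 * (r:ℂ) ^ 2 * (a ^ 2 * conj b * conj c + b ^ 2 * conj a * conj c +
        c ^ 2 * conj a * conj b) := by
      have : (conj a * conj b * conj c) ^ 2 * (a * b * c * (a ^ 3 + b ^ 3 + c ^ 3)) =
        (a * conj a) * (b * conj b) * (c * conj c) * ((a * conj a) * a ^ 2 * conj b * conj c +
          (b * conj b) * b ^ 2 * conj a * conj c + (c * conj c) * c ^ 2 * conj a * conj b) := by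
        ring
      rw [this, hA, hB, hC]; ring
    have X2 : (conj a * conj b * conj c) ^ 2 * (a ^ 3 * b ^ 3 + b ^ 3 * c ^ 3 + c ^ 3 * a ^ 3) =
      (r : ℂ) ^ 6 * (r:ℂ) ^ 2 * (conj a ^ 2 * b * c + conj b ^ 2 * a * c + conj c ^ 2 * a * b) := by
      have : (conj a * conj b * conj c) ^ 2 * (a ^ 3 * b ^ 3 + b ^ 3 * c ^ 3 + c ^ 3 * a ^ 3) =
        (a * conj a) ^ 2 * (b * conj b) ^ 2 * (conj c ^ 2 * a * b) +
        (b * conj b) ^ 2 * (c * conj c) ^ 2 * (conj a ^ 2 * b * c) +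
        (c * conj c) ^ 2 * (a * conj a) ^ 2 * (conj b ^ 2 * a * c) := by ring
      rw [this, hA, hB, hC]; ring
    rw [mul_sub, X1, X2, h4]
    ring
  have hne : (conj a * conj b * conj c) ^ 2 ≠ 0 := by
    have na : a ≠ 0 := by rintro rfl; simp at ha; linarith
    have nb : b ≠ 0 := by rintro rfl; simp at hb; linarith
    have nc : c ≠ 0 := by rintro rfl; simp at hc; linarith
    have h5 := (map_ne_zero (starRingEnd ℂ)).2 na
    have h6 := (map_ne_zero (starRingEnd ℂ)).2 nb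
    have h7 := (map_ne_zero (starRingEnd ℂ)).2 nc
    exact pow_ne_zero 2 (mul_ne_zero (mul_ne_zero h5 h6) h7)
  exact (mul_eq_zero.1 key).resolve_left hne

end Ext7
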