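import Pool.Agent.Lib.MP_ad0d06_co.Base

open Complex ComplexConjugate

noncomputable section

namespace Ext7

/-- `o` and `R` are the centre and the radius of the smallest disk containing `A` -/
def IsSED (A : Finset ℂ) (o : ℂ) (R : ℝ) : Prop :=
  (∀ x ∈ A, ‖x - o‖ ≤ R) ∧ ∀ u : ℂ, ∃ x ∈ A, ‖x - o‖ = R ∧ ((x - o) * conj u).re ≤ 0

theorem nsq (z : ℂ) : ‖z‖ ^ 2 = z.re * z.re + z.im * z.im := by
  rw [← normSq_eq_norm_sq, normSq_apply]

theorem re_mul_conj (z u : ℂ) : (z * conj u).re = z.re * u.re + z.im * u.im := by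
  simp [mul_re]

theorem im_mul_conj (z u : ℂ) : (z * conj u).im = z.im * u.re - z.re * u.im := by
  simp [mul_im]; ring

theorem IsSED.far {A : Finset ℂ} {o : ℂ} {R : ℝ} (h : IsSED A o R) (o' : ℂ) :
    ∃ x ∈ A, R ^ 2 + ‖o' - o‖ ^ 2 ≤ ‖x - o'‖ ^ 2 := by
  obtain ⟨x, hx, h1, h2⟩ := h.2 (o' - o)
  refine ⟨x, hx, ?_⟩
  rw [← h1, nsq, nsq, nsq]
  rw [re_mul_conj] at h2
  simp only [sub_re, sub_im] at *
  nlinarith

theorem IsSED.nonneg {A : Finset ℂ} {o : ℂ} {R : ℝ} (h : IsSED A o R) : 0 ≤ R := by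
  obtain ⟨x, hx, h1, h2⟩ := h.2 0
  rw [← h1]; positivity

theorem IsSED.le {A : Finset ℂ} {o : ℂ} {R : ℝ} (h : IsSED A o R) {o' : ℂ} {R' : ℝ}
    (hR : ∀ x ∈ A, ‖x - o'‖ ≤ R') : R ^ 2 + ‖o' - o‖ ^ 2 ≤ R' ^ 2 := by
  obtain ⟨x, hx, h1⟩ := h.far o'
  have h2 := hR x hx
  have h3 : ‖x - o'‖ ^ 2 ≤ R' ^ 2 := by
    have := norm_nonneg (x - o'); gcongr
  linarith

theorem IsSED.unique {A : Finset ℂ} {o o' : ℂ} {R R' : ℝ} (h : IsSED A o R)
    (h' : IsSED A o' R') : o = o' ∧ R = R' := by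
  have h1 := h.le h'.1
  have h2 := h'.le h.1
  have h3 : ‖o' - o‖ = ‖o - o'‖ := norm_sub_rev _ _
  rw [← h3] at h2
  have h4 : ‖o' - o‖ ^ 2 ≤ 0 := by linarith
  have h5 : ‖o' - o‖ = 0 := by
    have := norm_nonneg (o' - o); nlinarith
  have h6 : o' - o = 0 := norm_eq_zero.1 h5
  refine ⟨(sub_eq_zero.1 h6).symm, ?_⟩
  rw [h5] at h1 h2
  have := h.nonneg; have := h'.nonneg
  nlinarith

theorem IsSED.fix {A : Finset ℂ} {o : ℂ} {R : ℝ} (h : IsSED A o R) {g : ℂ ≃ᵢ ℂ}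
    (hg : ∀ z, g z ∈ A ↔ z ∈ A) : g o = o := by
  have h1 : ∀ x ∈ A, ‖x - g o‖ ≤ R := by
    intro x hx
    obtain ⟨y, rfl⟩ := g.surjective x
    rw [← dist_eq_norm, g.dist_eq, dist_eq_norm]
    exact h.1 y ((hg y).1 hx)
  have h2 := h.le h1
  have h3 : ‖g o - o‖ = 0 := by
    have := norm_nonneg (g o - o); nlinarith
  exact sub_eq_zero.1 (norm_eq_zero.1 h3)

theorem IsSED.mono {A B : Finset ℂ} {o : ℂ} {R : ℝ} (h : IsSED A o R) (hAB : A ⊆ B)
    (hB : ∀ x ∈ B, ‖x - o‖ ≤ R) : IsSED B o R := by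
  refine ⟨hB, fun u => ?_⟩
  obtain ⟨x, hx, h1⟩ := h.2 u
  exact ⟨x, hAB hx, h1⟩

theorem IsSED.tr {A : Finset ℂ} {o : ℂ} {R : ℝ} (h : IsSED A o R) (c : ℂ) :
    IsSED (Ext7.tr c A) (o - c) R := by
  refine ⟨fun x hx => ?_, fun u => ?_⟩
  · have := h.1 _ (mem_tr.1 hx)
    have e : x - (o - c) = x + c - o := by ring
    rwa [e]
  · obtain ⟨x, hx, h1, h2⟩ := h.2 u
    refine ⟨x - c, mem_tr.2 (by simpa using hx), ?_, ?_⟩
    · have e : x - c - (o - c) = x - o := by ring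
      rwa [e]
    · have e : x - c - (o - c) = x - o := by ring
      rwa [e]

theorem exists_sed (A : Finset ℂ) (hA : A.Nonempty) : ∃ o R, IsSED A o R := by
  let f : ℂ → ℝ := fun o => A.sup' hA (fun x => ‖x - o‖)
  have hf : Continuous f := by
    apply Continuous.finset_sup'_apply hA
    intro x _
    exact (continuous_const.sub continuous_id).norm
  obtain ⟨x0, hx0⟩ := hA
  have hle : ∀ o, ∀ x ∈ A, ‖x - o‖ ≤ f o := fun o x hx =>
    Finset.le_sup' (fun x => ‖x - o‖) hx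
  have hK : IsCompact (Metric.closedBall x0 (f x0)) := isCompact_closedBall _ _
  have hne : (Metric.closedBall x0 (f x0)).Nonempty :=
    ⟨x0, Metric.mem_closedBall_self (le_trans (norm_nonneg _) (hle x0 x0 hx0))⟩
  obtain ⟨o, ho, hmin⟩ := hK.exists_isMinOn hne hf.continuousOn
  have hmin' : ∀ o', f o ≤ f o' := by
    intro o'
    by_cases h : o' ∈ Metric.closedBall x0 (f x0)
    · exact hmin h
    · have h1 : f x0 < ‖x0 - o'‖ := by
        rw [Metric.mem_closedBall, not_le, dist_comm, dist_eq_norm] at h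
        exact h
      have h2 := hle o' x0 hx0
      have h3 : f o ≤ f x0 :=
        hmin (Metric.mem_closedBall_self (le_trans (norm_nonneg _) (hle x0 x0 hx0)))
      linarith
  refine ⟨o, f o, hle o, ?_⟩
  intro u
  by_contra hcon
  push Not at hcon
  have hev : ∀ x ∈ A, ∀ᶠ ε : ℝ in nhdsWithin 0 (Set.Ioi 0), ‖x - (o + (ε : ℂ) * u)‖ < f o := by
    intro x hx
    have hexp : ∀ ε : ℝ, ‖x - (o + (ε : ℂ) * u)‖ ^ 2 =
        ‖x - o‖ ^ 2 - 2 * ε * ((x - o) * conj u).re + ε ^ 2 * ‖u‖ ^ 2 := by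
      intro ε
      rw [nsq, nsq, nsq, re_mul_conj]
      simp only [sub_re, sub_im, add_re, add_im, mul_re, mul_im, ofReal_re, ofReal_im]
      ring
    rcases lt_or_eq_of_le (hle o x hx) with h | h
    · have hc : Filter.Tendsto (fun ε : ℝ => ‖x - (o + (ε : ℂ) * u)‖) (nhds 0)
          (nhds ‖x - (o + ((0 : ℝ) : ℂ) * u)‖) := by
        apply Continuous.tendsto
        fun_prop
      have h0 : ‖x - (o + ((0 : ℝ) : ℂ) * u)‖ < f o := by simpa using h
      exact (hc.eventually (gt_mem_nhds h0)).filter_mono nhdsWithin_le_nhds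
    · have hp := hcon x hx h
      have hq : ∀ᶠ ε : ℝ in nhdsWithin 0 (Set.Ioi 0), ε * ‖u‖ ^ 2 < 2 * ((x - o) * conj u).re := by
        have hc : Filter.Tendsto (fun ε : ℝ => ε * ‖u‖ ^ 2) (nhds 0) (nhds (0 * ‖u‖ ^ 2)) := by
          apply Continuous.tendsto
          fun_prop
        have h0 : 0 * ‖u‖ ^ 2 < 2 * ((x - o) * conj u).re := by linarith
        exact (hc.eventually (gt_mem_nhds h0)).filter_mono nhdsWithin_le_nhds
      filter_upwards [hq, self_mem_nhdsWithin] with ε h1 h2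
      have h2' : 0 < ε := h2
      have h3 := hexp ε
      have h4 : ‖x - (o + (ε : ℂ) * u)‖ ^ 2 < (f o) ^ 2 := by
        rw [h3, ← h]; nlinarith
      exact lt_of_pow_lt_pow_left₀ 2 (by rw [← h]; positivity) h4
  have hall := (Filter.eventually_all_finset A).2 hev
  obtain ⟨ε, hε⟩ := hall.exists
  have h1 : f (o + (ε : ℂ) * u) < f o := (Finset.sup'_lt_iff _).2 hε
  exact absurd (hmin' _) (not_le.2 h1)

/-- a critical point of the base -/
def Crit (Y : Finset ℂ) (o : ℂ) (R : ℝ) (v : ℂ) : Prop :=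
  v ∈ Y ∧ ‖v - o‖ = R ∧ ∃ u : ℂ, ((v - o) * conj u).re ≤ 0 ∧
    ∀ x ∈ Y, ‖x - o‖ = R → x ≠ v → 0 < ((x - o) * conj u).re

theorem Crit.tr {A : Finset ℂ} {o v : ℂ} {R : ℝ} (h : Crit A o R v) (c : ℂ) :
    Crit (Ext7.tr c A) (o - c) R (v - c) := by
  obtain ⟨h1, h2, u, h3, h4⟩ := h
  have e : v - c - (o - c) = v - o := by ring
  refine ⟨mem_tr.2 (by simpa using h1), by rwa [e], u, by rwa [e], ?_⟩
  intro x hx h5 h6
  have e2 : x - (o - c) = x + c - o := by ring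
  rw [e2] at h5 ⊢
  exact h4 _ (mem_tr.1 hx) h5 (fun h => h6 (by rw [← h]; ring))

/-- a minimal set of free points which determines the disk together with `F` -/
theorem exists_min {F W : Finset ℂ} {o : ℂ} {R : ℝ} (hd : Disjoint F W)
    (h : IsSED (F ∪ W) o R) : ∃ S ⊆ W, IsSED (F ∪ S) o R ∧ ∀ v ∈ S, Crit (F ∪ S) o R v := by
  classical
  let P : Finset (Finset ℂ) := W.powerset.filter (fun S => IsSED (F ∪ S) o R)
  have hP : P.Nonempty := ⟨W, by simp [P, h]⟩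
  obtain ⟨S, hS, hmin⟩ := P.exists_min_image Finset.card hP
  have hS' : S ⊆ W ∧ IsSED (F ∪ S) o R := by simpa [P] using hS
  refine ⟨S, hS'.1, hS'.2, fun v hv => ?_⟩
  have hvF : v ∉ F := fun hF => (Finset.disjoint_left.1 hd) hF (hS'.1 hv)
  have h1 : ¬ IsSED (F ∪ S.erase v) o R := by
    intro hcon
    have h2 := hmin (S.erase v) (by
      simp only [P, Finset.mem_filter, Finset.mem_powerset]
      exact ⟨(Finset.erase_subset _ _).trans hS'.1, hcon⟩)
    have h3 := Finset.card_erase_lt_of_mem hv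
    omega
  have h2 : ∃ u : ℂ, ∀ x ∈ F ∪ S.erase v, ‖x - o‖ = R → 0 < ((x - o) * conj u).re := by
    by_contra hcon
    push Not at hcon
    apply h1
    refine ⟨fun x hx => hS'.2.1 x ?_, fun u => ?_⟩
    · rcases Finset.mem_union.1 hx with hx | hx
      · exact Finset.mem_union_left _ hx
      · exact Finset.mem_union_right _ (Finset.mem_of_mem_erase hx)
    · exact hcon u
  obtain ⟨u, hu⟩ := h2
  obtain ⟨x, hx, hx1, hx2⟩ := hS'.2.2 u
  have hxv : x = v := by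
    by_contra hne
    have : x ∈ F ∪ S.erase v := by
      rcases Finset.mem_union.1 hx with hx | hx
      · exact Finset.mem_union_left _ hx
      · exact Finset.mem_union_right _ (Finset.mem_erase.2 ⟨hne, hx⟩)
    exact absurd (hu x this hx1) (not_lt.2 hx2)
  subst hxv
  refine ⟨hx, hx1, u, hx2, fun y hy hy1 hy2 => hu y ?_ hy1⟩
  rcases Finset.mem_union.1 hy with hy | hy
  · exact Finset.mem_union_left _ hy
  · exact Finset.mem_union_right _ (Finset.mem_erase.2 ⟨hy2, hy⟩)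

end Ext7
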