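import Pool.Agent.Lib.MP_ad0d06_co.Crit

open Complex ComplexConjugate

noncomputable section

namespace Ext7

/-- reflection in the line through `0` and `w` -/
def rf (w z : ℂ) : ℂ := w / conj w * conj z

/-- `Y` is symmetric about the line through `0` and `w` -/
def RSym (Y : Finset ℂ) (w : ℂ) : Prop := ∀ z, rf w z ∈ Y ↔ z ∈ Y

/-- radial sums -/
def s1 (A : Finset ℂ) (ρ : ℝ) : ℂ := ∑ x ∈ A with ‖x‖ = ρ, x
def s2 (A : Finset ℂ) (ρ : ℝ) : ℂ := ∑ x ∈ A with ‖x‖ = ρ, x ^ 2

theorem s1_insert {A : Finset ℂ} {w : ℂ} (h : w ∉ A) (ρ : ℝ) :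
    s1 (insert w A) ρ = s1 A ρ + if ‖w‖ = ρ then w else 0 := by
  unfold s1
  rw [Finset.sum_filter, Finset.sum_insert h, Finset.sum_filter, add_comm]

theorem s2_insert {A : Finset ℂ} {w : ℂ} (h : w ∉ A) (ρ : ℝ) :
    s2 (insert w A) ρ = s2 A ρ + if ‖w‖ = ρ then w ^ 2 else 0 := by
  unfold s2
  rw [Finset.sum_filter, Finset.sum_insert h, Finset.sum_filter, add_comm]

theorem norm_of_unit {a : ℂ} (h : a * conj a = 1) : ‖a‖ = 1 := by
  rw [mul_conj, normSq_eq_norm_sq] at h
  have h1 : ‖a‖ ^ 2 = 1 := by exact_mod_cast h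
  have := norm_nonneg a
  nlinarith

/-- what a symmetry fixing `0` says about the radial sums -/
theorem sym_sums {A : Finset ℂ} {g : ℂ ≃ᵢ ℂ} (hg : g ≠ 1) (hA : ∀ z, g z ∈ A ↔ z ∈ A)
    (h0 : g 0 = 0) : (∀ ρ, s1 A ρ = 0) ∨ ∃ a : ℂ, a * conj a = 1 ∧
      (∀ z, a * conj z ∈ A ↔ z ∈ A) ∧ (∀ ρ, s1 A ρ = a * conj (s1 A ρ)) ∧
      (∀ ρ, s2 A ρ = a ^ 2 * conj (s2 A ρ)) := by
  obtain ⟨a, ha, hab | hab⟩ := form_fix g 0 h0
  · left
    intro ρ
    have ha1 : a ≠ 1 := by
      rintro rfl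
      apply hg
      ext z
      rw [hab z]
      show 0 + 1 * (z - 0) = z
      ring
    have h1 : s1 A ρ = a * s1 A ρ := by
      unfold s1
      rw [Finset.mul_sum]
      refine (Finset.sum_nbij (fun x => a * x) ?_ ?_ ?_ ?_).symm
      · intro x hx
        rw [Finset.mem_filter] at hx ⊢
        refine ⟨?_, ?_⟩
        · have := (hA x).2 hx.1
          rw [hab x] at this
          simpa using this
        · rw [norm_mul, norm_of_unit ha, one_mul, hx.2]
      · intro x hx y hy hxy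
        exact mul_left_cancel₀ (by rintro rfl; simp at ha) hxy
      · intro y hy
        rw [Finset.coe_filter, Set.mem_ofPred_eq] at hy
        refine ⟨conj a * y, ?_, ?_⟩
        · rw [Finset.coe_filter, Set.mem_ofPred_eq]
          refine ⟨?_, ?_⟩
          · rw [← hA, hab]
            have e : 0 + a * (conj a * y - 0) = y := by
              linear_combination y * ha
            rw [e]; exact hy.1
          · rw [norm_mul, norm_conj, norm_of_unit ha, one_mul, hy.2]
        · show a * (conj a * y) = y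
          linear_combination y * ha
      · intro x hx; rfl
    have h2 : (a - 1) * s1 A ρ = 0 := by linear_combination -h1
    rcases mul_eq_zero.1 h2 with h3 | h3
    · exact absurd (sub_eq_zero.1 h3) ha1
    · exact h3
  · right
    have hab' : ∀ z, g z = a * conj z := by
      intro z; rw [hab z]; simp
    refine ⟨a, ha, fun z => by rw [← hab']; exact hA z, ?_, ?_⟩
    · intro ρ
      unfold s1
      rw [map_sum, Finset.mul_sum]
      refine (Finset.sum_nbij (fun x => a * conj x) ?_ ?_ ?_ ?_).symm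
      · intro x hx
        rw [Finset.mem_filter] at hx ⊢
        refine ⟨by rw [← hab', hA]; exact hx.1, ?_⟩
        rw [norm_mul, norm_of_unit ha, one_mul, norm_conj, hx.2]
      · intro x hx y hy hxy
        have h1 := mul_left_cancel₀ (by rintro rfl; simp at ha) hxy
        exact (starRingEnd ℂ).injective h1
      · intro y hy
        rw [Finset.coe_filter, Set.mem_ofPred_eq] at hy
        refine ⟨a * conj y, ?_, ?_⟩
        · rw [Finset.coe_filter, Set.mem_ofPred_eq]
          refine ⟨by rw [← hab', hA]; exact hy.1, ?_⟩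
          rw [norm_mul, norm_conj, norm_of_unit ha, one_mul, hy.2]
        · show a * conj (a * conj y) = y
          rw [map_mul, conj_conj]
          linear_combination y * ha
      · intro x hx; rfl
    · intro ρ
      unfold s2
      rw [map_sum, Finset.mul_sum]
      refine (Finset.sum_nbij (fun x => a * conj x) ?_ ?_ ?_ ?_).symm
      · intro x hx
        rw [Finset.mem_filter] at hx ⊢
        refine ⟨by rw [← hab', hA]; exact hx.1, ?_⟩
        rw [norm_mul, norm_of_unit ha, one_mul, norm_conj, hx.2]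
      · intro x hx y hy hxy
        have h1 := mul_left_cancel₀ (by rintro rfl; simp at ha) hxy
        exact (starRingEnd ℂ).injective h1
      · intro y hy
        rw [Finset.coe_filter, Set.mem_ofPred_eq] at hy
        refine ⟨a * conj y, ?_, ?_⟩
        · rw [Finset.coe_filter, Set.mem_ofPred_eq]
          refine ⟨by rw [← hab', hA]; exact hy.1, ?_⟩
          rw [norm_mul, norm_conj, norm_of_unit ha, one_mul, hy.2]
        · show a * conj (a * conj y) = y
          rw [map_mul, conj_conj]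
          linear_combination y * ha
      · intro x hx
        show a ^ 2 * conj (x ^ 2) = (a * conj x) ^ 2
        rw [map_pow]; ring

/-- consequences used for the algebra -/
theorem sym_par {A : Finset ℂ} {g : ℂ ≃ᵢ ℂ} (hg : g ≠ 1) (hA : ∀ z, g z ∈ A ↔ z ∈ A)
    (h0 : g 0 = 0) : (∀ ρ ρ', (s1 A ρ * conj (s1 A ρ')).im = 0) ∧
      (∀ ρ, (s2 A ρ * conj (s1 A ρ) ^ 2).im = 0) ∧
      (∀ ρ, s1 A ρ ≠ 0 → RSym A (s1 A ρ)) := by
  rcases sym_sums hg hA h0 with h | ⟨a, ha, h1, h2, h3⟩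
  · refine ⟨fun ρ ρ' => by rw [h ρ]; simp, fun ρ => by rw [h ρ]; simp, fun ρ hρ => absurd (h ρ) hρ⟩
  · refine ⟨fun ρ ρ' => ?_, fun ρ => ?_, fun ρ hρ z => ?_⟩
    · rw [← conj_eq_iff_im]
      rw [map_mul, conj_conj]
      have e3 : ∀ ρ, conj (s1 A ρ) = conj a * s1 A ρ := fun ρ => by
        have := congrArg conj (h2 ρ)
        simpa using this
      rw [e3, e3]; ring
    · rw [← conj_eq_iff_im]
      have e1 := h2 ρ
      have e2 := h3 ρ
      have e3 : conj (s1 A ρ) = conj a * s1 A ρ := by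
        have := congrArg conj e1
        simpa using this
      have e4 : conj (s2 A ρ) = conj a ^ 2 * s2 A ρ := by
        have := congrArg conj e2
        simpa using this
      rw [map_mul, map_pow, conj_conj, e3, e4]
      ring
    · have e1 := h2 ρ
      have e2 : s1 A ρ / conj (s1 A ρ) = a := by
        rw [div_eq_iff ((map_ne_zero _).2 hρ)]; exact e1
      unfold rf
      rw [e2]; exact h1 z

/-- if all the isometries involved fix `0` -/
structure Cfg0 (Y M : Finset ℂ) : Prop where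
  disj : Disjoint Y M
  sym : ∀ T ⊆ M, ∃ g : ℂ ≃ᵢ ℂ, g ≠ 1 ∧ g 0 = 0 ∧ ∀ z, g z ∈ Y ∪ T ↔ z ∈ Y ∪ T

theorem Cfg.to0 {Y M : Finset ℂ} (h : Cfg Y M) {R : ℝ} (hs : IsSED Y 0 R)
    (hM : ∀ w ∈ M, ‖w‖ ≤ R) : Cfg0 Y M := by
  refine ⟨h.disj, fun T hT => ?_⟩
  obtain ⟨g, hg, hA⟩ := h.sym T hT
  have hA' : ∀ z, g z ∈ Y ∪ T ↔ z ∈ Y ∪ T := by
    intro z
    have := hA z
    simpa only [Finset.mem_coe] using this
  refine ⟨g, hg, ?_, hA'⟩
  have h1 : IsSED (Y ∪ T) 0 R := hs.mono Finset.subset_union_left (by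
    intro x hx
    rcases Finset.mem_union.1 hx with hx | hx
    · exact hs.1 x hx
    · simpa using hM x (hT hx))
  exact h1.fix hA'

theorem Cfg0.par {Y M : Finset ℂ} (h : Cfg0 Y M) {T : Finset ℂ} (hT : T ⊆ M) :
    (∀ ρ ρ', (s1 (Y ∪ T) ρ * conj (s1 (Y ∪ T) ρ')).im = 0) ∧
      (∀ ρ, (s2 (Y ∪ T) ρ * conj (s1 (Y ∪ T) ρ) ^ 2).im = 0) ∧
      (∀ ρ, s1 (Y ∪ T) ρ ≠ 0 → RSym (Y ∪ T) (s1 (Y ∪ T) ρ)) := by
  obtain ⟨g, hg, h0, hA⟩ := h.sym T hT
  exact sym_par hg hA h0

theorem s1_union {Y M T : Finset ℂ} (h : Disjoint Y M) (hT : T ⊆ M) (ρ : ℝ) :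
    s1 (Y ∪ T) ρ = s1 Y ρ + ∑ w ∈ T, if ‖w‖ = ρ then w else 0 := by
  unfold s1
  rw [Finset.sum_filter, Finset.sum_union (h.mono_right hT), Finset.sum_filter]

theorem s2_union {Y M T : Finset ℂ} (h : Disjoint Y M) (hT : T ⊆ M) (ρ : ℝ) :
    s2 (Y ∪ T) ρ = s2 Y ρ + ∑ w ∈ T, if ‖w‖ = ρ then w ^ 2 else 0 := by
  unfold s2
  rw [Finset.sum_filter, Finset.sum_union (h.mono_right hT), Finset.sum_filter]

end Ext7
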