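import Pool.Agent.Lib.MP_ad0d06_co.Fixed

open Complex ComplexConjugate

noncomputable section

namespace Ext7

structure TCfg (Y M : Finset ℂ) (R : ℝ) (v : ℂ) : Prop where
  cfg : Cfg Y M
  sed : IsSED Y 0 R
  int : ∀ w ∈ M, ‖w‖ < R
  crit : Crit Y 0 R v

def RotInv (P : Finset ℂ) (a : ℂ) : Prop := a * conj a = 1 ∧ ∀ z, a * z ∈ P ↔ z ∈ P
def RefInv (P : Finset ℂ) (a : ℂ) : Prop := a * conj a = 1 ∧ ∀ z, a * conj z ∈ P ↔ z ∈ P

/-- rotation symmetries of the boundary part -/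
def RB (Y : Finset ℂ) (R : ℝ) (a : ℂ) : Prop :=
  a * conj a = 1 ∧ ∀ x, ‖x‖ = R → (a * x ∈ Y ↔ x ∈ Y)

theorem TCfg.opt {Y M : Finset ℂ} {R : ℝ} {v : ℂ} (h : TCfg Y M R v) {T : Finset ℂ} (hT : T ⊆ M) :
    (∃ a, a ≠ 1 ∧ RotInv (Y ∪ T) a) ∨ ∃ a, RefInv (Y ∪ T) a := by
  obtain ⟨g, hg, h0, hA⟩ := (h.cfg.to0 h.sed (fun w hw => (h.int w hw).le)).sym T hT
  obtain ⟨a, ha, hab | hab⟩ := form_fix g 0 h0
  · left
    have e : ∀ z, g z = a * z := fun z => by rw [hab z]; ring
    refine ⟨a, ?_, ha, fun z => by rw [← e]; exact hA z⟩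
    rintro rfl
    apply hg
    ext z
    rw [e z]
    show 1 * z = z
    ring
  · right
    have e : ∀ z, g z = a * conj z := fun z => by rw [hab z]; simp
    exact ⟨a, ha, fun z => by rw [← e]; exact hA z⟩

theorem notMem_T {Y M T : Finset ℂ} {R : ℝ} {v : ℂ} (h : TCfg Y M R v) (hT : T ⊆ M) {x : ℂ}
    (hx : ‖x‖ = R) : x ∈ Y ∪ T ↔ x ∈ Y := by
  rw [Finset.mem_union]
  constructor
  · rintro (h1 | h1)
    · exact h1
    · exact absurd hx (h.int x (hT h1)).ne
  · exact Or.inl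

theorem RotInv.rb {Y M T : Finset ℂ} {R : ℝ} {v a : ℂ} (h : TCfg Y M R v) (hT : T ⊆ M)
    (ha : RotInv (Y ∪ T) a) : RB Y R a := by
  refine ⟨ha.1, fun x hx => ?_⟩
  have h1 : ‖a * x‖ = R := by rw [norm_mul, norm_of_unit ha.1, one_mul, hx]
  rw [← notMem_T h hT hx, ← notMem_T h hT h1]
  exact ha.2 x

theorem RB.mul {Y : Finset ℂ} {R : ℝ} {a b : ℂ} (ha : RB Y R a) (hb : RB Y R b) :
    RB Y R (a * b) := by
  refine ⟨?_, fun x hx => ?_⟩
  · rw [map_mul]; linear_combination b * conj b * ha.1 + hb.1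
  · have h1 : ‖b * x‖ = R := by rw [norm_mul, norm_of_unit hb.1, one_mul, hx]
    rw [mul_assoc, ha.2 _ h1, hb.2 x hx]

theorem RB.conj {Y : Finset ℂ} {R : ℝ} {a : ℂ} (ha : RB Y R a) : RB Y R (conj a) := by
  refine ⟨by rw [conj_conj, mul_comm]; exact ha.1, fun x hx => ?_⟩
  have h1 : ‖conj a * x‖ = R := by rw [norm_mul, norm_conj, norm_of_unit ha.1, one_mul, hx]
  rw [← ha.2 _ h1]
  have e : a * (conj a * x) = x := by linear_combination x * ha.1
  rw [e]

theorem RefInv.rb {Y M T T' : Finset ℂ} {R : ℝ} {v a b : ℂ} (h : TCfg Y M R v) (hT : T ⊆ M)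
    (hT' : T' ⊆ M) (ha : RefInv (Y ∪ T) a) (hb : RefInv (Y ∪ T') b) : RB Y R (a * conj b) := by
  refine ⟨?_, fun x hx => ?_⟩
  · rw [map_mul, conj_conj]; linear_combination b * conj b * ha.1 + hb.1
  · have h1 : ‖b * conj x‖ = R := by rw [norm_mul, norm_conj, norm_of_unit hb.1, one_mul, hx]
    have h2 : ‖a * conj (b * conj x)‖ = R := by
      rw [norm_mul, norm_conj, norm_of_unit ha.1, one_mul, h1]
    have e : a * conj b * x = a * conj (b * conj x) := by
      rw [map_mul, conj_conj]; ring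
    rw [e, ← notMem_T h hT h2, ha.2, notMem_T h hT h1, ← notMem_T h hT' h1, hb.2,
      notMem_T h hT' hx]

theorem RB.re_neg {Y M : Finset ℂ} {R : ℝ} {v a : ℂ} (h : TCfg Y M R v) (hR : 0 < R)
    (ha : RB Y R a) (ha1 : a ≠ 1) : a.re < 0 := by
  obtain ⟨h1, h2, u, h3, h4⟩ := h.crit
  simp only [sub_zero] at h2 h3 h4
  have hv0 : v ≠ 0 := by rintro rfl; simp at h2; linarith
  have n1 : ‖a * v‖ = R := by rw [norm_mul, norm_of_unit ha.1, one_mul, h2]
  have n2 : ‖conj a * v‖ = R := by rw [norm_mul, norm_conj, norm_of_unit ha.1, one_mul, h2]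
  have e1 := h4 _ ((ha.2 v h2).2 h1) n1 (by
    intro e
    apply ha1
    exact mul_right_cancel₀ hv0 (by rw [e, one_mul]))
  have e2 := h4 _ ((ha.conj.2 v h2).2 h1) n2 (by
    intro e
    apply ha1
    have : conj a = 1 := mul_right_cancel₀ hv0 (by rw [e, one_mul])
    have := congrArg conj this
    simpa using this)
  have e3 : (a * v * conj u).re + (conj a * v * conj u).re = 2 * a.re * (v * conj u).re := by
    simp [mul_re, mul_im]; ring
  nlinarith

theorem omega_of_cube {a : ℂ} (h : a ^ 3 = 1) (h1 : a ≠ 1) : a ^ 2 + a + 1 = 0 := by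
  have : (a - 1) * (a ^ 2 + a + 1) = 0 := by linear_combination h
  exact (mul_eq_zero.1 this).resolve_left (sub_ne_zero.2 h1)

theorem RB.cls {Y M : Finset ℂ} {R : ℝ} {v a : ℂ} (h : TCfg Y M R v) (hR : 0 < R)
    (ha : RB Y R a) : a = 1 ∨ a = -1 ∨ a ^ 2 + a + 1 = 0 := by
  by_cases h1 : a = 1
  · exact Or.inl h1
  right
  by_cases h2 : a ^ 2 = 1
  · left
    have : (a - 1) * (a + 1) = 0 := by linear_combination h2
    have := (mul_eq_zero.1 this).resolve_left (sub_ne_zero.2 h1)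
    linear_combination this
  · right
    by_cases h3 : a ^ 3 = 1
    · exact omega_of_cube h3 h1
    · exfalso
      have e1 := ha.re_neg h hR h1
      have r2 : RB Y R (a ^ 2) := by rw [pow_two]; exact ha.mul ha
      have r3 : RB Y R (a ^ 3) := by
        have : a ^ 3 = a * a ^ 2 := by ring
        rw [this]; exact ha.mul r2
      have e2 := r2.re_neg h hR h2
      have e3 := r3.re_neg h hR h3
      have e4 : ‖a‖ ^ 2 = 1 := by rw [norm_of_unit ha.1]; norm_num
      rw [nsq] at e4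
      have e5 : (a ^ 2).re = 2 * a.re ^ 2 - 1 := by
        rw [pow_two, mul_re]; nlinarith
      have e6 : (a ^ 3).re = a.re * (4 * a.re ^ 2 - 3) := by
        have : a ^ 3 = a * a * a := by ring
        rw [this, mul_re, mul_re, mul_im]
        have : a.im * a.im = 1 - a.re * a.re := by linarith
        linear_combination (-3 * a.re) * this
      rw [e5] at e2
      rw [e6] at e3
      nlinarith

theorem RB.not_both {Y M : Finset ℂ} {R : ℝ} {v a : ℂ} (h : TCfg Y M R v) (hR : 0 < R)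
    (ha : RB Y R a) (ho : a ^ 2 + a + 1 = 0) (hm : RB Y R (-1)) : False := by
  have h1 := ha.mul hm
  have e1 : a * (-1) ≠ 1 := by
    intro e
    have : a = -1 := by linear_combination -e
    rw [this] at ho
    norm_num at ho
  have e2 := h1.re_neg h hR e1
  have e3 := ha.re_neg h hR (by rintro rfl; norm_num at ho)
  have e4 : (a * (-1)).re = - a.re := by simp
  rw [e4] at e2
  linarith

/-- the triangle case -/
structure CaseC (Y M : Finset ℂ) (R : ℝ) (v ω : ℂ) : Prop where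
  ho : ω ^ 2 + ω + 1 = 0
  hc : conj ω = ω ^ 2
  bd : ∀ x ∈ Y, ‖x‖ = R → x = v ∨ x = ω * v ∨ x = ω ^ 2 * v
  m1 : ω * v ∈ Y
  m2 : ω ^ 2 * v ∈ Y
  opt : ∀ T ⊆ M, RotInv (Y ∪ T) ω ∨ RefInv (Y ∪ T) (v / conj v) ∨
    RefInv (Y ∪ T) (ω * (v / conj v)) ∨ RefInv (Y ∪ T) (ω ^ 2 * (v / conj v))

def LineC (Y M : Finset ℂ) : Prop :=
  ∀ w ∈ M, w ≠ 0 → RSym Y w ∧ ∀ x ∈ M, (x * conj w).im = 0

theorem conj_omega {ω : ℂ} (h : ω ^ 2 + ω + 1 = 0) (hn : ω * conj ω = 1) : conj ω = ω ^ 2 := by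
  have h3 : ω ^ 3 = 1 := by linear_combination (ω - 1) * h
  have h0 : ω ≠ 0 := by rintro rfl; simp at h
  apply mul_left_cancel₀ h0
  rw [hn]; linear_combination -h3

/-- two sets differing in `w` with the same reflection: `w` is on the axis -/
theorem ref_fix {P : Finset ℂ} {a w : ℂ} (hw : w ∉ P) (h1 : RefInv P a)
    (h2 : RefInv (insert w P) a) : a * conj w = w := by
  have h3 := (h2.2 w).2 (Finset.mem_insert_self _ _)
  rcases Finset.mem_insert.1 h3 with h4 | h4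
  · exact h4
  · exact absurd ((h1.2 w).1 h4) hw

theorem ref_eq_rf {a w : ℂ} (hw : w ≠ 0) (h : a * conj w = w) (z : ℂ) : rf w z = a * conj z := by
  unfold rf
  congr 1
  rw [div_eq_iff ((map_ne_zero _).2 hw)]; exact h.symm

theorem par_of_ref {a w x : ℂ} (hw : w ≠ 0) (h : a * conj w = w) (h' : a * conj x = x) :
    (x * conj w).im = 0 :=
  par_of_rf hw (by rw [ref_eq_rf hw h]; exact h')

theorem union_insert_T {Y T : Finset ℂ} {w : ℂ} : Y ∪ insert w T = insert w (Y ∪ T) := by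
  rw [Finset.union_insert]

/-- removing points of the axis -/
theorem RefInv.sub {Y T : Finset ℂ} {a : ℂ} (h : RefInv (Y ∪ T) a) (hd : Disjoint Y T)
    (hT : ∀ x ∈ T, a * conj x = x) : RefInv Y a := by
  refine ⟨h.1, fun z => ?_⟩
  have hfix : a * conj z ∈ T ↔ z ∈ T := by
    constructor
    · intro h1
      have h2 := hT _ h1
      rw [map_mul, conj_conj] at h2
      have h3 : z = a * conj z := by linear_combination h2 - z * h.1
      rwa [← h3] at h1
    · intro h1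
      rwa [hT z h1]
  have h1 := h.2 z
  rw [Finset.mem_union, Finset.mem_union] at h1
  constructor
  · intro hz
    rcases h1.1 (Or.inl hz) with h2 | h2
    · exact h2
    · exact absurd (hfix.2 h2) (Finset.disjoint_left.1 hd hz)
  · intro hz
    rcases h1.2 (Or.inl hz) with h2 | h2
    · exact h2
    · exact absurd (hfix.1 h2) (Finset.disjoint_left.1 hd hz)

theorem RefInv.rsym {Y : Finset ℂ} {a w : ℂ} (h : RefInv Y a) (hw : w ≠ 0)
    (hf : a * conj w = w) : RSym Y w := by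
  intro z
  rw [ref_eq_rf hw hf]; exact h.2 z

theorem caseA {Y M : Finset ℂ} {R : ℝ} {v : ℂ} (h : TCfg Y M R v)
    (hA : ∀ a, RB Y R a → a = 1) : LineC Y M := by
  have key : ∃ a, ∀ T ⊆ M, RefInv (Y ∪ T) a := by
    have h0 : ∃ a, RefInv (Y ∪ ∅) a := by
      rcases h.opt (T := ∅) (by simp) with ⟨a, ha, hr⟩ | h1
      · exact absurd (hA a (hr.rb h (by simp))) ha
      · exact h1
    obtain ⟨a, ha⟩ := h0
    refine ⟨a, fun T hT => ?_⟩
    rcases h.opt hT with ⟨b, hb, hr⟩ | ⟨b, hb⟩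
    · exact absurd (hA b (hr.rb h hT)) hb
    · have h1 := hA _ (RefInv.rb h (by simp) hT ha hb)
      have : a = b := by linear_combination b * h1 - a * hb.1
      rwa [this]
  obtain ⟨a, ha⟩ := key
  have hfix : ∀ w ∈ M, a * conj w = w := by
    intro w hw
    have h1 := ha ∅ (by simp)
    have h2 := ha {w} (by simpa using hw)
    rw [Finset.union_empty] at h1
    have e : Y ∪ {w} = insert w Y := by rw [Finset.union_comm]; rfl
    rw [e] at h2
    exact ref_fix (fun hY => Finset.disjoint_left.1 h.cfg.disj hY hw) h1 h2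
  intro w1 hw1 h1
  refine ⟨?_, fun w2 hw2 => par_of_ref h1 (hfix w1 hw1) (hfix w2 hw2)⟩
  have h3 := ha ∅ (by simp)
  rw [Finset.union_empty] at h3
  exact h3.rsym h1 (hfix w1 hw1)

end Ext7
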