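import Pool.Agent.Lib.MP_ad0d06_co.Types

open Complex ComplexConjugate

noncomputable section

namespace Ext7

theorem notMem_union_of {Y M T : Finset ℂ} {w : ℂ} (hd : Disjoint Y M) (hw : w ∈ M)
    (hT : w ∉ T) : w ∉ Y ∪ T := by
  intro h
  rcases Finset.mem_union.1 h with h | h
  · exact Finset.disjoint_left.1 hd h hw
  · exact hT h

theorem pl1 {p q r : Prop} (h1 : p ↔ False) (h2 : r ↔ q) : ¬ (p ↔ (q ↔ r)) := by
  rw [h1, h2]; simp
theorem pl2 {p q r : Prop} (h1 : q ↔ False) (h2 : r ↔ p) : ¬ (p ↔ (q ↔ r)) := by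
  rw [h1, h2]; simp
theorem pl3 {p q r : Prop} (h1 : r ↔ False) (h2 : q ↔ p) : ¬ (p ↔ (q ↔ r)) := by
  rw [h1, h2]; simp
theorem pl4 {p q r : Prop} (h1 : p ↔ True) (h2 : r ↔ q) : (p ↔ (q ↔ r)) := by
  rw [h1, h2]; simp
theorem pl5 {p q r : Prop} (h1 : q ↔ True) (h2 : r ↔ p) : (p ↔ (q ↔ r)) := by
  rw [h1, h2]; simp
theorem pl6 {p q r : Prop} (h1 : r ↔ True) (h2 : q ↔ p) : (p ↔ (q ↔ r)) := by
  rw [h1, h2]; simp

theorem caseB {Y M : Finset ℂ} {R : ℝ} {v : ℂ} (h : TCfg Y M R v) (hR : 0 < R)
    (hm : RB Y R (-1)) : LineC Y M := by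
  obtain ⟨hv, hv1, u, hu1, hu2⟩ := h.crit
  simp only [sub_zero] at hv1 hu1 hu2
  have hv0 : v ≠ 0 := by rintro rfl; simp at hv1; linarith
  have hcv : conj v ≠ 0 := (map_ne_zero _).2 hv0
  have hbd : ∀ x ∈ Y, ‖x‖ = R → x = v ∨ x = -v := by
    intro x hx hx1
    by_contra hcon
    push Not at hcon
    have h1 := hu2 x hx hx1 hcon.1
    have h2 : (-1) * x ∈ Y := (hm.2 x hx1).2 hx
    have h3 := hu2 _ h2 (by simpa using hx1) (by
      intro e; apply hcon.2; linear_combination -e)
    have e : ((-1) * x * conj u).re = -(x * conj u).re := by simp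
    rw [e] at h3
    linarith
  set a := v / conj v with ha
  have hopt : ∀ T ⊆ M, RotInv (Y ∪ T) (-1) ∨ RefInv (Y ∪ T) a ∨ RefInv (Y ∪ T) (-a) := by
    intro T hT
    rcases h.opt hT with ⟨b, hb, hr⟩ | ⟨b, hb⟩
    · left
      rcases (hr.rb h hT).cls h hR with h1 | h1 | h1
      · exact absurd h1 hb
      · rwa [h1] at hr
      · exact absurd hm (fun hm => (hr.rb h hT).not_both h hR h1 hm)
    · right
      have h1 : ‖b * conj v‖ = R := by rw [norm_mul, norm_conj, norm_of_unit hb.1, one_mul, hv1]
      have h2 : b * conj v ∈ Y := by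
        rw [← notMem_T h hT h1, hb.2, notMem_T h hT hv1]; exact hv
      rcases hbd _ h2 h1 with h3 | h3
      · left
        have : b = a := by rw [ha, eq_div_iff hcv]; exact h3
        rwa [this] at hb
      · right
        have : b = -a := by rw [ha, ← neg_div, eq_div_iff hcv]; exact h3
        rwa [this] at hb
  have haa : a * conj a = 1 := by
    rw [ha, map_div₀, conj_conj]
    field_simp
  have e1 : ∀ z, a * conj (a * conj z) = z := by
    intro z; rw [map_mul, conj_conj]; linear_combination z * haa
  -- every nonzero free point is on one of the two axes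
  have ax : ∀ w ∈ M, w ≠ 0 → a * conj w = w ∨ (-a) * conj w = w := by
    intro w hw hw0
    by_contra hcon
    push Not at hcon
    obtain ⟨c1, c2⟩ := hcon
    have hwY : w ∉ Y := fun hY => Finset.disjoint_left.1 h.cfg.disj hY hw
    have hnw : -w ≠ w := by
      intro e
      apply hw0
      linear_combination (-1/2 : ℂ) * e
    have hw1 : ({w} : Finset ℂ) ⊆ M := by simpa using hw
    have i0 := hopt ∅ (by simp)
    have i1 := hopt {w} hw1
    rw [Finset.union_empty] at i0
    have e : Y ∪ {w} = insert w Y := by rw [Finset.union_comm]; rfl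
    rw [e] at i1
    have n1 : a * conj w ≠ w := c1
    have n2 : -(a * conj w) ≠ w := by
      intro e; apply c2; linear_combination e
    have m1 : ∀ z, z ≠ w → (z ∈ insert w Y ↔ z ∈ Y) := by
      intro z hz
      rw [Finset.mem_insert]
      exact ⟨fun h => h.resolve_left hz, Or.inr⟩
    have m2 : w ∈ insert w Y := Finset.mem_insert_self _ _
    have p1 := m1 _ hnw
    have p2 := m1 _ n1
    have p3 := m1 _ n2
    have s0 : ((-w ∈ Y) ↔ ((a * conj w ∈ Y) ↔ (-(a * conj w) ∈ Y))) → False := by
      intro hh
      rcases i0 with i | i | i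
      · have t1 := i.2 w
        have t2 := i.2 (a * conj w)
        rw [neg_one_mul] at t1 t2
        exact pl1 (t1.trans (iff_false_intro hwY)) t2 hh
      · have t1 := i.2 w
        have t2 := i.2 (-w)
        have : a * conj (-w) = -(a * conj w) := by simp
        rw [this] at t2
        exact pl2 (t1.trans (iff_false_intro hwY)) t2 hh
      · have t1 := i.2 w
        have t2 := i.2 (-w)
        have : (-a) * conj (-w) = a * conj w := by simp
        rw [this] at t2
        have : (-a) * conj w = -(a * conj w) := by ring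
        rw [this] at t1
        exact pl3 (t1.trans (iff_false_intro hwY)) t2 hh
    have s1 : ((-w ∈ Y) ↔ ((a * conj w ∈ Y) ↔ (-(a * conj w) ∈ Y))) := by
      rcases i1 with i | i | i
      · have t1 := i.2 w
        have t2 := i.2 (a * conj w)
        rw [neg_one_mul] at t1 t2
        rw [p1] at t1
        rw [p2, p3] at t2
        exact pl4 (t1.trans (iff_true_intro m2)) t2
      · have t1 := i.2 w
        have t2 := i.2 (-w)
        have : a * conj (-w) = -(a * conj w) := by simp
        rw [this, p3, p1] at t2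
        rw [p2] at t1
        exact pl5 (t1.trans (iff_true_intro m2)) t2
      · have t1 := i.2 w
        have t2 := i.2 (-w)
        have : (-a) * conj (-w) = a * conj w := by simp
        rw [this, p2, p1] at t2
        have : (-a) * conj w = -(a * conj w) := by ring
        rw [this, p3] at t1
        exact pl6 (t1.trans (iff_true_intro m2)) t2
    exact s0 s1
  -- key: if `w` is on the axis `b` then all is symmetric about that axis
  have key : ∀ b, (b = a ∨ b = -a) → ∀ w ∈ M, w ≠ 0 → b * conj w = w → ∀ T ⊆ M, w ∉ T →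
      -w ∉ T → (RefInv (Y ∪ T) b ∨ RefInv (insert w (Y ∪ T)) b) := by
    intro b hb w hw hw0 hf T hT hwT hnT
    have hwY : w ∉ Y := fun hY => Finset.disjoint_left.1 h.cfg.disj hY hw
    have hnw : -w ≠ w := by
      intro e
      apply hw0
      linear_combination (-1/2 : ℂ) * e
    have hwP : w ∉ Y ∪ T := notMem_union_of h.cfg.disj hw hwT
    have hbneg : (-b) * conj w = -w := by linear_combination -hf
    by_cases hY : -w ∈ Y
    · left
      have hP : -w ∈ Y ∪ T := Finset.mem_union_left _ hY
      have i := hopt T hT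
      have j1 : ¬ RotInv (Y ∪ T) (-1) := by
        intro i
        have := i.2 w
        rw [neg_one_mul] at this
        tauto
      have j2 : ¬ RefInv (Y ∪ T) (-b) := by
        intro i
        have := i.2 w
        rw [hbneg] at this
        tauto
      rcases hb with rfl | rfl
      · tauto
      · rw [neg_neg] at j2; tauto
    · right
      have hT' : insert w T ⊆ M := Finset.insert_subset hw hT
      have i := hopt _ hT'
      rw [Finset.union_insert] at i
      have hP : -w ∉ insert w (Y ∪ T) := by
        rw [Finset.mem_insert, Finset.mem_union]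
        tauto
      have hP' : w ∈ insert w (Y ∪ T) := Finset.mem_insert_self _ _
      have j1 : ¬ RotInv (insert w (Y ∪ T)) (-1) := by
        intro i
        have := i.2 w
        rw [neg_one_mul] at this
        tauto
      have j2 : ¬ RefInv (insert w (Y ∪ T)) (-b) := by
        intro i
        have := i.2 w
        rw [hbneg] at this
        tauto
      rcases hb with rfl | rfl
      · tauto
      · rw [neg_neg] at j2; tauto
  have key2 : ∀ b, (b = a ∨ b = -a) → ∀ w ∈ M, w ≠ 0 → b * conj w = w → ∀ T ⊆ M, w ∉ T →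
      -w ∉ T → RefInv (Y ∪ T) b := by
    intro b hb w hw hw0 hf T hT hwT hnT
    rcases key b hb w hw hw0 hf T hT hwT hnT with i | i
    · exact i
    · have e : insert w (Y ∪ T) = (Y ∪ T) ∪ {w} := by
        rw [Finset.union_comm (Y ∪ T) {w}]; rfl
      rw [e] at i
      apply i.sub
      · rw [Finset.disjoint_singleton_right]
        exact notMem_union_of h.cfg.disj hw hwT
      · intro x hx
        rw [Finset.mem_singleton.1 hx]; exact hf
  intro w1 hw1 h1
  obtain ⟨b, hb, hf⟩ : ∃ b, (b = a ∨ b = -a) ∧ b * conj w1 = w1 := by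
    rcases ax w1 hw1 h1 with hf | hf
    · exact ⟨a, Or.inl rfl, hf⟩
    · exact ⟨-a, Or.inr rfl, hf⟩
  have r0 := key2 b hb w1 hw1 h1 hf ∅ (by simp) (by simp) (by simp)
  rw [Finset.union_empty] at r0
  refine ⟨r0.rsym h1 hf, fun w2 hw2 => ?_⟩
  by_cases h12 : w1 = w2
  · rw [← h12, mul_conj, ofReal_im]
  by_cases hneg : w2 = -w1
  · rw [hneg, im_mul_conj]; simp; ring
  · have r1 := key2 b hb w1 hw1 h1 hf {w2} (by simpa using hw2) (by simpa using h12)
      (by simpa using fun e => hneg e.symm)
    have e : Y ∪ {w2} = insert w2 Y := by rw [Finset.union_comm]; rfl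
    rw [e] at r1
    have hf2 := ref_fix (fun hY => Finset.disjoint_left.1 h.cfg.disj hY hw2) r0 r1
    exact par_of_ref h1 hf hf2

end Ext7
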