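import Pool.Agent.Lib.MP_ad0d06_co.TypesB

open Complex ComplexConjugate

noncomputable section

namespace Ext7

theorem RotInv.sq {P : Finset ℂ} {a : ℂ} (h : RotInv P a) : RotInv P (a * a) := by
  refine ⟨by rw [map_mul]; linear_combination (a * conj a + 1) * h.1, fun z => ?_⟩
  rw [mul_assoc, h.2, h.2]

theorem caseC {Y M : Finset ℂ} {R : ℝ} {v ω : ℂ} (h : TCfg Y M R v) (hR : 0 < R)
    (ho : ω ^ 2 + ω + 1 = 0) (hw : RB Y R ω) : CaseC Y M R v ω := by
  obtain ⟨hv, hv1, u, hu1, hu2⟩ := h.crit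
  simp only [sub_zero] at hv1 hu1 hu2
  have hv0 : v ≠ 0 := by rintro rfl; simp at hv1; linarith
  have hcv : conj v ≠ 0 := (map_ne_zero _).2 hv0
  have h3 : ω ^ 3 = 1 := by linear_combination (ω - 1) * ho
  have hw2 : RB Y R (ω ^ 2) := by rw [pow_two]; exact hw.mul hw
  have hbd : ∀ x ∈ Y, ‖x‖ = R → x = v ∨ x = ω * v ∨ x = ω ^ 2 * v := by
    intro x hx hx1
    by_contra hcon
    push Not at hcon
    obtain ⟨c1, c2, c3⟩ := hcon
    have n1 : ‖ω * x‖ = R := by rw [norm_mul, norm_of_unit hw.1, one_mul, hx1]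
    have n2 : ‖ω ^ 2 * x‖ = R := by rw [norm_mul, norm_pow, norm_of_unit hw.1, one_pow, one_mul, hx1]
    have e0 := hu2 x hx hx1 c1
    have e1 := hu2 _ ((hw.2 x hx1).2 hx) n1 (by
      intro e; apply c3; rw [← e]; linear_combination -x * h3)
    have e2 := hu2 _ ((hw2.2 x hx1).2 hx) n2 (by
      intro e; apply c2; rw [← e]; linear_combination -x * h3)
    have e3 : (x * conj u).re + (ω * x * conj u).re + (ω ^ 2 * x * conj u).re = 0 := by
      rw [← add_re, ← add_re]
      have : x * conj u + ω * x * conj u + ω ^ 2 * x * conj u = (ω ^ 2 + ω + 1) * (x * conj u) := by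
        ring
      rw [this, ho]; simp
    linarith
  refine ⟨ho, conj_omega ho hw.1, hbd, (hw.2 v hv1).2 hv, (hw2.2 v hv1).2 hv, ?_⟩
  intro T hT
  rcases h.opt hT with ⟨b, hb, hr⟩ | ⟨b, hb⟩
  · left
    rcases (hr.rb h hT).cls h hR with h1 | h1 | h1
    · exact absurd h1 hb
    · have := hr.rb h hT
      rw [h1] at this
      exact absurd this (fun hm => hw.not_both h hR ho hm)
    · have e : (b - ω) * (b - ω ^ 2) = 0 := by
        linear_combination h1 + (ω-1-b) * ho
      rcases mul_eq_zero.1 e with e1 | e1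
      · rw [sub_eq_zero.1 e1] at hr; exact hr
      · rw [sub_eq_zero.1 e1] at hr
        have := hr.sq
        have e2 : ω ^ 2 * ω ^ 2 = ω := by linear_combination ω * h3
        rwa [e2] at this
  · right
    have h1 : ‖b * conj v‖ = R := by rw [norm_mul, norm_conj, norm_of_unit hb.1, one_mul, hv1]
    have h2 : b * conj v ∈ Y := by
      rw [← notMem_T h hT h1, hb.2, notMem_T h hT hv1]; exact hv
    rcases hbd _ h2 h1 with h4 | h4 | h4
    · left
      have : b = v / conj v := by rw [eq_div_iff hcv]; exact h4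
      rwa [this] at hb
    · right; left
      have : b = ω * (v / conj v) := by rw [← mul_div_assoc, eq_div_iff hcv]; exact h4
      rwa [this] at hb
    · right; right
      have : b = ω ^ 2 * (v / conj v) := by rw [← mul_div_assoc, eq_div_iff hcv]; exact h4
      rwa [this] at hb

/-- the three possible shapes -/
theorem types {Y M : Finset ℂ} {R : ℝ} {v : ℂ} (h : TCfg Y M R v) (hR : 0 < R) :
    LineC Y M ∨ ∃ ω, CaseC Y M R v ω := by
  by_cases hA : ∀ a, RB Y R a → a = 1
  · exact Or.inl (caseA h hA)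
  · push Not at hA
    obtain ⟨a, ha, ha1⟩ := hA
    rcases ha.cls h hR with h1 | h1 | h1
    · exact absurd h1 ha1
    · left
      rw [h1] at ha
      exact caseB h hR ha
    · exact Or.inr ⟨a, caseC h hR h1 ha⟩

/-! ### combinatorics of the triangle case -/

open Classical in
def nn (p : Prop) : ℕ := if p then 1 else 0

theorem nn_congr {p q : Prop} (h : p ↔ q) : nn p = nn q := by
  rw [propext h]

theorem nins {P : Finset ℂ} {w x : ℂ} (h : w ∉ P) : nn (x ∈ insert w P) = nn (x ∈ P) + nn (x = w) := by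
  unfold nn
  by_cases h1 : x = w
  · subst h1; simp [h]
  · simp [h1]

/-- number of points of the orbit of `w` in `P` -/
def NO (ω a : ℂ) (P : Finset ℂ) (w : ℂ) : ℕ :=
  nn (w ∈ P) + nn (ω * w ∈ P) + nn (ω ^ 2 * w ∈ P) + nn (a * conj w ∈ P) +
    nn (ω * (a * conj w) ∈ P) + nn (ω ^ 2 * (a * conj w) ∈ P)

def CO (ω a w x : ℂ) : ℕ :=
  nn (w = x) + nn (ω * w = x) + nn (ω ^ 2 * w = x) + nn (a * conj w = x) +
    nn (ω * (a * conj w) = x) + nn (ω ^ 2 * (a * conj w) = x)

theorem NO_ins {ω a : ℂ} {P : Finset ℂ} {w x : ℂ} (hx : x ∉ P) :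
    NO ω a (insert x P) w = NO ω a P w + CO ω a w x := by
  unfold NO CO
  rw [nins hx, nins hx, nins hx, nins hx, nins hx, nins hx]
  ring

theorem NO_even {ω a : ℂ} {P : Finset ℂ} {w : ℂ} (h3 : ω ^ 3 = 1) (hc : conj ω = ω ^ 2)
    (h : RefInv P a ∨ RefInv P (ω * a) ∨ RefInv P (ω ^ 2 * a)) : Even (NO ω a P w) := by
  unfold NO
  have hc2 : conj (ω ^ 2) = ω := by rw [map_pow, hc]; linear_combination ω * h3
  rcases h with h | h | h
  · have e0 := h.2 w
    have e1 := h.2 (ω * w)
    have e2 := h.2 (ω ^ 2 * w)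
    have f1 : a * conj (ω * w) = ω ^ 2 * (a * conj w) := by rw [map_mul, hc]; ring
    have f2 : a * conj (ω ^ 2 * w) = ω * (a * conj w) := by rw [map_mul, hc2]; ring
    rw [f1] at e1
    rw [f2] at e2
    rw [nn_congr e0, nn_congr e1, nn_congr e2]
    exact ⟨nn (w ∈ P) + nn (ω * w ∈ P) + nn (ω ^ 2 * w ∈ P), by ring⟩
  · have e0 := h.2 w
    have e1 := h.2 (ω * w)
    have e2 := h.2 (ω ^ 2 * w)
    have f0 : ω * a * conj w = ω * (a * conj w) := by ring
    have f1 : ω * a * conj (ω * w) = a * conj w := by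
      rw [map_mul, hc]; linear_combination a * conj w * h3
    have f2 : ω * a * conj (ω ^ 2 * w) = ω ^ 2 * (a * conj w) := by rw [map_mul, hc2]; ring
    rw [f0] at e0
    rw [f1] at e1
    rw [f2] at e2
    rw [nn_congr e0, nn_congr e1, nn_congr e2]
    exact ⟨nn (w ∈ P) + nn (ω * w ∈ P) + nn (ω ^ 2 * w ∈ P), by ring⟩
  · have e0 := h.2 w
    have e1 := h.2 (ω * w)
    have e2 := h.2 (ω ^ 2 * w)
    have f0 : ω ^ 2 * a * conj w = ω ^ 2 * (a * conj w) := by ring
    have f1 : ω ^ 2 * a * conj (ω * w) = ω * (a * conj w) := by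
      rw [map_mul, hc]; linear_combination ω * a * conj w * h3
    have f2 : ω ^ 2 * a * conj (ω ^ 2 * w) = a * conj w := by
      rw [map_mul, hc2]; linear_combination a * conj w * h3
    rw [f0] at e0
    rw [f1] at e1
    rw [f2] at e2
    rw [nn_congr e0, nn_congr e1, nn_congr e2]
    exact ⟨nn (w ∈ P) + nn (ω * w ∈ P) + nn (ω ^ 2 * w ∈ P), by ring⟩

theorem om_ne {ω w : ℂ} (ho : ω ^ 2 + ω + 1 = 0) (hw : w ≠ 0) : ω * w ≠ w ∧ ω ^ 2 * w ≠ w ∧
    ω * w ≠ ω ^ 2 * w := by
  have h1 : ω ≠ 1 := by rintro rfl; norm_num at ho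
  have h0 : ω ≠ 0 := by rintro rfl; norm_num at ho
  have h2 : ω ^ 2 ≠ 1 := by
    intro e
    have : ω = -2 := by linear_combination ho - e
    rw [this] at ho; norm_num at ho
  refine ⟨fun e => h1 (mul_right_cancel₀ hw (by rw [e, one_mul])),
    fun e => h2 (mul_right_cancel₀ hw (by rw [e, one_mul])), fun e => ?_⟩
  have := mul_right_cancel₀ hw e
  apply h1
  have e2 : ω * (ω - 1) = 0 := by linear_combination -this
  exact sub_eq_zero.1 ((mul_eq_zero.1 e2).resolve_left h0)

/-- no generic free points if there are two nonzero free points -/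
theorem CaseC.axis {Y M : Finset ℂ} {R : ℝ} {v ω : ℂ} (h : CaseC Y M R v ω)
    (hd : Disjoint Y M) {w x : ℂ} (hw : w ∈ M) (hx : x ∈ M) (hw0 : w ≠ 0) (hx0 : x ≠ 0)
    (hne : w ≠ x) : v / conj v * conj w = w ∨ ω * (v / conj v) * conj w = w ∨
      ω ^ 2 * (v / conj v) * conj w = w := by
  by_contra hcon
  push Not at hcon
  obtain ⟨c0, c1, c2⟩ := hcon
  have ho := h.ho
  have h3 : ω ^ 3 = 1 := by linear_combination (ω - 1) * ho
  obtain ⟨o1, o2, o3⟩ := om_ne ho hw0
  obtain ⟨q1, q2, q3⟩ := om_ne ho hx0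
  have hopt := h.opt
  generalize v / conj v = a at c0 c1 c2 hopt
  have hC : CO ω a w w = 1 := by
    unfold CO nn
    rw [if_pos rfl, if_neg o1, if_neg o2, if_neg c0, if_neg (by
      intro e; apply c1; linear_combination e), if_neg (by
      intro e; apply c2; linear_combination e)]
  have hwY : w ∉ Y := fun hY => Finset.disjoint_left.1 hd hY hw
  have hxY : x ∉ Y := fun hY => Finset.disjoint_left.1 hd hY hx
  have odd : ∀ T ⊆ M, ¬ Even (NO ω a (Y ∪ T) w) → RotInv (Y ∪ T) ω := by
    intro T hT hN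
    rcases hopt T hT with i | i
    · exact i
    · exact absurd (NO_even h3 h.hc i) hN
  have N1 := NO_ins (ω := ω) (a := a) (P := Y) (w := w) (x := w) hwY
  have N2 := NO_ins (ω := ω) (a := a) (P := Y) (w := w) (x := x) hxY
  have hwP : w ∉ insert x Y := by
    rw [Finset.mem_insert]; tauto
  have N3 := NO_ins (ω := ω) (a := a) (P := insert x Y) (w := w) (x := w) hwP
  rw [hC] at N1 N3
  have P1 : ∃ P, RotInv P ω ∧ Y ⊆ P ∧ x ∉ P := by
    by_cases e : Even (NO ω a Y w)
    · refine ⟨insert w Y, ?_, Finset.subset_insert _ _, by rw [Finset.mem_insert]; tauto⟩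
      have := odd {w} (by simpa using hw) (by
        rw [show Y ∪ {w} = insert w Y by rw [Finset.union_comm]; rfl, N1]
        intro e2
        have := Nat.even_add_one.1 e2
        exact this e)
      rwa [show Y ∪ {w} = insert w Y by rw [Finset.union_comm]; rfl] at this
    · refine ⟨Y, ?_, Finset.Subset.refl _, hxY⟩
      have := odd ∅ (by simp) (by rwa [Finset.union_empty])
      rwa [Finset.union_empty] at this
  have P2 : ∃ P, RotInv P ω ∧ (∀ z ∈ P, z ∈ Y ∨ z = w ∨ z = x) ∧ x ∈ P := by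
    by_cases e : Even (NO ω a (insert x Y) w)
    · refine ⟨insert w (insert x Y), ?_, ?_, by simp⟩
      · have := odd {w, x} (by
          intro z hz
          rcases Finset.mem_insert.1 hz with rfl | hz
          · exact hw
          · rwa [Finset.mem_singleton.1 hz]) (by
          rw [show Y ∪ {w, x} = insert w (insert x Y) by
            rw [Finset.union_comm]; ext z; simp, N3]
          intro e2
          have := Nat.even_add_one.1 e2
          exact this e)
        rwa [show Y ∪ {w, x} = insert w (insert x Y) by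
            rw [Finset.union_comm]; ext z; simp] at this
      · intro z hz
        simp only [Finset.mem_insert] at hz
        tauto
    · refine ⟨insert x Y, ?_, ?_, by simp⟩
      · have := odd {x} (by simpa using hx) (by
          rwa [show Y ∪ {x} = insert x Y by rw [Finset.union_comm]; rfl])
        rwa [show Y ∪ {x} = insert x Y by rw [Finset.union_comm]; rfl] at this
      · intro z hz
        simp only [Finset.mem_insert] at hz
        tauto
  obtain ⟨P1, r1, s1, t1⟩ := P1
  obtain ⟨P2, r2, s2, t2⟩ := P2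
  have a1 : ω * x ∉ P1 := fun hh => t1 ((r1.2 x).1 hh)
  have a2 : ω * (ω * x) ∉ P1 := fun hh => a1 ((r1.2 _).1 hh)
  have b1 : ω * x ∈ P2 := (r2.2 x).2 t2
  have b2 : ω * (ω * x) ∈ P2 := (r2.2 _).2 b1
  have e3 : ω * (ω * x) = ω ^ 2 * x := by ring
  have c1' : ω * x = w := by
    rcases s2 _ b1 with g | g | g
    · exact absurd (s1 g) a1
    · exact g
    · exact absurd g q1
  have c2' : ω ^ 2 * x = w := by
    rw [e3] at b2 a2
    rcases s2 _ b2 with g | g | g
    · exact absurd (s1 g) a2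
    · exact g
    · exact absurd g q2
  exact q3 (by rw [c1', c2'])

end Ext7
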