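import Pool.Agent.Lib.MP_ad0d06_co.TypesC

open Complex ComplexConjugate

noncomputable section

namespace Ext7

theorem comb0 {α1 α2 β1 β2 : Prop} (H : ∀ s1 s2 : Bool,
    ((s1 = true ↔ α1) ∧ (α1 ↔ α2) ∧ (s2 = true ↔ β1) ∧ (β1 ↔ β2)) ∨
    ((s1 = true ↔ α1) ∧ (s2 = true ↔ β1)) ∨ ((s1 = true ↔ α2) ∧ (s2 = true ↔ β2))) : False := by
  have h1 := H true true
  have h2 := H true false
  have h3 := H false true
  have h4 := H false false
  by_cases a1 : α1 <;> by_cases a2 : α2 <;> by_cases b1 : β1 <;> by_cases b2 : β2 <;>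
    simp_all

theorem comb1 {α1 α2 β1 β2 : Prop} (H : ∀ s1 s2 : Bool,
    ((s1 = true ↔ α1) ∧ (α1 ↔ α2) ∧ (s2 = true ↔ β1) ∧ (β1 ↔ β2)) ∨
    ((α1 ↔ α2) ∧ (s2 = true ↔ β2)) ∨ ((s1 = true ↔ α1) ∧ (β1 ↔ β2)) ∨
    ((s1 = true ↔ α2) ∧ (s2 = true ↔ β1))) : False := by
  have h1 := H true true
  have h2 := H true false
  have h3 := H false true
  have h4 := H false false
  by_cases a1 : α1 <;> by_cases a2 : α2 <;> by_cases b1 : β1 <;> by_cases b2 : β2 <;>
    simp_all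

theorem comb2 {α1 α2 β1 β2 : Prop} (H : ∀ s1 s2 : Bool,
    ((s1 = true ↔ α1) ∧ (α1 ↔ α2) ∧ (s2 = true ↔ β1) ∧ (β1 ↔ β2)) ∨
    ((α1 ↔ α2) ∧ (s2 = true ↔ β1)) ∨ ((s1 = true ↔ α1) ∧ (s2 = true ↔ β2)) ∨
    ((s1 = true ↔ α2) ∧ (β1 ↔ β2))) : False := by
  have h1 := H true true
  have h2 := H true false
  have h3 := H false true
  have h4 := H false false
  by_cases a1 : α1 <;> by_cases a2 : α2 <;> by_cases b1 : β1 <;> by_cases b2 : β2 <;>
    simp_all

/-- the reflections in terms of a point on an axis -/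
theorem CaseC.opt' {Y M : Finset ℂ} {R : ℝ} {v ω : ℂ} (h : CaseC Y M R v ω)
    (hd : Disjoint Y M) {w x : ℂ} (hw : w ∈ M) (hx : x ∈ M) (hw0 : w ≠ 0) (hx0 : x ≠ 0)
    (hne : w ≠ x) {T : Finset ℂ} (hT : T ⊆ M) : RotInv (Y ∪ T) ω ∨
    RefInv (Y ∪ T) (w / conj w) ∨ RefInv (Y ∪ T) (ω * (w / conj w)) ∨
      RefInv (Y ∪ T) (ω ^ 2 * (w / conj w)) := by
  have ho := h.ho
  have h3 : ω ^ 3 = 1 := by linear_combination (ω - 1) * ho
  have ax := h.axis hd hw hx hw0 hx0 hne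
  have hopt := h.opt T hT
  generalize v / conj v = a at ax hopt
  have hcw : conj w ≠ 0 := (map_ne_zero _).2 hw0
  rcases ax with ax | ax | ax
  · have e : w / conj w = a := by rw [div_eq_iff hcw]; exact ax.symm
    rw [e]; exact hopt
  · have e : w / conj w = ω * a := by rw [div_eq_iff hcw]; exact ax.symm
    have e1 : ω * (ω * a) = ω ^ 2 * a := by ring
    have e2 : ω ^ 2 * (ω * a) = a := by linear_combination a * h3
    rw [e, e1, e2]; tauto
  · have e : w / conj w = ω ^ 2 * a := by rw [div_eq_iff hcw]; exact ax.symm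
    have e1 : ω * (ω ^ 2 * a) = a := by linear_combination a * h3
    have e2 : ω ^ 2 * (ω ^ 2 * a) = ω * a := by linear_combination ω * a * h3
    rw [e, e1, e2]; tauto

/-- the axis constants of two free points differ by a power of `ω` -/
theorem CaseC.rel {Y M : Finset ℂ} {R : ℝ} {v ω : ℂ} (h : CaseC Y M R v ω)
    (hd : Disjoint Y M) {w x : ℂ} (hw : w ∈ M) (hx : x ∈ M) (hw0 : w ≠ 0) (hx0 : x ≠ 0)
    (hne : w ≠ x) : x / conj x = w / conj w ∨ x / conj x = ω * (w / conj w) ∨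
      x / conj x = ω ^ 2 * (w / conj w) := by
  have ho := h.ho
  have h3 : ω ^ 3 = 1 := by linear_combination (ω - 1) * ho
  have ax := h.axis hd hw hx hw0 hx0 hne
  have bx := h.axis hd hx hw hx0 hw0 hne.symm
  generalize v / conj v = a at ax bx
  have hcw : conj w ≠ 0 := (map_ne_zero _).2 hw0
  have hcx : conj x ≠ 0 := (map_ne_zero _).2 hx0
  have e1 : w / conj w = a ∨ w / conj w = ω * a ∨ w / conj w = ω ^ 2 * a := by
    rcases ax with ax | ax | ax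
    · left; rw [div_eq_iff hcw]; exact ax.symm
    · right; left; rw [div_eq_iff hcw]; exact ax.symm
    · right; right; rw [div_eq_iff hcw]; exact ax.symm
  have e2 : x / conj x = a ∨ x / conj x = ω * a ∨ x / conj x = ω ^ 2 * a := by
    rcases bx with ax | ax | ax
    · left; rw [div_eq_iff hcx]; exact ax.symm
    · right; left; rw [div_eq_iff hcx]; exact ax.symm
    · right; right; rw [div_eq_iff hcx]; exact ax.symm
  rcases e1 with e1 | e1 | e1 <;> rcases e2 with e2 | e2 | e2 <;> rw [e1, e2]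
  · left; rfl
  · right; left; rfl
  · right; right; rfl
  · right; right; linear_combination -a * h3
  · left; rfl
  · right; left; ring
  · right; left; linear_combination -a * h3
  · right; right; linear_combination -ω * a * h3
  · left; rfl

/-- effect of the reflections on the orbit of `w` -/
theorem eff {ω w : ℂ} {P : Finset ℂ} (ho : ω ^ 2 + ω + 1 = 0) (hc : conj ω = ω ^ 2)
    (hw : w ≠ 0) :
    (RotInv P ω → (w ∈ P ↔ ω * w ∈ P) ∧ (ω * w ∈ P ↔ ω ^ 2 * w ∈ P)) ∧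
    (RefInv P (w / conj w) → (ω * w ∈ P ↔ ω ^ 2 * w ∈ P)) ∧
    (RefInv P (ω * (w / conj w)) → (w ∈ P ↔ ω * w ∈ P)) ∧
    (RefInv P (ω ^ 2 * (w / conj w)) → (w ∈ P ↔ ω ^ 2 * w ∈ P)) := by
  have hcw : conj w ≠ 0 := (map_ne_zero _).2 hw
  have e0 : w / conj w * conj w = w := div_mul_cancel₀ _ hcw
  refine ⟨fun h => ⟨(h.2 w).symm, ?_⟩, fun h => ?_, fun h => ?_, fun h => ?_⟩
  · have := h.2 (ω * w)
    rw [show ω * (ω * w) = ω ^ 2 * w by ring] at this
    exact this.symm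
  · have := h.2 (ω * w)
    rw [map_mul, hc, show w / conj w * (ω ^ 2 * conj w) = ω ^ 2 * (w / conj w * conj w) by ring,
      e0] at this
    exact this.symm
  · have := h.2 w
    rw [mul_assoc, e0] at this
    exact this.symm
  · have := h.2 w
    rw [mul_assoc, e0] at this
    exact this.symm

def TT (s1 s2 : Bool) (w x : ℂ) : Finset ℂ := (if s1 then {w} else ∅) ∪ (if s2 then {x} else ∅)

theorem TT_sub {M : Finset ℂ} {w x : ℂ} (hw : w ∈ M) (hx : x ∈ M) (s1 s2 : Bool) :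
    TT s1 s2 w x ⊆ M := by
  unfold TT
  cases s1 <;> cases s2 <;> simp [hw, hx]
  intro z hz
  simp at hz
  rcases hz with rfl | rfl <;> assumption

theorem mem_TT {w x z : ℂ} {s1 s2 : Bool} : z ∈ TT s1 s2 w x ↔ (s1 = true ∧ z = w) ∨
    (s2 = true ∧ z = x) := by
  unfold TT
  cases s1 <;> cases s2 <;> simp

theorem CaseC.pairL {Y M : Finset ℂ} {R : ℝ} {v ω : ℂ} (h : CaseC Y M R v ω)
    (hd : Disjoint Y M) {w x : ℂ} (hw : w ∈ M) (hx : x ∈ M) (hw0 : w ≠ 0) (hx0 : x ≠ 0)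
    (hne : w ≠ x) (hn1 : x ≠ ω * w) (hn2 : x ≠ ω ^ 2 * w) :
    (w * conj x).im = 0 ∧ RSym Y w := by
  have ho := h.ho
  have h3 : ω ^ 3 = 1 := by linear_combination (ω - 1) * ho
  obtain ⟨o1, o2, o3⟩ := om_ne ho hw0
  obtain ⟨q1, q2, q3⟩ := om_ne ho hx0
  have hwY : w ∉ Y := fun hY => Finset.disjoint_left.1 hd hY hw
  have hxY : x ∉ Y := fun hY => Finset.disjoint_left.1 hd hY hx
  have n1 : ω * x ≠ w := by
    intro e; apply hn2; rw [← e]; linear_combination -x * h3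
  have n2 : ω ^ 2 * x ≠ w := by
    intro e; apply hn1; rw [← e]; linear_combination -x * h3
  -- memberships
  have m0 : ∀ s1 s2, (w ∈ Y ∪ TT s1 s2 w x ↔ s1 = true) := by
    intro s1 s2
    rw [Finset.mem_union, mem_TT]; tauto
  have m1 : ∀ s1 s2, (ω * w ∈ Y ∪ TT s1 s2 w x ↔ ω * w ∈ Y) := by
    intro s1 s2
    rw [Finset.mem_union, mem_TT]
    have := hn1.symm
    tauto
  have m2 : ∀ s1 s2, (ω ^ 2 * w ∈ Y ∪ TT s1 s2 w x ↔ ω ^ 2 * w ∈ Y) := by
    intro s1 s2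
    rw [Finset.mem_union, mem_TT]
    have := hn2.symm
    tauto
  have k0 : ∀ s1 s2, (x ∈ Y ∪ TT s1 s2 w x ↔ s2 = true) := by
    intro s1 s2
    rw [Finset.mem_union, mem_TT]
    have := hne.symm
    tauto
  have k1 : ∀ s1 s2, (ω * x ∈ Y ∪ TT s1 s2 w x ↔ ω * x ∈ Y) := by
    intro s1 s2
    rw [Finset.mem_union, mem_TT]; tauto
  have k2 : ∀ s1 s2, (ω ^ 2 * x ∈ Y ∪ TT s1 s2 w x ↔ ω ^ 2 * x ∈ Y) := by
    intro s1 s2
    rw [Finset.mem_union, mem_TT]; tauto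
  have opt := fun s1 s2 => h.opt' hd hw hx hw0 hx0 hne (TT_sub hw hx s1 s2)
  have E1 := fun s1 s2 => eff (P := Y ∪ TT s1 s2 w x) ho h.hc hw0
  have E2 := fun s1 s2 => eff (P := Y ∪ TT s1 s2 w x) ho h.hc hx0
  rcases h.rel hd hw hx hw0 hx0 hne with r | r | r
  · -- same axis
    by_cases hex : ∃ s1 s2, RefInv (Y ∪ TT s1 s2 w x) (w / conj w)
    · obtain ⟨s1, s2, hi⟩ := hex
      have fw : w / conj w * conj w = w := div_mul_cancel₀ _ ((map_ne_zero _).2 hw0)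
      have fx : w / conj w * conj x = x := by
        rw [← r]; exact div_mul_cancel₀ _ ((map_ne_zero _).2 hx0)
      have hY : RefInv Y (w / conj w) := by
        apply hi.sub (hd.mono_right (TT_sub hw hx s1 s2))
        intro z hz
        rcases mem_TT.1 hz with ⟨_, rfl⟩ | ⟨_, rfl⟩
        · exact fw
        · exact fx
      exact ⟨par_symm (par_of_ref hw0 fw fx), hY.rsym hw0 fw⟩
    · exfalso
      push Not at hex
      apply comb0 (α1 := ω * w ∈ Y) (α2 := ω ^ 2 * w ∈ Y) (β1 := ω * x ∈ Y) (β2 := ω ^ 2 * x ∈ Y)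
      intro s1 s2
      obtain ⟨a0, a1, a2, a3⟩ := E1 s1 s2
      obtain ⟨b0, b1, b2, b3⟩ := E2 s1 s2
      rw [r] at b1 b2 b3
      rw [m0, m1, m2] at a0
      rw [k0, k1, k2] at b0
      rw [m0, m1] at a2
      rw [m0, m2] at a3
      rw [k0, k1] at b2
      rw [k0, k2] at b3
      rcases opt s1 s2 with i | i | i | i
      · exact Or.inl ⟨(a0 i).1, (a0 i).2, (b0 i).1, (b0 i).2⟩
      · exact absurd i (hex s1 s2)
      · exact Or.inr (Or.inl ⟨a2 i, b2 i⟩)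
      · exact Or.inr (Or.inr ⟨a3 i, b3 i⟩)
  · exfalso
    apply comb1 (α1 := ω * w ∈ Y) (α2 := ω ^ 2 * w ∈ Y) (β1 := ω * x ∈ Y) (β2 := ω ^ 2 * x ∈ Y)
    intro s1 s2
    obtain ⟨a0, a1, a2, a3⟩ := E1 s1 s2
    obtain ⟨b0, b1, b2, b3⟩ := E2 s1 s2
    have g2 : ω * (x / conj x) = ω ^ 2 * (w / conj w) := by rw [r]; ring
    have g3 : ω ^ 2 * (x / conj x) = w / conj w := by rw [r]; linear_combination (w / conj w) * h3
    rw [g2] at b2
    rw [g3] at b3
    rw [r] at b1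
    rw [m0, m1, m2] at a0
    rw [k0, k1, k2] at b0
    rw [m1, m2] at a1
    rw [m0, m1] at a2
    rw [m0, m2] at a3
    rw [k1, k2] at b1
    rw [k0, k1] at b2
    rw [k0, k2] at b3
    rcases opt s1 s2 with i | i | i | i
    · exact Or.inl ⟨(a0 i).1, (a0 i).2, (b0 i).1, (b0 i).2⟩
    · exact Or.inr (Or.inl ⟨a1 i, b3 i⟩)
    · exact Or.inr (Or.inr (Or.inl ⟨a2 i, b1 i⟩))
    · exact Or.inr (Or.inr (Or.inr ⟨a3 i, b2 i⟩))
  · exfalso
    apply comb2 (α1 := ω * w ∈ Y) (α2 := ω ^ 2 * w ∈ Y) (β1 := ω * x ∈ Y) (β2 := ω ^ 2 * x ∈ Y)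
    intro s1 s2
    obtain ⟨a0, a1, a2, a3⟩ := E1 s1 s2
    obtain ⟨b0, b1, b2, b3⟩ := E2 s1 s2
    have g2 : ω * (x / conj x) = w / conj w := by rw [r]; linear_combination (w / conj w) * h3
    have g3 : ω ^ 2 * (x / conj x) = ω * (w / conj w) := by
      rw [r]; linear_combination ω * (w / conj w) * h3
    rw [g2] at b2
    rw [g3] at b3
    rw [r] at b1
    rw [m0, m1, m2] at a0
    rw [k0, k1, k2] at b0
    rw [m1, m2] at a1
    rw [m0, m1] at a2
    rw [m0, m2] at a3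
    rw [k1, k2] at b1
    rw [k0, k1] at b2
    rw [k0, k2] at b3
    rcases opt s1 s2 with i | i | i | i
    · exact Or.inl ⟨(a0 i).1, (a0 i).2, (b0 i).1, (b0 i).2⟩
    · exact Or.inr (Or.inl ⟨a1 i, b2 i⟩)
    · exact Or.inr (Or.inr (Or.inl ⟨a2 i, b3 i⟩))
    · exact Or.inr (Or.inr (Or.inr ⟨a3 i, b1 i⟩))

end Ext7
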